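import Pool.Agent.P.MP_6c8efb_pr.Arm.Iface

/-! The recursion relation of the polynomial solution for an arc. -/

open Polynomial Filter Topology

namespace Pool.Agent.P.MP_6c8efb_pr.Arm

namespace ArcA

theorem one_sub_ne {y : ℂ} (h : y ^ 6 ≠ 1) : 1 - y ≠ 0 := fun e => h (by
  have : y = 1 := by linear_combination -e
  rw [this]; norm_num)

theorem one_add_ne {y : ℂ} (h : y ^ 6 ≠ 1) : 1 + y ≠ 0 := fun e => h (by
  have : y = -1 := by linear_combination e
  rw [this]; norm_num)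

theorem one_add_q_ne {y : ℂ} (h : y ^ 6 ≠ 1) : 1 + q * y ≠ 0 := fun e => h (by
  have h1 : q * y = -1 := by linear_combination e
  have h2 : (q * y) ^ 6 = 1 := by rw [h1]; norm_num
  have h3 : (q * y) ^ 6 = (q ^ 3) ^ 2 * y ^ 6 := by ring
  rwa [h3, q_cube, one_pow, one_mul] at h2)

theorem nz_arc {l₁ l₂ : List ℂ} {y : ℂ} (h1 : Nz l₁) (h2 : Nz l₂) (hy : y ≠ 0) :
    Nz (l₁ ++ q * y :: y :: l₂) := by
  simp [h1, h2, hy, q_ne_zero]

/-- the solution is supported on the patterns with the small arc -/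
theorem arc_form {F : List ℂ → W} (hF : Sol F) {l₁ l₂ : List ℂ} {y : ℂ} (h1 : Nz l₁) (h2 : Nz l₂)
    (hy : y ≠ 0) :
    F (l₁ ++ q * y :: y :: l₂) = Cup l₁.length (Cap l₁.length (F (l₁ ++ q * y :: y :: l₂))) := by
  have h := hF.exch l₁ (q * y) y l₂ (nz_arc h1 h2 hy)
  have e0 : q ^ 2 * (q * y) - y = 0 := by linear_combination y * q_cube
  have e1 : -q * (q * y - y) = -(q ^ 2 * y - q * y) := by ring
  have hc : q ^ 2 * y - q * y ≠ 0 := by
    rw [← sub_mul]; exact mul_ne_zero (sub_ne_zero.2 q_sq_ne) hy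
  rw [e0, zero_smul, Rc, e1, LinearMap.add_apply, LinearMap.smul_apply, LinearMap.smul_apply,
    Module.End.one_apply, neg_smul, ← sub_eq_add_neg, ← smul_sub, eq_comm, smul_eq_zero] at h
  have h' := sub_eq_zero.1 (h.resolve_left hc)
  rwa [Ee_eq, Module.End.mul_apply] at h'

/-- removing the arc gives an invariant vector -/
theorem arc_fix (h2 : S_Ybe) {F : List ℂ → W} (hF : Sol F) {l₁ l₂ : List ℂ} {y : ℂ} (h1 : Nz l₁)
    (h1' : Nz l₂) (hy : y ≠ 0) (h6 : y ^ 6 ≠ 1) :
    Fix (l₁ ++ l₂) (Cap l₁.length (F (l₁ ++ q * y :: y :: l₂))) := by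
  obtain ⟨hs, ht⟩ := hF.fix _ (nz_arc h1 h1' hy)
  have ha := arc_form hF h1 h1' hy
  constructor
  · refine Sup.lm (fun p hp => Bd.cap ?_ (by simp)) hs
    have e : (l₁ ++ q * y :: y :: l₂).length = (l₁ ++ l₂).length + 2 := by simp; omega
    rwa [e] at hp
  · set w := Cap l₁.length (F (l₁ ++ q * y :: y :: l₂)) with hw
    have hc : ((1 + q * y) * (1 + y)) ^ 2 ≠ 0 :=
      pow_ne_zero _ (mul_ne_zero (one_add_q_ne h6) (one_add_ne h6))
    have e1 := LinearMap.congr_fun (h2.arc l₁ y l₂) w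
    have e2 : nrm (l₁ ++ q * y :: y :: l₂) = ((1 + q * y) * (1 + y)) ^ 2 * nrm (l₁ ++ l₂) := by
      simp only [nrm_append, nrm_cons]; ring
    rw [Module.End.mul_apply, ← ha, ht, e2, mul_smul, LinearMap.smul_apply,
      Module.End.mul_apply] at e1
    have e3 := smul_right_injective W hc e1
    apply Cup_injective l₁.length
    rw [← e3, map_smul, ← ha]

theorem fix_comb {l : List ℂ} {v w : W} (hv : Fix l v) (hw : Fix l w) (a b : ℂ) :
    Fix l (a • v - b • w) := by
  refine ⟨(hv.1.smul a).sub (hw.1.smul b), ?_⟩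
  rw [map_sub, map_smul, map_smul, hv.2, hw.2, smul_sub, smul_comm a, smul_comm b]

theorem T_id {y : ℂ} (hy : y ≠ 0) :
    (1 + q * y) * (T (q ^ 2 * y) - T (q * y)) = (1 - q) * (1 - y) * (T (q ^ 2 * y) - 1) := by
  have e1 : T (q * y) = q * y + q ^ 2 * y⁻¹ := by rw [T, mul_inv, q_inv]
  have e2 : T (q ^ 2 * y) = q ^ 2 * y + q * y⁻¹ := by
    rw [← T_q_inv, T, mul_inv, inv_inv, q_inv, add_comm]
  have h : y * y⁻¹ = 1 := mul_inv_cancel₀ hy
  rw [e1, e2]
  linear_combination (q * (1 - q) * (q + 1)) * h + ((1 - q) * (1 - y)) * q_eq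

/-- the weight of the pattern without arc when the arc is at the wall -/
theorem arc_o (h4 : S_Pref) {F : List ℂ → W} (hF : Sol F) {l : List ℂ} {y : ℂ} (h1 : Nz l)
    (hy : y ≠ 0) (h6 : y ^ 6 ≠ 1) :
    Cap l.length (F (l ++ [q * y, y])) o = cA y l * Pref l := by
  have ha := arc_form hF h1 nz_nil hy
  set w := Cap l.length (F (l ++ [q * y, y])) with hw
  have e0 : (l ++ [q * y]) ++ [y] = l ++ [q * y, y] := by simp
  have hn : Nz ((l ++ [q * y]) ++ [y]) := by rw [e0]; exact nz_arc h1 nz_nil hy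
  have hn' : Nz ((l ++ [q * y]) ++ [y⁻¹]) := by simp [h1, hy, q_ne_zero]
  have h := hF.right (l ++ [q * y]) y hn
  have e1 : Cap (l.length + 1) (Cup l.length w) = w := by
    rw [← Module.End.mul_apply, Cap, Cup, lm_mul,
      lm_congr (f := cap (l.length + 1) ∘ cup l.length) (g := id) (cap_succ_cup l.length), lm_id,
      Module.End.one_apply]
  have e2 : Cup l.length w o = 0 := lm_apply_of_notMem (cup_ne_o _) w
  rw [e0, ha, Kc, LinearMap.add_apply, LinearMap.smul_apply, LinearMap.smul_apply,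
    Module.End.one_apply, List.length_append, List.length_singleton, e1] at h
  have h' := DFunLike.congr_fun h o
  rw [Finsupp.smul_apply, Finsupp.add_apply, Finsupp.smul_apply, Finsupp.smul_apply, e2,
    hF.zero _ hn', h4.snoc, h4.snoc, T_q_inv, List.map_append, List.prod_append,
    ← mul_assoc q q y, ← pow_two] at h'
  simp only [smul_eq_mul, mul_zero, zero_add, List.map_cons, List.map_nil, List.prod_cons,
    List.prod_nil, mul_one] at h'
  have e3 : (l.map fun x => (T (q ^ 2 * y) - T x) ^ 2).prod =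
      (l.map fun x => T (q ^ 2 * y) - T x).prod * (l.map fun x => T (q ^ 2 * y) - T x).prod := by
    rw [← List.prod_map_mul]; simp only [pow_two]
  have hc : (1 - q) * (1 - y) ≠ 0 := mul_ne_zero (sub_ne_zero.2 q_ne_one.symm) (one_sub_ne h6)
  apply mul_left_cancel₀ hc
  rw [← h', cA, e3]
  linear_combination (Pref l * (l.map fun x => T (q ^ 2 * y) - T x).prod *
    (l.map fun x => T (q ^ 2 * y) - T x).prod) * T_id hy

/-- the recursion near the homogeneous point -/
theorem near (h2 : S_Ybe) (h4 : S_Pref) (h6 : S_Zsym) {F : List ℂ → W} (hF : Sol F)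
    {l₁ l₂ : List ℂ} {y : ℂ} (hy : y ≠ 0) (hy6 : y ^ 6 ≠ 1)
    (hn : ∀ x ∈ l₁ ++ l₂, Near (1 / 10) x) (hu : ∀ v, Fix (l₁ ++ l₂) v → tot v = 0 → v = 0) :
    F (l₁ ++ q * y :: y :: l₂) = cA y (l₁ ++ l₂) • Cup l₁.length (F (l₁ ++ l₂)) := by
  have hz : Nz (l₁ ++ l₂) := fun x hx => (hn x hx).1
  obtain ⟨hz1, hz2⟩ := nz_append.1 hz
  have hP := h4.ne _ hn
  have hfix := hF.fix _ hz
  have hZ : tot (F (l₁ ++ l₂)) ≠ 0 := fun e => hP (by
    rw [← hF.zero _ hz, hu _ hfix e]; rfl)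
  have key : ∀ w, Fix (l₁ ++ l₂) w → tot (F (l₁ ++ l₂)) • w = tot w • F (l₁ ++ l₂) := by
    intro w hw
    refine sub_eq_zero.1 (hu _ (fix_comb hw hfix _ _) ?_)
    rw [map_sub, map_smul, map_smul, smul_eq_mul, smul_eq_mul]; ring
  have f0 := arc_fix h2 hF hz nz_nil hy hy6
  rw [List.append_nil] at f0
  have k0 := DFunLike.congr_fun (key _ f0) o
  rw [Finsupp.smul_apply, Finsupp.smul_apply, arc_o h4 hF hz hy hy6, hF.zero _ hz, Cap, tot_lm,
    smul_eq_mul, smul_eq_mul, ← mul_assoc] at k0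
  have k1 := mul_right_cancel₀ hP k0
  have hp : (l₁ ++ q * y :: y :: l₂).Perm (l₁ ++ l₂ ++ [q * y, y]) := by
    rw [List.append_assoc]
    exact List.Perm.append_left _ (List.perm_append_comm (l₁ := [q * y, y]))
  have k2 := h6 F hF _ _ (nz_arc hz1 hz2 hy) hp
  have k3 := key _ (arc_fix h2 hF hz1 hz2 hy hy6)
  rw [Cap, tot_lm, k2, ← k1, mul_smul] at k3
  have k4 := smul_right_injective W hZ k3
  rw [arc_form hF hz1 hz2 hy, Cap, k4, map_smul]

theorem near_infinite {ε : ℝ} (h : 0 < ε) : {x : ℂ | Near ε x}.Infinite := by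
  refine infinite_of_mem_nhds (1 : ℂ) ?_
  have a1 : ∀ᶠ x : ℂ in 𝓝 1, x ≠ 0 := eventually_ne_nhds one_ne_zero
  have a2 : ∀ᶠ x : ℂ in 𝓝 1, ‖x - 1‖ < ε := by
    have : ContinuousAt (fun x : ℂ => ‖x - 1‖) 1 := by fun_prop
    exact this.eventually (gt_mem_nhds (by simpa using h))
  have a3 : ∀ᶠ x : ℂ in 𝓝 1, ‖x⁻¹ - 1‖ < ε := by
    have : ContinuousAt (fun x : ℂ => ‖x⁻¹ - 1‖) 1 :=
      ((continuousAt_inv₀ one_ne_zero).sub continuousAt_const).norm
    exact this.eventually (gt_mem_nhds (by simpa using h))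
  exact (a1.and (a2.and a3))

theorem lp_cA (y : ℂ) (l₁ l₂ : List ℂ) : LP1 fun t => cA y (l₁ ++ t :: l₂) := by
  refine ((lp1_const ((T (q ^ 2 * y) - 1) * (l₁.map fun x => (T (q ^ 2 * y) - T x) ^ 2).prod *
    (l₂.map fun x => (T (q ^ 2 * y) - T x) ^ 2).prod)).mul
    (((lp1_const (T (q ^ 2 * y))).sub lp1_T').pow 2)).congr fun t _ => ?_
  simp only [cA, List.map_append, List.map_cons, List.prod_append, List.prod_cons]
  ring

theorem lp_ins {F : List ℂ → W} (hF : Sol F) (p : St) (i : ℕ) {y : ℂ} (hy : y ≠ 0) {l₁ l₂ : List ℂ}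
    (h1 : Nz l₁) (h2 : Nz l₂) :
    LP1 fun t => F ((l₁ ++ t :: l₂).take i ++ q * y :: y :: (l₁ ++ t :: l₂).drop i) p := by
  have sub : ∀ {l l' : List ℂ}, Nz l → l' ⊆ l → Nz l' := fun h e x hx => h x (e hx)
  rcases le_or_gt i l₁.length with h | h
  · have a := (hF.lpd (Finsupp.lapply p) (nz_arc (sub h1 (List.take_subset i l₁))
      (sub h1 (List.drop_subset i l₁)) hy) h2).lp1
    refine a.congr fun t _ => ?_
    rw [List.take_append_of_le_length h, List.drop_append_of_le_length h]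
    simp
  · obtain ⟨k, rfl⟩ : ∃ k, i = l₁.length + (k + 1) := ⟨i - l₁.length - 1, by omega⟩
    have a := (hF.lpd (Finsupp.lapply p) h1 (nz_arc (sub h2 (List.take_subset k l₂))
      (sub h2 (List.drop_subset k l₂)) hy)).lp1
    refine a.congr fun t _ => ?_
    rw [List.take_length_add_append, List.drop_length_add_append]
    simp

end ArcA

open ArcA in
theorem s_Arc (h1 : S_Uniq) (h2 : S_Ybe) (h3 : S_Ext) (h4 : S_Pref) (h5 : S_Pre) (h6 : S_Zsym) :
    S_Arc := by
  intro F hF l₁ y l₂ hz1 hz2 hy hy6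
  obtain ⟨ε, hε, hu⟩ := h1 (l₁ ++ l₂).length
  ext p
  have main := h3 (fun l => F (l.take l₁.length ++ q * y :: y :: l.drop l₁.length) p -
      cA y l * Cup l₁.length (F l) p) (l₁ ++ l₂).length {x | Near (min ε (1 / 10)) x}
    (near_infinite (lt_min hε (by norm_num)))
    (fun a b _ ha hb => (lp_ins hF p _ hy ha hb).sub ((lp_cA y a b).mul
      (hF.lpd (Finsupp.lapply p ∘ₗ Cup l₁.length) ha hb).lp1))
    (fun l hl hU _ => by
      have hi : (l.take l₁.length).length = l₁.length := by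
        rw [List.length_take, hl, List.length_append]; omega
      have := near h2 h4 h6 hF (l₁ := l.take l₁.length) (l₂ := l.drop l₁.length) hy hy6
        (by
          rw [List.take_append_drop]
          exact fun x hx => ⟨(hU x hx).1, (hU x hx).2.1.trans_le (min_le_right _ _),
            (hU x hx).2.2.trans_le (min_le_right _ _)⟩)
        (by
          rw [List.take_append_drop]
          exact hu l hl fun x hx => (hU x hx).2.1.trans_le (min_le_left _ _))
      rw [this, hi, List.take_append_drop, Finsupp.smul_apply, smul_eq_mul, sub_self])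
    (l₁ ++ l₂) rfl (nz_append.2 ⟨hz1, hz2⟩)
  rw [List.take_left, List.drop_left] at main
  rw [Finsupp.smul_apply, smul_eq_mul]
  exact sub_eq_zero.1 main

end Pool.Agent.P.MP_6c8efb_pr.Arm
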