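import Pool.Agent.P.MP_6c8efb_pr.Arm.Iface

/-! Asymptotics of the product formula. -/

open Finset

namespace Pool.Agent.P.MP_6c8efb_pr.Arm

namespace AsymA

/-- bounded above and below by positive constants -/
def Bnd (f : ℕ → ℝ) : Prop := ∃ c C : ℝ, 0 < c ∧ ∀ m : ℕ, 1 ≤ m → c ≤ f m ∧ f m ≤ C

theorem Bnd.pos {f : ℕ → ℝ} (h : Bnd f) {m : ℕ} (hm : 1 ≤ m) : 0 < f m :=
  let ⟨_, _, h0, h1⟩ := h; h0.trans_le (h1 m hm).1

theorem Bnd.congr {f g : ℕ → ℝ} (h : Bnd f) (e : ∀ m, 1 ≤ m → f m = g m) : Bnd g :=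
  let ⟨c, C, h0, h1⟩ := h; ⟨c, C, h0, fun m hm => e m hm ▸ h1 m hm⟩

theorem bnd_const {c : ℝ} (h : 0 < c) : Bnd fun _ => c := ⟨c, c, h, fun _ _ => ⟨le_rfl, le_rfl⟩⟩

theorem Bnd.mul {f g : ℕ → ℝ} (hf : Bnd f) (hg : Bnd g) : Bnd fun m => f m * g m := by
  obtain ⟨c, C, h0, h1⟩ := hf
  obtain ⟨d, D, h2, h3⟩ := hg
  refine ⟨c * d, C * D, mul_pos h0 h2, fun m hm => ?_⟩
  obtain ⟨a1, a2⟩ := h1 m hm
  obtain ⟨b1, b2⟩ := h3 m hm
  exact ⟨mul_le_mul a1 b1 h2.le (by linarith), mul_le_mul a2 b2 (by linarith) (by linarith)⟩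

theorem Bnd.inv {f : ℕ → ℝ} (hf : Bnd f) : Bnd fun m => (f m)⁻¹ := by
  obtain ⟨c, C, h0, h1⟩ := hf
  have hC : 0 < C := h0.trans_le ((h1 1 le_rfl).1.trans (h1 1 le_rfl).2)
  refine ⟨C⁻¹, c⁻¹, inv_pos.2 hC, fun m hm => ?_⟩
  obtain ⟨a1, a2⟩ := h1 m hm
  exact ⟨inv_anti₀ (by linarith) a2, inv_anti₀ h0 a1⟩

theorem Bnd.div {f g : ℕ → ℝ} (hf : Bnd f) (hg : Bnd g) : Bnd fun m => f m / g m :=
  (hf.mul hg.inv).congr fun _ _ => (div_eq_mul_inv _ _).symm

theorem Bnd.shift {f : ℕ → ℝ} (hf : Bnd f) (j : ℕ) : Bnd fun m => f (m + j) :=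
  let ⟨c, C, h0, h1⟩ := hf; ⟨c, C, h0, fun m hm => h1 _ (by omega)⟩

theorem Bnd.of_cube {f : ℕ → ℝ} (hf : Bnd fun m => f m ^ 3) (h : ∀ m, 1 ≤ m → 0 ≤ f m) : Bnd f := by
  obtain ⟨c, C, h0, h1⟩ := hf
  refine ⟨min c 1, max C 1, lt_min h0 one_pos, fun m hm => ?_⟩
  obtain ⟨a1, a2⟩ := h1 m hm
  have a0 := h m hm
  constructor
  · rcases le_total 1 (f m) with e | e
    · exact (min_le_right _ _).trans e
    · exact (min_le_left _ _).trans (a1.trans (pow_le_of_le_one a0 e (by norm_num)))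
  · rcases le_total (f m) 1 with e | e
    · exact e.trans (le_max_right _ _)
    · exact ((le_self_pow₀ e (by norm_num)).trans a2).trans (le_max_left _ _)

theorem prod_le_exp {m M : ℕ} {D : ℝ} {u u' : ℕ → ℝ} (hm : 1 ≤ m) (hM : M ≤ m) (hD : 0 ≤ D)
    (h : ∀ i, i < M → (m : ℝ) ≤ u i ∧ (m : ℝ) ≤ u' i ∧ u' i - u i ≤ D) :
    (∏ i ∈ range M, u' i) / ∏ i ∈ range M, u i ≤ Real.exp D := by
  have m0 : (0 : ℝ) < m := by exact_mod_cast hm
  rw [← prod_div_distrib]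
  calc ∏ i ∈ range M, u' i / u i ≤ ∏ _i ∈ range M, Real.exp (D / m) := by
        refine prod_le_prod (fun i hi => ?_) fun i hi => ?_
        · obtain ⟨a1, a2, -⟩ := h i (mem_range.1 hi)
          exact div_nonneg (by linarith) (by linarith)
        · obtain ⟨a1, a2, a3⟩ := h i (mem_range.1 hi)
          refine le_trans ?_ (Real.add_one_le_exp _)
          rw [div_le_iff₀ (by linarith)]
          have : D / m * m ≤ D / m * u i := mul_le_mul_of_nonneg_left a1 (by positivity)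
          rw [div_mul_cancel₀ _ m0.ne'] at this
          linarith
    _ = Real.exp (M * (D / m)) := by rw [prod_const, card_range, ← Real.exp_nat_mul]
    _ ≤ Real.exp D := by
        refine Real.exp_le_exp.2 ?_
        have : (M : ℝ) * (D / m) ≤ m * (D / m) :=
          mul_le_mul_of_nonneg_right (by exact_mod_cast hM) (by positivity)
        rwa [mul_div_cancel₀ _ m0.ne'] at this

theorem bnd_ratio {M : ℕ → ℕ} {D : ℝ} {u u' : ℕ → ℕ → ℝ} (hM : ∀ m, 1 ≤ m → M m ≤ m) (hD : 0 ≤ D)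
    (h : ∀ m, 1 ≤ m → ∀ i, i < M m →
      (m : ℝ) ≤ u m i ∧ (m : ℝ) ≤ u' m i ∧ u' m i - u m i ≤ D ∧ u m i - u' m i ≤ D) :
    Bnd fun m => (∏ i ∈ range (M m), u' m i) / ∏ i ∈ range (M m), u m i := by
  refine ⟨(Real.exp D)⁻¹, Real.exp D, by positivity, fun m hm => ⟨?_, prod_le_exp hm (hM m hm) hD
    fun i hi => ⟨(h m hm i hi).1, (h m hm i hi).2.1, (h m hm i hi).2.2.1⟩⟩⟩
  have m0 : (0 : ℝ) < m := by exact_mod_cast hm
  have := prod_le_exp (u := u' m) (u' := u m) hm (hM m hm) hD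
    fun i hi => ⟨(h m hm i hi).2.1, (h m hm i hi).1, (h m hm i hi).2.2.2⟩
  show _ ≤ (∏ i ∈ range (M m), u' m i) / ∏ i ∈ range (M m), u m i
  rw [← inv_div]
  refine inv_anti₀ (div_pos (prod_pos fun i hi => ?_) (prod_pos fun i hi => ?_)) this
  · exact m0.trans_le (h m hm i (mem_range.1 hi)).1
  · exact m0.trans_le (h m hm i (mem_range.1 hi)).2.1

theorem bnd_extra {M M' : ℕ → ℕ} {r : ℕ → ℕ → ℝ} (hM : ∀ m, M' m = M m ∨ M' m = M m + 1)
    (h : ∀ m, 1 ≤ m → M' m = M m + 1 → 1 / 4 ≤ r m (M m) ∧ r m (M m) ≤ 4) :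
    Bnd fun m => ∏ i ∈ Ico (M m) (M' m), r m i := by
  refine ⟨1 / 4, 4, by norm_num, fun m hm => ?_⟩
  rcases hM m with e | e
  · simp only [e, Ico_self, prod_empty]; norm_num
  · have := h m hm e
    simpa only [e, Nat.Ico_succ_singleton, prod_singleton] using this

/-! ### the closed form -/

theorem tele (x : ℝ) (A n : ℕ) (h : A ≤ n) :
    (∏ a ∈ Ico A n, (x + 1 - a)) * (x + 1 - n) = (x + 1 - A) * ∏ a ∈ Ico A n, (x - a) := by
  induction n, h using Nat.le_induction with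
  | base => simp
  | succ n hn ih =>
    rw [prod_Ico_succ_top hn, prod_Ico_succ_top hn, ih]
    push_cast; ring

theorem tele_div (x : ℝ) (A B : ℕ) (h : A ≤ B + 1) (hx : (B : ℝ) < x) :
    (∏ a ∈ Icc A B, (x + 1 - a)) / ∏ a ∈ Icc A B, (x - a) = (x + 1 - A) / (x - B) := by
  have e : Icc A B = Ico A (B + 1) := by ext a; simp only [mem_Icc, mem_Ico]; omega
  have h1 : 0 < ∏ a ∈ Icc A B, (x - a) := prod_pos fun a ha => by
    have : (a : ℝ) ≤ B := by exact_mod_cast (mem_Icc.1 ha).2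
    linarith
  have h2 := tele x A (B + 1) h
  rw [← e] at h2
  rw [div_eq_div_iff h1.ne' (by linarith), ← h2]
  push_cast; ring

noncomputable def u1 (m k i : ℕ) : ℝ := 3 * m + k - 3 * i
noncomputable def u2 (m k i : ℕ) : ℝ := 2 * m + k + 1 - ((m - 2 - 3 * i) / 2 : ℕ)
noncomputable def u3 (m k i : ℕ) : ℝ := m + k + 3 / 2 + ((m - 1 - 3 * i) / 2 : ℕ)
noncomputable def u4 (k i : ℕ) : ℝ := k + 3 / 2 + 3 * i

theorem rho_eq (m k : ℕ) : rho m k = 3 ^ m *
    ((∏ i ∈ range ((m + 1) / 3), u1 m k i) / ∏ i ∈ range ((m + 1) / 3), u2 m k i) *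
    ((∏ i ∈ range ((m + 2) / 3), u3 m k i) / ∏ i ∈ range ((m + 2) / 3), u4 k i) := by
  have k0 : (0 : ℝ) ≤ k := Nat.cast_nonneg k
  unfold rho eP
  rw [mul_div_assoc, mul_div_mul_comm, mul_assoc, ← prod_div_distrib, ← prod_div_distrib,
    ← prod_div_distrib, ← prod_div_distrib]
  congr 2
  · refine prod_congr rfl fun i hi => ?_
    have hi' := mem_range.1 hi
    have hB : ((m + 1 + (m - 2 - 3 * i) / 2 : ℕ) : ℝ) ≤ (3 * m : ℕ) := by
      exact_mod_cast (by omega : m + 1 + (m - 2 - 3 * i) / 2 ≤ 3 * m)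
    have := tele_div (3 * m + k + 2) (3 + 3 * i) (m + 1 + (m - 2 - 3 * i) / 2) (by omega)
      (by push_cast at hB ⊢; linarith)
    rw [show (3 * m + k + 3 : ℝ) = 3 * m + k + 2 + 1 by ring, this, u1, u2]
    congr 1 <;> (simp only [Nat.cast_add, Nat.cast_mul, Nat.cast_ofNat, Nat.cast_one]; ring)
  · refine prod_congr rfl fun i hi => ?_
    have hi' := mem_range.1 hi
    have hB : ((3 * m - 3 * i : ℕ) : ℝ) = 3 * m - 3 * i := by
      rw [Nat.cast_sub (by omega)]; push_cast; ring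
    have hA : ((2 * m + 1 - (m - 1 - 3 * i) / 2 : ℕ) : ℝ) =
        2 * m + 1 - ((m - 1 - 3 * i) / 2 : ℕ) := by
      rw [Nat.cast_sub (by omega)]; simp only [Nat.cast_add, Nat.cast_mul, Nat.cast_ofNat, Nat.cast_one]
    have i0 : (0 : ℝ) ≤ i := Nat.cast_nonneg i
    have := tele_div (3 * m + k + 3 / 2) (2 * m + 1 - (m - 1 - 3 * i) / 2) (3 * m - 3 * i) (by omega)
      (by rw [hB]; linarith)
    rw [hA, hB] at this
    have e1 : ∀ a : ℕ, (3 * m + k + 3 - a - 1 / 2 : ℝ) = 3 * m + k + 3 / 2 + 1 - a := fun a => by ring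
    have e2 : ∀ a : ℕ, (3 * m + k + 2 - a - 1 / 2 : ℝ) = 3 * m + k + 3 / 2 - a := fun a => by ring
    simp only [e1, e2]
    rw [this, u3, u4]
    congr 1 <;> ring

theorem u1_ge {m k i : ℕ} (h : 3 * i ≤ 2 * m) : (m : ℝ) ≤ u1 m k i := by
  have : (3 * i : ℝ) ≤ 2 * m := by exact_mod_cast h
  have k0 : (0 : ℝ) ≤ k := Nat.cast_nonneg k
  unfold u1; linarith

theorem u2_ge (m k i : ℕ) : (m : ℝ) + 1 ≤ u2 m k i := by
  have : (((m - 2 - 3 * i) / 2 : ℕ) : ℝ) ≤ m := by exact_mod_cast (by omega : (m - 2 - 3 * i) / 2 ≤ m)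
  have k0 : (0 : ℝ) ≤ k := Nat.cast_nonneg k
  unfold u2; linarith

theorem u3_ge (m k i : ℕ) : (m : ℝ) + 1 ≤ u3 m k i := by
  have : (0 : ℝ) ≤ (((m - 1 - 3 * i) / 2 : ℕ) : ℝ) := Nat.cast_nonneg _
  have k0 : (0 : ℝ) ≤ k := Nat.cast_nonneg k
  unfold u3; linarith

theorem u4_pos (k i : ℕ) : 0 < u4 k i := by unfold u4; positivity

theorem p1_pos (m k : ℕ) : 0 < ∏ i ∈ range ((m + 1) / 3), u1 m k i := prod_pos fun i hi => by
  have hi' := mem_range.1 hi
  have : (0 : ℝ) < m := by exact_mod_cast (by omega : 0 < m)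
  exact this.trans_le (u1_ge (by omega))

theorem p2_pos (m k M : ℕ) : 0 < ∏ i ∈ range M, u2 m k i := prod_pos fun i _ =>
  lt_of_lt_of_le (by positivity) (u2_ge m k i)

theorem p3_pos (m k M : ℕ) : 0 < ∏ i ∈ range M, u3 m k i := prod_pos fun i _ =>
  lt_of_lt_of_le (by positivity) (u3_ge m k i)

theorem p4_pos (k M : ℕ) : 0 < ∏ i ∈ range M, u4 k i := prod_pos fun i _ => u4_pos k i

theorem rho_pos (m k : ℕ) : 0 < rho m k := by
  rw [rho_eq]
  have := p1_pos m k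
  have := p2_pos m k ((m + 1) / 3)
  have := p3_pos m k ((m + 2) / 3)
  have := p4_pos k ((m + 2) / 3)
  positivity

/-! ### the shift in `k` -/

theorem cube_bounds {y : ℝ} (hy : 1 < y) (M : ℕ) :
    (y - 1) / (y - 1 + 3 * M) ≤ (∏ i ∈ range M, (y + 3 * i) / (y + 1 + 3 * i)) ^ 3 ∧
      (∏ i ∈ range M, (y + 3 * i) / (y + 1 + 3 * i)) ^ 3 ≤ y / (y + 3 * M) := by
  induction M with
  | zero =>
    have : y - 1 ≠ 0 := by linarith
    have : y ≠ 0 := by linarith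
    simp [*]
  | succ M ih =>
    obtain ⟨z, hz⟩ : ∃ z : ℝ, z = y + 3 * M := ⟨_, rfl⟩
    have M0 : (0 : ℝ) ≤ M := Nat.cast_nonneg M
    have z1 : 1 < z := by linarith
    have e1 : y + 1 + 3 * M = z + 1 := by linarith
    have e2 : y - 1 + 3 * M = z - 1 := by linarith
    have e3 : y - 1 + 3 * (M + 1 : ℕ) = z + 2 := by push_cast; linarith
    have e4 : y + 3 * (M + 1 : ℕ) = z + 3 := by push_cast; linarith
    have a1 : (z - 1) / (z + 2) ≤ (z / (z + 1)) ^ 3 := by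
      rw [div_pow, div_le_div_iff₀ (by linarith) (by positivity)]; nlinarith
    have a2 : (z / (z + 1)) ^ 3 ≤ z / (z + 3) := by
      rw [div_pow, div_le_div_iff₀ (by positivity) (by linarith)]; nlinarith
    rw [prod_range_succ, mul_pow, e1, e3, e4, ← hz]
    rw [e2, ← hz] at ih
    have z2 : 0 < z - 1 := by linarith
    have y1 : 0 < y - 1 := by linarith
    constructor
    · calc (y - 1) / (z + 2) = (y - 1) / (z - 1) * ((z - 1) / (z + 2)) := by field_simp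
        _ ≤ _ := mul_le_mul ih.1 a1 (by positivity) ((by positivity : (0 : ℝ) ≤ (y - 1) / (z - 1)).trans ih.1)
    · calc _ ≤ y / z * (z / (z + 3)) := mul_le_mul ih.2 a2 (by positivity) (by positivity)
        _ = y / (z + 3) := by field_simp

theorem bnd_last (k : ℕ) : Bnd fun m => (m : ℝ) ^ (1 / 3 : ℝ) *
    ((∏ i ∈ range ((m + 2) / 3), u4 k i) / ∏ i ∈ range ((m + 2) / 3), u4 (k + 1) i) := by
  refine Bnd.of_cube ?_ fun m _ => mul_nonneg (by positivity)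
    (div_pos (p4_pos _ _) (p4_pos _ _)).le
  obtain ⟨y, hy⟩ : ∃ y : ℝ, y = k + 3 / 2 := ⟨_, rfl⟩
  have k0 : (0 : ℝ) ≤ k := Nat.cast_nonneg k
  have y1 : 1 < y := by linarith
  refine ⟨(y - 1) / (y + 2), y, div_pos (by linarith) (by linarith), fun m hm => ?_⟩
  have m1 : (1 : ℝ) ≤ m := by exact_mod_cast hm
  have e : (∏ i ∈ range ((m + 2) / 3), u4 k i) / ∏ i ∈ range ((m + 2) / 3), u4 (k + 1) i =
      ∏ i ∈ range ((m + 2) / 3), (y + 3 * i) / (y + 1 + 3 * i) := by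
    rw [← prod_div_distrib]
    refine prod_congr rfl fun i _ => ?_
    unfold u4
    rw [hy]; push_cast; congr 1; ring
  have e' : ((m : ℝ) ^ (1 / 3 : ℝ)) ^ 3 = m := by
    rw [← Real.rpow_natCast, ← Real.rpow_mul (by positivity)]; norm_num
  obtain ⟨a1, a2⟩ := cube_bounds y1 ((m + 2) / 3)
  have b1 : (m : ℝ) ≤ 3 * ((m + 2) / 3 : ℕ) := by exact_mod_cast (by omega : m ≤ 3 * ((m + 2) / 3))
  have b2 : 3 * (((m + 2) / 3 : ℕ) : ℝ) ≤ m + 2 := by
    exact_mod_cast (by omega : 3 * ((m + 2) / 3) ≤ m + 2)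
  simp only [e, mul_pow, e']
  constructor
  · refine le_trans ?_ (mul_le_mul_of_nonneg_left a1 (by positivity))
    rw [← mul_div_assoc, div_le_div_iff₀ (by linarith) (by linarith)]
    have := mul_nonneg (by linarith : 0 ≤ y - 1)
      (by nlinarith : 0 ≤ m * (y + 2) - (y - 1 + 3 * (((m + 2) / 3 : ℕ) : ℝ)))
    nlinarith
  · refine (mul_le_mul_of_nonneg_left a2 (by positivity)).trans ?_
    rw [← mul_div_assoc, div_le_iff₀ (by linarith)]
    nlinarith

theorem step_k (k : ℕ) : Bnd fun m => (m : ℝ) ^ (1 / 3 : ℝ) * (rho m (k + 1) / rho m k) := by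
  have h1 : Bnd fun m => (∏ i ∈ range ((m + 1) / 3), u1 m (k + 1) i) /
      ∏ i ∈ range ((m + 1) / 3), u1 m k i :=
    bnd_ratio (D := 1) (fun m _ => by omega) zero_le_one fun m _ i hi =>
      ⟨u1_ge (by omega), u1_ge (by omega), by unfold u1; push_cast; linarith,
        by unfold u1; push_cast; linarith⟩
  have h2 : Bnd fun m => (∏ i ∈ range ((m + 1) / 3), u2 m (k + 1) i) /
      ∏ i ∈ range ((m + 1) / 3), u2 m k i :=
    bnd_ratio (D := 1) (fun m _ => by omega) zero_le_one fun m _ i _ =>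
      ⟨by linarith [u2_ge m k i], by linarith [u2_ge m (k + 1) i],
        by simp only [u2, Nat.cast_add, Nat.cast_one]; linarith,
        by simp only [u2, Nat.cast_add, Nat.cast_one]; linarith⟩
  have h3 : Bnd fun m => (∏ i ∈ range ((m + 2) / 3), u3 m (k + 1) i) /
      ∏ i ∈ range ((m + 2) / 3), u3 m k i :=
    bnd_ratio (D := 1) (fun m _ => by omega) zero_le_one fun m _ i _ =>
      ⟨by linarith [u3_ge m k i], by linarith [u3_ge m (k + 1) i],
        by simp only [u3, Nat.cast_add, Nat.cast_one]; linarith,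
        by simp only [u3, Nat.cast_add, Nat.cast_one]; linarith⟩
  refine (((h1.div h2).mul h3).mul (bnd_last k)).congr fun m _ => ?_
  have := (p1_pos m k).ne'
  have := (p2_pos m k ((m + 1) / 3)).ne'
  have := (p2_pos m (k + 1) ((m + 1) / 3)).ne'
  have := (p3_pos m k ((m + 2) / 3)).ne'
  have := (p4_pos k ((m + 2) / 3)).ne'
  have := (p4_pos (k + 1) ((m + 2) / 3)).ne'
  rw [rho_eq, rho_eq]
  field_simp

/-! ### the shift in `m` -/

theorem step_m : Bnd fun m => rho (m + 1) 0 / rho m 0 := by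
  have h1 : Bnd fun m => (∏ i ∈ range ((m + 1) / 3), u1 (m + 1) 0 i) /
      ∏ i ∈ range ((m + 1) / 3), u1 m 0 i :=
    bnd_ratio (D := 3) (fun m _ => by omega) (by norm_num) fun m _ i hi =>
      ⟨u1_ge (by omega), le_trans (by simp) (u1_ge (m := m + 1) (by omega)),
        by unfold u1; push_cast; linarith, by unfold u1; push_cast; linarith⟩
  have h2 : Bnd fun m => (∏ i ∈ range ((m + 1) / 3), u2 (m + 1) 0 i) /
      ∏ i ∈ range ((m + 1) / 3), u2 m 0 i :=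
    bnd_ratio (D := 3) (fun m _ => by omega) (by norm_num) fun m _ i _ => by
      have a1 : (((m - 2 - 3 * i) / 2 : ℕ) : ℝ) ≤ ((m + 1 - 2 - 3 * i) / 2 : ℕ) := by
        exact_mod_cast (by omega : (m - 2 - 3 * i) / 2 ≤ (m + 1 - 2 - 3 * i) / 2)
      have a2 : (((m + 1 - 2 - 3 * i) / 2 : ℕ) : ℝ) ≤ ((m - 2 - 3 * i) / 2 : ℕ) + 1 := by
        exact_mod_cast (by omega : (m + 1 - 2 - 3 * i) / 2 ≤ (m - 2 - 3 * i) / 2 + 1)
      have a3 := u2_ge (m + 1) 0 i
      rw [Nat.cast_add, Nat.cast_one] at a3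
      exact ⟨by linarith [u2_ge m 0 i], by linarith,
        by simp only [u2, Nat.cast_add, Nat.cast_one]; linarith,
        by simp only [u2, Nat.cast_add, Nat.cast_one]; linarith⟩
  have h3 : Bnd fun m => (∏ i ∈ range ((m + 2) / 3), u3 (m + 1) 0 i) /
      ∏ i ∈ range ((m + 2) / 3), u3 m 0 i :=
    bnd_ratio (D := 3) (fun m _ => by omega) (by norm_num) fun m _ i _ => by
      have a1 : (((m - 1 - 3 * i) / 2 : ℕ) : ℝ) ≤ ((m + 1 - 1 - 3 * i) / 2 : ℕ) := by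
        exact_mod_cast (by omega : (m - 1 - 3 * i) / 2 ≤ (m + 1 - 1 - 3 * i) / 2)
      have a2 : (((m + 1 - 1 - 3 * i) / 2 : ℕ) : ℝ) ≤ ((m - 1 - 3 * i) / 2 : ℕ) + 1 := by
        exact_mod_cast (by omega : (m + 1 - 1 - 3 * i) / 2 ≤ (m - 1 - 3 * i) / 2 + 1)
      have a3 := u3_ge (m + 1) 0 i
      rw [Nat.cast_add, Nat.cast_one] at a3
      exact ⟨by linarith [u3_ge m 0 i], by linarith,
        by simp only [u3, Nat.cast_add, Nat.cast_one]; linarith,
        by simp only [u3, Nat.cast_add, Nat.cast_one]; linarith⟩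
  have h4 : Bnd fun m => ∏ i ∈ Ico ((m + 1) / 3) ((m + 1 + 1) / 3), u1 (m + 1) 0 i / u2 (m + 1) 0 i :=
    bnd_extra (fun m => by omega) fun m hm e => by
      have a1 := u1_ge (m := m + 1) (k := 0) (i := (m + 1) / 3) (by omega)
      have a2 := u2_ge (m + 1) 0 ((m + 1) / 3)
      have a3 : u1 (m + 1) 0 ((m + 1) / 3) ≤ 3 * (m + 1 : ℕ) := by
        have : (0 : ℝ) ≤ ((m + 1) / 3 : ℕ) := Nat.cast_nonneg _
        simp only [u1, Nat.cast_zero]; linarith
      have a4 : u2 (m + 1) 0 ((m + 1) / 3) ≤ 2 * (m + 1 : ℕ) + 1 := by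
        have : (0 : ℝ) ≤ ((m + 1 - 2 - 3 * ((m + 1) / 3)) / 2 : ℕ) := Nat.cast_nonneg _
        simp only [u2, Nat.cast_zero]; linarith
      have m0 : (1 : ℝ) ≤ (m + 1 : ℕ) := by exact_mod_cast (by omega : 1 ≤ m + 1)
      rw [le_div_iff₀ (by linarith), div_le_iff₀ (by linarith)]
      constructor <;> linarith
  have h5 : Bnd fun m => ∏ i ∈ Ico ((m + 2) / 3) ((m + 1 + 2) / 3), u3 (m + 1) 0 i / u4 0 i :=
    bnd_extra (fun m => by omega) fun m hm e => by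
      have a1 := u3_ge (m + 1) 0 ((m + 2) / 3)
      have a2 : u4 0 ((m + 2) / 3) = m + 3 / 2 := by
        have : 3 * (((m + 2) / 3 : ℕ) : ℝ) = m := by exact_mod_cast (by omega : 3 * ((m + 2) / 3) = m)
        simp only [u4, Nat.cast_zero]; linarith
      have a3 : u3 (m + 1) 0 ((m + 2) / 3) = m + 5 / 2 := by
        rw [u3, show (m + 1 - 1 - 3 * ((m + 2) / 3)) / 2 = 0 by omega]; push_cast; ring
      have m0 : (0 : ℝ) ≤ m := Nat.cast_nonneg m
      rw [a2, a3, le_div_iff₀ (by linarith), div_le_iff₀ (by linarith)]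
      constructor <;> linarith
  refine (((((bnd_const (c := 3) (by norm_num)).mul (h1.div h2)).mul h3).mul h4).mul h5).congr
    fun m _ => ?_
  have l1 : (m + 1) / 3 ≤ (m + 1 + 1) / 3 := by omega
  have l2 : (m + 2) / 3 ≤ (m + 1 + 2) / 3 := by omega
  have := (p1_pos m 0).ne'
  have := (p2_pos m 0 ((m + 1) / 3)).ne'
  have := (p2_pos (m + 1) 0 ((m + 1) / 3)).ne'
  have := (p3_pos m 0 ((m + 2) / 3)).ne'
  have := (p4_pos 0 ((m + 2) / 3)).ne'
  have : ∏ i ∈ Ico ((m + 1) / 3) ((m + 1 + 1) / 3), u2 (m + 1) 0 i ≠ 0 :=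
    (prod_pos fun i _ => lt_of_lt_of_le (by positivity) (u2_ge _ _ i)).ne'
  have : ∏ i ∈ Ico ((m + 2) / 3) ((m + 1 + 2) / 3), u4 0 i ≠ 0 :=
    (prod_pos fun i _ => u4_pos _ i).ne'
  rw [rho_eq, rho_eq, ← prod_range_mul_prod_Ico (u1 (m + 1) 0) l1,
    ← prod_range_mul_prod_Ico (u2 (m + 1) 0) l1, ← prod_range_mul_prod_Ico (u3 (m + 1) 0) l2,
    ← prod_range_mul_prod_Ico (u4 0) l2, prod_div_distrib,
    prod_div_distrib, pow_succ]
  field_simp

theorem all_k (k : ℕ) : Bnd fun m => (m : ℝ) ^ ((k : ℝ) / 3) * (rho m k / rho m 0) := by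
  induction k with
  | zero => exact (bnd_const one_pos).congr fun m _ => by simp [(rho_pos m 0).ne']
  | succ k ih =>
    refine ((step_k k).mul ih).congr fun m hm => ?_
    have m0 : (0 : ℝ) < m := by exact_mod_cast hm
    have := (rho_pos m k).ne'
    have := (rho_pos m 0).ne'
    rw [show ((k + 1 : ℕ) : ℝ) / 3 = 1 / 3 + k / 3 by push_cast; ring, Real.rpow_add m0]
    field_simp

theorem all_m (j : ℕ) : Bnd fun m => rho (m + j) 0 / rho m 0 := by
  induction j with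
  | zero => exact (bnd_const one_pos).congr fun m _ => by simp [(rho_pos m 0).ne']
  | succ j ih =>
    refine ((step_m.shift j).mul ih).congr fun m _ => ?_
    have := (rho_pos (m + j) 0).ne'
    have := (rho_pos m 0).ne'
    rw [← add_assoc]
    field_simp

theorem main (k : ℕ) : Bnd fun m =>
    (m : ℝ) ^ ((k * (k - 1) : ℝ) / 6) * ∏ i ∈ range k, rho m i / rho (m + i) 0 := by
  induction k with
  | zero => exact (bnd_const one_pos).congr fun m _ => by simp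
  | succ k ih =>
    refine (ih.mul ((all_k k).div (all_m k))).congr fun m hm => ?_
    have m0 : (0 : ℝ) < m := by exact_mod_cast hm
    have := (rho_pos (m + k) 0).ne'
    have := (rho_pos m 0).ne'
    rw [show (((k + 1 : ℕ) : ℝ) * ((k + 1 : ℕ) - 1)) / 6 = (k * (k - 1) : ℝ) / 6 + k / 3 by
      push_cast; ring, Real.rpow_add m0, prod_range_succ]
    field_simp

end AsymA

theorem s_Asym : S_Asym := AsymA.main

end Pool.Agent.P.MP_6c8efb_pr.Arm
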