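import Pool.Agent.P.MP_6c8efb_pr.Arm.Iface

/-! The boundary relations of the transfer matrix, its column sums and an invariant vector. -/

namespace Pool.Agent.P.MP_6c8efb_pr.Arm

namespace BdyA

theorem tot_R (i : ℕ) (x : ℂ) (v : W) : tot (R i x v) = (1 + x) * tot v := by
  simp only [R, Ee, LinearMap.add_apply, LinearMap.smul_apply, Module.End.one_apply, map_add,
    map_smul, tot_lm, smul_eq_mul]
  rw [← ah_add_ac]; ring

theorem tot_row (l : List ℂ) : ∀ (a : ℕ) (v : W),
    tot (row a l v) = (l.map fun x => 1 + x).prod * tot v := by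
  induction l with
  | nil => intro a v; simp [row]
  | cons x l ih =>
    intro a v
    rw [row, Module.End.mul_apply, ih, tot_R, List.map_cons, List.prod_cons]; ring

theorem nrm_eq (l : List ℂ) : nrm l = (l.map fun x => 1 + x).prod * (l.map fun x => 1 + x).prod := by
  induction l with
  | nil => simp
  | cons x l ih => rw [nrm_cons, ih, List.map_cons, List.prod_cons]; ring

theorem sup_R {M i : ℕ} (h : i + 2 ≤ M) (x : ℂ) {v : W} (hv : Sup M v) : Sup M (R i x v) := by
  simp only [R, Ee, LinearMap.add_apply, LinearMap.smul_apply, Module.End.one_apply]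
  exact (hv.smul _).add ((hv.lm fun p hp => hp.ee h).smul _)

theorem sup_row {M : ℕ} (l : List ℂ) : ∀ (a : ℕ) {v : W}, a + l.length + 1 ≤ M → Sup M v →
    Sup M (row a l v) := by
  induction l with
  | nil => intro a v _ hv; simpa [row] using hv
  | cons x l ih =>
    intro a v h hv
    rw [List.length_cons] at h
    rw [row, Module.End.mul_apply]
    exact ih _ (by omega) (sup_R (by omega) x hv)

theorem comm_R {i : ℕ} {A : Module.End ℂ W} (h : Commute A (Ee i)) (x : ℂ) : Commute A (R i x) :=
  ((Commute.one_right A).smul_right _).add_right (h.smul_right _)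

theorem comm_row {A : Module.End ℂ W} {j : ℕ} (h : ∀ i, i + 2 ≤ j → Commute A (Ee i)) (l : List ℂ) :
    ∀ a : ℕ, a + l.length + 1 ≤ j → Commute A (row a l) := by
  induction l with
  | nil => intro a _; exact Commute.one_right A
  | cons x l ih =>
    intro a ha
    rw [List.length_cons] at ha
    exact (ih _ (by omega)).mul_right (comm_R (h a (by omega)) x)

theorem cap_comm {i j : ℕ} (h : i + 2 ≤ j) : Commute (Cap j) (Ee i) := by
  show Cap j * Ee i = Ee i * Cap j
  rw [Cap, Ee, lm_mul, lm_mul]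
  exact lm_congr (cap_ee_far' h)

theorem ee_comm' {i j : ℕ} (h : i + 2 ≤ j) : Commute (Ee j) (Ee i) := by
  show Ee j * Ee i = Ee i * Ee j
  rw [Ee, Ee, lm_mul, lm_mul]
  exact lm_congr fun p => (ee_comm h p).symm

/-- the part of the transfer matrix that does not see the last column -/
noncomputable def G (l : List ℂ) : Module.End ℂ W := row 0 l * row 1 l * Cup 0

/-- the last column -/
noncomputable def Lc (L : ℕ) (x : ℂ) : Module.End ℂ W :=
  Cap (L + 1) * Cap (L + 2) * R L x * R (L + 1) x

theorem TM_snoc (l : List ℂ) (x : ℂ) : TM (l ++ [x]) = Lc l.length x * G l := by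
  have h : Commute (R (l.length + 1) x) (row 0 l) :=
    comm_row (j := l.length + 1) (fun i hi => (comm_R (ee_comm' hi).symm x).symm) l 0 (by omega)
  simp only [TM, Lc, G, row_append, row, List.length_append, List.length_singleton, one_mul, zero_add,
    add_comm 1 l.length, mul_assoc]
  rw [← mul_assoc (row 0 l), ← h.eq, mul_assoc]

theorem G_Cap (l : List ℂ) : G l * Cap l.length = Cap (l.length + 2) * G l := by
  have h0 : Commute (Cap (l.length + 2)) (row 0 l) := comm_row (fun i => cap_comm) l 0 (by omega)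
  have h1 : Commute (Cap (l.length + 2)) (row 1 l) := comm_row (fun i => cap_comm) l 1 (by omega)
  have h2 : Cup 0 * Cap l.length = Cap (l.length + 2) * Cup 0 := by
    rw [Cap, Cap, Cup, lm_mul, lm_mul]
    exact lm_congr fun p => (cap_cup_far (Nat.zero_le _) p).symm
  rw [G, mul_assoc, h2, ← mul_assoc, ← (h0.mul_right h1).eq, mul_assoc]

theorem sup_G (l : List ℂ) {M : ℕ} (h : l.length ≤ M) {v : W} (hv : Sup M v) :
    Sup (M + 2) (G l v) :=
  sup_row l 0 (by omega) (sup_row l 1 (by omega) (hv.lm fun p hp => hp.cup (Nat.zero_le _)))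

theorem Lc_single {L : ℕ} {p : St} (hp : Bd (L + 3) p) (x : ℂ) :
    Lc L x (Finsupp.single p 1) =
      (ah x * ah x) • Finsupp.single (cap (L + 1) (cap (L + 2) p)) (1 : ℂ) +
      (ah x * ac x) • Finsupp.single (cap (L + 1) p) (1 : ℂ) +
      (ah x * ac x) • Finsupp.single (cap L (cap (L + 2) p)) (1 : ℂ) +
      (ac x * ac x) • Finsupp.single (cap L (cap (L + 1) p)) (1 : ℂ) := by
  have e1 : cap (L + 1) (cap (L + 1) p) = cap (L + 1) p := (hp.cap le_rfl).cap_eq le_rfl
  have e2 : ∀ r, cap (L + 1) (cap (L + 2) (ee L r)) = cap L (cap (L + 2) r) := fun r => by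
    rw [cap_ee_far' le_rfl, cap_succ_ee]
  have e3 : cap (L + 2) (ee (L + 1) p) = cap (L + 1) p := cap_succ_ee _ _
  simp only [Lc, R, Cap, Ee, Module.End.mul_apply, LinearMap.add_apply, LinearMap.smul_apply,
    Module.End.one_apply, map_add, map_smul, lm_single, e1, e2, e3]
  module

theorem local_id (L : ℕ) {x : ℂ} (hx : x ≠ 0) {u : W} (hu : Sup (L + 3) u) :
    Kc L x (Lc L x u) = x ^ 2 • Lc L x⁻¹ (Kc (L + 2) x u) := by
  refine Sup.ext (f := Kc L x * Lc L x) (g := x ^ 2 • (Lc L x⁻¹ * Kc (L + 2) x)) (fun p hp => ?_) hu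
  have h2 : Bd (L + 2) (cap (L + 2) p) := hp.cap_last
  have e1 : cap (L + 2) (cap (L + 2) p) = cap (L + 2) p := h2.cap_eq le_rfl
  have e2 : cap L (cap L (cap (L + 2) p)) = cap L (cap (L + 2) p) := (h2.cap le_rfl).cap_eq le_rfl
  have e3 : cap L (cap L (cap (L + 1) p)) = cap L (cap (L + 1) p) :=
    (hp.cap le_rfl).cap_last.cap_eq le_rfl
  have a1 : ah x⁻¹ = x⁻¹ * ac x := by unfold ah ac; field_simp; ring
  have a2 : ac x⁻¹ = x⁻¹ * ah x := by unfold ah ac; field_simp; ring
  have hi : x * x⁻¹ = 1 := mul_inv_cancel₀ hx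
  simp only [Kc, Cap, Module.End.mul_apply, LinearMap.add_apply, LinearMap.smul_apply,
    Module.End.one_apply, map_add, map_smul, lm_single, Lc_single hp,
    Lc_single (h2.mono (Nat.le_succ _)), e1, e2, e3, a1, a2]
  have k : ∀ s t : ℂ, x⁻¹ * s * (x⁻¹ * t) = (x ^ 2)⁻¹ * (s * t) := fun s t => by ring
  have k2 : x ^ 2 * (x ^ 2)⁻¹ = 1 := mul_inv_cancel₀ (pow_ne_zero _ hx)
  simp only [k, mul_smul (x ^ 2)⁻¹, ← smul_add, smul_comm (x + q) (x ^ 2)⁻¹,
    smul_comm ((1 - q) * (1 - x)) (x ^ 2)⁻¹, smul_smul (x ^ 2), k2, one_smul]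
  unfold ah ac
  match_scalars <;> ring

end BdyA

open BdyA

theorem s_TM : S_TM := by
  have ht : ∀ l v, tot (TM l v) = nrm l * tot v := fun l v => by
    simp only [TM, Cap, Cup, Module.End.mul_apply, tot_lm, tot_row, nrm_eq]; ring
  have hs : ∀ (l : List ℂ) (v : W), Sup l.length v → Sup l.length (TM l v) := fun l v hv => by
    have h := sup_G l le_rfl hv
    exact (h.lm fun p hp => hp.cap_last).lm fun p hp => hp.cap_last
  refine ⟨ht, hs, fun l => ?_⟩
  let V : Submodule ℂ W := Finsupp.supported ℂ ℂ {p | Bd l.length p}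
  have hV : ∀ v, v ∈ V ↔ Sup l.length v := fun v => by
    simp only [V, Finsupp.mem_supported', Sup, Set.mem_ofPred_eq]
    exact forall_congr' fun p => not_imp_comm
  have : Finite {p | Bd l.length p} := (finite_bd _).to_subtype
  have : Module.Finite ℂ V :=
    Module.Finite.equiv (Finsupp.supportedEquivFinsupp (M := ℂ) (R := ℂ) {p | Bd l.length p}).symm
  let f : V →ₗ[ℂ] V := (TM l - nrm l • (1 : Module.End ℂ W)).restrict fun v hv =>
    (hV _).2 ((hs l v ((hV _).1 hv)).sub (((hV _).1 hv).smul _))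
  have hf : ∀ v : V, (f v : W) = TM l v - nrm l • (v : W) := fun v => rfl
  have hn : ¬ Function.Injective f := fun h => by
    have hsurj : Function.Surjective f := LinearMap.surjective_of_injective (K := ℂ) (V := V) h
    obtain ⟨v, hv⟩ := hsurj
      ⟨Finsupp.single o 1, (hV _).2 (sup_single (bd_o _) 1)⟩
    have := congrArg (fun w : V => tot (w : W)) hv
    simp only [hf, map_sub, map_smul, ht, smul_eq_mul, sub_self, tot_single] at this
    exact zero_ne_one this
  rw [injective_iff_map_eq_zero] at hn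
  push Not at hn
  obtain ⟨v, h0, h1⟩ := hn
  refine ⟨v, fun e => h1 (Subtype.ext e), (hV _).1 v.2, ?_⟩
  have := hf v
  rw [h0] at this
  exact sub_eq_zero.1 this.symm

theorem s_Bdy : S_Bdy := by
  refine ⟨fun l x v hx hv => ?_, fun L x v hx hv => ?_, fun l v hv => ?_⟩
  · have e : G l (Kc l.length x v) = Kc (l.length + 2) x (G l v) := by
      have := LinearMap.congr_fun (G_Cap l) v
      simp only [Module.End.mul_apply] at this
      simp only [Kc, LinearMap.add_apply, LinearMap.smul_apply, Module.End.one_apply, map_add,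
        map_smul, this]
    rw [TM_snoc, TM_snoc, Module.End.mul_apply, Module.End.mul_apply, e]
    exact local_id _ hx (sup_G l (Nat.le_succ _) hv)
  · have e : Cap L (Cap L v) = Cap L v := by
      rw [← Module.End.mul_apply, Cap, lm_mul]
      exact hv.lm_congr fun p hp => hp.cap_last.cap_eq le_rfl
    have hi : x * x⁻¹ = 1 := mul_inv_cancel₀ hx
    simp only [Kc, LinearMap.add_apply, LinearMap.smul_apply, Module.End.one_apply, map_add,
      map_smul, e]
    match_scalars
    · linear_combination (1 - q ^ 2) * hi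
    · linear_combination (-(1 - q) * (1 + q)) * hi
  · have a0 : ah (-q ^ 2) = 0 := by unfold ah; linear_combination q * q_cube
    have a1 : ac (-q ^ 2) = 1 - q ^ 2 := by unfold ac; linear_combination q_cube
    rw [TM_snoc, Module.End.mul_apply]
    refine Sup.ext (f := Lc l.length (-q ^ 2))
      (g := (1 - q ^ 2) ^ 2 • (Cap l.length * Cap (l.length + 1))) (fun p hp => ?_)
      ((sup_G l le_rfl hv).mono (Nat.le_succ _))
    rw [Lc_single hp, a0, a1]
    simp [Cap, pow_two]

end Pool.Agent.P.MP_6c8efb_pr.Arm
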