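import Pool.Agent.P.MP_6c8efb_pr.Arm.Iface

/-! From arms reaching a vertical line to arms leaving a square. -/

namespace Pool.Agent.P.MP_6c8efb_pr.Arm

namespace BoxA

variable {τ : TC}

theorem line_one {j n H : ℕ} (hn : 1 ≤ n) (hj : j ≤ H) (h : τ ∈ box j n H) : τ ∈ line j 1 H := by
  intro i hi
  obtain ⟨b, h1, h2⟩ := h i hi
  obtain ⟨x, y, hx, -, h3, h4⟩ := h2.exit (A := {z | z.1 = 0 ∧ z.2 = i}) (S' := Reg 1 H)
    ⟨rfl, rfl⟩ (by
      rintro ⟨e1, e2⟩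
      rw [e1, e2, Nat.abs_cast] at h1
      omega) (fun c hc e => by
      simp only [Reg, ends, Set.mem_ofPred_eq] at hc e ⊢
      split_ifs at e <;> simp only [] at e <;> omega)
  refine ⟨y, ?_, h3.snoc h4⟩
  obtain ⟨s, t, hc, ⟨-, e⟩ | ⟨-, e⟩⟩ := link_iff.1 h4 <;>
    rcases e with ⟨rfl, rfl⟩ | ⟨rfl, rfl⟩ <;>
    simp only [Reg, Set.mem_ofPred_eq] at hc hx ⊢ <;> omega

theorem to_vert {w K i : ℕ} {y : ℤ × ℤ} (hK : 1 ≤ K) (hi : i ≤ K) (hy : |y.2| = (2 * K : ℕ))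
    (h : TConn τ (Reg w (2 * K)) (0, i) y) :
    τ ∈ vert w K K ∪ vert w (-(2 * K : ℕ)) K := by
  rw [abs_eq (by positivity)] at hy
  rcases hy with hy | hy
  · obtain ⟨x, z, hx, hz, h3, h4⟩ := h.symm'.exit (A := {z | (K : ℤ) < z.2})
      (S' := {c | 0 ≤ c.1 ∧ c.1 < w ∧ (K : ℤ) ≤ c.2 ∧ c.2 < K + K})
      (by simp only [Set.mem_ofPred_eq]; omega) (by simp only [Set.mem_ofPred_eq]; omega)
      (fun c hc e => by
        simp only [Reg, ends, Set.mem_ofPred_eq] at hc e ⊢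
        split_ifs at e <;> simp only [] at e <;> omega)
    have := h4.abs.2
    rw [abs_eq (by norm_num)] at this
    simp only [Set.mem_ofPred_eq] at hx hz
    exact Or.inl ⟨z, y, by omega, by omega, (h3.snoc h4).symm'⟩
  · obtain ⟨x, z, hx, hz, h3, h4⟩ := h.symm'.exit (A := {z | z.2 < -(K : ℤ)})
      (S' := {c | 0 ≤ c.1 ∧ c.1 < w ∧ -((2 * K : ℕ) : ℤ) ≤ c.2 ∧ c.2 < -((2 * K : ℕ) : ℤ) + K})
      (by simp only [Set.mem_ofPred_eq]; omega) (by simp only [Set.mem_ofPred_eq]; omega)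
      (fun c hc e => by
        simp only [Reg, ends, Set.mem_ofPred_eq] at hc e ⊢
        split_ifs at e <;> simp only [] at e <;> omega)
    have := h4.abs.2
    rw [abs_eq (by norm_num)] at this
    simp only [Set.mem_ofPred_eq] at hx hz
    exact Or.inr ⟨y, z, hy, by omega, h3.snoc h4⟩

theorem cross {P : ℕ → Prop} (h0 : P 0) {r : ℕ} (hr : ¬ P r) : ∃ a < r, P a ∧ ¬ P (a + 1) := by
  induction r with
  | zero => exact absurd h0 hr
  | succ r ih =>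
    by_cases h : P r
    · exact ⟨r, Nat.lt_succ_self r, h, hr⟩
    · obtain ⟨a, ha, h1⟩ := ih h
      exact ⟨a, by omega, h1⟩

theorem decomp {j L r : ℕ} (hL : 1 ≤ L) (hj : j ≤ L) :
    box j (2 ^ r) (2 * (L * 2 ^ r)) ⊆ line j (2 ^ r) (2 * (L * 2 ^ r)) ∪
      ⋃ a ∈ Finset.range r, (box j (2 ^ a) (2 * (L * 2 ^ a)) ∩
        (vert (2 ^ (a + 1)) (L * 2 ^ r : ℕ) (L * 2 ^ r) ∪
          vert (2 ^ (a + 1)) (-(2 * (L * 2 ^ r) : ℕ)) (L * 2 ^ r))) := by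
  intro τ h
  have hp : ∀ a, L ≤ L * 2 ^ a := fun a => Nat.le_mul_of_pos_right _ (by positivity)
  by_cases h1 : τ ∈ line j (2 ^ r) (2 * (L * 2 ^ r))
  · exact Or.inl h1
  obtain ⟨a, ha, h2, h3⟩ := cross (P := fun a => τ ∈ line j (2 ^ a) (2 * (L * 2 ^ r)))
    (line_one Nat.one_le_two_pow (by have := hp r; omega) h) h1
  refine Or.inr (Set.mem_biUnion (Finset.mem_range.2 ha) ⟨fun i hi => ?_, ?_⟩)
  · obtain ⟨b, e1, e2⟩ := h2 i hi
    exact e2.to_box (fun c hc => hc.1) (Or.inl e1.ge) (by have := hp a; omega)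
  · simp only [line, Set.mem_ofPred_eq, not_forall] at h3
    obtain ⟨i, hi, h3⟩ := h3
    obtain ⟨b, e1, e2⟩ := h i hi
    have h4 : 2 ^ (a + 1) ≤ 2 ^ r := Nat.pow_le_pow_right (by norm_num) ha
    obtain ⟨y, e3, e4⟩ := e2.to_box (n' := 2 ^ (a + 1)) (h' := 2 * (L * 2 ^ r)) (fun c hc => hc.1)
      (e1.imp (fun e => by omega) fun e => e.ge) (by have := hp r; omega)
    exact to_vert (by have := hp r; omega) (by have := hp r; omega)
      (e3.resolve_left fun e => h3 ⟨y, e, e4⟩) e4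

theorem term (hV : S_Vert) {j μ r a : ℕ} (ha : a < r) :
    Pt (box j (2 ^ a) (2 * (4 * μ * 2 ^ a)) ∩
        (vert (2 ^ (a + 1)) (4 * μ * 2 ^ r : ℕ) (4 * μ * 2 ^ r) ∪
          vert (2 ^ (a + 1)) (-(2 * (4 * μ * 2 ^ r) : ℕ)) (4 * μ * 2 ^ r))) ≤
      Pt (box j (2 ^ a) (2 * (4 * μ * 2 ^ a))) * (4 * (1 / 2) ^ (μ * 2 ^ (r - a))) := by
  have h1 : 2 * (4 * μ * 2 ^ a) ≤ 4 * μ * 2 ^ r := by
    have : 2 ^ (a + 1) ≤ 2 ^ r := Nat.pow_le_pow_right (by norm_num) ha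
    calc 2 * (4 * μ * 2 ^ a) = 4 * μ * 2 ^ (a + 1) := by ring
      _ ≤ _ := Nat.mul_le_mul_left _ this
  have h2 : μ * 2 ^ (r - a) * (2 ^ (a + 1) + 1) ≤ 4 * μ * 2 ^ r := by
    obtain ⟨i, rfl⟩ := Nat.exists_eq_add_of_le ha.le
    have : 2 ^ (a + 1) + 1 ≤ 4 * 2 ^ a := by
      have := Nat.one_le_two_pow (n := a)
      omega
    calc _ ≤ μ * 2 ^ (a + i - a) * (4 * 2 ^ a) := Nat.mul_le_mul_left _ this
      _ = _ := by rw [Nat.add_sub_cancel_left]; ring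
  unfold Pt
  rw [Pr_inter_indep _ (loc_box _ _ _) ((loc_vert _ _ _).union (loc_vert _ _ _)) (dep_box _ _ _)
    ((dep_vert _ _ _).union' (dep_vert _ _ _))]
  · refine mul_le_mul_of_nonneg_left ((Pr_union_le _ _ _).trans ?_) (Pr_nonneg _ _)
    have e1 := hV _ (4 * μ * 2 ^ r : ℕ) _ _ h2
    have e2 := hV _ (-(2 * (4 * μ * 2 ^ r) : ℕ)) _ _ h2
    unfold Pt at e1 e2
    linarith
  · generalize 2 * (4 * μ * 2 ^ a) = A at *
    generalize 4 * μ * 2 ^ r = K at *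
    refine Set.disjoint_left.2 fun c hc hc' => ?_
    simp only [Reg, Set.mem_union, Set.mem_ofPred_eq] at hc hc'
    omega

theorem geo (r : ℕ) : ∑ a ∈ Finset.range r, (1 / 2 : ℝ) ^ (r - a) ≤ 1 := by
  induction r with
  | zero => simp
  | succ r ih =>
    rw [Finset.sum_range_succ, Finset.sum_congr rfl (g := fun a => 1 / 2 * (1 / 2 : ℝ) ^ (r - a))
      fun a ha => by rw [← pow_succ', Nat.succ_sub (Finset.mem_range.1 ha).le], ← Finset.mul_sum,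
      Nat.add_sub_cancel_left]
    linarith

theorem small {e : ℝ} {ν : ℕ} (hν : e ≤ ν) (h2 : 2 ≤ ν) (i : ℕ) :
    ((2 : ℝ) ^ i) ^ e * (4 * (1 / 2) ^ ((ν + 1) * 2 ^ i)) ≤ 1 / 2 * (1 / 2) ^ i := by
  have h1 : ((2 : ℝ) ^ i) ^ e ≤ 2 ^ (i * ν) := by
    rw [pow_mul, ← Real.rpow_natCast (2 ^ i) ν]
    exact Real.rpow_le_rpow_of_exponent_le (one_le_pow₀ one_le_two) hν
  have h3 : i * ν + (i + 3) ≤ (ν + 1) * 2 ^ i := by
    have : i + 1 ≤ 2 ^ i := Nat.lt_two_pow_self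
    nlinarith
  have h4 : (1 / 2 : ℝ) ^ ((ν + 1) * 2 ^ i) ≤ (1 / 2) ^ (i * ν + (i + 3)) :=
    pow_le_pow_of_le_one (by norm_num) (by norm_num) h3
  have h5 : (2 : ℝ) ^ (i * ν) * (1 / 2) ^ (i * ν) = 1 := by rw [← mul_pow]; simp
  calc _ ≤ 2 ^ (i * ν) * (4 * (1 / 2 : ℝ) ^ (i * ν + (i + 3))) := by gcongr
    _ = 2 ^ (i * ν) * (1 / 2) ^ (i * ν) * (1 / 2 * (1 / 2) ^ i) := by
        rw [pow_add, pow_add]; ring
    _ = _ := by rw [h5, one_mul]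

theorem dyadic (hV : S_Vert) {j ν : ℕ} {e C : ℝ} (hν : e ≤ ν) (h2 : 2 ≤ ν) (hj : j ≤ ν)
    (hC : 0 ≤ C) (h : ∀ n h : ℕ, 1 ≤ n → (n : ℝ) ^ e * Pt (line j n h) ≤ C) (r : ℕ) :
    ((2 : ℝ) ^ r) ^ e * Pt (box j (2 ^ r) (2 * (4 * (ν + 1) * 2 ^ r))) ≤ 2 * C := by
  induction r using Nat.strong_induction_on with
  | _ r ih =>
  have h1 := (Pt_mono (decomp (j := j) (L := 4 * (ν + 1)) (r := r) (by omega) (by omega))).trans
    ((Pr_union_le _ _ _).trans (add_le_add le_rfl ((Pr_biUnion_le _ _ _).trans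
      (Finset.sum_le_sum fun a ha => term hV (Finset.mem_range.1 ha)))))
  have h3 := h (2 ^ r) (2 * (4 * (ν + 1) * 2 ^ r)) Nat.one_le_two_pow
  push_cast at h3
  refine (mul_le_mul_of_nonneg_left h1 (by positivity)).trans ?_
  rw [mul_add]
  have h4 : ∑ a ∈ Finset.range r, ((2 : ℝ) ^ r) ^ e *
      (Pt (box j (2 ^ a) (2 * (4 * (ν + 1) * 2 ^ a))) * (4 * (1 / 2) ^ ((ν + 1) * 2 ^ (r - a)))) ≤
      ∑ a ∈ Finset.range r, C * (1 / 2) ^ (r - a) := Finset.sum_le_sum fun a ha => by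
    have ha' := Finset.mem_range.1 ha
    have e1 : ((2 : ℝ) ^ r) ^ e = ((2 : ℝ) ^ a) ^ e * ((2 : ℝ) ^ (r - a)) ^ e := by
      rw [← Real.mul_rpow (by positivity) (by positivity), ← pow_add, Nat.add_sub_cancel' ha'.le]
    calc _ = ((2 : ℝ) ^ a) ^ e * Pt (box j (2 ^ a) (2 * (4 * (ν + 1) * 2 ^ a))) *
          (((2 : ℝ) ^ (r - a)) ^ e * (4 * (1 / 2) ^ ((ν + 1) * 2 ^ (r - a)))) := by rw [e1]; ring
      _ ≤ 2 * C * (1 / 2 * (1 / 2) ^ (r - a)) :=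
          mul_le_mul (ih a ha') (small hν h2 _) (by positivity) (by positivity)
      _ = _ := by ring
  rw [← Finset.mul_sum, ← Finset.mul_sum] at h4
  have h5 := mul_le_of_le_one_right hC (geo r)
  unfold Pt at h3
  linarith

end BoxA

theorem s_Box (h : S_Vert) : S_Box := by
  intro j e C he hC
  have hC0 : 0 ≤ C := le_trans (mul_nonneg (by positivity) (Pt_nonneg _)) (hC 1 0 le_rfl)
  obtain ⟨ν₀, hν₀⟩ := exists_nat_ge e
  set ν := ν₀ + j + 2 with hν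
  have hν' : e ≤ ν := hν₀.trans (by exact_mod_cast (by omega))
  set l := 8 * (ν + 1) with hl
  refine ⟨((2 * l : ℕ) : ℝ) ^ e * (2 * C + 1), fun n hn => ?_⟩
  rcases lt_or_ge n l with c | c
  · refine mul_le_mul (Real.rpow_le_rpow (by positivity) (by exact_mod_cast (by omega)) he)
      ((Pt_le_one _).trans (by linarith)) (Pt_nonneg _) (by positivity)
  · have hl0 : 0 < l := by omega
    have h0 : n / l ≠ 0 := (Nat.div_pos c hl0).ne'
    set r := Nat.log 2 (n / l)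
    have h1 : 2 ^ r * l ≤ n := (Nat.le_div_iff_mul_le hl0).1 (Nat.pow_log_le_self 2 h0)
    have h2 : n < 2 ^ (r + 1) * l :=
      (Nat.div_lt_iff_lt_mul hl0).1 (Nat.lt_pow_succ_log_self (by norm_num) _)
    have h3 : 2 * (4 * (ν + 1) * 2 ^ r) = 2 ^ r * l := by rw [hl]; ring
    have h4 : 2 ^ r ≤ 2 ^ r * l := Nat.le_mul_of_pos_right _ hl0
    have h5 : l ≤ 2 ^ r * l := Nat.le_mul_of_pos_left _ (by positivity)
    have h6 : box j n n ⊆ box j (2 ^ r) (2 * (4 * (ν + 1) * 2 ^ r)) := fun τ hτ i hi => by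
      obtain ⟨b, e1, e2⟩ := hτ i hi
      exact e2.to_box (fun c hc => hc.1) (e1.imp (fun e => by omega) fun e => by omega) (by omega)
    have h7 : (n : ℝ) ^ e ≤ ((2 * l : ℕ) : ℝ) ^ e * ((2 : ℝ) ^ r) ^ e := by
      rw [← Real.mul_rpow (by positivity) (by positivity)]
      refine Real.rpow_le_rpow (by positivity) ?_ he
      exact_mod_cast h2.le.trans_eq (by ring)
    calc _ ≤ ((2 * l : ℕ) : ℝ) ^ e * ((2 : ℝ) ^ r) ^ e *
          Pt (box j (2 ^ r) (2 * (4 * (ν + 1) * 2 ^ r))) :=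
          mul_le_mul h7 (Pt_mono h6) (Pt_nonneg _) (by positivity)
      _ ≤ _ := by
          rw [mul_assoc]
          refine mul_le_mul_of_nonneg_left ?_ (by positivity)
          linarith [BoxA.dyadic h hν' (by omega) (by omega) hC0 hC r]

end Pool.Agent.P.MP_6c8efb_pr.Arm
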