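import Pool.Agent.P.MP_6c8efb_pr.Arm.Iface

/-! Colourings of the strands of a tile configuration, crossing parity of a path. -/

namespace Pool.Agent.P.MP_6c8efb_pr.Arm

namespace ColSA

theorem comp_ee {i : ℕ} {p : St} {g : ℕ → ZMod 2} : Comp (ee i p) g ↔ g i = g (i + 1) ∧
    ∃ f, Comp p f ∧ f i = f (i + 1) ∧ ∀ j, j ≠ i → j ≠ i + 1 → f j = g j := by
  simp only [ee, comp_cup, comp_cap]
  refine and_congr_right fun _ => exists_congr fun f => and_congr_right fun _ =>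
    and_congr_right fun _ => ⟨fun h j h1 h2 => ?_, fun h j => h _ (up_ne _ _) (up_ne' _ _)⟩
  rw [← up_dn h1 h2, h]

/-- the conditions along a row of tiles: `f` above, `g` below, `V` on the vertical sides -/
def Tl (n : ℕ) (b : ℕ → Bool) (f g V : ℕ → ZMod 2) : Prop :=
  ∀ s, s < n → (b s = true → V s = f s ∧ g s = V (s + 1)) ∧ (b s = false → V s = g s ∧ f s = V (s + 1))

theorem Tl.congr {n : ℕ} {b : ℕ → Bool} {f g V f' g' V' : ℕ → ZMod 2} (h : Tl n b f g V)
    (hf : ∀ s, s < n → f s = f' s) (hg : ∀ s, s < n → g s = g' s) (hV : ∀ s, s ≤ n → V s = V' s) :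
    Tl n b f' g' V' := fun s hs => by
  rw [← hf s hs, ← hg s hs, ← hV s hs.le, ← hV (s + 1) hs]; exact h s hs

theorem tl_succ {n : ℕ} {b : ℕ → Bool} {f g V : ℕ → ZMod 2} : Tl (n + 1) b f g V ↔ Tl n b f g V ∧
    (b n = true → V n = f n ∧ g n = V (n + 1)) ∧ (b n = false → V n = g n ∧ f n = V (n + 1)) :=
  ⟨fun h => ⟨fun s hs => h s (by omega), h n (by omega)⟩, fun h s hs => by
    rcases Nat.lt_succ_iff_lt_or_eq.1 hs with h' | rfl
    · exact h.1 s h'
    · exact h.2⟩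

theorem comp_row (b : ℕ → Bool) (a : ℕ) (p : St) (n : ℕ) : ∀ g : ℕ → ZMod 2,
    Comp (rowS b a n p) g ↔ ∃ f V : ℕ → ZMod 2, Comp p f ∧ V 0 = f a ∧ V n = g (a + n) ∧
      Tl n b (fun s => f (a + s + 1)) (fun s => g (a + s)) V ∧
      ∀ j, j < a ∨ a + n < j → f j = g j := by
  induction n with
  | zero =>
    intro g
    refine ⟨fun h => ⟨g, fun _ => g a, h, rfl, rfl, fun s hs => by omega, fun _ _ => rfl⟩, ?_⟩
    rintro ⟨f, V, h1, h2, h3, -, h5⟩
    refine (comp_congr fun j => ?_).1 h1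
    by_cases hj : j = a
    · rw [hj, ← h2, h3]; rfl
    · exact h5 j (by omega)
  | succ n ih =>
    intro g
    have upd : ∀ (V : ℕ → ZMod 2) (c : ZMod 2), ∃ V' : ℕ → ZMod 2, V' (n + 1) = c ∧
        ∀ s, s ≤ n → V s = V' s := fun V c =>
      ⟨fun s => if s = n + 1 then c else V s, if_pos rfl, fun s hs => (if_neg (by omega)).symm⟩
    cases hb : b n with
    | true =>
      rw [rowS, if_pos hb, comp_ee]
      constructor
      · rintro ⟨h0, f', h1, h2, h3⟩
        obtain ⟨f, V, e1, e2, e3, e4, e5⟩ := (ih f').1 h1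
        obtain ⟨V', v1, v2⟩ := upd V (g (a + n + 1))
        refine ⟨f, V', e1, by rw [← v2 0 (by omega), e2], v1, tl_succ.2 ⟨e4.congr (fun _ _ => rfl)
          (fun s hs => h3 _ (by omega) (by omega)) v2, fun _ => ⟨?_, ?_⟩, fun e => ?_⟩,
          fun j hj => ?_⟩
        · rw [← v2 n le_rfl, e3, h2, e5 _ (by omega)]
        · rw [v1, h0]
        · rw [hb] at e; cases e
        · rw [e5 j (by omega), h3 j (by omega) (by omega)]
      · rintro ⟨f, V, e1, e2, e3, e4, e5⟩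
        obtain ⟨e6, e7, -⟩ := tl_succ.1 e4
        obtain ⟨e8, e9⟩ := e7 hb
        refine ⟨e9.trans e3, fun j => if j = a + n ∨ j = a + n + 1 then V n else g j,
          (ih _).2 ⟨f, V, e1, e2, by simp, e6.congr (fun _ _ => rfl)
            (fun s hs => (if_neg (by omega)).symm) fun _ _ => rfl, fun j hj => ?_⟩, by simp,
          fun j h1 h2 => if_neg (by omega)⟩
        by_cases h : j = a + n + 1
        · rw [if_pos (Or.inr h), e8, h]
        · rw [if_neg (by omega), e5 j (by omega)]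
    | false =>
      rw [rowS, if_neg (by simp [hb]), ih]
      constructor
      · rintro ⟨f, V, e1, e2, e3, e4, e5⟩
        obtain ⟨V', v1, v2⟩ := upd V (g (a + n + 1))
        refine ⟨f, V', e1, by rw [← v2 0 (by omega), e2], v1, tl_succ.2 ⟨e4.congr (fun _ _ => rfl)
          (fun _ _ => rfl) v2, fun e => ?_, fun _ => ⟨?_, ?_⟩⟩, fun j hj => e5 j (by omega)⟩
        · rw [hb] at e; cases e
        · rw [← v2 n le_rfl, e3]
        · rw [v1, e5 _ (by omega)]
      · rintro ⟨f, V, e1, e2, e3, e4, e5⟩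
        obtain ⟨e6, -, e7⟩ := tl_succ.1 e4
        obtain ⟨e8, e9⟩ := e7 hb
        refine ⟨f, V, e1, e2, e8, e6, fun j hj => ?_⟩
        by_cases h : j = a + n + 1
        · rw [h]; exact e9.trans e3
        · exact e5 j (by omega)

theorem bd_row {M a : ℕ} (b : ℕ → Bool) {p : St} (h : Bd M p) (n : ℕ) (hn : a + n + 1 ≤ M) :
    Bd M (rowS b a n p) := by
  induction n with
  | zero => exact h
  | succ n ih =>
    rw [rowS]
    split_ifs
    · exact (ih (by omega)).ee (by omega)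
    · exact ih (by omega)

theorem comp_cap_last {M : ℕ} {p : St} (h : Bd (M + 1) p) {g : ℕ → ZMod 2} :
    Comp (cap M p) g ↔ Comp p g ∧ g M = 0 := by
  rw [comp_cap]
  constructor
  · rintro ⟨f, hf, h1, e⟩
    have e' : ∀ j, f j = g j := fun j => by
      rw [← e]
      by_cases hj : j < M
      · rw [up_of_lt hj]
      · rw [hf.bd h (by rw [up_of_le (by omega)]; omega : M + 1 ≤ up M j)]
        by_cases hj' : j = M
        · rw [hj', h1, hf.bd h le_rfl]
        · exact hf.bd h (by omega)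
    exact ⟨(comp_congr e').1 hf, by rw [← e', h1, hf.bd h le_rfl]⟩
  · rintro ⟨hg, h0⟩
    refine ⟨g, hg, by rw [h0, hg.bd h le_rfl], fun j => ?_⟩
    by_cases hj : j < M
    · rw [up_of_lt hj]
    · rw [hg.bd h (by rw [up_of_le (by omega)]; omega : M + 1 ≤ up M j)]
      by_cases hj' : j = M
      · rw [hj', h0]
      · exact (hg.bd h (by omega)).symm

theorem bd_two {L : ℕ} (b₁ b₂ : ℕ → Bool) {p : St} (h : Bd L p) :
    Bd (L + 2) (rowS b₂ 0 L (rowS b₁ 1 L (cup 0 p))) :=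
  bd_row _ (bd_row _ (h.cup (Nat.zero_le _)) _ (by omega)) _ (by omega)

theorem bd_dbl {L : ℕ} (b₁ b₂ : ℕ → Bool) {p : St} (h : Bd L p) : Bd L (dbl L b₁ b₂ p) :=
  (bd_two b₁ b₂ h).cap_last.cap_last

theorem comp_dbl {L : ℕ} (b₁ b₂ : ℕ → Bool) {p : St} (h : Bd L p) (g : ℕ → ZMod 2) :
    Comp (dbl L b₁ b₂ p) g ↔ (∀ i, L ≤ i → g i = 0) ∧ ∃ f m V₁ V₂ : ℕ → ZMod 2, Comp p f ∧
      V₂ 0 = V₁ 0 ∧ V₁ L = 0 ∧ V₂ L = 0 ∧ Tl L b₁ f m V₁ ∧ Tl L b₂ m g V₂ := by
  have key : Comp (dbl L b₁ b₂ p) g ↔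
      (Comp (rowS b₂ 0 L (rowS b₁ 1 L (cup 0 p))) g ∧ g (L + 1) = 0) ∧ g L = 0 := by
    rw [dbl, comp_cap_last (bd_two b₁ b₂ h).cap_last, comp_cap_last (bd_two b₁ b₂ h)]
  constructor
  · intro hg
    refine ⟨fun i hi => hg.bd (bd_dbl b₁ b₂ h) hi, ?_⟩
    obtain ⟨⟨h1, h2⟩, h3⟩ := key.1 hg
    obtain ⟨f2, V2, a1, a2, a3, a4, a5⟩ := (comp_row _ _ _ _ _).1 h1
    obtain ⟨f1, V1, c1, c2, c3, c4, c5⟩ := (comp_row _ _ _ _ _).1 a1
    obtain ⟨d1, d2⟩ := comp_cup.1 c1
    refine ⟨_, fun s => f2 (s + 1), V1, V2, d2, ?_, ?_, ?_,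
      c4.congr (fun s _ => ?_) (fun s _ => ?_) fun _ _ => rfl,
      a4.congr (fun s _ => ?_) (fun s _ => ?_) fun _ _ => rfl⟩
    · rw [a2, c2, ← c5 0 (by omega), d1]
    · rw [c3, a5 _ (by omega), add_comm, h2]
    · rw [a3, zero_add, h3]
    · rw [up_of_le (Nat.zero_le _)]; congr 1; omega
    · rw [add_comm]
    · rw [zero_add]
    · rw [zero_add]
  · rintro ⟨h0, f, m, V1, V2, e1, e2, e3, e4, e5, e6⟩
    refine key.2 ⟨⟨(comp_row _ _ _ _ _).2 ⟨fun j => if j = 0 then V1 0 else if j ≤ L then m (j - 1)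
      else 0, V2, (comp_row _ _ _ _ _).2 ⟨fun j => if j < 2 then V1 0 else f (j - 2), V1,
        comp_cup.2 ⟨by simp, (comp_congr fun j => ?_).1 e1⟩, by simp, ?_,
        e5.congr (fun s _ => ?_) (fun s hs => ?_) fun _ _ => rfl, fun j hj => ?_⟩, by simpa using e2,
        ?_, e6.congr (fun s hs => ?_) (fun s _ => ?_) fun _ _ => rfl, fun j hj => ?_⟩,
      h0 _ (by omega)⟩, h0 _ le_rfl⟩
    all_goals beta_reduce
    · rw [up_of_le (Nat.zero_le _), if_neg (by omega)]; rfl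
    · rw [if_neg (by omega), if_neg (by omega), e3]
    · rw [if_neg (by omega)]; congr 1; omega
    · rw [if_neg (by omega), if_pos (by omega)]; congr 1; omega
    · by_cases h1 : j = 0
      · rw [if_pos (by omega), if_pos h1]
      · rw [if_neg (by omega), if_neg h1, if_neg (by omega), e1.bd h (by omega)]
    · rw [e4, h0 _ (by omega)]
    · rw [if_neg (by omega), if_pos (by omega)]; congr 1; omega
    · rw [zero_add]
    · rw [if_neg (by omega), if_neg (by omega), h0 _ (by omega)]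

theorem bd_top (L : ℕ) (τ : TC) (n : ℕ) : ∀ r, Bd L (top L τ r n) := by
  induction n with
  | zero => exact fun _ => bd_o L
  | succ n ih => exact fun r => bd_dbl _ _ (ih _)

/-- the configuration two rows higher -/
def sh (τ : TC) : TC := fun c => τ (c.1, c.2 + 2)

theorem top_sh (L : ℕ) (τ : TC) (n : ℕ) : ∀ r, top L τ (r + 1) n = top L (sh τ) r n := by
  induction n with
  | zero => exact fun _ => rfl
  | succ n ih =>
    intro r
    have e1 : (2 * ((r + 1 : ℕ) : ℤ) + 1) = 2 * (r : ℤ) + 1 + 2 := by push_cast; ring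
    have e2 : (2 * ((r + 1 : ℕ) : ℤ)) = 2 * (r : ℤ) + 2 := by push_cast; ring
    rw [top, top, ih, e1, e2]; rfl

/-- two new values in front of a sequence -/
def two (x y : ZMod 2) (f : ℕ → ZMod 2) : ℕ → ZMod 2
  | 0 => x
  | 1 => y
  | t + 2 => f t

theorem three (t : ℕ) : t = 0 ∨ t = 1 ∨ ∃ u, t = u + 2 := by
  rcases t with _ | _ | t
  · exact Or.inl rfl
  · exact Or.inr (Or.inl rfl)
  · exact Or.inr (Or.inr ⟨t, rfl⟩)

theorem sh_apply (τ : TC) (s t : ℕ) : sh τ (s, t) = τ (s, ((t + 2 : ℕ) : ℤ)) := by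
  simp [sh]

theorem ind_add {P Q R S : Prop} [Decidable P] [Decidable Q] [Decidable R] [Decidable S]
    (h : (P ↔ Q) ↔ (R ↔ S)) : ind P + ind Q = ind R + ind S := by
  unfold ind
  by_cases h1 : P <;> by_cases h2 : Q <;> by_cases h3 : R <;> by_cases h4 : S <;>
    simp only [h1, h2, h3, h4, if_true, if_false] at h ⊢ <;> first | decide | simp at h

theorem ind_eq {P R S : Prop} [Decidable P] [Decidable R] [Decidable S]
    (h : P ↔ ¬(R ↔ S)) : ind P = ind R + ind S := by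
  unfold ind
  by_cases h1 : P <;> by_cases h3 : R <;> by_cases h4 : S <;>
    simp only [h1, h3, h4, if_true, if_false] at h ⊢ <;> first | decide | simp at h

theorem par_link {τ : TC} {S : Set (ℤ × ℤ)} {x y : ℤ × ℤ} (h : link τ S x y) :
    ∃ J, Par τ S x y J := by
  obtain ⟨s0, t0, hS, h⟩ := link_iff.1 h
  refine ⟨fun c => ind (c.2 = t0 ∧ c.1 ≤ s0), fun s t hp => ind_add ?_, fun s t hc => ind_eq ?_,
    fun s t hc => if_neg ?_, fun ⟨s, t⟩ hp => ?_⟩
  · rw [Int.odd_iff] at hp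
    rcases h with ⟨-, ⟨rfl, rfl⟩ | ⟨rfl, rfl⟩⟩ | ⟨-, ⟨rfl, rfl⟩ | ⟨rfl, rfl⟩⟩ <;>
      simp only [] at hp ⊢ <;> omega
  · have := hc _ hS
    rcases h with ⟨-, ⟨rfl, rfl⟩ | ⟨rfl, rfl⟩⟩ | ⟨-, ⟨rfl, rfl⟩ | ⟨rfl, rfl⟩⟩ <;>
      simp only [] at this ⊢ <;> omega
  · have := hc _ hS
    simp only [] at this ⊢
    omega
  · rw [Int.odd_iff] at hp
    refine ind_add ?_
    by_cases e : s = s0 ∧ t = t0
    · obtain ⟨rfl, rfl⟩ := e
      rcases h with ⟨k, ⟨rfl, rfl⟩ | ⟨rfl, rfl⟩⟩ | ⟨k, ⟨rfl, rfl⟩ | ⟨rfl, rfl⟩⟩ <;>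
        simp only [ends, k, Bool.false_eq_true, if_true, if_false] at hp ⊢ <;> omega
    · cases hc : τ (s, t) <;>
      rcases h with ⟨-, ⟨rfl, rfl⟩ | ⟨rfl, rfl⟩⟩ | ⟨-, ⟨rfl, rfl⟩ | ⟨rfl, rfl⟩⟩ <;>
        simp only [ends, hc, Bool.false_eq_true, if_true, if_false] at hp ⊢ <;> omega

theorem cancel {a b c d x y z : ZMod 2} (h1 : a + b = x + y) (h2 : c + d = y + z) :
    a + c + (b + d) = x + z := by
  have := CharTwo.add_self_eq_zero y
  linear_combination h1 + h2 + this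

theorem par_trans {τ : TC} {S : Set (ℤ × ℤ)} {a x y : ℤ × ℤ} {J K : ℤ × ℤ → ZMod 2}
    (h1 : Par τ S a x J) (h2 : Par τ S x y K) (he : Even (a.1 + a.2 + x.1 + x.2)) :
    Par τ S a y fun c => J c + K c := by
  rw [Int.even_iff] at he
  refine ⟨fun s t hp => cancel (h1.down s t hp) (h2.down s t ?_), fun s t hc => ?_,
    fun s t hc => ?_, fun c hp => cancel (h1.step c hp) (h2.step c ?_)⟩
  · rw [Int.odd_iff] at hp ⊢; omega
  · have := CharTwo.add_self_eq_zero (ind (x.2 ≤ t))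
    linear_combination h1.left s t hc + h2.left s t hc + this
  · rw [h1.right s t hc, h2.right s t hc, add_zero]
  · rw [Int.odd_iff] at hp ⊢; omega

end ColSA

open ColSA

theorem s_Col : S_Col := by
  intro L τ n
  induction n generalizing τ with
  | zero =>
    intro g
    rw [top, comp_o]
    constructor
    · intro h
      exact ⟨fun i _ => h i, fun _ _ => 0, fun _ _ => 0, ⟨fun _ _ _ _ _ => ⟨rfl, rfl⟩,
        fun _ _ _ _ _ => ⟨rfl, rfl⟩, fun _ _ => rfl, fun _ _ => rfl, fun _ _ => rfl⟩,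
        fun i _ => (h i).symm⟩
    · rintro ⟨h0, fH, fV, hc, e⟩ i
      by_cases hi : i < L
      · rw [← e i hi]; exact hc.roof i hi
      · exact h0 i (by omega)
  | succ n ih =>
    intro g
    rw [top, comp_dbl _ _ (bd_top _ _ _ _), top_sh]
    refine and_congr_right fun h0 => ?_
    constructor
    · rintro ⟨f, m, V1, V2, e1, e2, e3, e4, e5, e6⟩
      obtain ⟨-, fH, fV, hc, e⟩ := (ih _ _).1 e1
      refine ⟨fun s => two (g s) (m s) (fH s), fun s => two (V2 s) (V1 s) (fV s),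
        ⟨fun s t hs ht hτ => ?_, fun s t hs ht hτ => ?_, fun r hr => ?_, fun t ht => ?_,
          fun s hs => hc.roof s hs⟩, fun _ _ => rfl⟩
      · rcases three t with rfl | rfl | ⟨t, rfl⟩
        · exact (e6 s hs).1 hτ
        · have := (e5 s hs).1 hτ
          rw [← e s hs] at this; exact this
        · exact hc.tt s t hs (by omega) ((sh_apply _ _ _).trans hτ)
      · rcases three t with rfl | rfl | ⟨t, rfl⟩
        · exact (e6 s hs).2 hτ
        · have := (e5 s hs).2 hτ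
          rw [← e s hs] at this; exact this
        · exact hc.ff s t hs (by omega) ((sh_apply _ _ _).trans hτ)
      · rcases r with _ | r
        · exact e2
        · exact hc.cups r (by omega)
      · rcases three t with rfl | rfl | ⟨t, rfl⟩
        · exact e4
        · exact e3
        · exact hc.wall t (by omega)
    · rintro ⟨fH, fV, hc, e⟩
      refine ⟨fun i => if i < L then fH i 2 else 0, fun s => fH s 1, fun s => fV s 1,
        fun s => fV s 0, (ih _ _).2 ⟨fun i hi => if_neg (by omega), fun s t => fH s (t + 2),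
          fun s t => fV s (t + 2), ⟨fun s t hs ht hτ => ?_, fun s t hs ht hτ => ?_, fun r hr => ?_,
            fun t ht => hc.wall _ (by omega), fun s hs => hc.roof s hs⟩,
          fun i hi => (if_pos hi).symm⟩, hc.cups 0 (by omega), hc.wall 1 (by omega),
        hc.wall 0 (by omega), fun s hs => ?_, fun s hs => ?_⟩
      · exact hc.tt s (t + 2) hs (by omega) ((sh_apply _ _ _).symm.trans hτ)
      · exact hc.ff s (t + 2) hs (by omega) ((sh_apply _ _ _).symm.trans hτ)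
      · exact hc.cups (r + 1) (by omega)
      · simp only [if_pos hs]
        exact ⟨hc.tt s 1 hs (by omega), hc.ff s 1 hs (by omega)⟩
      · rw [← e s hs]
        exact ⟨hc.tt s 0 hs (by omega), hc.ff s 0 hs (by omega)⟩

theorem s_Cross : S_Cross := by
  intro τ S a b h
  refine h.ind (P := fun x => ∃ J, Par τ S a x J) ⟨fun _ => 0, fun _ _ _ => ?_, fun _ _ _ => ?_,
    fun _ _ _ => rfl, fun _ _ => ?_⟩ fun x y h1 h2 ⟨J, hJ⟩ => ?_
  · rw [CharTwo.add_self_eq_zero, CharTwo.add_self_eq_zero]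
  · rw [CharTwo.add_self_eq_zero]
  · rw [CharTwo.add_self_eq_zero, CharTwo.add_self_eq_zero]
  · obtain ⟨K, hK⟩ := par_link h2
    exact ⟨_, par_trans hJ hK h1.even⟩

end Pool.Agent.P.MP_6c8efb_pr.Arm
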