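import Pool.Agent.P.MP_6c8efb_pr.Arm.Iface

/-! The transfer matrix is a contraction on the vectors with vanishing sum. -/

open Filter Topology

namespace Pool.Agent.P.MP_6c8efb_pr.Arm

theorem n1_nonneg (v : W) : 0 ≤ n1 v := Finset.sum_nonneg fun _ _ => norm_nonneg _

theorem n1_eq_sum {v : W} {s : Finset St} (h : v.support ⊆ s) : n1 v = ∑ p ∈ s, ‖v p‖ :=
  Finsupp.sum_of_support_subset v h _ (by simp)

@[simp] theorem n1_zero : n1 0 = 0 := by simp [n1]

@[simp] theorem n1_single (p : St) (c : ℂ) : n1 (Finsupp.single p c) = ‖c‖ := by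
  unfold n1
  rw [Finsupp.sum_single_index (by simp)]

theorem n1_add (v w : W) : n1 (v + w) ≤ n1 v + n1 w := by
  classical
  rw [n1_eq_sum (Finsupp.support_add (g₁ := v) (g₂ := w)),
    n1_eq_sum (v := v) (s := v.support ∪ w.support) Finset.subset_union_left,
    n1_eq_sum (v := w) (s := v.support ∪ w.support) Finset.subset_union_right,
    ← Finset.sum_add_distrib]
  exact Finset.sum_le_sum fun p _ => norm_add_le _ _

theorem n1_smul (c : ℂ) (v : W) : n1 (c • v) = ‖c‖ * n1 v := by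
  rw [n1_eq_sum (Finsupp.support_smul (b := c) (g := v)), n1_eq_sum (v := v) subset_rfl,
    Finset.mul_sum]
  exact Finset.sum_congr rfl fun p _ => by simp

theorem n1_eq_zero {v : W} (h : n1 v = 0) : v = 0 := by
  rw [n1_eq_sum (v := v) subset_rfl,
    Finset.sum_eq_zero_iff_of_nonneg fun _ _ => norm_nonneg _] at h
  ext p
  by_contra e
  exact e (norm_eq_zero.1 (h p (Finsupp.mem_support_iff.2 e)))

theorem n1_sum_le {ι : Type*} (s : Finset ι) (f : ι → W) :
    n1 (∑ i ∈ s, f i) ≤ ∑ i ∈ s, n1 (f i) :=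
  Finset.le_sum_of_subadditive n1 n1_zero.le n1_add s f

theorem n1_lm (f : St → St) (v : W) : n1 (lm f v) ≤ n1 v := by
  conv_lhs => rw [← Finsupp.sum_single v, Finsupp.sum, map_sum]
  refine (n1_sum_le _ _).trans (le_of_eq ?_)
  simp [n1_eq_sum (v := v) subset_rfl]

namespace ContrA

/-- bounded endomorphisms -/
def Bdd (A : Module.End ℂ W) (u : ℝ) : Prop := ∀ v, n1 (A v) ≤ u * n1 v

theorem bdd_lm (f : St → St) : Bdd (lm f) 1 := fun v => by simpa using n1_lm f v

theorem bdd_one : Bdd 1 1 := fun v => by simp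

theorem Bdd.mul {A B : Module.End ℂ W} {u w : ℝ} (hA : Bdd A u) (hB : Bdd B w) (hu : 0 ≤ u) :
    Bdd (A * B) (u * w) := fun v => by
  rw [mul_assoc]
  exact (hA _).trans (mul_le_mul_of_nonneg_left (hB v) hu)

theorem Bdd.add {A B : Module.End ℂ W} {u w : ℝ} (hA : Bdd A u) (hB : Bdd B w) :
    Bdd (A + B) (u + w) := fun v => by
  rw [add_mul]
  exact (n1_add _ _).trans (add_le_add (hA v) (hB v))

theorem Bdd.smul {A : Module.End ℂ W} {u w : ℝ} {c : ℂ} (hA : Bdd A u) (hc : ‖c‖ ≤ w) :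
    Bdd (c • A) (w * u) := fun v => by
  rw [LinearMap.smul_apply, n1_smul, mul_assoc]
  exact mul_le_mul hc (hA v) (n1_nonneg _) ((norm_nonneg _).trans hc)

theorem Bdd.congr {A : Module.End ℂ W} {u w : ℝ} (hA : Bdd A u) (h : u = w) : Bdd A w := h ▸ hA

theorem bdd_R {u : ℝ} {x : ℂ} (i : ℕ) (h1 : ‖ah x‖ ≤ u) (h2 : ‖ac x‖ ≤ u) : Bdd (R i x) (2 * u) :=
  ((bdd_one.smul h1).add ((bdd_lm (ee i)).smul h2)).congr (by ring)

theorem row_snoc (a : ℕ) (l : List ℂ) (x : ℂ) :
    row a (l ++ [x]) = R (a + l.length) x * row a l := by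
  rw [row_append]; simp [row]

theorem row_split {u : ℝ} (hu : 0 ≤ u) (b : ℕ → Bool) (a : ℕ) (l : List ℂ)
    (h : ∀ x ∈ l, ‖ah x‖ ≤ u ∧ ‖ac x‖ ≤ u) :
    Bdd (row a l) ((2 * u) ^ l.length) ∧ ∃ c : ℂ, ‖c‖ ≤ u ^ l.length ∧
      Bdd (row a l - c • lm (rowS b a l.length)) ((2 * u) ^ l.length - u ^ l.length) := by
  induction l using List.reverseRecOn with
  | nil =>
    refine ⟨by simpa [row] using bdd_one, 1, by simp, fun v => ?_⟩
    have : rowS b a 0 = id := funext fun _ => rfl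
    simp [row, this, lm_id]
  | append_singleton l x ih =>
    obtain ⟨h1, c, hc, h2⟩ := ih fun y hy => h y (by simp [hy])
    obtain ⟨x1, x2⟩ := h x (by simp)
    have hR := bdd_R (a + l.length) x1 x2
    have h2u : 0 ≤ 2 * u := by linarith
    rw [row_snoc, List.length_append, List.length_singleton]
    refine ⟨(hR.mul h1 h2u).congr (by ring), ?_⟩
    cases hb : b l.length with
    | true =>
      have e : lm (rowS b a (l.length + 1)) = Ee (a + l.length) * lm (rowS b a l.length) := by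
        rw [Ee, lm_mul]; exact lm_congr fun p => by simp [rowS, hb]
      have n1 : ‖ac x * c‖ ≤ u * u ^ l.length := by
        rw [norm_mul]; exact mul_le_mul x2 hc (norm_nonneg _) hu
      have n2 : ‖ah x * c‖ ≤ u * u ^ l.length := by
        rw [norm_mul]; exact mul_le_mul x1 hc (norm_nonneg _) hu
      refine ⟨ac x * c, n1.trans_eq (by ring), ?_⟩
      have e2 : R (a + l.length) x * row a l - (ac x * c) • lm (rowS b a (l.length + 1)) =
          R (a + l.length) x * (row a l - c • lm (rowS b a l.length)) +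
            (ah x * c) • lm (rowS b a l.length) := by
        rw [e]
        refine LinearMap.ext fun v => ?_
        simp only [R, Module.End.mul_apply, LinearMap.sub_apply, LinearMap.add_apply,
          LinearMap.smul_apply, Module.End.one_apply, map_sub, map_smul]
        module
      rw [e2]
      exact ((hR.mul h2 h2u).add ((bdd_lm _).smul n2)).congr (by ring)
    | false =>
      have e : lm (rowS b a (l.length + 1)) = lm (rowS b a l.length) :=
        lm_congr fun p => by simp [rowS, hb]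
      have n1 : ‖ah x * c‖ ≤ u * u ^ l.length := by
        rw [norm_mul]; exact mul_le_mul x1 hc (norm_nonneg _) hu
      have n2 : ‖ac x * c‖ ≤ u * u ^ l.length := by
        rw [norm_mul]; exact mul_le_mul x2 hc (norm_nonneg _) hu
      refine ⟨ah x * c, n1.trans_eq (by ring), ?_⟩
      have e2 : R (a + l.length) x * row a l - (ah x * c) • lm (rowS b a (l.length + 1)) =
          R (a + l.length) x * (row a l - c • lm (rowS b a l.length)) +
            (ac x * c) • (Ee (a + l.length) * lm (rowS b a l.length)) := by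
        rw [e]
        refine LinearMap.ext fun v => ?_
        simp only [R, Module.End.mul_apply, LinearMap.sub_apply, LinearMap.add_apply,
          LinearMap.smul_apply, Module.End.one_apply, map_sub, map_smul]
        module
      rw [e2]
      exact ((hR.mul h2 h2u).add (((bdd_lm _).mul (bdd_lm _) zero_le_one).smul n2)).congr (by ring)

theorem reset (h : S_Reset) {L : ℕ} {v : W} (hv : Sup L v) (h0 : tot v = 0) :
    lm (rowS (fun i => decide (Odd i)) 1 L) (Cup 0 v) = 0 := by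
  have := Sup.ext (f := lm (rowS (fun i => decide (Odd i)) 1 L) ∘ₗ Cup 0)
    (g := tot.smulRight (Finsupp.single (rowS (fun i => decide (Odd i)) 1 L (cup 0 o)) (1 : ℂ)))
    (fun p hp => by simp [Cup, h L p hp]) hv
  simpa [h0] using this

theorem norm_ah {x : ℂ} {ε : ℝ} (h : ‖x - 1‖ < ε) : ‖ah x‖ ≤ 1 + ε := by
  have : ah x = 1 - q ^ 2 * (x - 1) := by unfold ah; linear_combination (-1 : ℂ) * q_eq
  rw [this]
  refine (norm_sub_le _ _).trans ?_
  rw [norm_mul, norm_pow, norm_q]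
  simp [h.le]

theorem norm_ac {x : ℂ} {ε : ℝ} (h : ‖x - 1‖ < ε) : ‖ac x‖ ≤ 1 + ε := by
  have : ac x = 1 - q * (x - 1) := by unfold ac; linear_combination (-1 : ℂ) * q_eq
  rw [this]
  refine (norm_sub_le _ _).trans ?_
  rw [norm_mul, norm_q]
  simp [h.le]

theorem norm_nrm {ε : ℝ} (hε : ε ≤ 2) (l : List ℂ) (h : ∀ x ∈ l, ‖x - 1‖ < ε) :
    ((2 - ε) ^ 2) ^ l.length ≤ ‖nrm l‖ := by
  induction l with
  | nil => simp
  | cons x l ih =>
    rw [nrm_cons, norm_mul, norm_pow, List.length_cons, pow_succ _ l.length, mul_comm]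
    have h1 : 2 - ε ≤ ‖1 + x‖ := by
      have e : (1 + x) = 2 - (1 - x) := by ring
      have := norm_sub_norm_le (2 : ℂ) (1 - x)
      rw [← e, norm_sub_rev] at this
      have h2 := h x (by simp)
      simp only [Complex.norm_ofNat] at this
      linarith
    exact mul_le_mul (pow_le_pow_left₀ (by linarith) h1 2) (ih fun y hy => h y (by simp [hy]))
      (by positivity) (by positivity)

theorem exists_eps (L : ℕ) : ∃ ε : ℝ, 0 < ε ∧ ε ≤ 1 ∧
    (2 * (1 + ε)) ^ L * ((2 * (1 + ε)) ^ L - (1 + ε) ^ L) ≤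
      (1 - (1 / 2) ^ L / 2) * ((2 - ε) ^ 2) ^ L := by
  have hc : ContinuousAt (fun ε : ℝ => (1 - (1 / 2) ^ L / 2) * ((2 - ε) ^ 2) ^ L -
      (2 * (1 + ε)) ^ L * ((2 * (1 + ε)) ^ L - (1 + ε) ^ L)) 0 := by fun_prop
  have h0 : 0 < (1 - (1 / 2 : ℝ) ^ L / 2) * ((2 - 0) ^ 2) ^ L -
      (2 * (1 + 0)) ^ L * ((2 * (1 + 0)) ^ L - (1 + 0) ^ L) := by
    have e1 : ((2 - 0 : ℝ) ^ 2) ^ L = 2 ^ L * 2 ^ L := by rw [sub_zero, pow_two, mul_pow]
    have e2 : (1 / 2 : ℝ) ^ L * 2 ^ L = 1 := by rw [← mul_pow]; norm_num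
    have e3 : (0 : ℝ) < 2 ^ L := by positivity
    rw [e1]
    simp only [add_zero, mul_one, one_pow]
    nlinarith
  have h1 := (hc.eventually (lt_mem_nhds h0)).and (Iic_mem_nhds (zero_lt_one' ℝ))
  obtain ⟨ε, ⟨h2, h3⟩, h4⟩ := ((h1.filter_mono nhdsWithin_le_nhds).and
    (self_mem_nhdsWithin (s := Set.Ioi (0 : ℝ)))).exists
  exact ⟨ε, h4, h3, by linarith⟩

end ContrA

open ContrA

theorem s_Contr (h : S_Reset) : S_Contr := by
  intro L
  obtain ⟨ε, e0, e1, e2⟩ := exists_eps L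
  have p1 : (0 : ℝ) < (1 / 2) ^ L := by positivity
  have p2 : (1 / 2 : ℝ) ^ L ≤ 1 := pow_le_one₀ (by norm_num) (by norm_num)
  refine ⟨ε, 1 - (1 / 2) ^ L / 2, e0, by linarith, by linarith, fun l hl hx v hv h0 => ?_⟩
  subst hl
  have hu : 0 ≤ 1 + ε := by linarith
  have hb : ∀ x ∈ l, ‖ah x‖ ≤ 1 + ε ∧ ‖ac x‖ ≤ 1 + ε := fun x m =>
    ⟨norm_ah (hx x m), norm_ac (hx x m)⟩
  obtain ⟨-, c, -, h2⟩ := row_split hu (fun i => decide (Odd i)) 1 l hb
  obtain ⟨h1, -⟩ := row_split hu (fun _ => true) 0 l hb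
  have e : TM l v = (Cap l.length * (Cap (l.length + 1) * (row 0 l *
      ((row 1 l - c • lm (rowS (fun i => decide (Odd i)) 1 l.length)) * Cup 0)))) v := by
    simp only [TM, Module.End.mul_apply, LinearMap.sub_apply, LinearMap.smul_apply,
      reset h hv h0, smul_zero, sub_zero]
  have hle : (1 + ε) ^ l.length ≤ (2 * (1 + ε)) ^ l.length :=
    pow_le_pow_left₀ hu (by linarith) _
  have hB := (bdd_lm (cap l.length)).mul ((bdd_lm (cap (l.length + 1))).mul
    (h1.mul (h2.mul (bdd_lm (cup 0)) (by linarith)) (by positivity)) zero_le_one) zero_le_one v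
  rw [e]
  refine hB.trans (mul_le_mul_of_nonneg_right ?_ (n1_nonneg v))
  rw [one_mul, one_mul, mul_one]
  exact e2.trans (mul_le_mul_of_nonneg_left (norm_nrm (by linarith) l hx) (by linarith))

theorem s_Uniq (h : S_Contr) : S_Uniq := by
  intro L
  obtain ⟨ε, θ, e0, t0, t1, hc⟩ := h L
  refine ⟨min ε 1, lt_min e0 one_pos, fun l hl hx v hv h0 => ?_⟩
  have h1 := hc l hl (fun x m => (hx x m).trans_le (min_le_left _ _)) v (hl ▸ hv.1) h0
  have h2 := norm_nrm (ε := 1) (by norm_num) l fun x m => (hx x m).trans_le (min_le_right _ _)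
  have h3 : 0 < ‖nrm l‖ := lt_of_lt_of_le (by positivity) h2
  rw [hv.2, n1_smul] at h1
  refine n1_eq_zero (le_antisymm ?_ (n1_nonneg v))
  by_contra hn
  have := mul_pos (mul_pos (sub_pos.2 t1) h3) (not_le.1 hn)
  linarith

end Pool.Agent.P.MP_6c8efb_pr.Arm
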