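import Pool.Agent.P.MP_6c8efb_pr.Arm.Iface

/-! Divided differences of Laurent polynomials and extension of identities. -/

open Polynomial

namespace Pool.Agent.P.MP_6c8efb_pr.Arm

namespace DdA

theorem mono_append {n₁ n₂ : List ℤ} {l₁ l₂ : List ℂ} (h : n₁.length = l₁.length) :
    mono (n₁ ++ n₂) (l₁ ++ l₂) = mono n₁ l₁ * mono n₂ l₂ := by
  simp only [mono]
  rw [List.zipWith_append h, List.prod_append]

theorem mono_cons (a : ℤ) (n : List ℤ) (x : ℂ) (l : List ℂ) :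
    mono (a :: n) (x :: l) = x ^ a * mono n l := by
  simp [mono]

theorem mono_nil : mono [] [] = 1 := by simp [mono]

theorem mono_mem {L d : ℕ} {n : List ℤ} (h : n.length = L) (hd : ∀ k ∈ n, |k| ≤ d) :
    mono n ∈ LPs L d := Submodule.subset_span ⟨n, h, hd, rfl⟩

theorem split1 (n : List ℤ) (i : ℕ) (h : i + 1 ≤ n.length) :
    ∃ n₁ a n₂, n = n₁ ++ a :: n₂ ∧ n₁.length = i := by
  refine ⟨n.take i, n[i], n.drop (i + 1), ?_, by simp; omega⟩
  rw [← List.drop_eq_getElem_cons (by omega), List.take_append_drop]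

theorem split2 (n : List ℤ) (i : ℕ) (h : i + 2 ≤ n.length) :
    ∃ n₁ a b n₂, n = n₁ ++ a :: b :: n₂ ∧ n₁.length = i := by
  obtain ⟨n₁, a, n₂, rfl, h1⟩ := split1 n i (by omega)
  cases n₂ with
  | nil => simp at h; omega
  | cons b n₂ => exact ⟨n₁, a, b, n₂, rfl, h1⟩

/-- Laurent polynomials in two variables -/
def S2 (d : ℕ) : Submodule ℂ (ℂ → ℂ → ℂ) :=
  Submodule.span ℂ {h | ∃ a b : ℤ, |a| ≤ d ∧ |b| ≤ d ∧ h = fun x y => x ^ a * y ^ b}

/-- Laurent polynomials in one variable -/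
def S1 (d : ℕ) : Submodule ℂ (ℂ → ℂ) :=
  Submodule.span ℂ {h | ∃ a : ℤ, |a| ≤ d ∧ h = fun x => x ^ a}

theorem key2_ge (d : ℕ) (b : ℤ) (k : ℕ) (ha : |b + k| ≤ d) (hb : |b| ≤ d) :
    ∃ h ∈ S2 d, ∀ x y : ℂ, x ≠ 0 → y ≠ 0 →
      (q ^ 2 * x - y) * (y ^ (b + k) * x ^ b - x ^ (b + k) * y ^ b) = (x - y) * h x y := by
  set U : ℕ → ℂ → ℂ → ℂ := fun r x y => x ^ (b + r) * y ^ (b + k - r) with hU
  have mem : ∀ r, r ≤ k → U r ∈ S2 d := fun r hr => by
    refine Submodule.subset_span ⟨b + r, b + k - r, ?_, ?_, rfl⟩ <;>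
    · rw [abs_le] at *; constructor <;> omega
  refine ⟨-∑ r ∈ Finset.range k, (q ^ 2 • U (r + 1) - U r), ?_, fun x y hx hy => ?_⟩
  · refine Submodule.neg_mem _ (Submodule.sum_mem _ fun r hr => ?_)
    have := Finset.mem_range.1 hr
    exact Submodule.sub_mem _ (Submodule.smul_mem _ _ (mem _ (by omega))) (mem _ (by omega))
  · set w : ℕ → ℂ := fun r => x ^ (b + r) * y ^ (b + k - r - 1) with hw
    have e1 : ∀ r : ℕ, U (r + 1) x y = x * w r := fun r => by
      simp only [hU, hw]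
      rw [show b + ((r + 1 : ℕ) : ℤ) = (b + r) + 1 by push_cast; ring,
        show b + k - ((r + 1 : ℕ) : ℤ) = b + k - r - 1 by push_cast; ring, zpow_add_one₀ hx]
      ring
    have e2 : ∀ r : ℕ, U r x y = y * w r := fun r => by
      simp only [hU, hw]
      conv_lhs => rw [show b + k - (r : ℤ) = (b + k - r - 1) + 1 by ring, zpow_add_one₀ hy]
      ring
    have tel := Finset.sum_range_sub (fun r => U r x y) k
    have s1 : ∑ r ∈ Finset.range k, (U (r + 1) x y - U r x y) =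
        (x - y) * ∑ r ∈ Finset.range k, w r := by
      rw [Finset.mul_sum]
      exact Finset.sum_congr rfl fun r _ => by rw [e1 r, e2 r]; ring
    have s2 : (-∑ r ∈ Finset.range k, (q ^ 2 • U (r + 1) - U r)) x y =
        -((q ^ 2 * x - y) * ∑ r ∈ Finset.range k, w r) := by
      rw [Finset.mul_sum]
      simp only [Pi.neg_apply, Finset.sum_apply, Pi.sub_apply, Pi.smul_apply, smul_eq_mul]
      congr 1
      exact Finset.sum_congr rfl fun r _ => by rw [e1 r, e2 r]; ring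
    have uk : U k x y = x ^ (b + k) * y ^ b := by simp [hU]
    have u0 : U 0 x y = y ^ (b + k) * x ^ b := by simp [hU, mul_comm]
    rw [s1, uk, u0] at tel
    rw [s2]
    linear_combination (q ^ 2 * x - y) * tel

theorem key2 (d : ℕ) (a b : ℤ) (ha : |a| ≤ d) (hb : |b| ≤ d) :
    ∃ h ∈ S2 d, ∀ x y : ℂ, x ≠ 0 → y ≠ 0 →
      (q ^ 2 * x - y) * (y ^ a * x ^ b - x ^ a * y ^ b) = (x - y) * h x y := by
  rcases le_total b a with h | h
  · obtain ⟨k, rfl⟩ := Int.le.dest h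
    exact key2_ge d b k ha hb
  · obtain ⟨k, rfl⟩ := Int.le.dest h
    obtain ⟨h, h1, h2⟩ := key2_ge d a k hb ha
    refine ⟨-h, Submodule.neg_mem _ h1, fun x y hx hy => ?_⟩
    simp only [Pi.neg_apply]
    linear_combination -h2 x y hx hy

theorem key1_ge (d : ℕ) (k : ℕ) (hk : k ≤ d) :
    ∃ h ∈ S1 d, ∀ x : ℂ, x ≠ 0 →
      (1 + q * x) * (x ^ (-(k : ℤ)) - x ^ (k : ℤ)) = (1 - x) * h x := by
  set U : ℕ → ℂ → ℂ := fun r x => x ^ (-(k : ℤ) + r) with hU
  have mem : ∀ r, r ≤ 2 * k → U r ∈ S1 d := fun r hr => by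
    refine Submodule.subset_span ⟨-(k : ℤ) + r, ?_, rfl⟩
    rw [abs_le]; constructor <;> omega
  refine ⟨∑ r ∈ Finset.range (2 * k), (U r + q • U (r + 1)), ?_, fun x hx => ?_⟩
  · refine Submodule.sum_mem _ fun r hr => ?_
    have := Finset.mem_range.1 hr
    exact Submodule.add_mem _ (mem _ (by omega)) (Submodule.smul_mem _ _ (mem _ (by omega)))
  · have e1 : ∀ r : ℕ, U (r + 1) x = x * U r x := fun r => by
      simp only [hU]
      rw [show -(k : ℤ) + ((r + 1 : ℕ) : ℤ) = (-(k : ℤ) + r) + 1 by push_cast; ring,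
        zpow_add_one₀ hx]
      ring
    have tel := Finset.sum_range_sub (fun r => U r x) (2 * k)
    have s1 : ∑ r ∈ Finset.range (2 * k), (U (r + 1) x - U r x) =
        (x - 1) * ∑ r ∈ Finset.range (2 * k), U r x := by
      rw [Finset.mul_sum]
      exact Finset.sum_congr rfl fun r _ => by rw [e1 r]; ring
    have s2 : (∑ r ∈ Finset.range (2 * k), (U r + q • U (r + 1))) x =
        (1 + q * x) * ∑ r ∈ Finset.range (2 * k), U r x := by
      rw [Finset.mul_sum]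
      simp only [Finset.sum_apply, Pi.add_apply, Pi.smul_apply, smul_eq_mul]
      exact Finset.sum_congr rfl fun r _ => by rw [e1 r]; ring
    have uk : U (2 * k) x = x ^ (k : ℤ) := by
      simp only [hU]; congr 1; push_cast; ring
    have u0 : U 0 x = x ^ (-(k : ℤ)) := by simp [hU]
    rw [s1, uk, u0] at tel
    rw [s2]
    linear_combination (1 + q * x) * tel

theorem key1 (d : ℕ) (a : ℤ) (ha : |a| ≤ d) :
    ∃ h ∈ S1 d, ∀ x : ℂ, x ≠ 0 → (1 + q * x) * (x⁻¹ ^ a - x ^ a) = (1 - x) * h x := by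
  rw [abs_le] at ha
  obtain ⟨k, rfl | rfl⟩ := Int.eq_nat_or_neg a
  · obtain ⟨h, h1, h2⟩ := key1_ge d k (by omega)
    exact ⟨h, h1, fun x hx => by rw [inv_zpow', h2 x hx]⟩
  · obtain ⟨h, h1, h2⟩ := key1_ge d k (by omega)
    refine ⟨-h, Submodule.neg_mem _ h1, fun x hx => ?_⟩
    rw [inv_zpow', neg_neg, Pi.neg_apply]
    linear_combination -h2 x hx

theorem lift2 {L d : ℕ} (n₁ n₂ : List ℤ) (hL : n₁.length + n₂.length + 2 = L)
    (h1 : ∀ k ∈ n₁, |k| ≤ d) (h2 : ∀ k ∈ n₂, |k| ≤ d) {h : ℂ → ℂ → ℂ} (hh : h ∈ S2 d) :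
    ∃ g ∈ LPs L d, ∀ l₁ x y l₂, l₁.length = n₁.length →
      g (l₁ ++ x :: y :: l₂) = mono n₁ l₁ * h x y * mono n₂ l₂ := by
  induction hh using Submodule.span_induction with
  | mem h hm =>
    obtain ⟨a, b, ha, hb, rfl⟩ := hm
    refine ⟨mono (n₁ ++ a :: b :: n₂), mono_mem (by simp; omega) ?_, fun l₁ x y l₂ hl => ?_⟩
    · intro k hk
      simp only [List.mem_append, List.mem_cons] at hk
      rcases hk with hk | rfl | rfl | hk
      exacts [h1 k hk, ha, hb, h2 k hk]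
    · rw [mono_append hl.symm, mono_cons, mono_cons]; ring
  | zero => exact ⟨0, Submodule.zero_mem _, fun _ _ _ _ _ => by simp⟩
  | add u v _ _ hu hv =>
    obtain ⟨g, g1, g2⟩ := hu
    obtain ⟨g', g3, g4⟩ := hv
    refine ⟨g + g', Submodule.add_mem _ g1 g3, fun l₁ x y l₂ hl => ?_⟩
    simp only [Pi.add_apply]
    rw [g2 _ _ _ _ hl, g4 _ _ _ _ hl]; ring
  | smul c u _ hu =>
    obtain ⟨g, g1, g2⟩ := hu
    refine ⟨c • g, Submodule.smul_mem _ _ g1, fun l₁ x y l₂ hl => ?_⟩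
    simp only [Pi.smul_apply, smul_eq_mul]
    rw [g2 _ _ _ _ hl]; ring

theorem lift1 {L d : ℕ} (n₁ : List ℤ) (hL : n₁.length + 1 = L)
    (h1 : ∀ k ∈ n₁, |k| ≤ d) {h : ℂ → ℂ} (hh : h ∈ S1 d) :
    ∃ g ∈ LPs L d, ∀ l₁ x, l₁.length = n₁.length → g (l₁ ++ [x]) = mono n₁ l₁ * h x := by
  induction hh using Submodule.span_induction with
  | mem h hm =>
    obtain ⟨a, ha, rfl⟩ := hm
    refine ⟨mono (n₁ ++ [a]), mono_mem (by simp; omega) ?_, fun l₁ x hl => ?_⟩
    · intro k hk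
      simp only [List.mem_append, List.mem_singleton] at hk
      rcases hk with hk | rfl
      exacts [h1 k hk, ha]
    · rw [mono_append hl.symm, mono_cons, mono_nil]; ring
  | zero => exact ⟨0, Submodule.zero_mem _, fun _ _ _ => by simp⟩
  | add u v _ _ hu hv =>
    obtain ⟨g, g1, g2⟩ := hu
    obtain ⟨g', g3, g4⟩ := hv
    refine ⟨g + g', Submodule.add_mem _ g1 g3, fun l₁ x hl => ?_⟩
    simp only [Pi.add_apply]
    rw [g2 _ _ hl, g4 _ _ hl]; ring
  | smul c u _ hu =>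
    obtain ⟨g, g1, g2⟩ := hu
    refine ⟨c • g, Submodule.smul_mem _ _ g1, fun l₁ x hl => ?_⟩
    simp only [Pi.smul_apply, smul_eq_mul]
    rw [g2 _ _ hl]; ring

theorem lpd_zpow {d : ℕ} {k : ℤ} (hk : |k| ≤ d) : LPd d fun t => t ^ k := by
  rw [abs_le] at hk
  refine ⟨X ^ (k + d).toNat, by simp; omega, fun t ht => ?_⟩
  rw [eval_pow, eval_X, ← zpow_natCast, ← zpow_natCast, ← zpow_add₀ ht]
  congr 1
  omega

theorem bulk (L d : ℕ) (f : List ℂ → ℂ) (hf : f ∈ LPs L d) (i : ℕ) (hi : i + 2 ≤ L) :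
    ∃ g ∈ LPs L d, ∀ l₁ x y l₂, l₁.length = i →
    (l₁ ++ x :: y :: l₂).length = L → Nz (l₁ ++ x :: y :: l₂) →
    (q ^ 2 * x - y) * (f (l₁ ++ y :: x :: l₂) - f (l₁ ++ x :: y :: l₂)) =
      (x - y) * g (l₁ ++ x :: y :: l₂) := by
  induction hf using Submodule.span_induction with
  | mem f hm =>
    obtain ⟨n, hn, hd, rfl⟩ := hm
    obtain ⟨n₁, a, b, n₂, rfl, h1⟩ := split2 n i (by omega)
    obtain ⟨h, hh, e⟩ := key2 d a b (hd a (by simp)) (hd b (by simp))
    obtain ⟨g, g1, g2⟩ := lift2 (L := L) n₁ n₂ (by simp at hn; omega)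
      (fun k hk => hd k (by simp [hk])) (fun k hk => hd k (by simp [hk])) hh
    refine ⟨g, g1, fun l₁ x y l₂ hl _ hz => ?_⟩
    have hl' : l₁.length = n₁.length := by omega
    simp only [nz_append, nz_cons] at hz
    rw [g2 _ _ _ _ hl', mono_append hl'.symm, mono_append hl'.symm, mono_cons, mono_cons,
      mono_cons, mono_cons]
    linear_combination mono n₁ l₁ * mono n₂ l₂ * e x y hz.2.1 hz.2.2.1
  | zero => exact ⟨0, Submodule.zero_mem _, fun _ _ _ _ _ _ _ => by simp⟩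
  | add u v _ _ hu hv =>
    obtain ⟨g, g1, g2⟩ := hu
    obtain ⟨g', g3, g4⟩ := hv
    refine ⟨g + g', Submodule.add_mem _ g1 g3, fun l₁ x y l₂ hl hL hz => ?_⟩
    simp only [Pi.add_apply]
    linear_combination g2 _ _ _ _ hl hL hz + g4 _ _ _ _ hl hL hz
  | smul c u _ hu =>
    obtain ⟨g, g1, g2⟩ := hu
    refine ⟨c • g, Submodule.smul_mem _ _ g1, fun l₁ x y l₂ hl hL hz => ?_⟩
    simp only [Pi.smul_apply, smul_eq_mul]
    linear_combination c * g2 _ _ _ _ hl hL hz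

theorem bdy (M d : ℕ) (f : List ℂ → ℂ) (hf : f ∈ LPs (M + 1) d) :
    ∃ g ∈ LPs (M + 1) d, ∀ l x, l.length = M → Nz (l ++ [x]) →
    (1 + q * x) * (f (l ++ [x⁻¹]) - f (l ++ [x])) = (1 - x) * g (l ++ [x]) := by
  induction hf using Submodule.span_induction with
  | mem f hm =>
    obtain ⟨n, hn, hd, rfl⟩ := hm
    obtain ⟨n₁, a, n₂, rfl, h1⟩ := split1 n M (by omega)
    obtain rfl : n₂ = [] := List.eq_nil_of_length_eq_zero (by simp at hn; omega)
    obtain ⟨h, hh, e⟩ := key1 d a (hd a (by simp))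
    obtain ⟨g, g1, g2⟩ := lift1 (L := M + 1) n₁ (by omega) (fun k hk => hd k (by simp [hk])) hh
    refine ⟨g, g1, fun l x hl hz => ?_⟩
    have hl' : l.length = n₁.length := by omega
    simp only [nz_append, nz_cons] at hz
    rw [g2 _ _ hl', mono_append hl'.symm, mono_append hl'.symm, mono_cons, mono_cons, mono_nil]
    linear_combination mono n₁ l * e x hz.2.1
  | zero => exact ⟨0, Submodule.zero_mem _, fun _ _ _ _ => by simp⟩
  | add u v _ _ hu hv =>
    obtain ⟨g, g1, g2⟩ := hu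
    obtain ⟨g', g3, g4⟩ := hv
    refine ⟨g + g', Submodule.add_mem _ g1 g3, fun l x hl hz => ?_⟩
    simp only [Pi.add_apply]
    linear_combination g2 _ _ hl hz + g4 _ _ hl hz
  | smul c u _ hu =>
    obtain ⟨g, g1, g2⟩ := hu
    refine ⟨c • g, Submodule.smul_mem _ _ g1, fun l x hl hz => ?_⟩
    simp only [Pi.smul_apply, smul_eq_mul]
    linear_combination c * g2 _ _ hl hz

theorem slice (L d : ℕ) (f : List ℂ → ℂ) (hf : f ∈ LPs L d) (l₁ l₂ : List ℂ)
    (hL : l₁.length + l₂.length + 1 = L) : LPd d fun t => f (l₁ ++ t :: l₂) := by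
  induction hf using Submodule.span_induction with
  | mem f hm =>
    obtain ⟨n, hn, hd, rfl⟩ := hm
    obtain ⟨n₁, a, n₂, rfl, h1⟩ := split1 n l₁.length (by omega)
    refine (((lpd_zpow (hd a (by simp))).const_mul (mono n₁ l₁)).mul_const (mono n₂ l₂)).congr
      fun t _ => ?_
    rw [mono_append h1, mono_cons]; ring
  | zero => exact lpd_const' d 0
  | add u v _ _ hu hv => exact hu.add hv
  | smul c u _ hu => exact hu.const_mul c

theorem fin_pow (n : ℕ) (hn : n ≠ 0) (c : ℂ) : {t : ℂ | t ^ n = c}.Finite := by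
  refine (Polynomial.nthRoots n c).toFinset.finite_toSet.subset fun t ht => ?_
  simpa [Polynomial.mem_nthRoots (Nat.pos_of_ne_zero hn)] using ht

theorem fin_bad (l : List ℂ) : {t : ℂ | t ^ 6 = 1 ∨ ∃ y ∈ l, t ^ 3 = y ^ 3 ∨ t ^ 3 * y ^ 3 = 1}.Finite := by
  refine ((fin_pow 6 (by norm_num) 1).union ((List.finite_toSet l).biUnion fun y _ =>
    (fin_pow 3 (by norm_num) (y ^ 3)).union (fin_pow 3 (by norm_num) (y ^ 3)⁻¹))).subset ?_
  rintro t (h | ⟨y, hy, h | h⟩)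
  · exact Or.inl h
  · exact Or.inr (Set.mem_biUnion hy (Or.inl h))
  · exact Or.inr (Set.mem_biUnion hy (Or.inr (eq_inv_of_mul_eq_one_left h)))

end DdA

theorem s_Dd : S_Dd := ⟨DdA.bulk, DdA.bdy, DdA.slice⟩

theorem s_Ext : S_Ext := by
  intro Φ L U hU hlp hgen
  have main : ∀ (r : ℕ) (l₁ l₂ : List ℂ), l₁.length = r → l₁.length + l₂.length = L → Nz l₁ →
      (∀ x ∈ l₂, x ∈ U) → Gen l₂ → Φ (l₁ ++ l₂) = 0 := by
    intro r
    induction r with
    | zero =>
      intro l₁ l₂ h1 h2 _ h4 h5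
      obtain rfl := List.eq_nil_of_length_eq_zero h1
      exact hgen l₂ (by simpa using h2) h4 h5
    | succ r ih =>
      intro l₁ l₂ h1 h2 h3 h4 h5
      obtain ⟨l, t, rfl⟩ : ∃ l t, l₁ = l ++ [t] := by
        rcases List.eq_nil_or_concat l₁ with rfl | ⟨l, t, rfl⟩
        · simp at h1
        · exact ⟨l, t, by simp⟩
      simp only [List.length_append, List.length_singleton] at h1 h2
      simp only [nz_append, nz_cons] at h3
      rw [List.append_assoc, List.singleton_append]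
      refine (hlp l l₂ (by omega) h3.1 h5.nz).eq_zero (hU.sdiff (DdA.fin_bad l₂)) (fun s hs h0 => ?_)
        h3.2.1
      have hb := hs.2
      simp only [Set.mem_ofPred_eq, not_or, not_exists, not_and] at hb
      refine ih l (s :: l₂) (by omega) (by simp; omega) h3.1 ?_ (gen_cons.2 ⟨⟨h0, hb.1⟩, hb.2, h5⟩)
      intro x hx
      rcases List.mem_cons.1 hx with rfl | hx
      exacts [hs.1, h4 x hx]
  intro l hl hz
  simpa using main l.length l [] rfl (by simpa using hl) hz (by simp) ⟨by simp, by simp⟩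

end Pool.Agent.P.MP_6c8efb_pr.Arm
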