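import Pool.Agent.P.MP_6c8efb_pr.Arm.Iface

/-! The homogeneous determinant as a determinant of odd derivatives. -/

open Polynomial

namespace Pool.Agent.P.MP_6c8efb_pr.Arm

namespace E1A

abbrev PS := PowerSeries ℂ

noncomputable def D : Derivation ℂ PS PS := PowerSeries.derivative ℂ
noncomputable def ng : PS →+* PS := PowerSeries.evalNegHom
noncomputable def cc (a : ℂ) : PS := algebraMap ℂ PS a
noncomputable def E : PS := PowerSeries.exp ℂ
noncomputable def E' : PS := ng E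
noncomputable def Y : PS := cc q * E
noncomputable def u : PS := (Y - 1)⁻¹
noncomputable def v : PS := (Y + 1) * u
noncomputable def S : PS := cc q * E + cc q ^ 2 * E'
noncomputable def S' : PS := cc q * E' + cc q ^ 2 * E
noncomputable def U : PS := E + E'

theorem EE' : E * E' = 1 := PowerSeries.exp_mul_exp_neg_eq_one

theorem cq : cc q ^ 2 + cc q + 1 = 0 := by
  have := congrArg (algebraMap ℂ PS) q_eq
  simpa [cc] using this

theorem coeff_ng (n : ℕ) (f : PS) :
    PowerSeries.coeff n (ng f) = (-1) ^ n * PowerSeries.coeff n f :=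
  PowerSeries.coeff_rescale f (-1) n

theorem ng_cc (a : ℂ) : ng (cc a) = cc a := by
  ext n
  rw [coeff_ng, cc, PowerSeries.algebraMap_apply, PowerSeries.coeff_C]
  split_ifs with h
  · simp [h]
  · simp

theorem ng_E' : ng E' = E := by
  ext n
  rw [E', coeff_ng, coeff_ng, ← mul_assoc, ← mul_pow]; simp

theorem ng_S : ng S = S' := by
  simp only [S, S', map_add, map_mul, map_pow, ng_cc, ng_E']; rfl

theorem ng_aeval (h : ℂ[X]) : ng (aeval S h) = aeval S' h := by
  rw [aeval_def, hom_eval₂, ng_S, aeval_def]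
  congr 1
  ext a : 1
  exact ng_cc a

theorem cE : PowerSeries.constantCoeff E = 1 := PowerSeries.constantCoeff_exp

theorem ccc (a : ℂ) : PowerSeries.constantCoeff (cc a) = a := by
  simp [cc]

theorem cY : PowerSeries.constantCoeff Y = q := by simp [Y, cE, ccc]

theorem Yu : (Y - 1) * u = 1 :=
  PowerSeries.mul_inv_cancel _ (by simpa [cY, sub_eq_zero] using q_ne_one)

theorem cv : PowerSeries.constantCoeff v = v0 := by
  have h := congrArg PowerSeries.constantCoeff Yu
  simp only [map_mul, map_sub, cY, map_one] at h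
  have h1 : q - 1 ≠ 0 := sub_ne_zero.2 q_ne_one
  simp only [v, map_mul, map_add, cY, map_one, v0]
  rw [eq_div_iff h1]
  linear_combination (q + 1) * h

theorem v0_sq : v0 ^ 2 - 1 = -4 / 3 := by
  have h1 : q - 1 ≠ 0 := sub_ne_zero.2 q_ne_one
  rw [v0]
  field_simp
  linear_combination (4 : ℂ) * q_eq

theorem D_cc (a : ℂ) : D (cc a) = 0 := D.map_algebraMap a

theorem DY : D Y = Y := by
  have : D E = E := PowerSeries.derivative_exp ℂ
  rw [Y, D.leibniz, D_cc, this]; simp

theorem Dv : 2 * D v = 1 - v ^ 2 := by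
  have h := congrArg D Yu
  rw [D.leibniz, map_sub, DY, D.map_one_eq_zero] at h
  simp only [smul_eq_mul, sub_zero] at h
  rw [v, D.leibniz, map_add, DY, D.map_one_eq_zero]
  simp only [smul_eq_mul, add_zero]
  linear_combination (2 * (Y + 1) * u) * h + (1 - 2 * (Y + 1) * D u - (Y + 1) * u) * Yu

theorem vS : (v ^ 2 - 1) * (S - 2) = 4 := by
  have h1 : Y * (cc q ^ 2 * E') = 1 := by
    rw [Y]; linear_combination (cc q ^ 3) * EE' + (cc q - 1) * cq
  have h2 : S = Y + cc q ^ 2 * E' := rfl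
  rw [h2, v]
  set Z := cc q ^ 2 * E'
  have h3 : (Y + 1) ^ 2 * u ^ 2 - 1 = 4 * Y * u ^ 2 := by
    linear_combination ((Y - 1) * u + 1) * Yu
  have h4 : Y * (Y + Z - 2) = (Y - 1) ^ 2 := by linear_combination h1
  rw [mul_pow, h3]
  linear_combination (4 * u ^ 2) * h4 + 4 * ((Y - 1) * u + 1) * Yu

theorem D_pow (n : ℕ) : D ((v ^ 2 - 1) ^ n) = -(n : PS) * v * (v ^ 2 - 1) ^ n := by
  induction n with
  | zero => simp
  | succ n ih =>
    rw [pow_succ, D.leibniz, ih, map_sub, D.map_one_eq_zero, sq v, D.leibniz]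
    simp only [smul_eq_mul, sub_zero]
    push_cast
    linear_combination ((v * v - 1) ^ n * v) * Dv

theorem two_ne : (2 : PS) ≠ 0 := by
  intro h
  have := congrArg PowerSeries.constantCoeff h
  simp only [map_ofNat, map_zero] at this
  norm_num at this

theorem step (n : ℕ) (g : ℂ[X]) (H : PS) (h : aeval v g = (v ^ 2 - 1) ^ n * H) :
    aeval v (Dl (n : ℂ) g) = (v ^ 2 - 1) ^ n * D H := by
  have h1 := congrArg D h
  rw [D.map_aeval, D.leibniz, D_pow] at h1
  simp only [smul_eq_mul] at h1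
  have h2 : (2 : PS) * algebraMap ℂ PS (1 / 2) = 1 := by
    rw [← map_ofNat (algebraMap ℂ PS) 2, ← map_mul]; simp
  apply mul_left_cancel₀ two_ne
  simp only [Dl, map_add, map_mul, aeval_C, aeval_X, map_sub, map_pow, map_one, map_natCast,
    Algebra.algebraMap_self, RingHom.id_apply]
  linear_combination 2 * h1 + (2 * (n : PS) * v) * h - (aeval v (derivative g)) * Dv +
    ((1 - v ^ 2) * aeval v (derivative g)) * h2

theorem iter (n k : ℕ) (g : ℂ[X]) (H : PS) (h : aeval v g = (v ^ 2 - 1) ^ n * H) :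
    aeval v ((Dl (n : ℂ))^[k] g) = (v ^ 2 - 1) ^ n * D^[k] H := by
  induction k with
  | zero => simpa using h
  | succ k ih => rw [Function.iterate_succ_apply', Function.iterate_succ_apply']; exact step n _ _ ih

theorem const_aeval (p : ℂ[X]) : PowerSeries.constantCoeff (aeval v p) = p.eval v0 := by
  have : (PowerSeries.constantCoeff (R := ℂ)).comp (algebraMap ℂ PS) = RingHom.id ℂ :=
    RingHom.ext fun a => ccc a
  rw [aeval_def, hom_eval₂, cv, this, eval₂_id]

theorem eval_iter (n k : ℕ) (g : ℂ[X]) (H : PS) (h : aeval v g = (v ^ 2 - 1) ^ n * H) :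
    ((Dl (n : ℂ))^[k] g).eval v0 = (-4 / 3) ^ n * (k.factorial * PowerSeries.coeff k H) := by
  rw [← const_aeval, iter n k g H h, map_mul, map_pow, map_sub, map_pow, cv, map_one, v0_sq]
  congr 1
  exact PowerSeries.constantCoeff_iterate_derivative H k

/-- the polynomials in `S` matching the `gj` -/
noncomputable def pp (a b : ℕ) : ℂ[X] := (X + 1) ^ a * (X - 2) ^ b

noncomputable def hd (K : ℕ) : ℂ[X] := (X + 2) * (X - 1) * (X - 2) ^ K

theorem gj_eq (K l r : ℕ) : cc (4 ^ (K + r + 1)) * aeval v (gj l) =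
    (v ^ 2 - 1) ^ (K + (l + r + 1) + 1) * aeval S (hd K * pp l r) := by
  have h1 : (v ^ 2 - 1) * (S + 2) = 4 * v ^ 2 := by linear_combination vS
  have h2 : (v ^ 2 - 1) * (S - 1) = v ^ 2 + 3 := by linear_combination vS
  have h3 : (v ^ 2 - 1) * (S + 1) = 3 * v ^ 2 + 1 := by linear_combination vS
  have h4 : cc (4 ^ (K + r + 1)) = 4 * (((v ^ 2 - 1) * (S - 2)) ^ K * ((v ^ 2 - 1) * (S - 2)) ^ r) := by
    rw [vS, cc, map_pow, map_ofNat]; ring
  simp only [gj, hd, pp, map_mul, map_pow, map_add, map_sub, aeval_X, map_ofNat, map_one]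
  rw [h4, ← h2, ← h3]
  have : (v ^ 2 - 1) ^ (K + (l + r + 1) + 1) * ((S + 2) * (S - 1) * (S - 2) ^ K * ((S + 1) ^ l * (S - 2) ^ r))
      = ((v ^ 2 - 1) * (S + 2)) * ((v ^ 2 - 1) * (S - 1)) * ((v ^ 2 - 1) * (S + 1)) ^ l *
        (((v ^ 2 - 1) * (S - 2)) ^ K * ((v ^ 2 - 1) * (S - 2)) ^ r) := by
    simp only [mul_pow]; ring
  rw [this, h1]; ring

/-- the odd coefficients -/
noncomputable def ps (K i : ℕ) : ℂ[X] →ₗ[ℂ] ℂ :=
  PowerSeries.coeff (2 * i + 1) ∘ₗ (aeval S).toLinearMap ∘ₗ LinearMap.mulLeft ℂ (hd K)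

theorem ps_apply (K i : ℕ) (h : ℂ[X]) :
    ps K i h = PowerSeries.coeff (2 * i + 1) (aeval S (hd K * h)) := rfl

theorem MM_eq (m K : ℕ) (i l : Fin m) : ps K i (pp l (m - 1 - l)) =
    (-3) ^ K * (((-3 / 4) ^ (m + 1) / (2 * (i : ℕ) + 1).factorial) * MM m (K + m + 1 : ℂ) i l *
      4 ^ (m - l)) := by
  obtain ⟨r, hr⟩ : ∃ r, m = l + r + 1 := ⟨m - 1 - l, by have := l.2; omega⟩
  have e1 : m - 1 - l = r := by omega
  have e2 : m - l = r + 1 := by omega
  have h := gj_eq K l r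
  rw [← hr] at h
  have h4 : (4 : ℂ) ^ (K + r + 1) ≠ 0 := pow_ne_zero _ (by norm_num)
  have h' : aeval v (gj l) = (v ^ 2 - 1) ^ (K + m + 1) *
      (cc (4 ^ (K + r + 1))⁻¹ * aeval S (hd K * pp l r)) := by
    have e : cc (4 ^ (K + r + 1))⁻¹ * cc (4 ^ (K + r + 1)) = 1 := by
      rw [cc, cc, ← map_mul, inv_mul_cancel₀ h4, map_one]
    linear_combination cc (4 ^ (K + r + 1))⁻¹ * h - aeval v (gj l) * e
  have h2 := eval_iter (K + m + 1) (2 * i + 1) _ _ h'
  have e3 : MM m (K + m + 1 : ℂ) i l = ((Dl ((K + m + 1 : ℕ) : ℂ))^[2 * i + 1] (gj l)).eval v0 := by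
    simp [MM]
  rw [e3, h2, e1, e2, ps_apply, cc, ← Algebra.smul_def, map_smul, smul_eq_mul]
  have hf : (((2 * (i : ℕ) + 1).factorial : ℕ) : ℂ) ≠ 0 := by exact_mod_cast Nat.factorial_ne_zero _
  have e4 : ((-4 : ℂ) / 3) ^ (K + m + 1) * (-3 / 4) ^ (m + 1) * (-3) ^ K = 4 ^ K := by
    rw [add_assoc K, pow_add, mul_assoc (_ ^ K), ← mul_pow, mul_right_comm, ← mul_pow]; norm_num
  have e5 : (4 : ℂ) ^ (K + r + 1) = 4 ^ K * 4 ^ (r + 1) := by ring
  rw [e5]
  have h5 : (4 : ℂ) ^ K ≠ 0 := pow_ne_zero _ (by norm_num)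
  have h6 : (4 : ℂ) ^ (r + 1) ≠ 0 := pow_ne_zero _ (by norm_num)
  generalize PowerSeries.coeff (2 * (i : ℕ) + 1) (aeval S (hd K * pp l r)) = z
  generalize ((-4 : ℂ) / 3) ^ (K + m + 1) = a at e4 ⊢
  generalize ((-3 : ℂ) / 4) ^ (m + 1) = b at e4 ⊢
  field_simp
  linear_combination (-z) * e4

theorem pp_mem (m n : ℕ) : ∀ a b, a + b + n + 1 = m →
    pp a b ∈ Submodule.span ℂ (Set.range fun l : Fin m => pp l (m - 1 - l)) := by
  induction n with
  | zero =>
    intro a b h
    refine Submodule.subset_span ⟨⟨a, by omega⟩, ?_⟩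
    have : m - 1 - a = b := by omega
    simp [this]
  | succ n ih =>
    intro a b h
    have e : pp a b = (1 / 3 : ℂ) • (pp (a + 1) b - pp a (b + 1)) := by
      have : pp (a + 1) b - pp a (b + 1) = (3 : ℂ) • pp a b := by
        rw [smul_eq_C_mul, map_ofNat]; simp only [pp]; ring
      rw [this, smul_smul]; norm_num
    rw [e]
    exact Submodule.smul_mem _ _ (Submodule.sub_mem _ (ih _ _ (by omega)) (ih _ _ (by omega)))

theorem Jp_aeval (h : ℂ[X]) : aeval S h - aeval S' h = (S - S') * aeval U (Jp h) := by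
  have hS : S ^ 2 + U * S + (U ^ 2 - 3) = 0 := by
    simp only [S, U]
    linear_combination (2 * cc q ^ 3 + cc q ^ 2 + cc q + 2) * EE' +
      (E ^ 2 + (cc q ^ 2 - cc q + 1) * E' ^ 2 + (2 * cc q - 1)) * cq
  have hS' : S' ^ 2 + U * S' + (U ^ 2 - 3) = 0 := by
    simp only [S', U]
    linear_combination (2 * cc q ^ 3 + cc q ^ 2 + cc q + 2) * EE' +
      (E' ^ 2 + (cc q ^ 2 - cc q + 1) * E ^ 2 + (2 * cc q - 1)) * cq
  have hp : ∀ n : ℕ, S ^ n - S' ^ n = (S - S') * aeval U (Jp (X ^ n : ℂ[X])) := by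
    intro n
    induction n using Nat.twoStepInduction with
    | zero => simp [Jp_one]
    | one => simp [Jp_X]
    | more n h0 h1 =>
      rw [Jp_pow_add_two]
      simp only [map_sub, map_mul, map_neg, aeval_X, map_pow, map_ofNat]
      linear_combination S ^ n * hS - S' ^ n * hS' - U * h1 - (U ^ 2 - 3) * h0
  induction h using Polynomial.induction_on' with
  | add p r hp' hr => rw [Jp_add]; simp only [map_add]; linear_combination hp' + hr
  | monomial n a =>
    rw [← C_mul_X_pow_eq_monomial, Jp_C_mul]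
    simp only [map_mul, aeval_C, map_pow, aeval_X]
    linear_combination (algebraMap ℂ PS a) * hp n

theorem coeff_E (n : ℕ) : PowerSeries.coeff n E = 1 / n.factorial := by
  simp [E]

theorem coeff_E' (n : ℕ) : PowerSeries.coeff n E' = (-1) ^ n * (1 / n.factorial) := by
  rw [E', coeff_ng, coeff_E]

noncomputable def ww (i l : ℕ) : ℂ := PowerSeries.coeff (2 * i + 1) ((E - E') * (U - 2) ^ l)

theorem ww_eq : (∀ i l, i < l → ww i l = 0) ∧ ∀ i, ww i i = 2 := by
  have h2 : ∀ n, PowerSeries.coeff n (2 : PS) = if n = 0 then 2 else 0 := fun n => by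
    rw [← map_ofNat (PowerSeries.C (R := ℂ)) 2, PowerSeries.coeff_C]
  obtain ⟨a, ha⟩ : (PowerSeries.X : PS) ^ 1 ∣ E - E' := by
    rw [PowerSeries.X_pow_dvd_iff]
    intro n hn
    obtain rfl : n = 0 := by omega
    simp [coeff_E, coeff_E', -PowerSeries.coeff_zero_eq_constantCoeff]
  obtain ⟨b, hb⟩ : (PowerSeries.X : PS) ^ 2 ∣ U - 2 := by
    rw [PowerSeries.X_pow_dvd_iff]
    intro n hn
    rw [U, map_sub, map_add, coeff_E, coeff_E', h2]
    interval_cases n <;> norm_num
  have ca : PowerSeries.constantCoeff a = 2 := by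
    have := PowerSeries.coeff_X_pow_mul a 1 0
    rw [← ha, map_sub, coeff_E, coeff_E', PowerSeries.coeff_zero_eq_constantCoeff] at this
    rw [← this]; norm_num
  have cb : PowerSeries.constantCoeff b = 1 := by
    have := PowerSeries.coeff_X_pow_mul b 2 0
    rw [← hb, U, map_sub, map_add, coeff_E, coeff_E', h2,
      PowerSeries.coeff_zero_eq_constantCoeff] at this
    rw [← this]; norm_num
  have e : ∀ l, (E - E') * (U - 2) ^ l = PowerSeries.X ^ (2 * l + 1) * (a * b ^ l) := fun l => by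
    rw [ha, hb, mul_pow, ← pow_mul]; ring
  refine ⟨fun i l h => ?_, fun i => ?_⟩
  · rw [ww, e, PowerSeries.coeff_X_pow_mul', if_neg (by omega)]
  · rw [ww, e, PowerSeries.coeff_X_pow_mul', if_pos le_rfl, Nat.sub_self,
      PowerSeries.coeff_zero_eq_constantCoeff]
    simp [ca, cb]

theorem ps_eq (m K : ℕ) (i : Fin m) (h : ℂ[X]) : ps K i h =
    ∑ l : Fin m, (q - q ^ 2) / 2 * ww i l * (taylor 2 (Jp (hd K * h))).coeff l := by
  set P := Jp (hd K * h)
  have h1 := congrArg (PowerSeries.coeff (2 * (i : ℕ) + 1)) (Jp_aeval (hd K * h))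
  rw [map_sub, ← ng_aeval, coeff_ng, ← ps_apply, Odd.neg_one_pow ⟨_, rfl⟩] at h1
  have h2 : aeval U P = aeval (U - 2) (taylor 2 P) := by
    rw [taylor_apply, aeval_comp]; simp [map_ofNat]
  have h3 : S - S' = (q - q ^ 2) • (E - E') := by
    rw [Algebra.smul_def, map_sub, map_pow]; simp only [S, S', cc]; ring
  have hd' : (taylor 2 P).natDegree < max ((taylor 2 P).natDegree + 1) m := by omega
  rw [h2, h3, aeval_eq_sum_range' hd', Finset.mul_sum, map_sum] at h1
  have h4 : ∑ l ∈ Finset.range (max ((taylor 2 P).natDegree + 1) m),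
      PowerSeries.coeff (2 * (i : ℕ) + 1) ((q - q ^ 2) • (E - E') * (taylor 2 P).coeff l • (U - 2) ^ l) =
      ∑ l ∈ Finset.range m, (q - q ^ 2) * ww i l * (taylor 2 P).coeff l := by
    rw [← Finset.sum_subset (Finset.range_subset_range.2 (le_max_right _ m))]
    · refine Finset.sum_congr rfl fun l _ => ?_
      rw [smul_mul_smul_comm, map_smul, smul_eq_mul, ww]; ring
    · intro l _ hl
      have : (i : ℕ) < l := by have := i.2; simp only [Finset.mem_range] at hl; omega
      have h0 := ww_eq.1 i l this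
      rw [smul_mul_smul_comm, map_smul, smul_eq_mul, ← ww, h0, mul_zero]
  rw [h4, Finset.sum_range] at h1
  have : ∑ l : Fin m, (q - q ^ 2) / 2 * ww i l * (taylor 2 P).coeff l =
      (∑ l : Fin m, (q - q ^ 2) * ww i l * (taylor 2 P).coeff l) / 2 := by
    rw [Finset.sum_div]; exact Finset.sum_congr rfl fun l _ => by ring
  rw [this, ← h1]; ring

end E1A

open E1A in
theorem s_E1 : S_E1 := by
  intro m
  have hB : ∀ j : Fin m, ∃ c : Fin m → ℂ, ∑ l, c l • pp l (m - 1 - l) = pp j 0 := fun j =>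
    (Submodule.mem_span_range_iff_exists_fun ℂ).1 (pp_mem m (m - 1 - j) j 0 (by have := j.2; omega))
  choose B hB using hB
  set W : Matrix (Fin m) (Fin m) ℂ := Matrix.of fun i l => (q - q ^ 2) / 2 * ww i l with hW
  set A1 : Matrix (Fin m) (Fin m) ℂ :=
    Matrix.diagonal fun i => (-3 / 4) ^ (m + 1) / (2 * (i : ℕ) + 1).factorial with hA1
  set A2 : Matrix (Fin m) (Fin m) ℂ := Matrix.of fun l j => 4 ^ (m - l) * B j l with hA2
  have hq : q - q ^ 2 ≠ 0 := by
    have : q - q ^ 2 = q * (1 - q) := by ring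
    rw [this]; exact mul_ne_zero q_ne_zero (sub_ne_zero.2 q_ne_one.symm)
  have hW0 : W.det ≠ 0 := by
    rw [Matrix.det_of_isLowerTriangular W fun i l h => by
      have : (i : ℕ) < l := h
      simp [hW, ww_eq.1 i l this]]
    refine Finset.prod_ne_zero_iff.2 fun i _ => ?_
    simp [hW, ww_eq.2, hq]
  refine ⟨A1.det * A2.det / W.det, fun K => ?_⟩
  have key : W * (Matrix.of fun i j : Fin m =>
      (taylor 2 (Jp ((X + 2) * (X - 1) * (X - 2) ^ K * (X + 1) ^ (j : ℕ) : ℂ[X]))).coeff i) =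
      ((-3 : ℂ) ^ K) • (A1 * MM m (K + m + 1 : ℂ) * A2) := by
    ext i j
    have h1 := ps_eq m K i (pp j 0)
    have h2 := congrArg (ps K i) (hB j)
    rw [map_sum] at h2
    simp only [map_smul, MM_eq, smul_eq_mul] at h2
    have e : hd K * pp j 0 = (X + 2) * (X - 1) * (X - 2) ^ K * (X + 1) ^ (j : ℕ) := by simp [hd, pp]
    rw [e] at h1
    rw [Matrix.smul_apply, Matrix.mul_apply, Matrix.mul_apply, smul_eq_mul, Finset.mul_sum]
    simp only [hW, hA1, hA2, Matrix.of_apply, Matrix.diagonal_mul]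
    rw [← h1, ← h2]
    exact Finset.sum_congr rfl fun l _ => by ring
  have hdet := congrArg Matrix.det key
  rw [Matrix.det_mul, Matrix.det_smul, Matrix.det_mul, Matrix.det_mul, Fintype.card_fin] at hdet
  rw [EH, div_mul_eq_mul_div, div_mul_eq_mul_div, eq_div_iff hW0, mul_comm m K, pow_mul]
  linear_combination hdet

end Pool.Agent.P.MP_6c8efb_pr.Arm
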