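import Pool.Agent.P.MP_6c8efb_pr.Arm.Iface

/-! The product formula for the homogeneous determinant. -/

open Polynomial Finset

namespace Pool.Agent.P.MP_6c8efb_pr.Arm

namespace E4A

/-- the integer roots -/
def s1 (m : ℕ) : Multiset ℕ :=
  ∑ i ∈ range ((m + 1) / 3), (Icc (3 + 3 * i) (m + 1 + (m - 2 - 3 * i) / 2)).val

/-- the half integer roots -/
def s2 (m : ℕ) : Multiset ℕ :=
  ∑ i ∈ range ((m + 2) / 3), (Icc (2 * m + 1 - (m - 1 - 3 * i) / 2) (3 * m - 3 * i)).val

theorem count_le (n K a : ℕ) (f : ℕ → Finset ℕ) (h : ∀ i, i < n → a ∈ f i → i < K) :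
    Multiset.count a (∑ i ∈ range n, (f i).val) ≤ K := by
  rw [Multiset.count_sum']
  have e : ∀ i, Multiset.count a (f i).val = if a ∈ f i then 1 else 0 := fun i =>
    Multiset.count_eq_of_nodup (f i).nodup
  simp only [e]
  rw [← card_filter]
  refine (card_le_card (t := range K) fun i hi => ?_).trans (card_range K).le
  rw [mem_filter, mem_range] at hi
  exact mem_range.2 (h i hi.1 hi.2)

theorem count_s1 (m a : ℕ) : (s1 m).count a ≤ a / 3 - (a - (m + 1)) :=
  count_le _ _ _ _ fun i h1 h2 => by rw [mem_Icc] at h2; omega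

theorem count_s2 (m a : ℕ) : (s2 m).count a ≤ min (m + 1) (a - m) - (a + 2) / 3 :=
  count_le _ _ _ _ fun i h1 h2 => by rw [mem_Icc] at h2; omega

theorem card_sum (n : ℕ) (f : ℕ → Finset ℕ) :
    Multiset.card (∑ i ∈ range n, (f i).val) = ∑ i ∈ range n, (f i).card := by
  rw [Multiset.card_sum]
  rfl

theorem card_s1 (m : ℕ) : (s1 (m + 3)).card = (s1 m).card + (m + 2 + (m + 1) / 2) := by
  simp only [s1, card_sum, Nat.card_Icc]
  rw [show (m + 3 + 1) / 3 = (m + 1) / 3 + 1 by omega, sum_range_succ']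
  congr 1
  · exact sum_congr rfl fun i _ => by omega
  · omega

theorem card_s2 (m : ℕ) : (s2 (m + 3)).card = (s2 m).card + (m + 3 + (m + 2) / 2) := by
  simp only [s2, card_sum, Nat.card_Icc]
  rw [show (m + 3 + 2) / 3 = (m + 2) / 3 + 1 by omega, sum_range_succ']
  congr 1
  · exact sum_congr rfl fun i hi => by rw [mem_range] at hi; omega
  · omega

theorem card_s : ∀ m : ℕ, 2 * ((s1 m).card + (s2 m).card) = m * (m + 1)
  | 0 => by decide
  | 1 => by decide
  | 2 => by decide
  | m + 3 => by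
    have h := card_s m
    have e : (m + 3) * (m + 3 + 1) = m * (m + 1) + 6 * m + 12 := by ring
    rw [card_s1, card_s2]
    omega

theorem prod_sum (n : ℕ) (f : ℕ → Finset ℕ) (g : ℕ → ℂ) :
    ((∑ i ∈ range n, (f i).val).map g).prod = ∏ i ∈ range n, ∏ a ∈ f i, g a := by
  induction n with
  | zero => simp
  | succ n ih => rw [sum_range_succ, Multiset.map_add, Multiset.prod_add, ih, prod_range_succ]; rfl

/-- all the roots -/
noncomputable def rts (m : ℕ) : Multiset ℂ :=
  (s1 m).map (fun a : ℕ => (a : ℂ)) + (s2 m).map fun a : ℕ => (a + 1 / 2 : ℂ)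

theorem eval_rts (m : ℕ) (x : ℂ) : ((rts m).map fun a => X - C a).prod.eval x = eP m x := by
  rw [eval_multiset_prod, Multiset.map_map, rts, Multiset.map_add, Multiset.prod_add,
    Multiset.map_map, Multiset.map_map, s1, s2, prod_sum, prod_sum, eP]
  simp only [Function.comp, eval_sub, eval_X, eval_C, sub_sub]

theorem ne_half (a b : ℕ) : (a : ℂ) ≠ b + 1 / 2 := fun h => by
  have h1 : ((2 * a : ℕ) : ℂ) = (2 * b + 1 : ℕ) := by push_cast; linear_combination 2 * h
  have := Nat.cast_injective h1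
  omega

end E4A

open E4A

theorem s_E4 (h1 : S_E2) (h2 : S_Mult) (h3 : S_Even) (h4 : S_Odd) : S_E4 := by
  intro m
  have ev : ∀ x : ℂ, (MM m x).det = (MM m (X : ℂ[X])).det.eval x := fun x => by
    rw [← (h1 m).2 x]
    exact ((evalRingHom x).map_det _).symm
  by_cases h0 : (MM m (X : ℂ[X])).det = 0
  · exact ⟨0, fun x => by rw [ev, h0, eval_zero, zero_mul]⟩
  have le : rts m ≤ (MM m (X : ℂ[X])).det.roots := by
    rw [Multiset.le_iff_count]
    intro z
    rw [count_roots, rts, Multiset.count_add]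
    by_cases k1 : ∃ a : ℕ, (a : ℂ) = z
    · obtain ⟨a, rfl⟩ := k1
      obtain ⟨w, w1, w2⟩ := h3 m a
      rw [Multiset.count_map_eq_count' _ _ Nat.cast_injective,
        (Multiset.count_eq_zero (a := (a : ℂ))).2 fun h => by
          obtain ⟨b, -, e⟩ := Multiset.mem_map.1 h
          exact ne_half a b e.symm, add_zero]
      exact (count_s1 m a).trans ((le_rootMultiplicity_iff h0).2
        (h2 m _ _ _ w w1 fun r => by rw [(h1 m).2]; exact w2 r))
    · rw [Multiset.count_eq_zero.2 fun h => by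
        obtain ⟨b, -, e⟩ := Multiset.mem_map.1 h
        exact k1 ⟨b, e⟩, zero_add]
      by_cases k2 : ∃ a : ℕ, (a + 1 / 2 : ℂ) = z
      · obtain ⟨a, rfl⟩ := k2
        obtain ⟨w, w1, w2⟩ := h4 m a
        rw [Multiset.count_map_eq_count' (fun a : ℕ => (a + 1 / 2 : ℂ)) _
          fun a b e => Nat.cast_injective (add_right_cancel e)]
        exact (count_s2 m a).trans ((le_rootMultiplicity_iff h0).2
          (h2 m _ _ _ w w1 fun r => by rw [(h1 m).2]; exact w2 r))
      · rw [Multiset.count_eq_zero.2 fun h => by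
          obtain ⟨b, -, e⟩ := Multiset.mem_map.1 h
          exact k2 ⟨b, e⟩]
        exact Nat.zero_le _
  obtain ⟨r, hr⟩ := (Multiset.prod_X_sub_C_dvd_iff_le_roots h0 _).2 le
  have r0 : r ≠ 0 := by rintro rfl; exact h0 (by rw [hr, mul_zero])
  have d1 := (h1 m).1
  rw [hr, (monic_multiset_prod_of_monic _ _ fun a _ => monic_X_sub_C a).natDegree_mul' r0,
    natDegree_multiset_prod_X_sub_C_eq_card, rts, Multiset.card_add, Multiset.card_map,
    Multiset.card_map] at d1
  have d2 := card_s m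
  refine ⟨r.coeff 0, fun x => ?_⟩
  rw [ev, hr, eval_mul, eval_rts, mul_comm, eq_C_of_natDegree_eq_zero (p := r) (by omega), eval_C,
    coeff_C_zero]

end Pool.Agent.P.MP_6c8efb_pr.Arm
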