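import Pool.Agent.P.MP_6c8efb_pr.Arm.Iface

/-! The polynomial form of the determinant and the homogeneous limit. -/

open Polynomial

namespace Pool.Agent.P.MP_6c8efb_pr.Arm

namespace EESA

theorem monic_pr {A : Type} [CommRing A] (ts : List A) : (ts.map fun s => X - C s).prod.Monic := by
  induction ts with
  | nil => simp
  | cons t ts ih => rw [List.map_cons, List.prod_cons]; exact (monic_X_sub_C t).mul ih

theorem natDegree_pr (ts : List ℂ) : (ts.map fun s => X - C s).prod.natDegree = ts.length := by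
  induction ts with
  | nil => simp
  | cons t ts ih =>
    rw [List.map_cons, List.prod_cons, (monic_X_sub_C t).natDegree_mul (monic_pr ts), ih,
      natDegree_X_sub_C, List.length_cons, add_comm]

/-- the entries of the determinant -/
noncomputable def ent {A : Type} [CommRing A] (ts : List A) (G : A[X]) (i j : ℕ) : A :=
  (taylor 2 (Jp (G * (X ^ 2 - 4) * (ts.map fun s => (X - C s) ^ 2).prod * (X + 1) ^ j) %ₘ
      (ts.map fun s => X - C s).prod)).coeff i

theorem EE_eq {A : Type} [CommRing A] (ts : List A) (G : A[X]) {n : ℕ} (h : ts.length = n) :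
    EE ts G = Matrix.det (Matrix.of fun i j : Fin n => ent ts G i j) := by
  subst h; rfl

theorem ent_map {A B : Type} [CommRing A] [CommRing B] (φ : A →+* B) (ts : List A) (G : A[X])
    (i j : ℕ) : ent (ts.map φ) (G.map φ) i j = φ (ent ts G i j) := by
  unfold ent
  rw [← coeff_map, map_taylor, map_modByMonic _ (monic_pr ts), ← Jp_map]
  simp only [Polynomial.map_mul, Polynomial.map_sub, Polynomial.map_pow, Polynomial.map_add, map_X,
    Polynomial.map_one, Polynomial.map_ofNat, Polynomial.map_list_prod, List.map_map,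
    Function.comp_def, map_C, map_ofNat]

theorem EE_map {A B : Type} [CommRing A] [CommRing B] (φ : A →+* B) (ts : List A) (G : A[X]) :
    EE (ts.map φ) (G.map φ) = φ (EE ts G) := by
  rw [EE_eq _ _ (List.length_map _), EE_eq ts G rfl, RingHom.map_det]
  congr 1
  ext i j
  simp [ent_map]

noncomputable def De : List ℂ → ℂ
  | [] => 1
  | t :: ts => (ts.map fun s => s - t).prod * De ts

noncomputable def ka : List ℂ → ℂ
  | [] => 1
  | t :: ts => (ts.map fun s => s ^ 2 + s * t + t ^ 2 - 3).prod * ka ts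

theorem VV_eq (ts : List ℂ) : VV ts = De ts * ka ts := by
  induction ts with
  | nil => simp [VV, De, ka]
  | cons t ts ih =>
    have : (ts.map fun s => UU s - UU t) =
        ts.map fun s => (s - t) * (s ^ 2 + s * t + t ^ 2 - 3) :=
      List.map_congr_left fun s _ => by unfold UU; ring
    rw [VV, De, ka, ih, this, List.prod_map_mul]
    ring

theorem KK_eq (ts : List ℂ) : KK ts = (ts.map fun t => -3 * (t ^ 2 - 1) ^ 2).prod * ka ts := by
  induction ts with
  | nil => simp [KK, ka]
  | cons t ts ih => rw [KK, ka, ih, List.map_cons, List.prod_cons]; ring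

theorem VV_ne {ts : List ℂ} (h : ts.Pairwise fun s t => UU s ≠ UU t) : VV ts ≠ 0 := by
  induction ts with
  | nil => simp [VV]
  | cons t ts ih =>
    rw [List.pairwise_cons] at h
    refine mul_ne_zero (List.prod_ne_zero fun e => ?_) (ih h.2)
    obtain ⟨s, hs, e⟩ := List.mem_map.1 e
    exact h.1 s hs (sub_eq_zero.1 e).symm

theorem vdm (ts : List ℂ) :
    ∏ i : Fin ts.length, ∏ j ∈ Finset.Ioi i, (ts[j] - ts[i]) = De ts := by
  induction ts with
  | nil => simp [De]
  | cons t ts ih =>
    rw [De, ← ih, ← Fin.prod_univ_fun_getElem]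
    change ∏ i : Fin (ts.length + 1), ∏ j ∈ Finset.Ioi i, ((t :: ts)[j] - (t :: ts)[i]) = _
    rw [Fin.prod_univ_succ, Fin.prod_Ioi_zero]
    simp only [Fin.prod_Ioi_succ]
    rfl

theorem Jv_key (f : ℂ[X]) (t : ℂ) :
    Jv ((X ^ 2 - 4) * (X - C t) ^ 2 * f) t = -3 * (t ^ 2 - 1) ^ 2 * Jv f t := by
  have : ((X ^ 2 - 4) * (X - C t) ^ 2 * f : ℂ[X]) = (X ^ 2 + C t * X + C (t ^ 2 - 3)) *
      ((X ^ 2 - 3 * C t * X + 3 * C t ^ 2 - 1) * f) + C (-3 * (t ^ 2 - 1) ^ 2) * f := by
    simp only [map_sub, map_pow, map_mul, map_ofNat, map_neg, map_one]; ring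
  rw [this, Jv_add, Jv_quad_mul, zero_add, Jv_C_mul]

theorem row_eq (ts : List ℂ) (G : ℂ[X]) (i : Fin ts.length) (j : ℕ) :
    ∑ l : Fin ts.length, (ts[i] - 2) ^ (l : ℕ) * ent ts G l j = -3 * (ts[i] ^ 2 - 1) ^ 2 *
      Jv (G * ((ts.eraseIdx i).map fun s => (X - C s) ^ 2).prod * (X + 1) ^ j) ts[i] := by
  unfold ent
  set P := Jp (G * (X ^ 2 - 4) * (ts.map fun s => (X - C s) ^ 2).prod * (X + 1) ^ j) with hP
  set φ := (ts.map fun s => X - C s).prod with hφ
  have hm : φ.Monic := monic_pr ts
  have hd : φ.natDegree = ts.length := natDegree_pr ts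
  have h1 : φ ≠ 1 := fun e => by
    rw [e, natDegree_one] at hd
    have := i.2
    omega
  have h2 : (taylor 2 (P %ₘ φ)).natDegree < ts.length := by
    rw [natDegree_taylor, ← hd]; exact natDegree_modByMonic_lt P hm h1
  have h3 := eval_eq_sum_range' h2 (ts[i] - 2)
  rw [taylor_eval, sub_add_cancel, Finset.sum_range] at h3
  have h4 : φ.eval ts[i] = 0 := by
    rw [hφ, eval_list_prod]
    refine List.prod_eq_zero ?_
    simp only [List.map_map, List.mem_map, Function.comp_def]
    exact ⟨ts[i], List.getElem_mem _, by simp⟩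
  have h5 : (P %ₘ φ).eval ts[i] = P.eval ts[i] := by
    conv_rhs => rw [← modByMonic_add_div P φ, eval_add, eval_mul, h4, zero_mul, add_zero]
  have h6 : (ts.map fun s => (X - C s) ^ 2).prod =
      (X - C ts[i]) ^ 2 * ((ts.eraseIdx i).map fun s => (X - C s) ^ 2).prod := by
    rw [← ((List.getElem_cons_eraseIdx_perm i.2).map _).prod_eq, List.map_cons, List.prod_cons]
    rfl
  rw [← Jv_key, Finset.sum_congr rfl fun l _ => mul_comm _ _, ← h3, h5, hP, Jp_eval, h6]
  congr 1
  ring

theorem De_EE (ts : List ℂ) (G : ℂ[X]) :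
    De ts * EE ts G = (ts.map fun t => -3 * (t ^ 2 - 1) ^ 2).prod * DD ts G := by
  have h1 : (Matrix.vandermonde fun i : Fin ts.length => ts[i] - 2).det = De ts := by
    rw [Matrix.det_vandermonde, ← vdm]
    simp only [sub_sub_sub_cancel_right]
  have h2 := det_monic (n := ts.length) (fun i => JvL ts[i] ∘ₗ
      LinearMap.mulLeft ℂ (G * ((ts.eraseIdx i).map fun s => (X - C s) ^ 2).prod))
    (fun j => (X + 1) ^ (j : ℕ))
    (fun j => by simpa using (monic_X_add_C (1 : ℂ)).pow j)
    (fun j => by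
      have := (monic_X_add_C (1 : ℂ)).natDegree_pow j
      rwa [natDegree_X_add_C, mul_one, map_one] at this)
  simp only [LinearMap.comp_apply, LinearMap.mulLeft_apply, JvL_apply] at h2
  rw [← h1, EE_eq ts G rfl, ← Matrix.det_mul, DD, ← h2, ← Fin.prod_univ_fun_getElem,
    ← Matrix.det_diagonal, ← Matrix.det_mul]
  congr 1
  ext i j
  rw [Matrix.diagonal_mul, Matrix.mul_apply]
  exact row_eq ts G i j

theorem lp_KK (a b : List ℂ) : LP1 fun t => KK (a ++ T t :: b) := by
  induction a with
  | nil =>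
    simp only [List.nil_append, KK]
    exact (((lp1_const _).mul (((lp1_T'.pow 2).sub (lp1_const 1)).pow 2)).mul
      (LP1.listProd b fun s _ => (((lp1_const _).add ((lp1_const s).mul lp1_T')).add
        (lp1_T'.pow 2)).sub (lp1_const 3))).mul (lp1_const _)
  | cons s a ih =>
    simp only [List.cons_append, KK, List.map_append, List.prod_append, List.map_cons,
      List.prod_cons]
    exact ((lp1_const _).mul ((lp1_const _).mul (((((lp1_T'.pow 2).add
      (lp1_T'.mul (lp1_const s))).add (lp1_const _)).sub (lp1_const 3)).mul (lp1_const _)))).mul ih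

theorem ev_C (t : ℂ) : (evalRingHom t).comp (C : ℂ →+* ℂ[X]) = RingHom.id ℂ := by ext; simp

theorem lp_EE₁ (ts u₁ u₂ : List ℂ) : LP1 fun t => EE ts (GG (u₁ ++ t :: u₂)) := by
  refine (lp1_T'.eval (EE (ts.map C) ((GG (u₁ ++ u₂)).map C * (X - C X)))).congr fun t _ => ?_
  rw [← coe_evalRingHom, ← EE_map]
  congr 1
  · simp [List.map_map, Function.comp_def]
  · rw [Polynomial.map_mul, Polynomial.map_map, ev_C, Polynomial.map_id]
    simp only [GG, List.map_append, List.prod_append, List.map_cons, List.prod_cons,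
      Polynomial.map_sub, map_X, map_C, coe_evalRingHom, eval_X]
    ring

theorem lp_EE₂ (a b : List ℂ) (G : ℂ[X]) : LP1 fun t => EE (a ++ T t :: b) G := by
  refine (lp1_T'.eval (EE (a.map C ++ X :: b.map C) (G.map C))).congr fun t _ => ?_
  rw [← coe_evalRingHom, ← EE_map]
  congr 1
  · simp [List.map_map, Function.comp_def]
  · rw [Polynomial.map_map, ev_C, Polynomial.map_id]

theorem EE_hom (k m : ℕ) :
    EE (List.replicate m 2) (GG (List.replicate k 1)) = EH m (2 * m + k + 1) := by
  rw [EE_eq _ _ (List.length_replicate ..), EH]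
  congr 1
  ext i j
  simp only [Matrix.of_apply, ent, GG, List.map_replicate, List.prod_replicate, T_one, map_ofNat]
  have e : ((X - 1) * (X - 2) ^ k * (X ^ 2 - 4) * ((X - 2) ^ 2) ^ m * (X + 1) ^ (j : ℕ) : ℂ[X]) =
      (X + 2) * (X - 1) * (X - 2) ^ (2 * m + k + 1) * (X + 1) ^ (j : ℕ) := by
    rw [← pow_mul]; ring
  rw [e]
  generalize Jp (A := ℂ) _ = P
  conv_rhs => rw [← modByMonic_add_div P ((X - 2) ^ m)]
  have e2 : taylor (2 : ℂ) (X - 2 : ℂ[X]) = X := by
    rw [map_sub, taylor_X, ← map_ofNat C 2, taylor_C]; ring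
  rw [map_add, taylor_mul, taylor_pow, e2, coeff_add, coeff_X_pow_mul', if_neg (by omega), add_zero]

end EESA

open EESA

theorem s_EE : S_EE := by
  intro ts G h
  have h1 := VV_ne h.2
  have h2 := De_EE ts G
  rw [KK_eq, QQ, mul_div_assoc', eq_div_iff h1, VV_eq]
  linear_combination ka ts * h2

theorem s_Hom (h1 : S_EE) (h2 : S_Ext) (h3 : S_Pref) : S_Hom := by
  intro F hN hM k m
  have key := h2 (fun l => NN F (l.take k) [] (l.drop k) * KK ((l.drop k).map T) -
    Pref (l.take k) * EE ((l.drop k).map T) (GG (l.take k))) (k + m) Set.univ Set.infinite_univ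
    (fun l₁ l₂ _ n1 n2 => ?_) (fun l _ _ hG => ?_) (List.replicate (k + m) 1)
    List.length_replicate (nz_replicate _)
  · simp only [List.take_replicate, List.drop_replicate, Nat.add_sub_cancel_left,
      min_eq_left (Nat.le_add_right k m), List.map_replicate, T_one, EE_hom] at key
    exact sub_eq_zero.1 key
  · rcases lt_or_ge l₁.length k with hk | hk
    · obtain ⟨r, rfl⟩ := Nat.exists_eq_add_of_lt hk
      have e1 : ∀ t : ℂ, (l₁ ++ t :: l₂).take (l₁.length + r + 1) = l₁ ++ t :: l₂.take r :=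
        fun t => by rw [add_assoc, List.take_length_add_append, List.take_succ_cons]
      have e2 : ∀ t : ℂ, (l₁ ++ t :: l₂).drop (l₁.length + r + 1) = l₂.drop r :=
        fun t => by rw [add_assoc, List.drop_length_add_append, List.drop_succ_cons]
      simp only [e1, e2]
      exact ((hN.lpu _ _ _ _ n1 (fun x hx => n2 x (List.mem_of_mem_take hx)) nz_nil
        fun x hx => n2 x (List.mem_of_mem_drop hx)).mul (lp1_const _)).sub
        ((h3.lp _ _).mul (lp_EE₁ _ _ _))
    · have e1 : ∀ t : ℂ, (l₁ ++ t :: l₂).take k = l₁.take k :=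
        fun t => List.take_append_of_le_length hk
      have e2 : ∀ t : ℂ, (l₁ ++ t :: l₂).drop k = l₁.drop k ++ t :: l₂ :=
        fun t => List.drop_append_of_le_length hk
      simp only [e1, e2, List.map_append, List.map_cons]
      exact ((hN.lpx _ _ _ _ (fun x hx => n1 x (List.mem_of_mem_take hx)) nz_nil
        (fun x hx => n1 x (List.mem_of_mem_drop hx)) n2).lp1.mul (lp_KK _ _)).sub
        ((lp1_const _).mul (lp_EE₂ _ _ _))
  · have e := hM (l.take k) [] (l.drop k) (by simpa using hG)
    rw [List.append_nil] at e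
    rw [e, h1 _ _ (hG.sublist (List.drop_sublist k l)).genT, Pref]
    ring

end Pool.Agent.P.MP_6c8efb_pr.Arm
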