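import Pool.Agent.P.MP_6c8efb_pr.Arm.Iface

/-! From the event on link patterns to the connections in the strip with a step. -/

namespace Pool.Agent.P.MP_6c8efb_pr.Arm

namespace EvStepA

theorem z2 {u v : ZMod 2} (h : u + v = 0) : u = v := by revert u v; decide

theorem z2' {u v w : ZMod 2} (h : u + v = w) : u = w + v := by revert u v w; decide

theorem ind_pos {P : Prop} [Decidable P] (h : P) : ind P = 1 := if_pos h

theorem ind_neg {P : Prop} [Decidable P] (h : ¬ P) : ind P = 0 := if_neg h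

theorem mem_D {k m h : ℕ} {s t : ℤ} : (s, t) ∈ DReg k m h ↔
    s < k + m ∧ -(h : ℤ) ≤ t ∧ t < h ∧ 0 ≤ s ∧ (t < 0 → (k : ℤ) ≤ s) := Iff.rfl

/-- the corners reached from the row of height zero -/
theorem dom {k m h : ℕ} {τ : TC} {i : ℤ} {z : ℤ × ℤ} (hz : TConn τ (DReg k m h) (i, 0) z) :
    z.2 < 0 → (k : ℤ) ≤ z.1 :=
  hz.ind (P := fun z => z.2 < 0 → (k : ℤ) ≤ z.1) (by simp) fun x y _ h2 _ => by
    obtain ⟨s, t, hc, ⟨-, e⟩ | ⟨-, e⟩⟩ := link_iff.1 h2 <;> rw [mem_D] at hc <;>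
      rcases e with ⟨rfl, rfl⟩ | ⟨rfl, rfl⟩ <;> simp only [] <;> omega

theorem comp_of (h1 : S_Col) {L n : ℕ} {τ : TC} (χ : ℕ → ℕ → ZMod 2)
    (ht : ∀ s t : ℕ, s < L → t < 2 * n → τ (s, t) = true → χ s t = χ (s + 1) (t + 1))
    (hf : ∀ s t : ℕ, s < L → t < 2 * n → τ (s, t) = false → χ (s + 1) t = χ s (t + 1))
    (h3 : ∀ r, χ 0 (2 * r) = 0) (h4 : ∀ t, χ L t = 0) (h5 : ∀ s, χ s (2 * n) = 0) :
    Comp (top L τ 0 n) fun i => if i < L then χ i 0 + χ (i + 1) 0 else 0 := by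
  refine (h1 L τ n _).2 ⟨fun i hi => if_neg (by omega), fun s t => χ s t + χ (s + 1) t,
    fun s t => χ s t + χ s (t + 1), ⟨fun s t a b c => ?_, fun s t a b c => ?_, fun r _ => ?_,
      fun t _ => ?_, fun s _ => ?_⟩, fun i hi => (if_pos hi).symm⟩
  · rw [ht s t a b c]
    exact ⟨add_comm _ _, add_comm _ _⟩
  · rw [hf s t a b c]
    exact ⟨rfl, rfl⟩
  · rw [show 2 * r + 1 + 1 = 2 * (r + 1) by ring, h3, h3, add_comm]
  · rw [h4, h4, add_zero]
  · rw [h5, h5, add_zero]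

/-- the possible targets of a path -/
def outer (k m n : ℕ) (z : ℤ × ℤ) : Prop := z.1 = k + m ∨ z.2 = 2 * n ∨ z.2 = -(2 * n)
def tw (z : ℤ × ℤ) : Prop := z.1 = 0 ∧ 0 ≤ z.2 ∧ z.2 % 2 = 0
def bw (k : ℕ) (z : ℤ × ℤ) : Prop := z.1 = k ∧ z.2 ≤ 0 ∧ z.2 % 2 = 0

theorem lemA (h1 : S_Col) {k m n : ℕ} {τ : TC} (hτ : τ ∈ EvN k m n) {i : ℕ} (hi : i < k) :
    ∃ z, TConn τ (DReg k m (2 * n)) (i, 0) z ∧ (outer k m n z ∨ tw z ∨ bw k z) := by
  classical
  by_contra hc
  let χ : ℤ → ℤ → ZMod 2 := fun a b => ind (TConn τ (DReg k m (2 * n)) (i, 0) (a, b))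
  have hl : ∀ a b a' b' : ℤ, link τ (DReg k m (2 * n)) (a, b) (a', b') → χ a b = χ a' b' :=
    fun a b a' b' h => if_congr ⟨fun e => e.snoc h, fun e => e.snoc h.symm⟩ rfl rfl
  have hT : ∀ s t a b a' b' : ℤ, (s, t) ∈ DReg k m (2 * n) → τ (s, t) = true → a = s → b = t →
      a' = s + 1 → b' = t + 1 → χ a b = χ a' b' := by
    rintro s t _ _ _ _ h e rfl rfl rfl rfl
    exact hl _ _ _ _ (link_iff.2 ⟨_, _, h, Or.inl ⟨e, Or.inl ⟨rfl, rfl⟩⟩⟩)
  have hF : ∀ s t a b a' b' : ℤ, (s, t) ∈ DReg k m (2 * n) → τ (s, t) = false → a = s + 1 → b = t →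
      a' = s → b' = t + 1 → χ a b = χ a' b' := by
    rintro s t _ _ _ _ h e rfl rfl rfl rfl
    exact hl _ _ _ _ (link_iff.2 ⟨_, _, h, Or.inr ⟨e, Or.inl ⟨rfl, rfl⟩⟩⟩)
  have hZ : ∀ a b : ℤ, outer k m n (a, b) ∨ tw (a, b) ∨ bw k (a, b) → χ a b = 0 :=
    fun a b h => ind_neg fun e => hc ⟨_, e, h⟩
  have c1 := comp_of h1 (L := k + m) (n := n) (τ := τ) (fun s t => χ s t)
    (fun s t a b c => hT s t _ _ _ _ (by rw [mem_D]; omega) c rfl rfl (by simp) (by simp))
    (fun s t a b c => hF s t _ _ _ _ (by rw [mem_D]; omega) c (by simp) rfl rfl (by simp))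
    (fun r => hZ _ _ (by simp only [outer, tw, bw]; omega))
    (fun t => hZ _ _ (by simp only [outer, tw, bw]; omega))
    (fun s => hZ _ _ (by simp only [outer, tw, bw]; omega))
  have c2 := comp_of h1 (L := m) (n := n) (τ := flipB k τ) (fun s t => χ (k + s) (-t))
    (fun s t a b c => (hF (k + s) (-1 - t) _ _ _ _ (by rw [mem_D]; omega)
      (by simpa [flipB] using c) (by omega) (by omega) rfl (by omega)).symm)
    (fun s t a b c => (hT (k + s) (-1 - t) _ _ _ _ (by rw [mem_D]; omega)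
      (by simpa [flipB] using c) rfl (by omega) (by omega) (by omega)).symm)
    (fun r => hZ _ _ (by simp only [outer, tw, bw]; omega))
    (fun t => hZ _ _ (Or.inl (Or.inl rfl)))
    (fun s => hZ _ _ (by simp only [outer, tw, bw]; omega))
  have h3 := (hτ _ _ c1 c2 fun j => by
    simp only [zero_add, add_lt_add_iff_left, Nat.cast_add, Nat.cast_zero, neg_zero, Nat.cast_one,
      add_assoc]).1
  have h4 : ∀ j : ℕ, j ≤ k → χ j 0 = 0 := by
    intro j
    induction j with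
    | zero => exact fun _ => hZ _ _ (by simp [tw])
    | succ j ih =>
      intro hj
      have h5 := h3 j hj
      simp only [if_pos (show j < k + m by omega)] at h5
      exact (z2 h5).symm.trans (ih (by omega))
  have h5 : χ i 0 = 1 := ind_pos TConn.refl'
  rw [h4 i hi.le] at h5
  exact zero_ne_one h5

variable {τ : TC} {S : Set (ℤ × ℤ)} {a b w y : ℤ × ℤ} {J : ℤ × ℤ → ZMod 2}

theorem const (hJ : Par τ S a b J) (hw : (w.1 + w.2 + a.1 + a.2) % 2 = 1)
    (ha : ∀ c ∈ S, ¬ (a.2 = c.2 + 1 ∧ c.1 < a.1)) (hb : ∀ c ∈ S, ¬ (b.2 = c.2 + 1 ∧ c.1 < b.1))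
    (h : TConn τ S w y) : J y = J w :=
  h.ind (P := fun y => J y = J w) rfl fun x y h1 h2 ih => by
    have p1 := Int.even_iff.1 h1.even
    have p2 := Int.even_iff.1 (h1.snoc h2).even
    obtain ⟨c, hc, e⟩ := h2
    have h3 := hJ.step c (by rcases e with e | e <;> rw [e, Int.odd_iff] <;> simp only [] <;> omega)
    rw [ind_neg (ha c hc), ind_neg (hb c hc), add_zero] at h3
    rcases e with e | e <;> rw [e] at h3
    · exact (z2 h3).symm.trans ih
    · exact (z2 h3).trans ih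

theorem J_outer {k m n : ℕ} {i : ℤ} (hJ : Par τ (DReg k m (2 * n)) (i, 0) b J) (hn : 1 ≤ n)
    (hb : b.1 ≤ k) (hp : (y.1 + y.2 + i) % 2 = 1) (hd : y.2 < 0 → (k : ℤ) ≤ y.1)
    (hy : outer k m n y) : J y = 0 := by
  obtain ⟨s, t⟩ := y
  simp only [outer] at hy hp hd
  rcases hy with hy | hy | hy
  · exact hJ.right s t fun c hc _ => by have := hc.1; omega
  · exact hJ.right s t fun c hc e => by have := hc.2.2.1; omega
  · have h1 := hJ.down s t (by rw [Int.odd_iff]; simp only []; omega)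
    have h2 := hJ.right s (t - 1) fun c hc e => by have := hc.2.1; omega
    rwa [h2, add_zero, ind_neg (by simp only []; omega), ind_neg (by omega), add_zero] at h1

theorem lemB (h1 : S_Col) (h2 : S_Cross) {k m n : ℕ} (hτ : τ ∈ EvN k m n) (hn : 1 ≤ n) {i : ℕ}
    (hi : 1 ≤ i) (hk : i < k) {z : ℤ × ℤ} (hz : TConn τ (DReg k m (2 * n)) (i, 0) z) : ¬ tw z := by
  rintro ⟨t1, t2, t3⟩
  have p0 := Int.even_iff.1 hz.even
  simp only [] at p0
  obtain ⟨J, hJ⟩ := h2 _ _ _ _ hz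
  obtain ⟨y, hy, ho⟩ := lemA h1 hτ (i := 1) (by omega)
  have p1 := Int.even_iff.1 hy.even
  simp only [Nat.cast_one] at p1 hy
  have e1 := const hJ (w := (1, 0)) (by simp only []; omega)
    (fun c hc => by have := hc.2.2.2.2; simp only []; omega)
    (fun c hc => by have := hc.2.2.2.1; omega) hy
  have hl : ∀ s t : ℤ, s ≤ k → t < 0 → J (s, t) = 0 := fun s t a b => by
    rw [hJ.left s t fun c hc e => by have := hc.2.2.2.2; omega, ind_neg (by simp only []; omega),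
      ind_neg (by omega), add_zero]
  have e2 := hJ.down 1 0 (by rw [Int.odd_iff]; simp only []; omega)
  rw [hl 1 (0 - 1) (by omega) (by omega), add_zero,
    ind_pos (by exact ⟨rfl, by simp only []; omega⟩), ind_neg (by omega), add_zero, ← e1] at e2
  refine zero_ne_one (Eq.trans (Eq.symm ?_) e2)
  rcases ho with ho | ⟨o1, o2, o3⟩ | ⟨o1, o2, o3⟩
  · exact J_outer hJ hn (by omega) (by omega) (dom hy) ho
  · omega
  · obtain ⟨s, t⟩ := y
    simp only [] at o1 o2 o3 p1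
    rcases o2.lt_or_eq with o4 | rfl
    · exact hl s t o1.le o4
    · have e3 := hJ.down s 0 (by rw [Int.odd_iff]; simp only []; omega)
      rwa [hl s (0 - 1) o1.le (by omega), add_zero, ind_neg (by simp only []; omega), ind_neg (by omega),
        add_zero] at e3

theorem lemB' (h1 : S_Col) (h2 : S_Cross) {k m n : ℕ} (hτ : τ ∈ EvN k m n) (hn : 1 ≤ n) {i : ℕ}
    (hk : i < k) {z : ℤ × ℤ} (hz : TConn τ (DReg k m (2 * n)) (i, 0) z) : ¬ bw k z := by
  rintro ⟨t1, t2, t3⟩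
  have p0 := Int.even_iff.1 hz.even
  simp only [] at p0
  obtain ⟨J, hJ⟩ := h2 _ _ _ _ hz
  obtain ⟨j, rfl⟩ : ∃ j, k = j + 1 := ⟨k - 1, by omega⟩
  obtain ⟨y, hy, ho⟩ := lemA h1 hτ (i := j) (by omega)
  have p1 := Int.even_iff.1 hy.even
  simp only [] at p1
  have e1 := const hJ (w := (j, 0)) (by simp only []; omega)
    (fun c hc => by have := hc.2.2.2.2; simp only []; omega)
    (fun c hc => by have := hc.2.2.2.2; omega) hy
  have e2 := hJ.down j 0 (by rw [Int.odd_iff]; simp only []; omega)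
  rw [hJ.left j (0 - 1) fun c hc e => by have := hc.2.2.2.2; omega, ← e1,
    ind_neg (P := ((i : ℤ), (0 : ℤ)).2 ≤ 0 - 1) (by simp),
    ind_neg (P := ((i : ℤ), (0 : ℤ)).2 = 0 ∧ _) (by simp only []; omega), zero_add, zero_add] at e2
  have e3 : J y = 1 := by
    rw [z2' e2]
    rcases t2.lt_or_eq with h | h
    · rw [ind_neg (by omega), ind_pos (by omega), zero_add]
    · rw [ind_pos (by omega), ind_neg (by omega), add_zero]
  refine zero_ne_one (Eq.trans (Eq.symm ?_) e3)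
  rcases ho with ho | ⟨o1, o2, o3⟩ | ⟨o1, o2, o3⟩
  · exact J_outer hJ hn (by omega) (by omega) (dom hy) ho
  · obtain ⟨s, t⟩ := y
    simp only [] at o1 o2 o3
    rw [hJ.left s t fun c hc e => by have := hc.2.2.2.1; omega, ind_pos (by simp only []; omega),
      ind_pos (by omega)]
    decide
  · omega

theorem cross_row {t : ℤ} (h : TConn τ S a b) (ha : a.2 ≤ t) (hb : t < b.2) :
    ∃ s, (s, t) ∈ S ∧ TConn τ S a (ends τ (s, t)).1 := by
  obtain ⟨x, y, hx, hy, h3, h4⟩ := h.exit (A := {z | z.2 ≤ t}) (S' := S) ha (not_le.2 hb)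
    fun c hc _ => hc
  simp only [Set.mem_ofPred_eq] at hx hy
  obtain ⟨⟨s, u⟩, hc, e⟩ := id h4
  have e1 : u = t := by
    unfold ends at e
    split_ifs at e <;> simp only [Prod.ext_iff] at e <;> omega
  subst e1
  refine ⟨s, hc, ?_⟩
  rcases e with e | e <;> rw [e]
  exacts [h3, h3.snoc h4]

theorem alt_row {l L t : ℤ} (h : Alt τ l L t) (hS : ∀ s, l ≤ s → s < L → (s, t) ∈ S) (d : ℕ) :
    ∀ s, l ≤ s → s + d + 1 = L → ∃ z : ℤ × ℤ, z.1 = L ∧ TConn τ S (ends τ (s, t)).1 z := by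
  induction d with
  | zero =>
    intro s h1 h2
    have h3 := (link_ends (τ := τ) (hS s h1 (by omega))).conn
    cases e : τ (s, t)
    · exact ⟨_, by simp only [ends, e]; simpa using h2, .refl'⟩
    · exact ⟨_, by simp only [ends, e]; simpa using h2, h3⟩
  | succ d ih =>
    intro s h1 h2
    obtain ⟨z, h3, h4⟩ := ih (s + 1) (by omega) (by omega)
    refine ⟨z, h3, TConn.trans' ?_ h4⟩
    have h5 := (link_ends (τ := τ) (hS s h1 (by omega))).conn
    have h6 := (link_ends (τ := τ) (hS (s + 1) (by omega) (by omega))).conn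
    have e1 := h s h1 (by omega)
    have e2 := h (s + 1) (by omega) (by omega)
    by_cases hs : Even s
    · have e3 : (ends τ (s, t)).2 = (ends τ (s + 1, t)).2 := by
        rw [decide_eq_true hs] at e1
        rw [decide_eq_false (by simpa [Int.even_add_one] using hs)] at e2
        simp [ends, e1, e2]
      exact h5.trans' (e3 ▸ h6.symm')
    · have e3 : (ends τ (s, t)).1 = (ends τ (s + 1, t)).1 := by
        rw [decide_eq_false hs] at e1
        rw [decide_eq_true (Int.even_add_one.2 hs)] at e2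
        simp [ends, e1, e2]
      exact e3 ▸ .refl'

end EvStepA

open EvStepA in
theorem s_EvStep (h1 : S_Col) (h2 : S_Cross) : S_EvStep := by
  rintro k m n τ hτ ⟨t, t1, t2, t3⟩ ⟨u, u1, u2, u3⟩ - i hi hk
  have hn : 1 ≤ n := by omega
  obtain ⟨z, hz, ho⟩ := lemA h1 hτ hk
  rcases ho with (ho | ho | ho) | ho | ho
  · exact ⟨z, ho, hz⟩
  · obtain ⟨s, hs, h3⟩ := cross_row (t := t) hz t1 (by omega)
    rw [mem_D] at hs
    obtain ⟨y, h4, h5⟩ := alt_row (S := DReg k m (2 * n)) t3 (fun s a b => by rw [mem_D]; omega)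
      (k + m - s - 1).toNat s (by omega) (by omega)
    exact ⟨y, h4, h3.trans' h5⟩
  · obtain ⟨s, hs, h3⟩ := cross_row (t := u) hz.symm' (by omega) u2
    rw [mem_D] at hs
    obtain ⟨y, h4, h5⟩ := alt_row (S := DReg k m (2 * n)) u3 (fun s a b => by rw [mem_D]; omega)
      (k + m - s - 1).toNat s (by omega) (by omega)
    exact ⟨y, h4, (hz.trans' h3).trans' h5⟩
  · exact absurd ho (lemB h1 h2 hτ hn hi hk hz)
  · exact absurd ho (lemB' h1 h2 hτ hn hk hz)

end Pool.Agent.P.MP_6c8efb_pr.Arm
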