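import Pool.Agent.P.MP_6c8efb_pr.Arm.Iface

/-! The gluing event under cups and caps, and the reset row. -/

namespace Pool.Agent.P.MP_6c8efb_pr.Arm

namespace EvsA

theorem up_add (a j k : ℕ) : up (a + j) (a + k) = a + up j k := by
  unfold up; split_ifs <;> omega

theorem symm1 {a b : ℕ} {p r : St} (h : Ev a b p r) : Ev b a r p :=
  fun g f hg hf e => (h f g hf hg fun j => (e j).symm).symm

theorem glue (a b j : ℕ) (p r : St) : Ev a b (cup (a + j) p) r ↔ Ev a b p (cap (b + j) r) := by
  constructor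
  · intro h f' g' hf hg e
    obtain ⟨g, hg, h1, h2⟩ := comp_cap.1 hg
    have := h (ins (a + j) (g (b + j)) f') g (comp_cup.2 ⟨by simp, by simpa using hf⟩) hg fun k => by
      rcases site_cases j k with rfl | rfl | ⟨k, rfl⟩
      · rw [ins_left]
      · rw [← add_assoc, ins_right, ← add_assoc, h1]
      · rw [← up_add, ins_up, e, ← h2, up_add]
    refine ⟨fun i hi => ?_, fun i hi => ?_⟩
    · rw [← this.1 i hi, ins_lt (by omega)]
    · rw [← h2, up_of_lt (by omega), this.2 i hi]
  · intro h f g hf hg e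
    obtain ⟨h1, hf⟩ := comp_cup.1 hf
    have := h _ (fun k => g (up (b + j) k)) hf
      (comp_cap.2 ⟨g, hg, by rw [← e, add_assoc, ← e, ← add_assoc, h1], fun _ => rfl⟩) fun k => by
        simp only [up_add, e]
    refine ⟨fun i hi => ?_, fun i hi => ?_⟩
    · have h3 := this.1 i hi
      rwa [up_of_lt (by omega)] at h3
    · have h3 := this.2 i hi
      rwa [up_of_lt (by omega)] at h3

theorem leg (a b : ℕ) (p r : St) : Ev (a + 1) b (cup a p) r ↔ Ev a (b + 1) p r := by
  constructor
  · intro h f' g hf hg e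
    have := h (ins a (g b) f') g (comp_cup.2 ⟨by simp, by simpa using hf⟩) hg fun k => by
      cases k with
      | zero => simp
      | succ k =>
        rw [show a + 1 + (k + 1) = a + k + 2 by omega, ins_add (by omega), e]
        congr 1; omega
    refine ⟨fun i hi => ?_, fun i hi => ?_⟩
    · rw [← this.1 i (by omega), ins_lt hi]
    · rcases Nat.lt_succ_iff_lt_or_eq.1 hi with hi | rfl
      · exact this.2 i hi
      · simpa using this.1 a (by omega)
  · intro h f g hf hg e
    obtain ⟨h1, hf⟩ := comp_cup.1 hf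
    have := h _ g hf hg fun k => by
      show f (up a (a + k)) = _
      rw [up_of_le (by omega), show a + k + 2 = a + 1 + (k + 1) by omega, e]
      congr 1; omega
    refine ⟨fun i hi => ?_, fun i hi => this.2 i (by omega)⟩
    rcases Nat.lt_succ_iff_lt_or_eq.1 hi with hi | rfl
    · have h3 := this.1 i hi
      rwa [up_of_lt hi] at h3
    · rw [h1]
      exact (e 0).trans (this.2 b (by omega))

theorem arc (a b i : ℕ) (p r : St) (hi : i + 2 ≤ a) : ¬ Ev a b (cup i p) r := by
  intro h
  have := (h (ins i 1 0) 0 (comp_cup.2 ⟨by simp, (comp_congr fun j => by simp).1 (comp_zero p)⟩) (comp_zero r)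
    fun k => by
      rw [show a + k = (a + k - 2) + 2 by omega, ins_add (by omega)]; rfl).1 i (by omega)
  simp at this

theorem comp_cap_last {L : ℕ} {p : St} (hp : Bd (L + 1) p) {f : ℕ → ZMod 2} :
    Comp (cap L p) f ↔ Comp p f ∧ f L = 0 := by
  rw [comp_cap]
  constructor
  · rintro ⟨g, hg, h1, h2⟩
    have h0 : g L = 0 := h1.trans (hg.bd hp le_rfl)
    have e : ∀ j, g j = f j := fun j => by
      rw [← h2]
      rcases lt_trichotomy j L with hj | rfl | hj
      · rw [up_of_lt hj]
      · rw [up_of_le le_rfl, h0, hg.bd hp (by omega)]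
      · rw [up_of_le hj.le, hg.bd hp hj, hg.bd hp (by omega)]
    exact ⟨(comp_congr e).1 hg, by rw [← e, h0]⟩
  · rintro ⟨hf, h0⟩
    refine ⟨f, hf, by rw [h0, hf.bd hp le_rfl], fun j => ?_⟩
    rcases lt_trichotomy j L with hj | rfl | hj
    · rw [up_of_lt hj]
    · rw [up_of_le le_rfl, h0, hf.bd hp (by omega)]
    · rw [up_of_le hj.le, hf.bd hp hj, hf.bd hp (by omega)]

theorem wall (a b m : ℕ) (p r : St) (hp : Bd (a + m + 1) p) (hr : Bd (b + m + 1) r) :
    Ev a b (cap (a + m) p) r ↔ Ev a b p (cap (b + m) r) := by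
  constructor
  · intro h f g hf hg e
    obtain ⟨hg, h0⟩ := (comp_cap_last hr).1 hg
    exact h f g ((comp_cap_last hp).2 ⟨hf, (e m).trans h0⟩) hg e
  · intro h f g hf hg e
    obtain ⟨hf, h0⟩ := (comp_cap_last hp).1 hf
    exact h f g hf ((comp_cap_last hr).2 ⟨hg, (e m).symm.trans h0⟩) e

theorem base1 {a b : ℕ} {p r : St} (hp : Bd a p) (h : Ev a b p r) : p = o := by
  refine St.ext_comp fun f => ⟨fun hf => comp_o.2 fun i => ?_, fun hf => ?_⟩
  · by_cases hi : i < a
    · exact (h f 0 hf (comp_zero r) fun j => hf.bd hp (by omega)).1 i hi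
    · exact hf.bd hp (by omega)
  · exact (comp_congr fun j => (comp_o.1 hf j).symm).1 (comp_zero p)

theorem base (a b : ℕ) (p r : St) (hp : Bd a p) (hr : Bd b r) : Ev a b p r ↔ p = o ∧ r = o := by
  refine ⟨fun h => ⟨base1 hp h, base1 hr (symm1 h)⟩, ?_⟩
  rintro ⟨rfl, rfl⟩ f g hf hg -
  exact ⟨fun i _ => comp_o.1 hf i, fun i _ => comp_o.1 hg i⟩

theorem sum_zero {L N : ℕ} {p : St} (hp : Bd L p) {f : ℕ → ZMod 2} (hf : Comp p f) (hN : L ≤ N) :
    ∑ i ∈ Finset.range N, f i = 0 := by
  refine Finset.sum_involution (fun i _ => (p.1 i).getD i) (fun i _ => ?_) (fun i _ h => ?_)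
    (fun i hi => ?_) fun i _ => ?_
  · cases e : p.1 i with
    | none => exact CharTwo.add_self_eq_zero _
    | some j =>
      rw [(hf i).2 j e]
      exact CharTwo.add_self_eq_zero _
  · cases e : p.1 i with
    | none => exact absurd ((hf i).1 e) h
    | some j => exact (p.2.1 _ _ e).1
  · cases e : p.1 i with
    | none => exact hi
    | some j =>
      have := (hp.lt e).2
      exact Finset.mem_range.2 (by simp only [Option.getD_some]; omega)
  · cases e : p.1 i with
    | none => simp [e]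
    | some j => simp [(p.2.1 _ _ e).2]

theorem one (L M : ℕ) (p r : St) (hp : Bd L p) (hr : Bd M r) : Ev 1 0 p r := by
  intro f g hf hg e
  refine ⟨fun i hi => ?_, fun i hi => absurd hi (Nat.not_lt_zero _)⟩
  obtain rfl : i = 0 := by omega
  have h1 := sum_zero hp hf (N := L + M + 1) (by omega)
  have h2 := sum_zero hr hg (N := L + M) (by omega)
  rw [Finset.sum_range_succ', Finset.sum_congr rfl fun k _ => show f (k + 1) = g k by
    simpa [add_comm] using e k, h2, zero_add] at h1
  exact h1

theorem ee_iter (r : ℕ) (x : St) : ee (2 * r) ((cup 0)^[r] x) = (cup 0)^[r] (ee 0 x) := by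
  induction r with
  | zero => rfl
  | succ r ih =>
    rw [Function.iterate_succ_apply', Function.iterate_succ_apply', mul_add, mul_one,
      ee_cup_far (Nat.zero_le _), ih]

theorem row_odd (r : ℕ) (x : St) :
    rowS (fun i => decide (Odd i)) 1 (2 * r + 1) x = rowS (fun i => decide (Odd i)) 1 (2 * r) x := by
  simp [rowS]

theorem row_even (r : ℕ) (p : St) : rowS (fun i => decide (Odd i)) 1 (2 * r) (cup 0 p) =
    cup 0 ((cup 0)^[r] ((cap 0)^[r] p)) := by
  induction r with
  | zero => rfl
  | succ r ih =>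
    rw [show 2 * (r + 1) = 2 * r + 1 + 1 by ring, rowS, if_pos (by simp), row_odd, ih,
      show 1 + (2 * r + 1) = 2 * r + 2 by ring, ee_cup_far (Nat.zero_le _), ee_iter,
      Function.iterate_succ_apply' (cap 0), Function.iterate_succ_apply (cup 0)]
    rfl

theorem bd_iter (r : ℕ) : ∀ {L : ℕ} {p : St}, Bd (L + 2 * r) p → Bd L ((cap 0)^[r] p) := by
  induction r with
  | zero => exact fun h => h
  | succ r ih =>
    intro L p h
    rw [Function.iterate_succ_apply]
    exact ih (Bd.cap h (Nat.zero_le _))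

end EvsA

theorem s_Ev : S_Ev where
  symm _ _ _ _ := ⟨EvsA.symm1, EvsA.symm1⟩
  glue := EvsA.glue
  leg := EvsA.leg
  arc := EvsA.arc
  wall := EvsA.wall
  base := EvsA.base
  one := EvsA.one

theorem s_Reset : S_Reset := by
  intro L p hp
  have key : ∀ r, L ≤ 1 + 2 * r → rowS (fun i => decide (Odd i)) 1 (2 * r) (cup 0 p) =
      rowS (fun i => decide (Odd i)) 1 (2 * r) (cup 0 o) := fun r h => by
    rw [EvsA.row_even, EvsA.row_even, (EvsA.bd_iter r (hp.mono h)).eq_o,
      (EvsA.bd_iter r (bd_o _)).eq_o]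
  obtain ⟨r, rfl | rfl⟩ := Nat.even_or_odd' L
  · exact key r (by omega)
  · rw [EvsA.row_odd, EvsA.row_odd]
    exact key r (by omega)

end Pool.Agent.P.MP_6c8efb_pr.Arm
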