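import Pool.Agent.P.MP_6c8efb_pr.Arm.Iface

/-! From the exact probability to the arm events. -/

namespace Pool.Agent.P.MP_6c8efb_pr.Arm

theorem arms_of {j : ℕ} {e : ℝ} (he : 0 ≤ e) {P : ℕ → ℝ} (hC : S_Cmp) (hT : S_Tm) (hB : S_Box)
    (hs : ∀ m, 1 ≤ m → (∀ h, Pt (stepE (j + 1) m h) ≤ P m) ∧
      ∀ ε : ℝ, 0 < ε → ∃ h, P m - ε ≤ Pt (stepE (j + 1) m h))
    (hP : ∃ c C : ℝ, 0 < c ∧ ∀ m : ℕ, 1 ≤ m → c ≤ (m : ℝ) ^ e * P m ∧ (m : ℝ) ^ e * P m ≤ C) :
    ∃ c C : ℝ, 0 < c ∧ ∀ n : ℕ, 1 ≤ n →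
      c ≤ (n : ℝ) ^ e * crit.real (arms j n) ∧ (n : ℝ) ^ e * crit.real (arms j n) ≤ C := by
  obtain ⟨c, C, hc, hP⟩ := hP
  set a : ℝ := (1 / 2) ^ ((j + 1) ^ 2) with ha
  have a0 : 0 < a := by positivity
  obtain ⟨C', hC'⟩ := hB j e (C / a) he fun n h hn => by
    rw [le_div_iff₀ a0]
    have := ((hC j n h).1.trans ((hs n hn).1 _))
    have h2 := mul_le_mul_of_nonneg_left this (by positivity : 0 ≤ (n : ℝ) ^ e)
    linarith [(hP n hn).2]
  refine ⟨a * (c / 2) / 3 ^ e, max C' (j ^ e), by positivity, fun n hn => ⟨?_, ?_⟩⟩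
  · have h1 := (hP (2 * n + 1) (by omega)).1
    have m0 : (0 : ℝ) < ((2 * n + 1 : ℕ) : ℝ) ^ e := by positivity
    have p0 : 0 < P (2 * n + 1) := (mul_pos_iff_of_pos_left m0).1 (hc.trans_le h1)
    obtain ⟨h, h2⟩ := (hs (2 * n + 1) (by omega)).2 (P (2 * n + 1) / 2) (by positivity)
    have h3 := ((hC j (2 * n + 1) h).2.trans (Pt_mono (line_anti (n' := 2 * n + 1)
      (by omega) le_rfl))).trans (hT j n _).1
    have h4 : ((2 * n + 1 : ℕ) : ℝ) ^ e ≤ 3 ^ e * (n : ℝ) ^ e := by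
      rw [← Real.mul_rpow (by norm_num) (by positivity)]
      exact Real.rpow_le_rpow (by positivity) (by exact_mod_cast (by omega)) he
    have h5 : a * (P (2 * n + 1) / 2) ≤ crit.real (arms j n) :=
      (mul_le_mul_of_nonneg_left (by linarith) a0.le).trans h3
    rw [div_le_iff₀ (by positivity)]
    calc a * (c / 2) ≤ a * (3 ^ e * (n : ℝ) ^ e * P (2 * n + 1) / 2) := by
          have := mul_le_mul_of_nonneg_right h4 p0.le
          gcongr; linarith
      _ = (n : ℝ) ^ e * (a * (P (2 * n + 1) / 2)) * 3 ^ e := by ring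
      _ ≤ _ := by gcongr
  · rcases le_total j n with h | h
    · refine le_trans ?_ ((hC' n hn).trans (le_max_left _ _))
      exact mul_le_mul_of_nonneg_left ((hT j n 0).2 h) (by positivity)
    · refine le_trans ?_ (le_max_right _ _)
      calc (n : ℝ) ^ e * crit.real (arms j n) ≤ (j : ℝ) ^ e * 1 := by
            have : MeasureTheory.IsProbabilityMeasure crit := by unfold crit; infer_instance
            gcongr
            exact MeasureTheory.measureReal_le_one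
        _ = _ := mul_one _

end Pool.Agent.P.MP_6c8efb_pr.Arm
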