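import Pool.Agent.P.MP_6c8efb_pr.Arm.Iface

/-! The kernel of the matrix of odd derivatives at integer points. -/

open Polynomial

namespace Pool.Agent.P.MP_6c8efb_pr.Arm

theorem coeff_odd_of_even {g : ℂ[X]} (he : g.comp (-X) = g) (k : ℕ) : g.coeff (2 * k + 1) = 0 := by
  have h := comp_C_mul_X_coeff (p := g) (r := -1) (n := 2 * k + 1)
  rw [show C (-1 : ℂ) * X = -X by simp, he, pow_succ, pow_mul] at h
  linear_combination (1 / 2 : ℂ) * h

theorem gj_span {m : ℕ} {g : ℂ[X]} (he : g.comp (-X) = g) (hd : g.natDegree ≤ 2 * m + 2)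
    (h0 : g.eval 0 = 0) (h1 : g.eval (1 + 2 * q) = 0) :
    ∃ w : Fin m → ℂ, g = ∑ j : Fin m, w j • gj j := by
  have e : expand ℂ 2 (contract 2 g) = g := by
    ext n
    rw [coeff_expand two_pos, coeff_contract two_ne_zero]
    rcases Nat.even_or_odd' n with ⟨k, rfl | rfl⟩
    · rw [if_pos (dvd_mul_right _ _), Nat.div_mul_cancel (dvd_mul_right _ _)]
    · rw [if_neg (by omega), coeff_odd_of_even he]
  generalize contract 2 g = G at e
  subst e
  rw [natDegree_expand] at hd
  rw [expand_eval] at h0 h1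
  rw [show (1 + 2 * q) ^ 2 = -3 by linear_combination 4 * q_eq] at h1
  rw [zero_pow two_ne_zero] at h0
  obtain ⟨G1, rfl⟩ := dvd_iff_isRoot.2 h0
  have h2 : G1.IsRoot (-3) := by simpa using h1
  obtain ⟨ρ, rfl⟩ := dvd_iff_isRoot.2 h2
  by_cases hρ : ρ = 0
  · exact ⟨0, by simp [hρ]⟩
  rw [(monic_X_sub_C _).natDegree_mul' (mul_ne_zero (X_sub_C_ne_zero _) hρ),
    (monic_X_sub_C _).natDegree_mul' hρ, natDegree_X_sub_C, natDegree_X_sub_C] at hd
  have hs : (ρ.comp (C (1 / 3) * (X - C 1))).natDegree < m := by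
    rw [natDegree_comp, natDegree_C_mul (by norm_num), natDegree_X_sub_C]
    omega
  refine ⟨fun j => (ρ.comp (C (1 / 3) * (X - C 1))).coeff j, Polynomial.funext fun x => ?_⟩
  have a1 := eval_eq_sum_range' hs (3 * x ^ 2 + 1)
  rw [eval_comp, Finset.sum_range] at a1
  simp only [eval_mul, eval_C, eval_sub, eval_X] at a1
  rw [show 1 / 3 * (3 * x ^ 2 + 1 - 1) = x ^ 2 by ring] at a1
  simp only [expand_eval, eval_mul, eval_sub, eval_X, eval_C, a1, eval_finsetSum, eval_smul, gj,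
    eval_pow, eval_add, eval_ofNat, eval_one, smul_eq_mul, Finset.mul_sum]
  exact Finset.sum_congr rfl fun j _ => by ring

namespace KerEA

noncomputable def DL (lam : ℂ) : Module.End ℂ ℂ[X] where
  toFun := Dl lam
  map_add' f g := by simp only [Dl, map_add]; ring
  map_smul' c f := by simp only [Dl, smul_eq_C_mul, derivative_C_mul, RingHom.id_apply]; ring

noncomputable def gg (b c : ℕ) : ℂ[X] := (X + 1) ^ b * (X - 1) ^ c

theorem mul_der (p : ℂ[X]) (n : ℕ) : p * derivative (p ^ n) = n * p ^ n * derivative p := by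
  rcases n with _ | n
  · simp
  · rw [derivative_pow, Nat.add_sub_cancel, pow_succ, map_natCast]; ring

theorem DL_gg (a b c : ℕ) (h : b + c = 2 * a) :
    DL a (gg b c) = (((b : ℂ) - c) / 2) • gg b c := by
  have e1 := mul_der (X + 1) b
  have e2 := mul_der (X - 1) c
  have e3 : (C (a : ℂ) : ℂ[X]) = C (1 / 2 : ℂ) * ((b : ℂ[X]) + c) := by
    have : (a : ℂ) = 1 / 2 * (b + c) := by
      have : (b : ℂ) + c = 2 * a := by exact_mod_cast h
      rw [this]; ring
    rw [this, map_mul, map_add, map_natCast, map_natCast]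
  have e4 : (C (((b : ℂ) - c) / 2) : ℂ[X]) = C (1 / 2 : ℂ) * ((b : ℂ[X]) - c) := by
    rw [div_eq_mul_one_div, mul_comm, map_mul, map_sub, map_natCast, map_natCast]
  simp only [derivative_add, derivative_sub, derivative_X, derivative_one, add_zero, sub_zero,
    mul_one] at e1 e2
  show Dl _ _ = _
  rw [smul_eq_C_mul, e4, Dl, e3, gg, derivative_mul, Algebra.algebraMap_self_apply]
  linear_combination -(C (1 / 2 : ℂ)) * (X - 1) * (X - 1) ^ c * e1 -
    C (1 / 2 : ℂ) * (X + 1) * (X + 1) ^ b * e2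

theorem DL_pow (a b c : ℕ) (h : b + c = 2 * a) (k : ℕ) :
    (DL a ^ k) (gg b c) = (((b : ℂ) - c) / 2) ^ k • gg b c := by
  induction k with
  | zero => simp
  | succ k ih => rw [pow_succ', Module.End.mul_apply, ih, map_smul, DL_gg a b c h, smul_smul,
      pow_succ]

noncomputable def PP (a n : ℕ) : ℂ[X] := gg (a + 3 * n) (a - 3 * n) + gg (a - 3 * n) (a + 3 * n)

theorem PP_pow {a n : ℕ} (h : 3 * n ≤ a) (k : ℕ) : (DL a ^ k) (PP a n) =
    (3 * n : ℂ) ^ k • gg (a + 3 * n) (a - 3 * n) + (-(3 * n) : ℂ) ^ k • gg (a - 3 * n) (a + 3 * n) := by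
  rw [PP, map_add, DL_pow a _ _ (by omega), DL_pow a _ _ (by omega), Nat.cast_sub h]
  push_cast
  congr 3 <;> ring

theorem PP_ne (a n : ℕ) : PP a n ≠ 0 := fun h => by
  have := congrArg (eval 2) h
  simp only [PP, gg, eval_add, eval_mul, eval_pow, eval_X, eval_one, eval_sub, eval_zero] at this
  norm_num at this
  have h2 : (3 ^ (a + 3 * n) + 3 ^ (a - 3 * n) : ℕ) = 0 := by exact_mod_cast this
  exact absurd h2 (by positivity)

theorem PP_li (a : ℕ) : LinearIndependent ℂ fun n : Fin (a / 3 + 1) => PP a n := by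
  refine Module.End.eigenvectors_linearIndependent' (DL a ^ 2)
    (fun n : Fin (a / 3 + 1) => (3 * (n : ℕ) : ℂ) ^ 2) (fun n n' e => ?_) _ fun n => ⟨?_, PP_ne a n⟩
  · beta_reduce at e
    have h : (3 * (n : ℕ)) ^ 2 = (3 * (n' : ℕ)) ^ 2 := by exact_mod_cast e
    have := Nat.pow_left_injective two_ne_zero h
    exact Fin.ext (by omega)
  · rw [Module.End.mem_genEigenspace_one, PP_pow (by have := n.2; omega), neg_sq, PP, smul_add]

theorem PP_even {a n : ℕ} (h : 3 * n ≤ a) : (PP a n).comp (-X) = PP a n := by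
  obtain ⟨c, rfl⟩ := Nat.exists_eq_add_of_le h
  refine Polynomial.funext fun x => ?_
  simp only [PP, gg, eval_comp, eval_add, eval_mul, eval_pow, eval_X, eval_one, eval_sub, eval_neg,
    Nat.add_sub_cancel_left]
  rw [show -x + 1 = -(x - 1) by ring, show -x - 1 = -(x + 1) by ring, neg_pow (x - 1),
    neg_pow (x - 1), neg_pow (x + 1), neg_pow (x + 1)]
  have : (-1 : ℂ) ^ (3 * n + c + 3 * n) * (-1) ^ c = 1 := by
    rw [← pow_add, show 3 * n + c + 3 * n + c = 2 * (3 * n + c) by ring, pow_mul]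
    simp
  linear_combination ((x - 1) ^ (3 * n + c + 3 * n) * (x + 1) ^ c +
    (x - 1) ^ c * (x + 1) ^ (3 * n + c + 3 * n)) * this

theorem gg_deg (b c : ℕ) : (gg b c).natDegree ≤ b + c := by
  unfold gg
  compute_degree!

theorem PP_deg {a n : ℕ} (h : 3 * n ≤ a) : (PP a n).natDegree ≤ 2 * a :=
  (natDegree_add_le _ _).trans (max_le ((gg_deg _ _).trans (by omega))
    ((gg_deg _ _).trans (by omega)))

theorem PP_eval {a n : ℕ} (h : 3 * n ≤ a) {s : ℂ} (hs : (s + 1) ^ 3 = -(s - 1) ^ 3) :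
    (PP a n).eval s = 2 * (-1) ^ n * ((s + 1) * (s - 1)) ^ a := by
  obtain ⟨c, rfl⟩ := Nat.exists_eq_add_of_le h
  simp only [PP, gg, eval_add, eval_mul, eval_pow, eval_X, eval_one, eval_sub,
    Nat.add_sub_cancel_left, pow_add, mul_pow, pow_mul, hs]
  rw [neg_pow ((s - 1) ^ 3)]
  have : (-1 : ℂ) ^ n * (-1) ^ n = 1 := by rw [← mul_pow]; simp
  linear_combination (-((s - 1) ^ 3) ^ n * ((s - 1) ^ 3) ^ n * (s + 1) ^ c * (s - 1) ^ c) * this

theorem PP_v0 {a n : ℕ} (h : 3 * n ≤ a) (i : ℕ) :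
    ((DL a ^ (2 * i + 1)) (PP a n)).eval v0 = 0 := by
  have hq : q - 1 ≠ 0 := sub_ne_zero.2 q_ne_one
  have e : v0 + 1 = q * (v0 - 1) := by unfold v0; field_simp; ring
  have e3 : (v0 + 1) ^ 3 = (v0 - 1) ^ 3 := by rw [e, mul_pow, q_cube, one_mul]
  rw [PP_pow h, Odd.neg_pow ⟨i, rfl⟩]
  obtain ⟨c, rfl⟩ := Nat.exists_eq_add_of_le h
  simp only [gg, eval_add, eval_mul, eval_pow, eval_X, eval_one, eval_sub, eval_smul, smul_eq_mul,
    Nat.add_sub_cancel_left, pow_add, pow_mul, e3]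
  ring

end KerEA

open KerEA in
theorem s_Even : S_Even := by
  intro m a
  let Φ := Fintype.linearCombination ℂ fun n : Fin (a / 3 + 1) => KerEA.PP a n
  let ψ : ℂ[X] →ₗ[ℂ] ℂ × (Fin (a - (m + 1)) → ℂ) :=
    (leval 0).prod (LinearMap.pi fun r => lcoeff ℂ (2 * m + 4 + 2 * r))
  have hn : ∀ n : Fin (a / 3 + 1), 3 * (n : ℕ) ≤ a := fun n => by have := n.2; omega
  have hΦ : Function.Injective Φ := (PP_li a).fintypeLinearCombination_injective
  have hk : a / 3 - (a - (m + 1)) ≤ Module.finrank ℂ (LinearMap.ker (ψ ∘ₗ Φ)) := by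
    have h1 := (ψ ∘ₗ Φ).finrank_range_add_finrank_ker
    have h2 := (LinearMap.range (ψ ∘ₗ Φ)).finrank_le
    simp only [Module.finrank_prod, Module.finrank_self, Module.finrank_fintype_fun_eq_card,
      Fintype.card_fin] at h1 h2
    omega
  obtain ⟨c, hc⟩ := exists_linearIndependent_of_le_finrank hk
  have lin : ∀ {M : Type} [AddCommGroup M] [Module ℂ M] (f g : ℂ[X] →ₗ[ℂ] M),
      (∀ n : Fin (a / 3 + 1), f (KerEA.PP a n) = g (KerEA.PP a n)) → ∀ x, f (Φ x) = g (Φ x) := by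
    intro M _ _ f g h x
    simp only [Φ, Fintype.linearCombination_apply, map_sum, map_smul, h]
  have key : ∀ r, ∃ w : Fin m → ℂ, Φ (c r) = ∑ j : Fin m, w j • gj j := by
    intro r
    have h0 : ψ (Φ (c r)) = 0 := (c r).2
    have h1 : (Φ (c r)).eval 0 = 0 := by simpa [ψ] using congrArg Prod.fst h0
    have h2 : ∀ k : Fin (a - (m + 1)), (Φ (c r)).coeff (2 * m + 4 + 2 * k) = 0 := fun k =>
      congrFun (congrArg Prod.snd h0) k
    have he : (Φ (c r)).comp (-X) = Φ (c r) :=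
      lin (aeval (-X : ℂ[X])).toLinearMap LinearMap.id (fun n => PP_even (hn n)) _
    refine gj_span he (natDegree_le_iff_coeff_eq_zero.2 fun N hN => ?_) h1 ?_
    · rcases Nat.even_or_odd' N with ⟨k, rfl | rfl⟩
      · rcases le_or_gt k a with h | h
        · have := h2 ⟨k - (m + 2), by omega⟩
          rwa [show 2 * m + 4 + 2 * (k - (m + 2)) = 2 * k by omega] at this
        · exact lin (lcoeff ℂ (2 * k)) 0 (fun n =>
            coeff_eq_zero_of_natDegree_lt ((PP_deg (hn n)).trans_lt (by omega))) _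
      · exact coeff_odd_of_even he k
    · have := lin (leval (1 + 2 * q)) ((4 : ℂ) ^ a • leval 0) (fun n => by
        simp only [leval_apply, LinearMap.smul_apply, smul_eq_mul]
        rw [PP_eval (hn n) (by linear_combination (16 * q + 8) * q_eq), PP_eval (hn n) (by norm_num),
          show (1 + 2 * q + 1) * (1 + 2 * q - 1) = 4 * -1 by linear_combination 4 * q_eq, mul_pow]
        norm_num
        ring) (c r)
      simpa [h1] using this
  choose w hw using key
  refine ⟨w, LinearIndependent.of_comp (Fintype.linearCombination ℂ fun j : Fin m => gj j) ?_,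
    fun r => funext fun i => ?_⟩
  · have := hc.map' (Φ ∘ₗ (LinearMap.ker (ψ ∘ₗ Φ)).subtype)
      (LinearMap.ker_eq_bot.2 (hΦ.comp Subtype.val_injective))
    have e : (Φ ∘ₗ (LinearMap.ker (ψ ∘ₗ Φ)).subtype) ∘ c =
        (Fintype.linearCombination ℂ fun j : Fin m => gj j) ∘ w := _root_.funext fun r =>
      (hw r).trans (Fintype.linearCombination_apply _ _ _).symm
    rwa [e] at this
  · have := lin (leval v0 ∘ₗ (DL a ^ (2 * (i : ℕ) + 1))) 0 (fun n => PP_v0 (hn n) i) (c r)
    rw [hw r, map_sum] at this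
    simp only [map_smul, LinearMap.comp_apply, leval_apply, smul_eq_mul, LinearMap.zero_apply,
      Module.End.pow_apply] at this
    simp only [MM, Matrix.mulVec, dotProduct, Matrix.of_apply, Algebra.algebraMap_self, map_id,
      RingHom.id_apply, Pi.zero_apply]
    rw [← this]
    exact Finset.sum_congr rfl fun j _ => mul_comm _ _

end Pool.Agent.P.MP_6c8efb_pr.Arm
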