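import Pool.Agent.P.MP_6c8efb_pr.Arm.Iface

/-! Kernel vectors of the matrix of odd derivatives at half integers. -/

open Polynomial

namespace Pool.Agent.P.MP_6c8efb_pr.Arm

namespace KerOA

theorem span_gj {m : ℕ} {g : ℂ[X]} (hev : ∀ n, Odd n → g.coeff n = 0) (hd : g.natDegree ≤ 2 * m + 2)
    (h0 : g.eval 0 = 0) (h1 : g.eval (1 + 2 * q) = 0) : ∃ w : Fin m → ℂ, g = ∑ j, w j • gj j := by
  have e : expand ℂ 2 (contract 2 g) = g := by
    ext n
    rw [coeff_expand (by norm_num), coeff_contract (by norm_num)]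
    split_ifs with h
    · rw [Nat.div_mul_cancel h]
    · exact (hev n (Nat.odd_iff.2 (by omega))).symm
  set G := contract 2 g with hG
  have dG : G.natDegree ≤ m + 1 := by
    rw [← e, natDegree_expand] at hd; omega
  have r0 : G.IsRoot 0 := by rw [← e, expand_eval] at h0; simpa using h0
  have r1 : G.IsRoot (-3) := by
    rw [← e, expand_eval, show (1 + 2 * q) ^ 2 = -3 by linear_combination 4 * q_eq] at h1
    exact h1
  obtain ⟨G1, e1⟩ := dvd_iff_isRoot.2 r0
  have r2 : G1.IsRoot (-3) := by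
    have := r1
    rw [e1, IsRoot, eval_mul] at this
    simpa using this
  obtain ⟨ρ, e2⟩ := dvd_iff_isRoot.2 r2
  have e3 : G = X * (X + 3) * ρ := by
    rw [e1, e2]; simp only [map_zero, map_neg, sub_zero, sub_neg_eq_add, mul_assoc]; rfl
  by_cases hρ : ρ = 0
  · exact ⟨0, by rw [← e, e3, hρ]; simp⟩
  have dρ : ρ.natDegree < m := by
    have m1 : (X * (X + 3) : ℂ[X]).Monic := by monicity!
    have m2 : (X * (X + 3) : ℂ[X]).natDegree = 2 := by compute_degree!
    rw [e3, m1.natDegree_mul' hρ, m2] at dG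
    omega
  set σ := ρ.comp (C (1 / 3) * (X - 1)) with hσ
  have dσ : σ.natDegree < m := by
    refine lt_of_le_of_lt (natDegree_comp_le.trans ?_) dρ
    have : (C (1 / 3) * (X - 1) : ℂ[X]).natDegree ≤ 1 := by compute_degree
    nlinarith
  have e4 : ρ = σ.comp (3 * X + 1) := by
    rw [hσ, comp_assoc]
    have : (C (1 / 3) * (X - 1) : ℂ[X]).comp (3 * X + 1) = X := by
      simp only [mul_comp, C_comp, sub_comp, X_comp, one_comp, add_sub_cancel_right]
      rw [← mul_assoc, show (3 : ℂ[X]) = C 3 from rfl, ← C_mul]; simp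
    rw [this, comp_X]
  refine ⟨fun j => σ.coeff j, ?_⟩
  rw [← e, e3, e4]
  conv_lhs => rw [σ.as_sum_range_C_mul_X_pow' dσ]
  rw [Fin.sum_univ_eq_sum_range (fun j => σ.coeff j • gj j) m, Polynomial.sum_comp, Finset.mul_sum,
    map_sum]
  refine Finset.sum_congr rfl fun j _ => ?_
  simp only [gj, mul_comp, C_comp, pow_comp, X_comp, map_mul, map_add, map_pow, expand_X, expand_C,
    map_ofNat, map_one, smul_eq_C_mul]
  ring

/-- the operator `Dl` as a linear map -/
noncomputable def D (lam : ℂ) : Module.End ℂ ℂ[X] where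
  toFun := Dl lam
  map_add' f g := by simp only [Dl, derivative_add]; ring
  map_smul' c f := by simp only [Dl, smul_eq_C_mul, derivative_C_mul, RingHom.id_apply]; ring

theorem D_pow (lam : ℂ) (k : ℕ) (f : ℂ[X]) : (D lam ^ k) f = (Dl lam)^[k] f :=
  Module.End.pow_apply _ _ _

theorem D_deg (lam : ℂ) (k : ℕ) (f : ℂ[X]) : ((D lam ^ k) f).natDegree ≤ f.natDegree + k := by
  induction k with
  | zero => simp
  | succ k ih =>
    rw [pow_succ', Module.End.mul_apply]
    set h := (D lam ^ k) f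
    have h1 : (C lam * X * h).natDegree ≤ h.natDegree + 1 := by
      refine natDegree_mul_le.trans ?_
      have : (C lam * X : ℂ[X]).natDegree ≤ 1 := by compute_degree
      omega
    have h2 : (C (algebraMap ℂ ℂ (1 / 2)) * (1 - X ^ 2) * derivative h).natDegree ≤ h.natDegree + 1 := by
      by_cases h0 : h.natDegree = 0
      · rw [derivative_of_natDegree_zero h0]; simp
      refine natDegree_mul_le.trans ?_
      have : (C (algebraMap ℂ ℂ (1 / 2)) * (1 - X ^ 2) : ℂ[X]).natDegree ≤ 2 := by compute_degree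
      have := natDegree_derivative_lt h0
      omega
    have := (natDegree_add_le _ _).trans (max_le h1 h2)
    exact this.trans (by omega)

noncomputable def gg (b c : ℕ) : ℂ[X] := (X + 1) ^ b * (X - 1) ^ c

theorem pow_der (u : ℂ[X]) (hu : derivative u = 1) (b : ℕ) :
    u * derivative (u ^ b) = (b : ℂ[X]) * u ^ b := by
  induction b with
  | zero => simp
  | succ b ih =>
    rw [pow_succ, derivative_mul, hu]
    push_cast
    linear_combination u * ih

theorem D_gg (b c : ℕ) : D ((b + c : ℂ) / 2) (gg b c) = ((b - c : ℂ) / 2) • gg b c := by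
  have h1 := pow_der (X + 1) (by simp) b
  have h2 := pow_der (X - 1) (by simp) c
  have h3 : (C (1 / 2) : ℂ[X]) * 2 = 1 := by
    rw [show (2 : ℂ[X]) = C 2 from rfl, ← C_mul]; simp
  show Dl _ _ = _
  simp only [Dl, gg, derivative_mul, smul_eq_C_mul, div_eq_mul_one_div (b + c : ℂ),
    div_eq_mul_one_div (b - c : ℂ), map_mul, map_add, map_sub, map_natCast, Algebra.algebraMap_self,
    RingHom.id_apply]
  linear_combination (-C (1 / 2) * (X - 1) * (X - 1) ^ c) * h1 +
    (-C (1 / 2) * (X + 1) * (X + 1) ^ b) * h2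

theorem D_pow_gg (b c k : ℕ) :
    (D ((b + c : ℂ) / 2) ^ k) (gg b c) = ((b - c : ℂ) / 2) ^ k • gg b c := by
  induction k with
  | zero => simp
  | succ k ih => rw [pow_succ', Module.End.mul_apply, ih, map_smul, D_gg, smul_smul, pow_succ]

theorem gg_monic (b c : ℕ) : (gg b c).Monic ∧ (gg b c).natDegree = b + c := by
  have m1 : (X + 1 : ℂ[X]).Monic := monic_X_add_C 1
  have m2 : (X - 1 : ℂ[X]).Monic := monic_X_sub_C 1
  have d1 : (X + 1 : ℂ[X]).natDegree = 1 := natDegree_X_add_C 1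
  have d2 : (X - 1 : ℂ[X]).natDegree = 1 := natDegree_X_sub_C 1
  refine ⟨(m1.pow b).mul (m2.pow c), ?_⟩
  rw [gg, (m1.pow b).natDegree_mul (m2.pow c), m1.natDegree_pow, m2.natDegree_pow, d1, d2]
  simp

theorem gg_top (b c : ℕ) : (gg b c).coeff (b + c) = 1 := by
  rw [← (gg_monic b c).2]; exact (gg_monic b c).1

theorem q_pair {b c : ℕ} (h : b % 3 ≠ c % 3) : q ^ b + q ^ c = -q ^ (2 * (b + c)) := by
  have r : ∀ n, q ^ n = q ^ (n % 3) := fun n => pow_eq_pow_mod n q_cube
  rw [r b, r c, r (2 * (b + c))]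
  have hb : b % 3 = 0 ∨ b % 3 = 1 ∨ b % 3 = 2 := by omega
  have hc : c % 3 = 0 ∨ c % 3 = 1 ∨ c % 3 = 2 := by omega
  have he : 2 * (b + c) % 3 = 3 - b % 3 - c % 3 := by omega
  rw [he]
  rcases hb with hb | hb | hb <;> rcases hc with hc | hc | hc <;> rw [hb, hc] at h ⊢ <;>
    first | exact absurd rfl h | (norm_num; linear_combination q_eq)

theorem v0_add : v0 + 1 = q * (v0 - 1) := by
  have : q - 1 ≠ 0 := sub_ne_zero.2 q_ne_one
  unfold v0; field_simp; ring

theorem gg_v0 (b c : ℕ) : (gg b c).eval v0 = q ^ b * (v0 - 1) ^ (b + c) := by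
  simp only [gg, eval_mul, eval_pow, eval_add, eval_sub, eval_X, eval_one, v0_add, mul_pow]; ring

theorem gg_s (b c : ℕ) : (gg b c).eval (1 + 2 * q) = (-1) ^ b * 2 ^ (b + c) * q ^ (b + c) * q ^ b := by
  have e : 1 + 2 * q + 1 = -1 * 2 * q * q := by linear_combination 2 * q_eq
  simp only [gg, eval_mul, eval_pow, eval_add, eval_sub, eval_X, eval_one, e, add_sub_cancel_left,
    mul_pow]
  ring

theorem gg_neg (b c : ℕ) : (gg b c).comp (-X) = (-1) ^ (b + c) * gg c b := by
  have e1 : (-X + 1 : ℂ[X]) = -1 * (X - 1) := by ring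
  have e2 : (-X - 1 : ℂ[X]) = -1 * (X + 1) := by ring
  simp only [gg, mul_comp, pow_comp, add_comp, sub_comp, X_comp, one_comp, e1, e2, mul_pow]
  ring

/-- the even eigenvectors of the square of the operator -/
noncomputable def Pv (b c : ℕ) : ℂ[X] := gg b c - gg c b

theorem D_pow_Pv (b c k : ℕ) : (D ((b + c : ℂ) / 2) ^ k) (Pv b c) =
    ((b - c : ℂ) / 2) ^ k • (gg b c - (-1 : ℂ) ^ k • gg c b) := by
  have := D_pow_gg c b k
  rw [add_comm (c : ℂ)] at this
  rw [Pv, map_sub, D_pow_gg, this, smul_sub, smul_smul, ← mul_pow]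
  congr 3; ring

/-- the properties shared by all combinations -/
structure Good (N : ℕ) (g : ℂ[X]) : Prop where
  ev : ∀ n, Odd n → g.coeff n = 0
  deg : ∀ n, N < n → g.coeff n = 0
  val : ∀ i, 2 * ((D ((N : ℂ) / 2) ^ (2 * i + 1)) g).eval v0 =
    -q ^ (2 * N) * (v0 - 1) ^ N * ((D ((N : ℂ) / 2) ^ (2 * i + 1)) g).coeff N
  root : 2 * g.eval (1 + 2 * q) = 2 ^ N * g.eval 0

theorem good_Pv {b c : ℕ} (ho : Odd (b + c)) (h : b % 3 ≠ c % 3) : Good (b + c) (Pv b c) := by
  have hq := q_pair h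
  refine ⟨fun n hn => ?_, fun n hn => ?_, fun i => ?_, ?_⟩
  · have e : (Pv b c).comp (-X) = Pv b c := by
      rw [Pv, sub_comp, gg_neg, gg_neg, add_comm c b, ho.neg_one_pow]; ring
    have := congrArg (fun p => coeff p n) e
    rw [show (-X : ℂ[X]) = C (-1) * X by simp] at this
    simp only [comp_C_mul_X_coeff, hn.neg_one_pow] at this
    linear_combination (-1 / 2 : ℂ) * this
  · rw [Pv, coeff_sub, coeff_eq_zero_of_natDegree_lt (by rw [(gg_monic b c).2]; exact hn),
      coeff_eq_zero_of_natDegree_lt (by rw [(gg_monic c b).2]; omega), sub_zero]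
  · have t2 : (gg c b).coeff (b + c) = 1 := by rw [add_comm]; exact gg_top c b
    have od : Odd (2 * i + 1) := ⟨i, rfl⟩
    push_cast
    rw [D_pow_Pv, od.neg_one_pow]
    simp only [eval_smul, coeff_smul, eval_sub, coeff_sub, gg_v0, gg_top, t2, smul_eq_mul,
      add_comm c b]
    linear_combination 2 * ((b - c : ℂ) / 2) ^ (2 * i + 1) * (v0 - 1) ^ (b + c) * hq
  · have e : (-1 : ℂ) ^ b = -(-1) ^ c := by
      have h1 : (-1 : ℂ) ^ b * (-1) ^ c = -1 := by rw [← pow_add, ho.neg_one_pow]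
      have h2 : (-1 : ℂ) ^ c * (-1) ^ c = 1 := by rw [← mul_pow]; simp
      linear_combination (-1) ^ c * h1 - (-1) ^ b * h2
    have e3 : q ^ (b + c) * q ^ (2 * (b + c)) = 1 := by
      rw [← pow_add, show b + c + 2 * (b + c) = 3 * (b + c) by ring, pow_mul, q_cube, one_pow]
    have z : ∀ b c, (gg b c).eval 0 = (-1) ^ c := fun b c => by simp [gg]
    rw [Pv, eval_sub, eval_sub, gg_s, gg_s, z, z, e, add_comm c b]
    linear_combination (-2 * (-1) ^ c * 2 ^ (b + c) * q ^ (b + c)) * hq +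
      (2 * (-1) ^ c * 2 ^ (b + c)) * e3

theorem good_span {N : ℕ} {s : Set ℂ[X]} (hs : ∀ g ∈ s, Good N g) {g : ℂ[X]}
    (hg : g ∈ Submodule.span ℂ s) : Good N g := by
  induction hg using Submodule.span_induction with
  | mem g h => exact hs g h
  | zero => exact ⟨by simp, by simp, by simp, by simp⟩
  | add f g _ _ h1 h2 =>
    refine ⟨fun n hn => by simp [h1.ev n hn, h2.ev n hn], fun n hn => by simp [h1.deg n hn, h2.deg n hn],
      fun i => ?_, ?_⟩
    · simp only [map_add, eval_add, coeff_add]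
      linear_combination h1.val i + h2.val i
    · simp only [eval_add]
      linear_combination h1.root + h2.root
  | smul c f _ h1 =>
    refine ⟨fun n hn => by simp [h1.ev n hn], fun n hn => by simp [h1.deg n hn], fun i => ?_, ?_⟩
    · simp only [map_smul, eval_smul, coeff_smul, smul_eq_mul]
      linear_combination c * h1.val i
    · simp only [eval_smul, smul_eq_mul]
      linear_combination c * h1.root

theorem card_idx (n : ℕ) : ((Finset.range n).filter fun k => k % 3 ≠ 1).card + (n + 1) / 3 = n := by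
  induction n with
  | zero => simp
  | succ n ih =>
    rw [Finset.range_add_one, Finset.filter_insert]
    split_ifs with h
    · rw [Finset.card_insert_of_notMem (by simp)]; omega
    · omega

theorem indep (a : ℕ) : LinearIndependent ℂ
    fun k : ((Finset.range (a + 1)).filter fun k => k % 3 ≠ 1) => Pv (a + 1 + k) (a - k) := by
  have hk : ∀ k : ((Finset.range (a + 1)).filter fun k => k % 3 ≠ 1), (k : ℕ) ≤ a := fun k => by
    have := (Finset.mem_filter.1 k.2).1
    rw [Finset.mem_range] at this; omega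
  refine Module.End.eigenvectors_linearIndependent' (D (a + 1 / 2) ^ 2)
    (fun k : ((Finset.range (a + 1)).filter fun k => k % 3 ≠ 1) => (((k : ℕ) : ℂ) + 1 / 2) ^ 2)
    (fun k l h => ?_) _ fun k => ?_
  · have h' : (((k : ℕ) : ℂ) - (l : ℕ)) * ((k : ℕ) + (l : ℕ) + 1) = 0 := by
      simp only at h
      linear_combination h
    rcases mul_eq_zero.1 h' with h1 | h1
    · exact Subtype.ext (by exact_mod_cast sub_eq_zero.1 h1)
    · norm_cast at h1
  · have e1 : (((a + 1 + k : ℕ) : ℂ) + (a - k : ℕ)) / 2 = a + 1 / 2 := by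
      rw [Nat.cast_sub (hk k)]; push_cast; ring
    have e2 : (((a + 1 + k : ℕ) : ℂ) - (a - k : ℕ)) / 2 = (k : ℕ) + 1 / 2 := by
      rw [Nat.cast_sub (hk k)]; push_cast; ring
    refine ⟨Module.End.mem_eigenspace_iff.2 ?_, fun h0 => ?_⟩
    · rw [← e1, D_pow_Pv, e2]; simp [Pv]
    · have := D_pow_Pv (a + 1 + k) (a - k) 1
      rw [h0, map_zero, e2] at this
      have h := congrArg (fun p => coeff p (a + 1 + k + (a - k))) this
      have t2 : (gg (a - k) (a + 1 + k)).coeff (a + 1 + k + (a - k)) = 1 := by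
        rw [add_comm (a + 1 + k)]; exact gg_top _ _
      simp only [coeff_zero, coeff_smul, coeff_sub, gg_top, t2, smul_eq_mul] at h
      have h1 : ((2 * (k : ℕ) + 1 : ℕ) : ℂ) = 0 := by push_cast; linear_combination -h
      norm_cast at h1

theorem exists_space (a : ℕ) : ∃ U : Submodule ℂ ℂ[X], Module.Finite ℂ U ∧
    Module.finrank ℂ U + (a + 2) / 3 = a + 1 ∧ ∀ g ∈ U, Good (2 * a + 1) g := by
  refine ⟨_, Module.Finite.span_of_finite ℂ (Set.finite_range _), by
    rw [finrank_span_eq_card (indep a), Fintype.card_coe]; exact card_idx (a + 1),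
    fun g hg => good_span ?_ hg⟩
  rintro _ ⟨k, rfl⟩
  obtain ⟨h1, h2⟩ := Finset.mem_filter.1 k.2
  rw [Finset.mem_range] at h1
  have e1 : a + 1 + k + (a - k) = 2 * a + 1 := by omega
  have := good_Pv (b := a + 1 + k) (c := a - k) (e1 ▸ ⟨a, rfl⟩) (by omega)
  rwa [e1] at this

theorem exists_ker {V Y : Type} [AddCommGroup V] [Module ℂ V] [AddCommGroup Y] [Module ℂ Y]
    (U : Submodule ℂ V) (φ : U →ₗ[ℂ] Y) {d : ℕ} (hk : d ≤ Module.finrank ℂ (LinearMap.ker φ)) :
    ∃ f : Fin d → V, LinearIndependent ℂ f ∧ ∀ r, ∃ h : f r ∈ U, φ ⟨f r, h⟩ = 0 := by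
  obtain ⟨f, hf⟩ := exists_linearIndependent_of_le_finrank hk
  have hf1 := hf.map' (LinearMap.ker φ).subtype (Submodule.ker_subtype _)
  have hf2 := hf1.map' U.subtype (Submodule.ker_subtype _)
  exact ⟨_, hf2, fun r => ⟨(f r).1.2, (f r).2⟩⟩

theorem exists_family {a e : ℕ} (he : e ≤ a) : ∃ f : Fin (e - (a + 2) / 3) → ℂ[X],
    LinearIndependent ℂ f ∧
      ∀ r, Good (2 * a + 1) (f r) ∧ (f r).natDegree ≤ 2 * e ∧ (f r).eval 0 = 0 := by
  obtain ⟨U, hfin, hU, good⟩ := exists_space a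
  obtain ⟨φ, hφ⟩ : ∃ φ : U →ₗ[ℂ] ℂ × (Fin (a - e) → ℂ), ∀ g : U, (φ g).1 = (g : ℂ[X]).eval 0 ∧
      ∀ r, (φ g).2 r = (g : ℂ[X]).coeff (2 * e + 2 + 2 * (r : ℕ)) :=
    ⟨(LinearMap.prod (leval 0) (LinearMap.pi fun r : Fin (a - e) =>
      lcoeff ℂ (2 * e + 2 + 2 * (r : ℕ)))) ∘ₗ U.subtype, fun g => ⟨by simp, fun r => by simp⟩⟩
  have hk : e - (a + 2) / 3 ≤ Module.finrank ℂ (LinearMap.ker φ) := by
    have h1 := φ.finrank_range_add_finrank_ker
    have h2 := Submodule.finrank_le (LinearMap.range φ)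
    simp only [Module.finrank_prod, Module.finrank_self, Module.finrank_fin_fun] at h2
    omega
  obtain ⟨f, hf, hr⟩ := exists_ker U φ hk
  refine ⟨f, hf, fun r => ?_⟩
  obtain ⟨hm, h⟩ := hr r
  have hg := good _ hm
  obtain ⟨h1, h2⟩ := hφ ⟨f r, hm⟩
  rw [h] at h1 h2
  refine ⟨hg, natDegree_le_iff_coeff_eq_zero.2 fun n hn => ?_, h1.symm⟩
  rcases Nat.even_or_odd' n with ⟨k, rfl | rfl⟩
  · by_cases hka : a < k
    · exact hg.deg _ (by omega)
    · rw [show 2 * k = 2 * e + 2 + 2 * (k - e - 1) by omega]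
      exact (h2 ⟨k - e - 1, by omega⟩).symm
  · exact hg.ev _ ⟨k, rfl⟩

end KerOA

open KerOA in
theorem s_Odd : S_Odd := by
  intro m a
  by_cases hma : a ≤ m
  · have : IsEmpty (Fin (min (m + 1) (a - m) - (a + 2) / 3)) := ⟨fun r => by have := r.2; omega⟩
    exact ⟨fun r => isEmptyElim r, linearIndependent_empty_type, fun r => isEmptyElim r⟩
  obtain ⟨f, hf, key⟩ := exists_family (a := a) (e := min (m + 1) (a - m)) (by omega)
  have hw : ∀ r, ∃ w : Fin m → ℂ, f r = ∑ j, w j • gj j := fun r => by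
    obtain ⟨hg, h1, h2⟩ := key r
    refine span_gj hg.ev (h1.trans (by omega)) h2 ?_
    have := hg.root
    rw [h2] at this
    linear_combination (1 / 2 : ℂ) * this
  choose w hw using hw
  refine ⟨w, LinearIndependent.of_comp (Fintype.linearCombination ℂ fun j : Fin m => gj j) ?_,
    fun r => funext fun i => ?_⟩
  · have : (Fintype.linearCombination ℂ fun j : Fin m => gj j) ∘ w = f := funext fun r => by
      rw [hw r, Function.comp_apply, Fintype.linearCombination_apply]
    rw [this]; exact hf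
  · have hg := (key r).1.val i
    have e1 : ((2 * a + 1 : ℕ) : ℂ) / 2 = a + 1 / 2 := by push_cast; ring
    have hd := D_deg (a + 1 / 2) (2 * i + 1) (f r)
    have hi := i.2
    rw [e1, coeff_eq_zero_of_natDegree_lt (by have := (key r).2.1; omega), hw r] at hg
    simp only [map_sum, map_smul, eval_finsetSum, eval_smul, smul_eq_mul, D_pow] at hg
    simp only [Matrix.mulVec, dotProduct, MM, Matrix.of_apply, Algebra.algebraMap_self, map_id,
      RingHom.id_apply, Pi.zero_apply, mul_comm _ (w r _)]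
    linear_combination (1 / 2 : ℂ) * hg

end Pool.Agent.P.MP_6c8efb_pr.Arm
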