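import Pool.Agent.P.MP_6c8efb_pr.Arm.Iface

/-! The law of the link patterns seen from a horizontal line. -/

open MeasureTheory

namespace Pool.Agent.P.MP_6c8efb_pr.Arm

namespace LawA

/-- expectation for independent fair tiles -/
noncomputable def Ex (f : TC → ℝ) : ℝ := ∫ τ, f τ ∂PM fun _ => hf

open Classical in
theorem fub {β γ : Type} {X : TC → β} {Y : TC → γ} {S T : Set (ℤ × ℤ)} (hX : LocF X) (hY : LocF Y)
    (hS : DependsOn X S) (hT : DependsOn Y T) (hd : Disjoint S T) (F : β → γ → ℝ) {s : Finset β}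
    (hs : ∀ τ, X τ ∈ s) :
    Ex (fun τ => F (X τ) (Y τ)) = ∑ p ∈ s, Pt {τ | X τ = p} * Ex fun τ => F p (Y τ) := by
  have e : ∀ τ, F (X τ) (Y τ) =
      ∑ p ∈ s, {τ | X τ = p}.indicator (fun _ => (1 : ℝ)) τ * F p (Y τ) := fun τ => by
    simp [Set.indicator, hs τ]
  have l1 : ∀ p, LocF ({τ | X τ = p}.indicator fun _ => (1 : ℝ)) := fun p =>
    (hX.loc_eq p).locF_indicator 1
  unfold Ex
  simp only [e]
  rw [integral_finsetSum _ fun p _ => ((l1 p).comp₂ (hY.comp (F p)) (· * ·)).integrable _]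
  refine Finset.sum_congr rfl fun p _ => ?_
  rw [integral_mul_indep _ (l1 p) (hY.comp (F p))
    ((dep_of_dependsOn hS {p}).dependsOn_indicator 1) (fun _ _ h => congrArg (F p) (hT h)) hd,
    ← Pr_eq_integral _ (hX.loc_eq p), Pt]

/-- `v` is the law of `X` -/
def Law (X : TC → St) (v : W) : Prop :=
  ∀ h : St → ℝ, (Ex (fun τ => h (X τ)) : ℂ) = Finsupp.linearCombination ℂ (fun p => (h p : ℂ)) v

theorem law_const (p : St) : Law (fun _ => p) (Finsupp.single p 1) := fun h => by simp [Ex]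

theorem Law.map {X : TC → St} {v : W} (h : Law X v) (f : St → St) :
    Law (fun τ => f (X τ)) (lm f v) := fun g => by
  rw [h (fun p => g (f p)), lm, Finsupp.lmapDomain_apply, Finsupp.linearCombination_mapDomain]
  rfl

theorem locF_eval (c : ℤ × ℤ) : LocF fun τ : TC => τ c :=
  ⟨{c}, Set.finite_singleton c, fun _ _ h => h c rfl⟩

theorem Law.bit {X : TC → St} {v : W} {S : Set (ℤ × ℤ)} (h : Law X v) (hX : LocF X)
    (hS : DependsOn X S) {c : ℤ × ℤ} (hc : c ∉ S) (i : ℕ) :
    Law (fun τ => if τ c then ee i (X τ) else X τ) ((2 : ℂ)⁻¹ • R i 1 v) := fun g => by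
  have h1 := fub (locF_eval c) hX (S := {c}) (fun _ _ h => h c rfl) hS
    (Set.disjoint_singleton_left.2 hc) (fun b p => g (if b then ee i p else p))
    (s := Finset.univ) fun _ => Finset.mem_univ _
  have h2 := h.map (ee i) g
  have h3 := h g
  simp only [Fintype.sum_bool, Pt, Pr_eval, wt_hf, if_true, Bool.false_eq_true, if_false] at h1
  rw [h1, R, ah_one, ac_one, one_smul, one_smul, LinearMap.add_apply, map_smul, map_add, Ee,
    ← h2, Module.End.one_apply, ← h3]
  push_cast
  simp only [smul_eq_mul]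
  ring

theorem row_law {X : TC → St} {v : W} {t : ℤ} (h : Law X v) (hX : LocF X)
    (hS : DependsOn X {c | t < c.2}) (a n : ℕ) :
    LocF (fun τ : TC => rowS (fun s => τ (s, t)) a n (X τ)) ∧
    DependsOn (fun τ : TC => rowS (fun s => τ (s, t)) a n (X τ))
      {c | t < c.2 ∨ (c.2 = t ∧ c.1 < n)} ∧
    Law (fun τ => rowS (fun s => τ (s, t)) a n (X τ))
      ((2 : ℂ)⁻¹ ^ n • row a (List.replicate n 1) v) := by
  induction n with
  | zero => exact ⟨hX, hS.mono fun _ h => Or.inl h, by simpa [row, rowS] using h⟩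
  | succ n ih =>
    obtain ⟨i1, i2, i3⟩ := ih
    refine ⟨(locF_eval ((n : ℤ), t)).comp₂ i1 fun b p => if b then ee (a + n) p else p,
      fun τ τ' e => ?_, ?_⟩
    · have e1 := i2 (x := τ) (y := τ') fun c hc => e c (hc.imp id fun h => ⟨h.1, by
        have := h.2
        push_cast
        omega⟩)
      have e2 := e ((n : ℤ), t) (Or.inr ⟨rfl, by push_cast; omega⟩)
      exact congrArg₂ (fun (b : Bool) p => if b then ee (a + n) p else p) e2 e1
    · have := i3.bit i1 i2 (c := ((n : ℤ), t)) (by simp) (a + n)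
      rw [List.replicate_succ', row_append, List.length_replicate, pow_succ', mul_smul]
      simpa [row, rowS] using this

theorem top_law (L n r : ℕ) : LocF (fun τ => top L τ r n) ∧
    DependsOn (fun τ => top L τ r n) {c | 2 * (r : ℤ) ≤ c.2} ∧
    Law (fun τ => top L τ r n) ((TB L ^ n) (Finsupp.single o 1)) := by
  induction n generalizing r with
  | zero => exact ⟨locF_const o, fun _ _ _ => rfl, law_const o⟩
  | succ n ih =>
    obtain ⟨i1, i2, i3⟩ := ih (r + 1)
    obtain ⟨a1, a2, a3⟩ := row_law (t := 2 * r + 1) (i3.map (cup 0)) (i1.comp (cup 0))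
      (fun _ _ e => congrArg (cup 0) (i2 fun c hc => e c (by
        simp only [Set.mem_ofPred_eq] at hc ⊢
        push_cast at hc
        omega))) 1 L
    obtain ⟨b1, b2, b3⟩ := row_law (t := 2 * r) a3 a1 (a2.mono fun c hc => by
      simp only [Set.mem_ofPred_eq] at hc ⊢
      omega) 0 L
    refine ⟨b1.comp fun p => cap L (cap (L + 1) p),
      fun _ _ e => congrArg (fun p => cap L (cap (L + 1) p)) (b2 fun c hc => e c (by
        simp only [Set.mem_ofPred_eq] at hc ⊢
        omega)), ?_⟩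
    have h := (b3.map (cap (L + 1))).map (cap L)
    have e : ((4 : ℂ) ^ L)⁻¹ = 2⁻¹ ^ L * 2⁻¹ ^ L := by
      rw [← mul_pow, ← inv_pow]
      norm_num
    rw [pow_succ', Module.End.mul_apply]
    generalize (TB L ^ n) (Finsupp.single o 1) = v at h ⊢
    rw [TB, e, TM, List.length_replicate]
    simp only [map_smul, smul_smul] at h
    exact h

theorem flip_inj (k : ℕ) : Function.Injective fun c : ℤ × ℤ => ((k : ℤ) + c.1, -1 - c.2) :=
  fun c d e => by
    simp only [Prod.mk.injEq] at e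
    exact Prod.ext (by omega) (by omega)

theorem bot_law (k m n : ℕ) : LocF (fun τ => top m (flipB k τ) 0 n) ∧
    DependsOn (fun τ => top m (flipB k τ) 0 n) {c | c.2 < 0} ∧
    Law (fun τ => top m (flipB k τ) 0 n) ((TB m ^ n) (Finsupp.single o 1)) := by
  obtain ⟨h1, h2, h3⟩ := top_law m n 0
  have l : ∀ {β : Type} {f : TC → β}, LocF f →
      LocF fun τ : TC => f fun c => τ ((k : ℤ) + c.1, -1 - c.2) := fun ⟨S, hS, h⟩ =>
    ⟨_, hS.image fun c : ℤ × ℤ => ((k : ℤ) + c.1, -1 - c.2),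
      fun _ _ e => h fun c hc => e _ ⟨c, hc, rfl⟩⟩
  refine ⟨?_, fun _ _ e => h2 fun c hc => congrArg not (e _ ?_), fun g => ?_⟩
  · obtain ⟨S, hS, h⟩ := l h1
    exact ⟨S, hS, fun _ _ e => h (x := fun c => !_) (y := fun c => !_)
      fun c hc => congrArg not (e c hc)⟩
  · simp only [Set.mem_ofPred_eq] at hc ⊢
    omega
  · rw [← h3 g]
    exact congrArg _ ((integral_equiv (fun _ => notE) (l (h1.comp g))).trans
      (integral_comp_inj _ (flip_inj k) (h1.comp g)))

end LawA

open LawA in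
theorem s_Law : S_Law := by
  classical
  intro k m n
  obtain ⟨a1, a2, a3⟩ := top_law (k + m) n 0
  obtain ⟨b1, b2, b3⟩ := bot_law k m n
  have hl : Loc (EvN k m n) := (a1.prod b1).loc {x | Ev k 0 x.1 x.2}
  refine ⟨hl, ?_⟩
  have hs : ∀ τ, top (k + m) τ 0 n ∈ a1.finite_range.toFinset := fun τ => by simp
  have h1 := fub a1 b1 a2 b2 (Set.disjoint_left.2 fun c h h' => by
    simp only [Set.mem_ofPred_eq] at h h'
    omega) (fun p r => if Ev k 0 p r then 1 else 0) hs
  have h2 := fub a1 (locF_const ()) a2 (T := ∅) (fun _ _ _ => rfl) (Set.disjoint_empty _)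
    (fun p _ => Ex fun τ => if Ev k 0 p (top m (flipB k τ) 0 n) then 1 else 0) hs
  have h3 : Pt (EvN k m n) = Ex fun τ =>
      if Ev k 0 (top (k + m) τ 0 n) (top m (flipB k τ) 0 n) then 1 else 0 :=
    Pr_eq_integral _ hl
  have h4 : ∀ c : ℝ, (Ex fun _ => c) = c := fun c => by simp [Ex]
  simp only [h4] at h2
  rw [h3, h1, ← h2,
    a3 fun p => Ex fun τ => if Ev k 0 p (top m (flipB k τ) 0 n) then 1 else 0]
  refine LinearMap.congr_fun (g := (Bil k 0).flip _) (Finsupp.lhom_ext fun p c => ?_) _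
  rw [Finsupp.linearCombination_single, b3 fun r => if Ev k 0 p r then 1 else 0]
  simp [Bil, apply_ite Complex.ofReal]

end Pool.Agent.P.MP_6c8efb_pr.Arm
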