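import Pool.Agent.P.MP_6c8efb_pr.Arm.Iface

/-! The normalised invariant vector near the homogeneous point. -/

namespace Pool.Agent.P.MP_6c8efb_pr.Arm

namespace LocSA

theorem fix_smul {l : List ℂ} {v : W} (h : Fix l v) (c : ℂ) : Fix l (c • v) :=
  ⟨h.1.smul c, by rw [map_smul, h.2, smul_comm]⟩

theorem fix_sub {l : List ℂ} {v w : W} (hv : Fix l v) (hw : Fix l w) : Fix l (v - w) :=
  ⟨hv.1.sub hw.1, by rw [map_sub, hv.2, hw.2, smul_sub]⟩

theorem rc_apply (i : ℕ) (x y : ℂ) (v : W) :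
    Rc i x y v = (q ^ 2 * y - x) • v + (-q * (x - y)) • lm (ee i) v := rfl

theorem kc_apply (L : ℕ) (x : ℂ) (v : W) :
    Kc L x v = (x + q) • v + ((1 - q) * (1 - x)) • lm (cap L) v := rfl

theorem tot_rc (i : ℕ) (x y : ℂ) (v : W) : tot (Rc i x y v) = (q ^ 2 * x - y) * tot v := by
  rw [rc_apply, map_add, map_smul, map_smul, tot_lm, smul_eq_mul, smul_eq_mul]
  linear_combination (y - x) * tot v * q_eq

theorem tot_kc (L : ℕ) (x : ℂ) (v : W) : tot (Kc L x v) = (1 + q * x) * tot v := by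
  rw [kc_apply, map_add, map_smul, map_smul, tot_lm, smul_eq_mul, smul_eq_mul]
  ring

theorem sup_rc {L i : ℕ} (x y : ℂ) {v : W} (hv : Sup L v) (hi : i + 2 ≤ L) : Sup L (Rc i x y v) := by
  rw [rc_apply]
  exact (hv.smul _).add ((hv.lm fun p hp => hp.ee hi).smul _)

theorem sup_kc {L : ℕ} (x : ℂ) {v : W} (hv : Sup (L + 1) v) : Sup (L + 1) (Kc L x v) := by
  rw [kc_apply]
  exact (hv.smul _).add ((hv.lm fun p hp => hp.cap_last.mono (Nat.le_succ L)).smul _)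

theorem sq_inv {x : ℂ} (hx : x ≠ 0) : x ^ 2 * (1 + x⁻¹) ^ 2 = (1 + x) ^ 2 := by
  field_simp; ring

theorem cancel {x : ℂ} (hx : x ≠ 0) {v w : W} (h : x ^ 2 • v = x ^ 2 • w) : v = w :=
  smul_right_injective W (pow_ne_zero 2 hx) h

end LocSA

open LocSA in
theorem s_Loc (h1 : S_Uniq) (h2 : S_TM) (h3 : S_Ybe) (h4 : S_Bdy) : S_Loc := by
  intro L
  obtain ⟨ε, hε, hU⟩ := h1 L
  choose v hv0 hv using h2.ex
  have hn : ∀ l : List ℂ, (∀ x ∈ l, Near (min ε (1 / 10)) x) → ∀ x ∈ l, ‖x - 1‖ < ε :=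
    fun l h x hx => (h x hx).2.1.trans_le (min_le_left _ _)
  have uq : ∀ l : List ℂ, l.length = L → (∀ x ∈ l, Near (min ε (1 / 10)) x) → ∀ a b, Fix l a →
      Fix l b → tot a = tot b → a = b := fun l hl h a b ha hb e =>
    sub_eq_zero.1 (hU l hl (hn l h) _ (fix_sub ha hb) (by rw [map_sub, e, sub_self]))
  have fx : ∀ l : List ℂ, l.length = L → (∀ x ∈ l, Near (min ε (1 / 10)) x) →
      Fix l ((tot (v l))⁻¹ • v l) ∧ tot ((tot (v l))⁻¹ • v l) = 1 := fun l hl h =>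
    ⟨fix_smul (hv l) _, by
      rw [map_smul, smul_eq_mul, inv_mul_cancel₀ fun e => hv0 l (hU l hl (hn l h) _ (hv l) e)]⟩
  refine ⟨min ε (1 / 10), fun l => (tot (v l))⁻¹ • v l, lt_min hε (by norm_num), min_le_right _ _,
    fx, fun l₁ x y l₂ hl h => ?_, fun x l hl h => ?_, fun l x hl h => ?_⟩
  · have pm : (l₁ ++ x :: y :: l₂).Perm (l₁ ++ y :: x :: l₂) :=
      (List.Perm.swap y x l₂).append_left l₁
    have hl' : (l₁ ++ y :: x :: l₂).length = L := pm.length_eq ▸ hl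
    have h' : ∀ z ∈ l₁ ++ y :: x :: l₂, Near (min ε (1 / 10)) z := fun z hz =>
      h z (pm.symm.subset hz)
    obtain ⟨a1, a2⟩ := fx _ hl h
    obtain ⟨b1, b2⟩ := fx _ hl' h'
    refine uq _ hl' h' _ _ (fix_smul b1 _) ⟨?_, ?_⟩ ?_
    · rw [← pm.length_eq]
      exact sup_rc x y a1.1 (by simp)
    · rw [← Module.End.mul_apply, ← h3.exch, Module.End.mul_apply, a1.2, map_smul, nrm_perm pm]
    · rw [tot_rc, map_smul, a2, b2, smul_eq_mul]
  · have hx : x ≠ 0 := (h x (by simp)).1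
    have h' : ∀ z ∈ x⁻¹ :: l, Near (min ε (1 / 10)) z := by
      simp only [List.forall_mem_cons] at h ⊢
      exact ⟨h.1.inv, h.2⟩
    obtain ⟨a1, a2⟩ := fx _ hl h
    obtain ⟨b1, b2⟩ := fx (x⁻¹ :: l) hl h'
    refine uq _ hl h _ _ ⟨b1.1, ?_⟩ a1 (b2.trans a2.symm)
    rw [← h3.left x l hx, LinearMap.smul_apply, b1.2, smul_smul, nrm_cons, nrm_cons, ← mul_assoc,
      sq_inv hx]
  · have hx : x ≠ 0 := (h x (by simp)).1
    have hl' : (l ++ [x⁻¹]).length = L := by simpa using hl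
    have h' : ∀ z ∈ l ++ [x⁻¹], Near (min ε (1 / 10)) z := by
      simp only [List.forall_mem_append, List.forall_mem_singleton] at h ⊢
      exact ⟨h.1, h.2.inv⟩
    obtain ⟨a1, a2⟩ := fx _ hl h
    obtain ⟨b1, b2⟩ := fx _ hl' h'
    have s1 : Sup (l.length + 1) ((tot (v (l ++ [x])))⁻¹ • v (l ++ [x])) := by simpa using a1.1
    refine uq _ hl' h' _ _ (fix_smul b1 _) ⟨?_, cancel hx ?_⟩ ?_
    · simpa using sup_kc x s1
    · rw [← h4.right l x _ hx s1, a1.2, map_smul, smul_smul]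
      congr 1
      simp only [nrm_append, nrm_cons, nrm_nil, mul_one]
      rw [← sq_inv hx]; ring
    · rw [tot_kc, map_smul, a2, b2, smul_eq_mul]

end Pool.Agent.P.MP_6c8efb_pr.Arm
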