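import Pool.Agent.P.MP_6c8efb_pr.Arm.Iface

/-! The interpolation argument: the weight of the event is the determinant. -/

open Polynomial

namespace Pool.Agent.P.MP_6c8efb_pr.Arm

namespace MainA

theorem UU_q {x : ℂ} (hx : x ≠ 0) : UU (T (q * x)) = UU (T x) := (tri_T hx).UU_eq
theorem UU_qq {x : ℂ} (hx : x ≠ 0) : UU (T (q ^ 2 * x)) = UU (T x) := (tri_T hx).swap₂.UU_eq

theorem pref_ne {l : List ℂ} (h : Gen l) : Pref l ≠ 0 := by
  induction l with
  | nil => simp [Pref]
  | cons x l ih =>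
    rw [gen_cons] at h
    refine mul_ne_zero (List.prod_ne_zero fun e => ?_) (ih h.2.2)
    obtain ⟨y, hy, e⟩ := List.mem_map.1 e
    have hy0 := h.2.2.nz y hy
    exact UU_T_ne h.1.1 hy0 (h.2.1 y hy) (by rw [← UU_q hy0, sub_eq_zero.1 e])

theorem gen_map_inv {l₂ : List ℂ} : ∀ {l₁ : List ℂ}, Gen (l₁ ++ l₂) → Gen (l₁ ++ l₂.map (·⁻¹)) := by
  induction l₂ with
  | nil => exact fun h => h
  | cons x l ih =>
    intro l₁ h
    have h1 : Gen (x⁻¹ :: (l₁ ++ l)) := (h.perm List.perm_middle).replace (Or.inr (inv_pow _ _))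
    have h2 : Gen ((l₁ ++ [x⁻¹]) ++ l) := by simpa using h1.perm List.perm_middle.symm
    simpa using ih h2

theorem GG_perm {l l' : List ℂ} (h : l.Perm l') : GG l = GG l' := by
  rw [GG, GG, (h.map _).prod_eq]

theorem GG_cons (y : ℂ) (l : List ℂ) : GG (y :: l) = (X - C (T y)) * GG l := by
  simp only [GG, List.map_cons, List.prod_cons]; ring

theorem GG_eval (l : List ℂ) (s : ℂ) : (GG l).eval s = (s - 1) * (l.map fun y => s - T y).prod := by
  induction l with
  | nil => simp [GG]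
  | cons y l ih => rw [GG_cons, eval_mul, ih]; simp; ring

theorem GG_natDegree (l : List ℂ) : (GG l).natDegree ≤ l.length + 1 := by
  induction l with
  | nil => simpa [GG] using natDegree_X_sub_C_le (1 : ℂ)
  | cons y l ih =>
    rw [GG_cons]
    have := natDegree_X_sub_C_le (T y)
    exact natDegree_mul_le.trans (by simp only [List.length_cons]; omega)

theorem prod_sq (l : List ℂ) (f : ℂ → ℂ) (n : ℕ) :
    (l.map fun y => f y ^ n).prod = (l.map f).prod ^ n := by
  induction l with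
  | nil => simp
  | cons y l ih => simp [ih, mul_pow]

theorem cube_q (x : ℂ) : (q * x) ^ 3 = x ^ 3 := by rw [mul_pow, q_cube, one_mul]
theorem cube_qq (x : ℂ) : (q ^ 2 * x) ^ 3 = x ^ 3 := by rw [pow_two, mul_assoc, cube_q, cube_q]

variable {F : List ℂ → W}

/-- the quotient by `Pref` is symmetric in the legs -/
theorem cov_perm (hP : S_Pref) (hR : Nrec F) {v x : List ℂ} (hv : Nz v) (hx : Nz x) {u u' : List ℂ}
    (h : u.Perm u') : ∀ a : List ℂ, Gen (a ++ u) →
      NN F (a ++ u) v x / Pref (a ++ u) = NN F (a ++ u') v x / Pref (a ++ u') := by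
  induction h with
  | nil => exact fun _ _ => rfl
  | cons z _ ih => intro a ha; simpa using ih (a ++ [z]) (by simpa using ha)
  | trans h1 _ ih1 ih2 => exact fun a ha => (ih1 a ha).trans (ih2 a (ha.perm (h1.append_left a)))
  | swap s t l =>
    intro a ha
    have ha' : Gen (a ++ s :: t :: l) := ha.perm ((List.Perm.swap s t l).append_left a)
    have e1 := hR.cov a s t l v x ha'.nz hv hx
    have e2 := hP.exch a s t l ha'.nz
    have hst : q ^ 2 * s - t ≠ 0 := fun e => by
      have g : Gen (s :: t :: l) := ha'.sublist (List.sublist_append_right _ _)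
      exact ((gen_cons.1 g).2.1 t (by simp)).1 (by rw [← sub_eq_zero.1 e, cube_qq])
    rw [div_eq_div_iff (pref_ne ha) (pref_ne ha')]
    refine mul_left_cancel₀ hst ?_
    linear_combination Pref (a ++ s :: t :: l) * e1 - NN F (a ++ s :: t :: l) v x * e2

/-- the identity for lists of glued columns of length `n` -/
def Id (F : List ℂ → W) (x : List ℂ) : Prop := ∀ u v, Gen (u ++ v ++ x) →
  NN F u v x = Pref u * Pref v * QQ (x.map T) (GG (u ++ v))

theorem leg (hP : S_Pref) (hl : S_Qleg) (hR : Nrec F) {x : List ℂ} (ih : Id F x) {u v : List ℂ}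
    (h : Gen (u ++ v ++ x)) {w : ℂ} (hw : w ∈ u) : NN F u v ((q ^ 2 * w)⁻¹ :: x) =
      Pref u * Pref v * QQ (T (q ^ 2 * w) :: x.map T) (GG (u ++ v)) := by
  obtain ⟨u₁, u₂, rfl⟩ := List.append_of_mem hw
  set u' := u₁ ++ u₂ with hu'
  set y := q ^ 2 * w with hy
  have hp : (u₁ ++ w :: u₂).Perm (u' ++ [w]) :=
    List.perm_middle.trans (List.perm_append_singleton _ _).symm
  have g1 : Gen (w :: (u' ++ v ++ x)) := by
    refine h.perm ?_
    simpa only [List.append_assoc, List.cons_append, hu'] using List.perm_middle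
  have g2 := gen_cons.1 g1
  have hw0 : w ≠ 0 := g2.1.1
  have hy0 : y ≠ 0 := mul_ne_zero (pow_ne_zero _ q_ne_zero) hw0
  have hwy : w = q * y := by rw [hy]; linear_combination (-w) * q_cube
  have hy6 : y ^ 6 ≠ 1 := by
    rw [show y ^ 6 = (y ^ 3) ^ 2 by ring, hy, cube_qq, ← pow_mul]; exact g2.1.2
  have nz := g2.2.2.nz
  simp only [nz_append] at nz
  have g3 : Gen (u' ++ (v ++ [y⁻¹]) ++ x) := by
    refine (g1.replace (y := y⁻¹) (Or.inr (by rw [inv_pow, hy, cube_qq]))).perm ?_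
    simpa only [List.append_assoc, List.cons_append, List.nil_append] using
      (List.perm_middle (l₁ := u' ++ v) (l₂ := x) (a := y⁻¹)).symm
  have gu : Gen (u₁ ++ w :: u₂) := h.sublist (by simp only [List.append_assoc]; simp)
  have c := cov_perm hP hR nz.1.2 (nz_cons.2 ⟨inv_ne_zero hy0, nz.2⟩) hp [] gu
  simp only [List.nil_append] at c
  rw [div_eq_div_iff (pref_ne gu) (pref_ne (gu.perm hp))] at c
  refine mul_right_cancel₀ (pref_ne (gu.perm hp)) (c.trans ?_)
  have e1 : GG (u₁ ++ w :: u₂ ++ v) = (X - C (T (q * y))) * GG (u' ++ v) := by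
    rw [← hwy, ← GG_cons]; exact GG_perm (List.perm_middle.append_right v)
  have e2 : GG (u' ++ (v ++ [y⁻¹])) = (X - C (T y)) * GG (u' ++ v) := by
    rw [← T_inv, ← GG_cons, ← List.append_assoc]; exact GG_perm (List.perm_append_singleton _ _)
  have hu : UU (T y) ^ 2 ≠ 4 := UU_T_sq_ne hy0 hy6
  rw [e1, hl _ _ _ _ _ (tri_T hy0) ((tri_T hy0).ne hu) ?_]
  · have e := hR.leg u' v y x nz.1.1 nz.1.2 nz.2 hy0 hy6
    rw [← hwy] at e
    rw [e, ih _ _ g3, e2, hP.snoc, hP.snoc, GG_eval, cA, T_q_inv,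
      show q * w = q ^ 2 * y by rw [hwy]; ring]
    simp only [List.map_append, List.prod_append, List.map_map, Function.comp_def, prod_sq]
    ring
  · intro s hs
    obtain ⟨z, hz, rfl⟩ := List.mem_map.1 hs
    rw [hy, UU_qq hw0]
    exact (UU_T_ne hw0 (nz.2 z hz) (g2.2.1 z (by simp [hz]))).symm

theorem gen_inj {l : List ℂ} (h : Gen l) {a b : ℂ} (ha : a ∈ l) (hb : b ∈ l)
    (e : UU (T a) = UU (T b)) : a = b := by
  by_contra hn
  have : Std.Symm fun x y : ℂ => x ^ 3 ≠ y ^ 3 ∧ x ^ 3 * y ^ 3 ≠ 1 :=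
    ⟨fun _ _ h1 => ⟨h1.1.symm, by rw [mul_comm]; exact h1.2⟩⟩
  exact UU_T_ne (h.nz a ha) (h.nz b hb) (h.2.forall ha hb hn) e

theorem gen_nodup {l : List ℂ} (h : Gen l) : l.Nodup := h.2.imp fun e e' => e.1 (by rw [e'])

theorem roots_nodup {l x : List ℂ} (h : Gen (l ++ x)) :
    (1 :: (((l ++ x).map fun z => T (q ^ 2 * z)) ++ x.map fun z => T (q * z))).Nodup := by
  have hx : Gen x := h.sublist (List.sublist_append_right _ _)
  have h1 : ∀ z ∈ l ++ x, UU (T z) ≠ UU 1 := fun z hz e =>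
    UU_T_sq_ne (h.1 z hz).1 (h.1 z hz).2 (by rw [e]; norm_num [UU])
  refine List.nodup_cons.2 ⟨fun e => ?_, List.nodup_append.2 ⟨(gen_nodup h).map_on fun a ha b hb e =>
    gen_inj h ha hb ?_, (gen_nodup hx).map_on fun a ha b hb e => gen_inj hx ha hb ?_, ?_⟩⟩
  · rcases List.mem_append.1 e with e | e <;> obtain ⟨z, hz, e⟩ := List.mem_map.1 e
    · exact h1 z hz (by rw [← e, UU_qq (h.nz z hz)])
    · exact h1 z (List.mem_append_right _ hz) (by rw [← e, UU_q (hx.nz z hz)])
  · rw [← UU_qq (h.nz a ha), e, UU_qq (h.nz b hb)]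
  · rw [← UU_q (hx.nz a ha), e, UU_q (hx.nz b hb)]
  · intro s hs s' hs' e
    obtain ⟨a, ha, rfl⟩ := List.mem_map.1 hs
    obtain ⟨b, hb, rfl⟩ := List.mem_map.1 hs'
    obtain rfl := gen_inj h ha (List.mem_append_right _ hb)
      (by rw [← UU_qq (h.nz a ha), e, UU_q (hx.nz b hb)])
    exact (tri_T (h.nz a ha)).ne (UU_T_sq_ne (h.1 a ha).1 (h.1 a ha).2) e.symm

theorem xx (h2 : S_QP2) (hR : Nrec F) {x : List ℂ} (ih : Id F x) {u v : List ℂ} {y : ℂ}
    (h : Gen (y :: (u ++ v ++ x))) {p : ℂ[X]} (hp : ∀ t, (∀ r ∈ T y :: x.map T, UU r ≠ UU t) →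
      QQ (t :: T y :: x.map T) (GG (u ++ v)) = p.eval t) :
    NN F u v ((q * y)⁻¹ :: y⁻¹ :: x) = Pref u * Pref v * p.eval (T (q * y)) := by
  have g := gen_cons.1 h
  have nz := g.2.2.nz
  simp only [nz_append] at nz
  have g2 : Gen (y :: x) := h.sublist (by simp)
  rw [hR.xx u v y x nz.1.1 nz.1.2 nz.2 g.1.1 g.1.2, ih u v g.2.2,
    h2 _ _ _ p _ _ g2.genT (tri_T g.1.1).swap₁ hp, GG_eval, cA, cA]
  simp only [List.map_append, List.prod_append, List.map_map, Function.comp_def, prod_sq]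
  ring

theorem wall (hl : S_Qleg) (hN : Nsym F) (hR : Nrec F) {x : List ℂ} (ih : Id F x) {u v : List ℂ}
    (h : Gen (u ++ v ++ x)) :
    NN F u v (-q :: x) = Pref u * Pref v * QQ (1 :: x.map T) (GG (u ++ v)) := by
  have nz := h.nz
  simp only [nz_append] at nz
  have e : (X - 1 : ℂ[X]) = X - C 1 := by simp
  rw [hN.perm u v _ (x ++ [-q]) nz.1.1 nz.1.2 (nz_cons.2 ⟨neg_ne_zero.2 q_ne_zero, nz.2⟩)
    (List.perm_append_singleton _ _).symm, hR.wall u v x nz.1.1 nz.1.2 nz.2, ih u v h, GG, e,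
    hl 1 1 (-2) _ _ (by norm_num [Tri]) (by norm_num) ?_, eval_list_prod]
  · simp only [List.map_append, List.prod_append, List.map_map, Function.comp_def, prod_sq,
      eval_sub, eval_X, eval_C]
    ring
  · intro s hs e
    exact (h.sublist (List.sublist_append_right _ _)).genT.1 s hs (by rw [e]; norm_num [UU])

theorem step (hP : S_Pref) (hS : S_Sym) (hq : S_Qperm) (hl : S_Qleg) (h1 : S_QP1) (h2 : S_QP2)
    (hN : Nsym F) (hR : Nrec F) (t : ℂ) (x : List ℂ)
    (ih : ∀ x' : List ℂ, x'.length ≤ x.length → Id F x') : Id F (t :: x) := by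
  intro u v h0
  have h' : Gen (t :: (u ++ v ++ x)) := h0.perm List.perm_middle
  have g := gen_cons.1 h'
  have h := g.2.2
  have nz := h.nz
  simp only [nz_append] at nz
  have hx : Gen x := h.sublist (List.sublist_append_right _ _)
  obtain ⟨p, hd, hp⟩ := h1 (x.map T) (GG (u ++ v)) hx.genT
  obtain ⟨r, rd, hr⟩ := hS _ _ (hN.lpx u v [] x nz.1.1 nz.1.2 nz_nil nz.2)
    fun s hs => hN.inv u v s x nz.1.1 nz.1.2 nz.2 hs
  simp only [List.nil_append, List.length_nil, zero_add] at rd hr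
  have ne : ∀ s w, w ≠ 0 → (∀ z ∈ x, w ^ 3 ≠ z ^ 3 ∧ w ^ 3 * z ^ 3 ≠ 1) → UU s = UU (T w) →
      ∀ r ∈ x.map T, UU r ≠ UU s := fun s w hw hz e r hr => by
    obtain ⟨z, hz', rfl⟩ := List.mem_map.1 hr
    rw [e]; exact (UU_T_ne hw (nz.2 z hz') (hz z hz')).symm
  have ne' : ∀ w ∈ u ++ v, ∀ r ∈ x.map T, UU r ≠ UU (T (q ^ 2 * w)) := fun w hw =>
    ne _ w (h.nz w (List.mem_append_left _ hw))
      (fun z hz => (List.pairwise_append.1 h.2).2.2 w hw z hz)
      (UU_qq (h.nz w (List.mem_append_left _ hw)))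
  have qq : ∀ w : ℂ, w ≠ 0 → q ^ 2 * w ≠ 0 := fun w => mul_ne_zero (pow_ne_zero _ q_ne_zero)
  have hxx : ∀ z ∈ x, ∀ y, y = z ∨ y = z⁻¹ →
      r.eval (T (q * y)) = Pref u * Pref v * p.eval (T (q * y)) := by
    intro z hz y hy
    have pm := List.perm_cons_erase hz
    set x' := x.erase z
    have gz : Gen (z :: (u ++ v ++ x')) := h.perm ((pm.append_left _).trans List.perm_middle)
    have z0 := nz.2 z hz
    have y0 : y ≠ 0 := by rcases hy with rfl | rfl <;> simpa using z0
    have qy : (q * y)⁻¹ ≠ 0 := inv_ne_zero (mul_ne_zero q_ne_zero y0)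
    have nx' : Nz x' := (nz_cons.1 (nz.2.perm pm)).2
    have hT : T y = T z := by rcases hy with rfl | rfl <;> simp
    rw [← xx h2 hR (ih x' (by rw [pm.length_eq]; simp)) (gz.replace (by
      rcases hy with rfl | rfl <;> simp)) (fun s hs => ?_), ← T_inv, ← hr _ qy,
      hN.perm u v _ (z :: (q * y)⁻¹ :: x') nz.1.1 nz.1.2 (nz_cons.2 ⟨qy, nz.2⟩)
        ((pm.cons _).trans (List.Perm.swap _ _ _)),
      hN.perm u v _ (y⁻¹ :: (q * y)⁻¹ :: x') nz.1.1 nz.1.2 (by simp [q_ne_zero, y0, nx']) (.swap _ _ _)]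
    · rcases hy with rfl | rfl
      · exact (hN.inv u v _ _ nz.1.1 nz.1.2 (by simp [q_ne_zero, y0, nx']) y0).symm
      · rw [inv_inv]
    · have pm' : (x.map T).Perm (T y :: x'.map T) := by rw [hT]; exact pm.map T
      rw [← hp s fun r hr => hs r (pm'.subset hr)]
      exact hq _ _ _ (pm'.symm.cons s)
  have key : r - C (Pref u * Pref v) * p = 0 := by
    refine eq_zero_of_natDegree_lt_card_of_eval_eq_zero' _ (List.toFinset _) (fun s hs => ?_)
      (by
        rw [List.toFinset_card_of_nodup (roots_nodup h)]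
        have := GG_natDegree (u ++ v)
        have := natDegree_sub_le r (C (Pref u * Pref v) * p)
        have := natDegree_C_mul_le (Pref u * Pref v) p
        simp only [List.length_cons, List.length_append, List.length_map] at *
        omega)
    rw [eval_sub, eval_mul, eval_C, sub_eq_zero]
    simp only [List.mem_toFinset, List.mem_cons, List.mem_append, List.mem_map] at hs
    rcases hs with rfl | ⟨w, (hw | hw) | hw, rfl⟩ | ⟨w, hw, rfl⟩
    · rw [← hp 1 fun s hs e => hx.genT.1 s hs (by rw [e]; norm_num [UU]),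
        ← wall hl hN hR (ih x le_rfl) h, hr _ (neg_ne_zero.2 q_ne_zero), T_neg_q]
    · rw [← hp _ (ne' w (by simp [hw])), ← leg hP hl hR (ih x le_rfl) h hw,
        hr _ (inv_ne_zero (qq w (nz.1.1 w hw))), T_inv]
    · have e := leg hP hl hR (ih (x.map (·⁻¹)) (by simp))
        (gen_map_inv (h.perm (List.perm_append_comm.append_right x))) hw
      rw [← hp _ (ne' w (by simp [hw])), ← hr _ (qq w (nz.1.2 w hw)), hN.swap, List.map_cons, e,
        GG_perm List.perm_append_comm, List.map_map, mul_comm (Pref v)]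
      simp only [Function.comp_def, T_inv]
    · rw [← T_q_inv]; exact hxx w hw _ (Or.inr rfl)
    · exact hxx w hw _ (Or.inl rfl)
  rw [hr t g.1.1, sub_eq_zero.1 key, eval_mul, eval_C, List.map_cons,
    hp _ (ne _ t g.1.1 (fun z hz => g.2.1 z (by simp [hz])) rfl)]

end MainA

theorem s_Main (hP : S_Pref) (hS : S_Sym) (hq : S_Qperm) (hl : S_Qleg) (h1 : S_QP1) (h2 : S_QP2) :
    S_Main := by
  intro F hN hR
  have : ∀ n, ∀ x : List ℂ, x.length ≤ n → MainA.Id F x := by
    intro n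
    have h0 : MainA.Id F [] := fun u v h => by
      have nz := h.nz
      simp only [nz_append] at nz
      rw [hR.base u v nz.1.1 nz.1.2]
      have : DD [] (GG (u ++ v)) = 1 := Matrix.det_fin_zero
      simp only [List.map_nil, QQ, VV, this, div_one, mul_one]
    induction n with
    | zero => intro x hx; rw [List.length_eq_zero_iff.1 (Nat.le_zero.1 hx)]; exact h0
    | succ n ih =>
      rintro (_ | ⟨t, x⟩) hx
      · exact h0
      · exact MainA.step hP hS hq hl h1 h2 hN hR t x fun x' hx' =>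
          ih x' (by simp only [List.length_cons] at hx; omega)
  exact fun u v x h => this _ x le_rfl u v h

end Pool.Agent.P.MP_6c8efb_pr.Arm
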