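import Pool.Agent.P.MP_6c8efb_pr.Arm.Iface

/-! The recursion relations of the weight of the event. -/

namespace Pool.Agent.P.MP_6c8efb_pr.Arm

namespace NrecSA

theorem lm_id' (v : W) : lm id v = v := by rw [lm_id]; rfl

theorem bil_prod {a b L M : ℕ} {φ ψ : W →ₗ[ℂ] ℂ}
    (h : ∀ p r, Bd L p → Bd M r → Bil a b (Finsupp.single p 1) (Finsupp.single r 1) =
      φ (Finsupp.single p 1) * ψ (Finsupp.single r 1)) {v w : W} (hv : Sup L v) (hw : Sup M w) :
    Bil a b v w = φ v * ψ w := by
  have e := Sup.ext (f := (Bil a b).flip w) (g := ψ w • φ) (fun p hp => ?_) hv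
  · simpa [mul_comm] using e
  have e := Sup.ext (f := Bil a b (Finsupp.single p 1)) (g := φ (Finsupp.single p 1) • ψ)
    (fun r hr => by simpa using h p r hp hr) hw
  simpa [mul_comm] using e

theorem bil_arc (h1 : S_Ev) {a b i : ℕ} (hi : i + 2 ≤ a) (v w : W) : Bil a b (Ee i v) w = 0 := by
  induction v using Finsupp.induction_linear with
  | zero => simp
  | add v v' e e' => simp [e, e']
  | single p c =>
    induction w using Finsupp.induction_linear with
    | zero => simp
    | add w w' e e' => rw [map_add, e, e', add_zero]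
    | single r d => rw [Ee, lm_single, Bil_single]; exact if_neg (h1.arc a b i _ r hi)

theorem bil_leg (h1 : S_Ev) {a b L M : ℕ} {v w : W} (hv : Sup L v) (hw : Sup M w) :
    Bil (a + 1) b (Cup a v) w = Bil a (b + 1) v w := by
  have := Bil_congr (f := cup a) (f' := id) (g := id) (g' := id)
    (fun p r _ _ => h1.leg a b p r) hv hw
  simpa only [lm_id', Cup, Cap] using this

theorem bil_glue (h1 : S_Ev) {a b L M : ℕ} {v w : W} (hv : Sup L v) (hw : Sup M w) :
    Bil a b (Cup a v) w = Bil a b v (Cap b w) := by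
  have := Bil_congr (f := cup a) (f' := id) (g := id) (g' := cap b)
    (fun p r _ _ => h1.glue a b 0 p r) hv hw
  simpa only [lm_id', Cup, Cap] using this

theorem bil_wall (h1 : S_Ev) {a b m : ℕ} {v w : W} (hv : Sup (a + m) v) (hw : Sup (b + m + 1) w) :
    Bil a b v w = Bil a b v (Cap (b + m) w) := by
  have := Bil_congr (f := cap (a + m)) (f' := id) (g := id) (g' := cap (b + m))
    (fun p r hp hr => h1.wall a b m p r hp hr) (hv.mono (Nat.le_succ _)) hw
  rw [Sup.lm_congr (g := id) (fun p hp => hp.cap_eq le_rfl) hv] at this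
  simpa only [lm_id', Cup, Cap] using this

theorem bil_base (h1 : S_Ev) {a b : ℕ} {v w : W} (hv : Sup a v) (hw : Sup b w) :
    Bil a b v w = v o * w o := by
  classical
  refine bil_prod (φ := Finsupp.lapply o) (ψ := Finsupp.lapply o) (fun p r hp hr => ?_) hv hw
  simp only [Bil_single, h1.base a b p r hp hr, Finsupp.lapply_apply, Finsupp.single_apply]
  by_cases e1 : p = o <;> by_cases e2 : r = o <;> simp [e1, e2]

theorem bil_tot {a b L M : ℕ} (h : ∀ p r, Bd L p → Bd M r → Ev a b p r) {v w : W} (hv : Sup L v)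
    (hw : Sup M w) : Bil a b v w = tot v * tot w :=
  bil_prod (fun p r hp hr => by simp [h p r hp hr]) hv hw

theorem bil_zero (v w : W) : Bil 0 0 v w = tot v * tot w := by
  have h : ∀ p r, Ev 0 0 p r := fun _ _ _ _ _ _ _ =>
    ⟨fun _ hi => absurd hi (Nat.not_lt_zero _), fun _ hi => absurd hi (Nat.not_lt_zero _)⟩
  induction v using Finsupp.induction_linear with
  | zero => simp
  | add v v' e e' => simp [e, e', add_mul]
  | single p c =>
    induction w using Finsupp.induction_linear with
    | zero => simp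
    | add w w' e e' => rw [map_add, e, e', map_add, mul_add]
    | single r d => simp [h p r]

theorem cA_inv (y : ℂ) (u x : List ℂ) : cA y (u ++ x.map (·⁻¹)) = cA y (u ++ x) := by
  simp [cA, Function.comp_def]

theorem wall_inv (u x : List ℂ) : ((u ++ x.map (·⁻¹)).map fun z => -2 - T z).prod =
    ((u ++ x).map fun z => -2 - T z).prod := by
  simp [Function.comp_def]

theorem qy_inv (y : ℂ) : y⁻¹ = q * (q * y)⁻¹ := by
  rw [mul_inv, ← mul_assoc, mul_inv_cancel₀ q_ne_zero, one_mul]

theorem cA_w (y : ℂ) (l : List ℂ) : cA (q * y)⁻¹ l = cA y l := by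
  have : T (q ^ 2 * (q * y)⁻¹) = T (q ^ 2 * y) := by
    rw [T_qq_inv]; congr 1; ring
  simp only [cA, this]

theorem Cap_Ee (i : ℕ) (v : W) : Cap i (Ee i v) = Cap i v := by
  rw [Ee_eq, ← Module.End.mul_apply, ← mul_assoc, Cap_Cup, one_mul]

theorem Cap_Cup' (i : ℕ) (v : W) : Cap i (Cup i v) = v := by
  rw [← Module.End.mul_apply, Cap_Cup]; rfl

theorem cap_arc {F : List ℂ → W} (h : Sol F) (h2 : Sol2 F) {v x : List ℂ} {w : ℂ} (hv : Nz v)
    (hx : Nz x) (hw : w ≠ 0) (h6 : w ^ 6 ≠ 1) :
    Cap v.length (F (v ++ w :: q * w :: x)) = cA w (v ++ x) • F (v ++ x) := by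
  have e := h.exch v w (q * w) x (by simp [hv, hx, hw, q_ne_zero])
  have c1 : q ^ 2 * (q * w) - w = 0 := by linear_combination w * q_cube
  have c2 : -q * (w - q * w) = q ^ 2 * w - q * w := by ring
  have c3 : q ^ 2 * w - q * w ≠ 0 := by
    rw [← sub_mul]; exact mul_ne_zero (sub_ne_zero.2 q_sq_ne) hw
  rw [Rc, c1, c2, zero_smul, zero_add, LinearMap.smul_apply] at e
  have e' := congrArg (Cap v.length) (smul_right_injective W c3 e)
  rw [Cap_Ee] at e'
  rw [← e', h2.arc v w x hv hx hw h6, map_smul, Cap_Cup']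

theorem neg_q_inv : (-q)⁻¹ = -q ^ 2 := by rw [inv_neg, q_inv]

theorem cap_wall {F : List ℂ → W} (h : Sol F) (h2 : Sol2 F) {l : List ℂ} (hl : Nz l) :
    Cap l.length (F (l ++ [-q])) = (l.map fun z => -2 - T z).prod • F l := by
  have e := h.right l (-q) (by simp [hl, q_ne_zero])
  have c1 : -q + q = 0 := by ring
  have c2 : (1 - q) * (1 - -q) = 1 + q * -q := by ring
  have c3 : 1 + q * -q ≠ 0 := fun e => q_ne_one (by linear_combination q * e + q_cube)
  rw [Kc, c1, c2, zero_smul, zero_add, LinearMap.smul_apply, neg_q_inv] at e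
  rw [← smul_right_injective W c3 e, h2.wall l hl]

end NrecSA

open NrecSA in
theorem s_Nrec (h1 : S_Ev) : S_Nrec := by
  intro F h h2
  have sup : ∀ l, Nz l → Sup l.length (F l) := fun l hl => (h.fix l hl).1
  refine ⟨fun u₁ x y u₂ v w hu hv hw => ?_, fun u v y x hu hv hx hy h6 => ?_,
    fun u v y x hu hv hx hy h6 => ?_, fun u v x hu hv hx => ?_, fun u v hu hv => ?_, fun x => ?_,
    fun y x hy hx => ?_⟩
  · have e := h.exch u₁ x y (u₂ ++ w.map (·⁻¹)) (by
      simp only [nz_append, nz_cons, nz_map_inv] at hu ⊢; tauto)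
    have e' := congrArg (fun A => Bil (u₁.length + (u₂.length + 1 + 1)) v.length A (F (v ++ w))) e
    simp only [Rc, LinearMap.add_apply, LinearMap.smul_apply, Module.End.one_apply, map_add,
      map_smul, smul_eq_mul] at e'
    rw [bil_arc h1 (by omega), mul_zero, add_zero] at e'
    simpa only [NN, List.append_assoc, List.cons_append, List.length_append, List.length_cons]
      using e'
  · have e := h2.arc u y (x.map (·⁻¹)) hu (nz_map_inv.2 hx) hy h6
    simp only [NN, List.append_assoc, List.cons_append, List.nil_append, List.map_cons, inv_inv,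
      List.length_append, List.length_singleton]
    rw [e, map_smul, LinearMap.smul_apply, smul_eq_mul, cA_inv,
      bil_leg h1 (sup _ (by simp [hu, hx])) (sup _ (by simp [hv, hx, hy]))]
  · have e := h2.arc u y (x.map (·⁻¹)) hu (nz_map_inv.2 hx) hy h6
    have hw : (q * y)⁻¹ ≠ 0 := inv_ne_zero (mul_ne_zero q_ne_zero hy)
    have hw6 : (q * y)⁻¹ ^ 6 ≠ 1 := by
      have : (q * y) ^ 6 = y ^ 6 := by linear_combination (q ^ 3 + 1) * y ^ 6 * q_cube
      rw [inv_pow, this]; simpa using h6
    have e' := cap_arc h h2 hv hx hw hw6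
    rw [← qy_inv, cA_w] at e'
    simp only [NN, List.map_cons, inv_inv]
    rw [e, map_smul, LinearMap.smul_apply, smul_eq_mul, cA_inv,
      bil_glue h1 (sup _ (by simp [hu, hx])) (sup _ (by simp [hv, hx, hy, q_ne_zero])), e',
      map_smul, smul_eq_mul, mul_assoc]
  · have e := h2.wall (u ++ x.map (·⁻¹)) (by simp [hu, hx])
    have e' := cap_wall h h2 (l := v ++ x) (by simp [hv, hx])
    have s1 := sup (u ++ x.map (·⁻¹)) (by simp [hu, hx])
    have s2 := sup (v ++ x ++ [-q]) (by simp [hv, hx, q_ne_zero])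
    simp only [List.length_append, List.length_map, List.length_singleton] at s1 s2 e'
    simp only [NN, List.map_append, List.map_singleton, neg_q_inv, ← List.append_assoc]
    rw [e, map_smul, LinearMap.smul_apply, smul_eq_mul, wall_inv, bil_wall h1 s1 s2, e', map_smul,
      smul_eq_mul, mul_assoc]
    simp only [List.map_append]
  · simp only [NN, List.map_nil, List.append_nil]
    rw [bil_base h1 (sup u hu) (sup v hv), h.zero u hu, h.zero v hv]
  · simp only [NN, List.nil_append, List.length_nil]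
    exact bil_zero _ _
  · simp only [NN, List.nil_append, List.length_nil, List.length_singleton, List.singleton_append]
    exact bil_tot (h1.one _ _) (sup _ (by simp [hy, hx])) (sup _ hx)

end Pool.Agent.P.MP_6c8efb_pr.Arm
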