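import Pool.Agent.P.MP_6c8efb_pr.Arm.Iface

/-! Symmetries of the weight of the event. -/

namespace Pool.Agent.P.MP_6c8efb_pr.Arm

namespace NsymSA

theorem bil_swap (h1 : S_Ev) (a b : ℕ) (v w : W) : Bil a b v w = Bil b a w v := by
  have : Bil a b = (Bil b a).flip :=
    Finsupp.lhom_ext fun p c => Finsupp.lhom_ext fun r d => by
      simp only [Bil_single, LinearMap.flip_apply, mul_comm]
      rw [propext (h1.symm a b p r)]
  rw [this, LinearMap.flip_apply]

theorem adjE (h1 : S_Ev) (a b j : ℕ) (A B : W) :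
    Bil a b (Ee (a + j) A) B = Bil a b A (Ee (b + j) B) := by
  have : Bil a b ∘ₗ Ee (a + j) = (Bil a b).compl₂ (Ee (b + j)) :=
    Finsupp.lhom_ext fun p c => Finsupp.lhom_ext fun r d => by
      have e : Ev a b (ee (a + j) p) r ↔ Ev a b p (ee (b + j) r) := by
        rw [ee, ee, h1.glue, h1.symm a b p, h1.glue, h1.symm]
      simp only [Ee, LinearMap.comp_apply, LinearMap.compl₂_apply, lm_single, Bil_single]
      rw [propext e]
  exact LinearMap.congr_fun (LinearMap.congr_fun this A) B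

theorem adjR (h1 : S_Ev) (a b j : ℕ) (x y : ℂ) (A B : W) :
    Bil a b (Rc (a + j) x y A) B = Bil a b A (Rc (b + j) x y B) := by
  simp only [Rc, LinearMap.add_apply, LinearMap.smul_apply, Module.End.one_apply, map_add, map_smul,
    adjE h1]

theorem adjK (h1 : S_Ev) (a b m : ℕ) (x : ℂ) {A B : W} (hA : Sup (a + m + 1) A)
    (hB : Sup (b + m + 1) B) : Bil a b (Kc (a + m) x A) B = Bil a b A (Kc (b + m) x B) := by
  have e := Bil_congr (a := a) (b := b) (a' := a) (b' := b) (f := cap (a + m)) (g := id) (f' := id)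
    (g' := cap (b + m)) (fun p r hp hr => h1.wall a b m p r hp hr) hA hB
  rw [lm_id, Module.End.one_apply, Module.End.one_apply] at e
  simp only [Kc, Cap, LinearMap.add_apply, LinearMap.smul_apply, Module.End.one_apply, map_add,
    map_smul, e]

variable {F : List ℂ → W}

theorem lpx (h : Sol F) (u v x₁ x₂ : List ℂ) (hu : Nz u) (hv : Nz v) (h1 : Nz x₁) (h2 : Nz x₂) :
    LPd (2 * (x₁.length + x₂.length) + u.length + v.length) fun t => NN F u v (x₁ ++ t :: x₂) := by
  have a1 : Nz (u ++ x₁.map (·⁻¹)) := by simp [hu, h1]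
  have a2 : Nz (x₂.map (·⁻¹)) := by simp [h2]
  have a3 : Nz (v ++ x₁) := by simp [hv, h1]
  have s := LPd.sum (SL (u.length + x₁.length + x₂.length + 1)) fun p _ =>
    (h.deg _ _ p a1 a2).inv.mul (h.lpd (Bil u.length v.length (Finsupp.single p 1)) a3 h2)
  refine (s.congr fun t ht => ?_).mono (by simp; omega)
  have a4 : Nz (u ++ x₁.map (·⁻¹) ++ t⁻¹ :: x₂.map (·⁻¹)) := by simp [hu, h1, h2, ht]
  have a5 := (h.fix _ a4).1
  have e : (u ++ x₁.map (·⁻¹) ++ t⁻¹ :: x₂.map (·⁻¹)).length =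
      u.length + x₁.length + x₂.length + 1 := by simp; omega
  rw [e] at a5
  have a6 := a5.map_eq ((Bil u.length v.length).flip (F (v ++ x₁ ++ t :: x₂)))
  simp only [LinearMap.flip_apply] at a6
  rw [← a6, NN]
  simp only [List.map_append, List.map_cons, List.append_assoc]

theorem lpu (h : Sol F) (u₁ u₂ v x : List ℂ) (h1 : Nz u₁) (h2 : Nz u₂) (hx : Nz x) :
    LP1 fun t => NN F (u₁ ++ t :: u₂) v x := by
  have a2 : Nz (u₂ ++ x.map (·⁻¹)) := by simp [h2, hx]
  refine (h.lpd ((Bil (u₁.length + u₂.length + 1) v.length).flip (F (v ++ x))) h1 a2).lp1.congr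
    fun t _ => ?_
  simp only [NN, LinearMap.flip_apply, List.length_append, List.length_cons, List.append_assoc,
    List.cons_append, add_assoc]

theorem adj (h1 : S_Ev) (h2 : S_Ybe) (h : Sol F) (u v x₁ x₂ : List ℂ) (s t : ℂ) (hu : Nz u)
    (hv : Nz v) (hx1 : Nz x₁) (hx2 : Nz x₂) (hs : s ≠ 0) (ht : t ≠ 0) :
    NN F u v (x₁ ++ t :: s :: x₂) = NN F u v (x₁ ++ s :: t :: x₂) := by
  have l1 := (lpx h u v (x₁ ++ [t]) x₂ hu hv (by simp [hx1, ht]) hx2).lp1
  have l2 := (lpx h u v x₁ (t :: x₂) hu hv hx1 (by simp [hx2, ht])).lp1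
  simp only [List.append_assoc, List.cons_append, List.nil_append] at l1
  rw [← sub_eq_zero]
  refine (l1.sub l2).eq_zero' (B := {q ^ 2 * t, q * t}) (Set.toFinite _) (fun s hB hs => ?_) hs
  simp only [Set.mem_insert_iff, Set.mem_singleton_iff, not_or] at hB
  have n1 : q ^ 2 * t - s ≠ 0 := fun e => hB.1 (by linear_combination -e)
  have n2 : q ^ 2 * s - t ≠ 0 := fun e => hB.2 (by linear_combination q * e - s * q_cube)
  have e1 := h.exch (u ++ x₁.map (·⁻¹)) s⁻¹ t⁻¹ (x₂.map (·⁻¹)) (by simp [hu, hx1, hx2, hs, ht])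
  have e2 := h.exch (v ++ x₁) s t x₂ (by simp [hv, hx1, hx2, hs, ht])
  have e3 : ∀ i, (s * t) • Rc i s⁻¹ t⁻¹ = Rc i t s := fun i => by
    simp only [Rc, smul_add, smul_smul]
    congr 2 <;> field_simp
  have e4 : (q ^ 2 * t - s) • F (u ++ x₁.map (·⁻¹) ++ t⁻¹ :: s⁻¹ :: x₂.map (·⁻¹)) =
      Rc (u.length + x₁.length) t s (F (u ++ x₁.map (·⁻¹) ++ s⁻¹ :: t⁻¹ :: x₂.map (·⁻¹))) := by
    rw [← e3, LinearMap.smul_apply]
    rw [List.length_append, List.length_map] at e1
    rw [← e1, smul_smul]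
    congr 1
    field_simp
  rw [List.length_append] at e2
  have e5 := adjR h1 u.length v.length x₁.length t s
    (F (u ++ x₁.map (·⁻¹) ++ s⁻¹ :: t⁻¹ :: x₂.map (·⁻¹)))
    (Rc (v.length + x₁.length) s t (F (v ++ x₁ ++ s :: t :: x₂)))
  rw [← Module.End.mul_apply (Rc _ t s) (Rc _ s t), h2.unit, ← e4, ← e2] at e5
  simp only [map_smul, LinearMap.smul_apply, Module.End.one_apply, smul_eq_mul,
    List.append_assoc] at e5
  simp only [NN, List.map_append, List.map_cons]
  refine mul_left_cancel₀ (mul_ne_zero n2 n1) ?_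
  linear_combination e5

theorem perm (h1 : S_Ev) (h2 : S_Ybe) (h : Sol F) (u v : List ℂ) (hu : Nz u) (hv : Nz v)
    {x x' : List ℂ} (e : x.Perm x') :
    ∀ y, Nz y → Nz x → NN F u v (y ++ x) = NN F u v (y ++ x') := by
  induction e with
  | nil => intro _ _ _; rfl
  | cons a _ ih =>
    intro y hy hx
    rw [nz_cons] at hx
    simpa using ih (y ++ [a]) (by simp [hy, hx.1]) hx.2
  | swap a b l =>
    intro y hy hx
    rw [nz_cons, nz_cons] at hx
    exact adj h1 h2 h u v y l a b hu hv hy hx.2.2 hx.2.1 hx.1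
  | trans p1 _ ih1 ih2 =>
    intro y hy hx
    rw [ih1 y hy hx, ih2 y hy (hx.perm p1)]

theorem inv (h1 : S_Ev) (h3 : S_Bdy) (h : Sol F) (u v x : List ℂ) (t : ℂ) (hu : Nz u)
    (hv : Nz v) (hx : Nz x) (ht : t ≠ 0) : NN F u v (x ++ [t⁻¹]) = NN F u v (x ++ [t]) := by
  have l := (lpx h u v x [] hu hv hx nz_nil).lp1
  rw [← sub_eq_zero]
  refine (l.inv.sub l).eq_zero' (B := {-q ^ 2, -q}) (Set.toFinite _) (fun t hB ht => ?_) ht
  simp only [Set.mem_insert_iff, Set.mem_singleton_iff, not_or] at hB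
  have n1 : 1 + q * t ≠ 0 := fun e => hB.1 (by linear_combination q ^ 2 * e - t * q_cube)
  have n2 : 1 + q * t⁻¹ ≠ 0 := fun e => hB.2 (by
    have := mul_inv_cancel₀ ht
    linear_combination t * e - q * this)
  have a1 : Nz (u ++ x.map (·⁻¹) ++ [t⁻¹]) := by simp [hu, hx, ht]
  have a2 : Nz (v ++ x ++ [t]) := by simp [hv, hx, ht]
  have a3 : Nz (v ++ x ++ [t⁻¹]) := by simp [hv, hx, ht]
  have e1 := h.right (u ++ x.map (·⁻¹)) t⁻¹ a1
  have e2 := h.right (v ++ x) t a2
  have s1 := (h.fix _ a1).1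
  have s2 := (h.fix _ a2).1
  have s3 := ((h.fix _ a3).1).smul (1 + q * t)
  rw [e2] at s3
  simp only [List.length_append, List.length_map, List.length_singleton] at e1 e2 s1 s2 s3
  have e5 := adjK h1 u.length v.length x.length t⁻¹ s1 s3
  rw [h3.unit _ t _ ht s2, ← e1, ← e2] at e5
  simp only [map_smul, LinearMap.smul_apply, smul_eq_mul, List.append_assoc] at e5
  simp only [NN, List.map_append, List.map_cons, List.map_nil]
  refine mul_left_cancel₀ (mul_ne_zero n1 n2) ?_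
  linear_combination e5

end NsymSA

theorem s_Nsym (h1 : S_Ev) (h2 : S_Ybe) (h3 : S_Bdy) : S_Nsym := by
  intro F h
  refine ⟨fun u v x x' hu hv hx e => NsymSA.perm h1 h2 h u v hu hv e [] nz_nil hx,
    fun u v t x hu hv hx ht => ?_, fun u v x => ?_, NsymSA.lpx h,
    fun u₁ u₂ v x a1 a2 _ a4 => NsymSA.lpu h u₁ u₂ v x a1 a2 a4⟩
  · have p : ∀ s, s ≠ 0 → NN F u v (s :: x) = NN F u v (x ++ [s]) := fun s hs =>
      NsymSA.perm h1 h2 h u v hu hv (List.perm_append_singleton s x).symm [] nz_nil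
        (by simp [hs, hx])
    rw [p _ ht, p _ (inv_ne_zero ht), NsymSA.inv h1 h3 h u v x t hu hv hx ht]
  · rw [NN, NN, NsymSA.bil_swap h1, List.map_map]
    simp

end Pool.Agent.P.MP_6c8efb_pr.Arm
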