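import Pool.Agent.P.MP_6c8efb_pr.Arm.Iface

/-! The product formula for the exact probability. -/

open Finset

namespace Pool.Agent.P.MP_6c8efb_pr.Arm

namespace PPsA

noncomputable def ev (m k : ℕ) : ℝ := eP m (3 * m + k + 2 : ℝ)

theorem ev_pos (m k : ℕ) : 0 < ev m k := by
  have k0 : (0 : ℝ) ≤ k := Nat.cast_nonneg k
  refine mul_pos (prod_pos fun i hi => prod_pos fun a ha => ?_)
    (prod_pos fun i _ => prod_pos fun a ha => ?_)
  · have h1 := mem_range.1 hi
    have h2 := (mem_Icc.1 ha).2
    have : (a : ℝ) ≤ (3 * m : ℕ) := by exact_mod_cast (by omega : a ≤ 3 * m)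
    push_cast at this; linarith
  · have h2 := (mem_Icc.1 ha).2
    have : (a : ℝ) ≤ (3 * m : ℕ) := by exact_mod_cast (by omega : a ≤ 3 * m)
    push_cast at this; linarith

theorem ev_cast (m k : ℕ) : eP m (((2 * m + k + 1 : ℕ) : ℂ) + m + 1) = (ev m k : ℂ) := by
  simp only [ev, eP]
  push_cast
  congr 1 <;> exact prod_congr rfl fun i _ => prod_congr rfl fun a _ => by ring

theorem rho_ev (m k : ℕ) : rho m k = 3 ^ m * ev m (k + 1) / ev m k := by
  simp only [rho, ev]; congr 3; push_cast; ring

theorem prod_rho (m k : ℕ) : ∏ i ∈ range k, rho m i = 3 ^ (m * k) * ev m k / ev m 0 := by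
  induction k with
  | zero => simp [(ev_pos m 0).ne']
  | succ k ih =>
    have := (ev_pos m k).ne'
    have := (ev_pos m 0).ne'
    rw [prod_range_succ, ih, rho_ev]; field_simp; ring

theorem KK_ne (m : ℕ) : KK (List.replicate m 2) ≠ 0 := by
  induction m with
  | zero => simp [KK]
  | succ m ih => rw [List.replicate_succ, KK]; norm_num [ih]

end PPsA

open PPsA in
theorem s_PP (h1 : S_E1) (h4 : S_E4) (hU : S_Uniq) (hP : S_Pref) : S_PP := by
  intro F hF hR hH
  set z : ℕ → ℝ := fun m => ‖tot (F (List.replicate m 1))‖ with hz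
  have z0 : ∀ m, z m ≠ 0 := fun m => norm_ne_zero_iff.2 fun e => by
    obtain ⟨ε, hε, h⟩ := hU m
    have := h _ (by simp) (fun x hx => by rw [List.eq_of_mem_replicate hx]; simpa using hε) _
      (hF.fix _ (nz_replicate m)) e
    have e2 := hP.hom m
    rw [← hF.zero _ (nz_replicate m), this] at e2
    exact absurd e2 (by simp only [Finsupp.zero_apply, norm_zero]; positivity)
  have hW : ∀ m, ∃ A : ℝ, ∀ k, ‖NN F (List.replicate k 1) [] (List.replicate m 1)‖ =
      3 ^ (k * (k - 1) / 2) * (A * 3 ^ (m * k) * ev m k) := fun m => by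
    obtain ⟨c, hc⟩ := h1 m
    obtain ⟨d, hd⟩ := h4 m
    refine ⟨‖c‖ * ‖d‖ * 3 ^ (m * (2 * m + 1)) / ‖KK (List.replicate m 2)‖, fun k => ?_⟩
    have := congrArg norm (hH k m)
    have k0 := norm_ne_zero_iff.2 (KK_ne m)
    rw [hc, hd, ev_cast] at this
    simp only [norm_mul, hP.hom, norm_pow, norm_neg, Complex.norm_ofNat, Complex.norm_real,
      Real.norm_eq_abs, abs_of_pos (ev_pos m k)] at this
    field_simp
    rw [this]; ring
  choose A hA using hW
  have e0 : ∀ m, z m * z m = A m * ev m 0 := fun m => by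
    simpa [hR.zero] using hA m 0
  have e1 : ∀ m, z (m + 1) = rho m 0 * z m := fun m => by
    have := hA m 1
    rw [List.replicate_one, hR.one 1 _ one_ne_zero (nz_replicate m), norm_mul] at this
    simp only [List.map_replicate, inv_one, ← List.replicate_succ] at this
    refine mul_right_cancel₀ (z0 m) (this.trans ?_)
    have := (ev_pos m 0).ne'
    rw [mul_assoc (rho m 0), e0, rho_ev]; field_simp; ring
  intro k m
  have e2 : z (k + m) = (∏ i ∈ range k, rho (m + i) 0) * z m := by
    induction k with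
    | zero => simp
    | succ k ih => rw [Nat.succ_add, e1, ih, prod_range_succ, add_comm k]; ring
  have e3 : (∏ i ∈ range k, rho (m + i) 0) ≠ 0 := fun e => z0 (k + m) (by rw [e2, e, zero_mul])
  have e4 : A m ≠ 0 := fun e => mul_ne_zero (z0 m) (z0 m) (by rw [e0, e, zero_mul])
  have := (ev_pos m 0).ne'
  rw [PP, norm_div, norm_mul, hA, prod_div_distrib, prod_rho]
  change _ / (z (k + m) * z m) = _
  rw [e2, mul_assoc _ (z m), e0]; field_simp

end Pool.Agent.P.MP_6c8efb_pr.Arm
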