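import Pool.Agent.P.MP_6c8efb_pr.Arm.Iface

/-! The invariant vector is proportional to a vector of Laurent polynomials. -/

namespace Pool.Agent.P.MP_6c8efb_pr.Arm

namespace PolyA

theorem near_mono {ε δ : ℝ} {x : ℂ} (h : Near ε x) (e : ε ≤ δ) : Near δ x :=
  ⟨h.1, h.2.1.trans_le e, h.2.2.trans_le e⟩

theorem qq_ne {x y : ℂ} (hx : Near (1 / 10) x) (hy : Near (1 / 10) y) : q ^ 2 * x - y ≠ 0 := by
  intro h
  have e : (3 : ℂ) = (q - 1) * ((y - 1) - q ^ 2 * (x - 1)) := by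
    linear_combination (q - 1) * h + (-(q - 2)) * q_eq
  have h1 : ‖q - 1‖ ≤ 2 := by
    have := norm_sub_le q 1
    rw [norm_q, norm_one] at this
    linarith
  have h2 : ‖(y - 1) - q ^ 2 * (x - 1)‖ ≤ 1 := by
    have := norm_sub_le (y - 1) (q ^ 2 * (x - 1))
    rw [norm_mul, norm_pow, norm_q] at this
    have := hx.2.1
    have := hy.2.1
    linarith
  have h3 := congrArg norm e
  rw [norm_mul] at h3
  have h4 := mul_le_mul h1 h2 (norm_nonneg _) (by norm_num)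
  rw [← h3] at h4
  norm_num at h4

theorem ne_of_gen {l₁ l₂ : List ℂ} {x y : ℂ} (h : Gen (l₁ ++ x :: y :: l₂)) : x - y ≠ 0 := by
  have h1 : Gen (x :: y :: l₂) := h.sublist (List.sublist_append_right _ _)
  intro e
  exact ((gen_cons.1 h1).2.1 y (by simp)).1 (by rw [sub_eq_zero.1 e])

theorem swap_perm (l₁ l₂ : List ℂ) (x y : ℂ) :
    (l₁ ++ x :: y :: l₂).Perm (l₁ ++ y :: x :: l₂) :=
  (List.Perm.swap y x l₂).append_left l₁

variable {L : ℕ} {ε : ℝ} {Ψ : List ℂ → W}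

/-- the scalar factor -/
noncomputable def rh (Ψ : List ℂ → W) (l : List ℂ) : ℂ := Ψ l o / Pref l

theorem exch_apply (H : Loc1 L ε Ψ) {l₁ l₂ : List ℂ} {x y : ℂ}
    (h1 : (l₁ ++ x :: y :: l₂).length = L) (h2 : ∀ z ∈ l₁ ++ x :: y :: l₂, Near ε z) (b : St) :
    (q ^ 2 * x - y) * Ψ (l₁ ++ y :: x :: l₂) b = (q ^ 2 * y - x) * Ψ (l₁ ++ x :: y :: l₂) b +
      (-q * (x - y)) * Ee l₁.length (Ψ (l₁ ++ x :: y :: l₂)) b := by
  have := congrArg (fun v : W => v b) (H.exch l₁ x y l₂ h1 h2)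
  simpa only [Rc, LinearMap.add_apply, LinearMap.smul_apply, Module.End.one_apply,
    Finsupp.add_apply, Finsupp.smul_apply, smul_eq_mul] using this

theorem right_apply (H : Loc1 L ε Ψ) {l : List ℂ} {x : ℂ}
    (h1 : (l ++ [x]).length = L) (h2 : ∀ z ∈ l ++ [x], Near ε z) (b : St) :
    (1 + q * x) * Ψ (l ++ [x⁻¹]) b = (x + q) * Ψ (l ++ [x]) b +
      ((1 - q) * (1 - x)) * Cap l.length (Ψ (l ++ [x])) b := by
  have := congrArg (fun v : W => v b) (H.right l x h1 h2)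
  simpa only [Kc, LinearMap.add_apply, LinearMap.smul_apply, Module.End.one_apply,
    Finsupp.add_apply, Finsupp.smul_apply, smul_eq_mul] using this

theorem pref_ne (h2 : S_Pref) (H : Loc1 L ε Ψ) {l : List ℂ} (h : ∀ z ∈ l, Near ε z) :
    Pref l ≠ 0 := h2.ne l fun z hz => near_mono (h z hz) H.small

theorem rh_swap (h2 : S_Pref) (H : Loc1 L ε Ψ) {l₁ l₂ : List ℂ} {x y : ℂ}
    (h1 : (l₁ ++ x :: y :: l₂).length = L) (h : ∀ z ∈ l₁ ++ x :: y :: l₂, Near ε z) :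
    rh Ψ (l₁ ++ x :: y :: l₂) = rh Ψ (l₁ ++ y :: x :: l₂) := by
  have e1 := exch_apply H h1 h o
  rw [Ee_apply_o, mul_zero, add_zero] at e1
  have e2 := h2.exch l₁ x y l₂ fun z hz => (h z hz).1
  have n1 := pref_ne h2 H h
  have n2 := pref_ne h2 H (l := l₁ ++ y :: x :: l₂)
    fun z hz => h z ((swap_perm l₁ l₂ x y).symm.subset hz)
  have n3 := qq_ne (near_mono (h x (by simp)) H.small) (near_mono (h y (by simp)) H.small)
  rw [rh, rh, div_eq_div_iff n1 n2]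
  refine mul_left_cancel₀ n3 ?_
  linear_combination Ψ (l₁ ++ x :: y :: l₂) o * e2 - Pref (l₁ ++ x :: y :: l₂) * e1

theorem rh_perm_aux (h2 : S_Pref) (H : Loc1 L ε Ψ) {l l' : List ℂ} (e : l.Perm l') :
    ∀ pre : List ℂ, (pre ++ l).length = L → (∀ z ∈ pre ++ l, Near ε z) →
      rh Ψ (pre ++ l) = rh Ψ (pre ++ l') := by
  induction e with
  | nil => intro _ _ _; rfl
  | cons x _ ih =>
    intro pre h1 h
    have := ih (pre ++ [x]) (by simpa using h1) (by simpa using h)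
    simpa using this
  | swap x y l => intro pre h1 h; exact rh_swap h2 H h1 h
  | trans e1 _ ih1 ih2 =>
    intro pre h1 h
    have e := e1.append_left pre
    rw [ih1 pre h1 h, ih2 pre (e.length_eq ▸ h1) fun z hz => h z (e.symm.subset hz)]

theorem rh_perm (h2 : S_Pref) (H : Loc1 L ε Ψ) {l l' : List ℂ} (h1 : l.length = L)
    (h : ∀ z ∈ l, Near ε z) (e : l.Perm l') : rh Ψ l = rh Ψ l' :=
  rh_perm_aux h2 H e [] h1 h

theorem near_inv {l : List ℂ} {x : ℂ} (h : ∀ z ∈ l ++ [x], Near ε z) :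
    ∀ z ∈ l ++ [x⁻¹], Near ε z := by
  intro z hz
  rcases List.mem_append.1 hz with hz | hz
  · exact h z (List.mem_append_left _ hz)
  · rw [List.mem_singleton.1 hz]
    exact (h x (by simp)).inv

theorem rh_inv (h2 : S_Pref) (H : Loc1 L ε Ψ) {l : List ℂ} {x : ℂ} (h1 : (l ++ [x]).length = L)
    (h : ∀ z ∈ l ++ [x], Near ε z) : rh Ψ (l ++ [x⁻¹]) = rh Ψ (l ++ [x]) := by
  have p1 := List.perm_append_singleton x l
  rw [rh_perm h2 H (by simpa using h1) (near_inv h) (List.perm_append_singleton x⁻¹ l),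
    rh_perm h2 H h1 h p1, rh, rh, h2.left,
    H.left x l (p1.length_eq ▸ h1) fun z hz => h z (p1.symm.subset hz)]

/-- `u` is the scalar factor times a Laurent polynomial -/
def Good (L : ℕ) (ε : ℝ) (Ψ : List ℂ → W) (u : List ℂ → ℂ) : Prop :=
  ∃ f ∈ LPs L (L - 1), ∀ l, l.length = L → (∀ x ∈ l, Near ε x) → Gen l → u l = rh Ψ l * f l

theorem good_sum (S : Finset St) (h : ∀ c ∈ S, Good L ε Ψ fun l => Ψ l c) :
    Good L ε Ψ fun l => ∑ c ∈ S, Ψ l c := by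
  classical
  induction S using Finset.induction_on with
  | empty => exact ⟨0, zero_mem _, fun l _ _ _ => by simp⟩
  | insert a S ha ih =>
    obtain ⟨f, hf, e⟩ := h a (by simp)
    obtain ⟨g, hg, e'⟩ := ih fun c hc => h c (by simp [hc])
    refine ⟨f + g, add_mem hf hg, fun l h1 h2 h3 => ?_⟩
    have := e l h1 h2 h3
    have := e' l h1 h2 h3
    simp only [Finset.sum_insert ha, Pi.add_apply] at *
    rw [mul_add]
    congr 1

theorem good_of_lm (H : Loc1 L ε Ψ) {φ : St → St} {a b : St} (ha : Bd L a) (hab : φ a = b)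
    (h1 : Good L ε Ψ fun l => lm φ (Ψ l) b)
    (h2 : ∀ c, Bd L c → φ c = b → c ≠ a → Good L ε Ψ fun l => Ψ l c) :
    Good L ε Ψ fun l => Ψ l a := by
  classical
  obtain ⟨f, hf, e⟩ := h1
  obtain ⟨g, hg, e'⟩ := good_sum (L := L) (ε := ε) (Ψ := Ψ)
    (((SL L).filter fun p => φ p = b).erase a) fun c hc => by
      rw [Finset.mem_erase, Finset.mem_filter, mem_SL] at hc
      exact h2 c hc.2.1 hc.2.2 hc.1
  refine ⟨f - g, sub_mem hf hg, fun l k1 k2 k3 => ?_⟩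
  have s : Sup L (Ψ l) := k1 ▸ (H.fix l k1 k2).1.1
  have e1 := e l k1 k2 k3
  have e2 := e' l k1 k2 k3
  have e3 := s.lm_apply φ b
  have e4 := Finset.add_sum_erase ((SL L).filter fun p => φ p = b) (fun c => Ψ l c) (a := a)
    (by rw [Finset.mem_filter, mem_SL]; exact ⟨ha, hab⟩)
  simp only [Pi.sub_apply] at *
  linear_combination e4 - e3 + e1 - e2

theorem good_ee (h2 : S_Pref) (h3 : S_Dd) (H : Loc1 L ε Ψ) {i : ℕ} (hi : i + 2 ≤ L) {b : St}
    (hb : Good L ε Ψ fun l => Ψ l b) : Good L ε Ψ fun l => lm (ee i) (Ψ l) b := by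
  obtain ⟨f, hf, e⟩ := hb
  obtain ⟨g, hg, eg⟩ := h3.bulk L (L - 1) f hf i hi
  refine ⟨f - q ^ 2 • g, sub_mem hf (Submodule.smul_mem _ _ hg), fun l k1 k2 k3 => ?_⟩
  obtain ⟨l₁, x, y, l₂, rfl, rfl⟩ : ∃ l₁ x y l₂, l = l₁ ++ x :: y :: l₂ ∧ i = l₁.length := by
    refine ⟨l.take i, l[i], l[i + 1], l.drop (i + 2), ?_, by simp; omega⟩
    rw [← List.drop_eq_getElem_cons, ← List.drop_eq_getElem_cons, List.take_append_drop]
  have p := swap_perm l₁ l₂ x y
  have e1 := e _ k1 k2 k3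
  have e2 := e _ (p.length_eq ▸ k1) (fun z hz => k2 z (p.symm.subset hz)) (k3.perm p)
  rw [← rh_swap h2 H k1 k2] at e2
  have e3 := eg l₁ x y l₂ rfl k1 k3.nz
  have e4 := exch_apply H k1 k2 b
  rw [Ee] at e4
  simp only [Pi.sub_apply, Pi.smul_apply, smul_eq_mul] at *
  refine mul_left_cancel₀ (mul_ne_zero q_ne_zero (ne_of_gen k3)) ?_
  rw [e1, e2] at e4
  linear_combination e4 - rh Ψ (l₁ ++ x :: y :: l₂) * e3 +
    (-(rh Ψ (l₁ ++ x :: y :: l₂) * (x - y) * f (l₁ ++ x :: y :: l₂))) * q_eq +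
    (rh Ψ (l₁ ++ x :: y :: l₂) * (x - y) * g (l₁ ++ x :: y :: l₂)) * q_cube

theorem good_cap (h2 : S_Pref) (h3 : S_Dd) {M : ℕ} (H : Loc1 (M + 1) ε Ψ) {b : St}
    (hb : Good (M + 1) ε Ψ fun l => Ψ l b) : Good (M + 1) ε Ψ fun l => lm (cap M) (Ψ l) b := by
  obtain ⟨f, hf, e⟩ := hb
  obtain ⟨g, hg, eg⟩ := h3.bdy M _ f hf
  refine ⟨f + (1 - q)⁻¹ • g, add_mem hf (Submodule.smul_mem _ _ hg), fun l k1 k2 k3 => ?_⟩
  obtain ⟨l₁, x, rfl⟩ : ∃ l₁ x, l = l₁ ++ [x] := by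
    rcases List.eq_nil_or_concat l with rfl | ⟨l₁, x, rfl⟩
    · simp at k1
    · exact ⟨l₁, x, by simp⟩
  have hM : l₁.length = M := by simpa using k1
  have g1 : Gen (x :: l₁) := k3.perm (List.perm_append_singleton x l₁)
  have g2 : Gen (l₁ ++ [x⁻¹]) :=
    (g1.replace (Or.inr (inv_pow x 3))).perm (List.perm_append_singleton x⁻¹ l₁).symm
  have hx : 1 - x ≠ 0 := fun h => (gen_cons.1 g1).1.2 (by rw [← sub_eq_zero.1 h]; simp)
  have hq : 1 - q ≠ 0 := sub_ne_zero.2 q_ne_one.symm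
  have e1 := e _ k1 k2 k3
  have e2 := e _ (by simpa using k1) (near_inv k2) g2
  rw [rh_inv h2 H k1 k2] at e2
  have e3 := eg l₁ x hM k3.nz
  have e4 := right_apply H k1 k2 b
  rw [Cap, hM] at e4
  simp only [Pi.add_apply, Pi.smul_apply, smul_eq_mul] at *
  refine mul_left_cancel₀ (mul_ne_zero hq hx) ?_
  rw [e1, e2] at e4
  have e5 := mul_inv_cancel₀ hq
  linear_combination -e4 + rh Ψ (l₁ ++ [x]) * e3 -
    (rh Ψ (l₁ ++ [x]) * (1 - x) * g (l₁ ++ [x])) * e5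

theorem good_all (h1 : S_Tri) (h2 : S_Pref) (h3 : S_Dd) (H : Loc1 L ε Ψ) (a : St) (ha : Bd L a) :
    Good L ε Ψ fun l => Ψ l a := by
  obtain ⟨df, hdf⟩ := h1 L
  induction hn : df a using Nat.strong_induction_on generalizing a with
  | _ n ih =>
    subst hn
    by_cases hao : a = o
    · subst hao
      obtain ⟨f, hf, e⟩ := h2.mem L
      refine ⟨f, hf, fun l k1 k2 k3 => ?_⟩
      rw [e l k1 k3.nz, rh, div_mul_cancel₀ _ (pref_ne h2 H k2)]
    obtain ⟨b, hb, hlt, hc⟩ := hdf a ha hao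
    have gb := ih _ hlt b hb rfl
    rcases hc with ⟨i, hi, e, hc⟩ | ⟨M, rfl, e, hc⟩
    · exact good_of_lm H ha e (good_ee h2 h3 H hi gb)
        fun c k1 k2 k3 => ih _ ((hc c k1 k2).resolve_left k3) c k1 rfl
    · exact good_of_lm H ha e (good_cap h2 h3 H gb)
        fun c k1 k2 k3 => ih _ ((hc c k1 k2).resolve_left k3) c k1 rfl

end PolyA

open PolyA in
theorem s_Poly (h1 : S_Tri) (h2 : S_Pref) (h3 : S_Dd) : S_Poly := by
  classical
  intro L ε Ψ H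
  have key : ∀ p : St, ∃ f ∈ LPs L (L - 1), (¬ Bd L p → f = 0) ∧
      (p = o → ∀ l, l.length = L → Nz l → f l = Pref l) ∧
      ∀ l, l.length = L → (∀ x ∈ l, Near ε x) → Gen l → Ψ l p = rh Ψ l * f l := by
    intro p
    by_cases hp : Bd L p
    · by_cases hpo : p = o
      · subst hpo
        obtain ⟨f, hf, e⟩ := h2.mem L
        refine ⟨f, hf, fun h => absurd hp h, fun _ => e, fun l k1 k2 k3 => ?_⟩
        rw [e l k1 k3.nz, rh, div_mul_cancel₀ _ (pref_ne h2 H k2)]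
      · obtain ⟨f, hf, e⟩ := good_all h1 h2 h3 H p hp
        exact ⟨f, hf, fun h => absurd hp h, fun h => absurd h hpo, e⟩
    · refine ⟨0, zero_mem _, fun _ => rfl, fun h => absurd (h ▸ bd_o L) hp, fun l k1 k2 _ => ?_⟩
      have s : Sup L (Ψ l) := k1 ▸ (H.fix l k1 k2).1.1
      rw [Pi.zero_apply, mul_zero]
      by_contra hh
      exact hp (s p hh)
  choose f hf h0 ho hΨ using key
  have hs : ∀ l p, f p l ≠ 0 → p ∈ SL L := fun l p h => by
    by_contra hh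
    exact h (by rw [h0 p (fun e => hh (mem_SL.2 e))]; rfl)
  refine ⟨fun l => Finsupp.onFinset (SL L) (fun p => f p l) (hs l), rh Ψ,
    fun l p h => mem_SL.1 (hs l p h), fun p => ⟨f p, hf p, fun _ => rfl⟩,
    fun l l' k1 k2 e => rh_perm h2 H k1 k2 e, fun l x k1 k2 => rh_inv h2 H k1 k2,
    fun l k1 k2 => ho o rfl l k1 k2, fun l k1 k2 k3 => ?_⟩
  ext p
  rw [Finsupp.smul_apply, smul_eq_mul, Finsupp.onFinset_apply]
  exact hΨ p l k1 k2 k3

end Pool.Agent.P.MP_6c8efb_pr.Arm
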