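import Pool.Agent.P.MP_6c8efb_pr.Arm.Iface

/-! The properties of the weight `Pref` and symmetric Laurent polynomials. -/

open Polynomial

namespace Pool.Agent.P.MP_6c8efb_pr.Arm

namespace PrefSA

theorem pref_cons (x : ℂ) (l : List ℂ) :
    Pref (x :: l) = (l.map fun y => T (q * y) - T x).prod * Pref l := rfl

theorem T_q_mul (x : ℂ) : T (q * x) = q * x + q ^ 2 * x⁻¹ := by rw [T, mul_inv, q_inv]

theorem exch0 {x y : ℂ} (hx : x ≠ 0) (hy : y ≠ 0) :
    (q ^ 2 * x - y) * (T (q * x) - T y) = (q ^ 2 * y - x) * (T (q * y) - T x) := by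
  have h1 : x * x⁻¹ = 1 := mul_inv_cancel₀ hx
  have h2 : y * y⁻¹ = 1 := mul_inv_cancel₀ hy
  rw [T_q_mul, T_q_mul, T, T]
  linear_combination (q ^ 4 - 1) * h1 + (1 - q ^ 4) * h2 + (x ^ 2 - y ^ 2) * q_cube +
    (y * x - x * y) * q_eq

theorem exch (l₁ : List ℂ) (x y : ℂ) (l₂ : List ℂ) (h : Nz (l₁ ++ x :: y :: l₂)) :
    (q ^ 2 * x - y) * Pref (l₁ ++ y :: x :: l₂) = (q ^ 2 * y - x) * Pref (l₁ ++ x :: y :: l₂) := by
  induction l₁ with
  | nil =>
    simp only [List.nil_append, nz_cons] at h
    simp only [List.nil_append, pref_cons, List.map_cons, List.prod_cons]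
    linear_combination ((l₂.map fun w => T (q * w) - T x).prod *
      (l₂.map fun w => T (q * w) - T y).prod * Pref l₂) * exch0 h.1 h.2.1
  | cons z l ih =>
    simp only [List.cons_append, nz_cons] at h
    have := ih h.2
    simp only [List.cons_append, pref_cons z, List.map_append, List.map_cons, List.prod_append,
      List.prod_cons]
    linear_combination ((l.map fun w => T (q * w) - T z).prod * (T (q * x) - T z) *
      (T (q * y) - T z) * (l₂.map fun w => T (q * w) - T z).prod) * this

theorem snoc (l : List ℂ) (x : ℂ) :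
    Pref (l ++ [x]) = Pref l * (l.map fun y => T (q * x) - T y).prod := by
  induction l with
  | nil => simp [Pref]
  | cons z l ih =>
    simp only [List.cons_append, pref_cons z, ih, List.map_append, List.map_cons, List.prod_append,
      List.prod_cons, List.map_nil, List.prod_nil]
    ring

theorem fac_ne {x y : ℂ} (hx : Near (1 / 10) x) (hy : Near (1 / 10) y) : T (q * y) - T x ≠ 0 := by
  intro h
  have e : (3 : ℂ) = q * (y - 1) + q ^ 2 * (y⁻¹ - 1) - (x - 1) - (x⁻¹ - 1) := by
    rw [T_q_mul, T] at h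
    linear_combination -h + q_eq
  have h1 := hx.2.1
  have h2 := hx.2.2
  have h3 := hy.2.1
  have h4 := hy.2.2
  have n1 := norm_sub_le (q * (y - 1) + q ^ 2 * (y⁻¹ - 1) - (x - 1)) (x⁻¹ - 1)
  have n2 := norm_sub_le (q * (y - 1) + q ^ 2 * (y⁻¹ - 1)) (x - 1)
  have n3 := norm_add_le (q * (y - 1)) (q ^ 2 * (y⁻¹ - 1))
  rw [norm_mul, norm_mul, norm_pow, norm_q] at n3
  rw [← e] at n1
  have n4 : ‖(3 : ℂ)‖ = 3 := by simp
  linarith

theorem ne (l : List ℂ) (h : ∀ x ∈ l, Near (1 / 10) x) : Pref l ≠ 0 := by
  induction l with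
  | nil => simp [Pref]
  | cons z l ih =>
    rw [pref_cons]
    refine mul_ne_zero (List.prod_ne_zero fun e => ?_) (ih fun x hx => h x (by simp [hx]))
    obtain ⟨y, hy, e⟩ := List.mem_map.1 e
    exact fac_ne (h z (by simp)) (h y (by simp [hy])) e

theorem lp (l₁ l₂ : List ℂ) : LP1 fun t => Pref (l₁ ++ t :: l₂) := by
  induction l₁ with
  | nil =>
    simp only [List.nil_append, pref_cons]
    exact (LP1.listProd l₂ (f := fun y t => T (q * y) - T t)
      fun y _ => (lp1_const _).sub lp1_T').mul (lp1_const _)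
  | cons z l ih =>
    simp only [List.cons_append, pref_cons z, List.map_append, List.map_cons, List.prod_append,
      List.prod_cons]
    exact ((lp1_const _).mul (((lp1_T q).sub (lp1_const _)).mul (lp1_const _))).mul ih

theorem hom (k : ℕ) : ‖Pref (List.replicate k 1)‖ = 3 ^ (k * (k - 1) / 2) := by
  induction k with
  | zero => simp [Pref]
  | succ k ih =>
    have e : T (q * 1) - T 1 = -3 := by rw [mul_one, T_q, T_one]; norm_num
    rw [List.replicate_succ, pref_cons, List.map_replicate, List.prod_replicate, e, norm_mul, ih,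
      norm_pow, Nat.triangle_succ, pow_add, mul_comm]
    simp

/-! ### Laurent polynomials with a bound for each variable -/

theorem mono_cons (k : ℤ) (n : List ℤ) (x : ℂ) (l : List ℂ) :
    mono (k :: n) (x :: l) = x ^ k * mono n l := by simp [mono]

theorem mono_add : ∀ (n n' : List ℤ) (l : List ℂ), n.length = n'.length → Nz l →
    mono (List.zipWith (· + ·) n n') l = mono n l * mono n' l
  | [], [], _, _, _ => by simp [mono]
  | [], _ :: _, _, h, _ => by simp at h
  | _ :: _, [], _, h, _ => by simp at h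
  | _ :: _, _ :: _, [], _, _ => by simp [mono]
  | k :: n, k' :: n', x :: l, h, hl => by
    rw [nz_cons] at hl
    simp only [List.zipWith_cons_cons, mono_cons, mono_add n n' l (by simpa using h) hl.2,
      zpow_add₀ hl.1]
    ring

/-- exponents bounded coordinate by coordinate -/
def Bn (n : List ℤ) (d : List ℕ) : Prop := List.Forall₂ (fun (k : ℤ) (e : ℕ) => |k| ≤ e) n d

theorem Bn.add : ∀ {n n' : List ℤ} {d d' : List ℕ}, Bn n d → Bn n' d' → d.length = d'.length →
    Bn (List.zipWith (· + ·) n n') (List.zipWith (· + ·) d d')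
  | _, _, _, _, .nil, .nil, _ => List.Forall₂.nil
  | _, _, _, _, .nil, .cons _ _, h => by simp at h
  | _, _, _, _, .cons _ _, .nil, h => by simp at h
  | _, _, _, _, .cons h1 h2, .cons h3 h4, h => by
    refine List.Forall₂.cons ?_ (Bn.add h2 h4 (by simpa using h))
    push_cast
    exact (abs_add_le _ _).trans (add_le_add h1 h3)

theorem bn_zero (d : List ℕ) : Bn (List.replicate d.length 0) d := by
  induction d with
  | nil => exact List.Forall₂.nil
  | cons a d ih => exact List.Forall₂.cons (by simp) ih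

theorem mono_zero (k : ℕ) (l : List ℂ) : mono (List.replicate k 0) l = 1 := by
  induction k generalizing l with
  | zero => simp [mono]
  | succ k ih =>
    cases l with
    | nil => simp [mono]
    | cons x l => rw [List.replicate_succ, mono_cons, ih]; simp

/-- Laurent polynomial functions with exponents bounded by `d` -/
def In (d : List ℕ) (g : List ℂ → ℂ) : Prop :=
  ∃ f ∈ Submodule.span ℂ {f | ∃ n, Bn n d ∧ f = mono n}, ∀ l, l.length = d.length → Nz l → f l = g l

theorem In.congr {d : List ℕ} {f g : List ℂ → ℂ} (h : In d f)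
    (e : ∀ l, l.length = d.length → Nz l → f l = g l) : In d g :=
  let ⟨f', h1, h2⟩ := h; ⟨f', h1, fun l a b => (h2 l a b).trans (e l a b)⟩

theorem in_mono {d : List ℕ} {n : List ℤ} (h : Bn n d) : In d (mono n) :=
  ⟨_, Submodule.subset_span ⟨n, h, rfl⟩, fun _ _ _ => rfl⟩

theorem In.add {d : List ℕ} {f g : List ℂ → ℂ} (h : In d f) (h' : In d g) :
    In d fun l => f l + g l :=
  let ⟨f', h1, h2⟩ := h; let ⟨g', h3, h4⟩ := h'
  ⟨f' + g', Submodule.add_mem _ h1 h3, fun l a b => by rw [Pi.add_apply, h2 l a b, h4 l a b]⟩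

theorem In.cmul {d : List ℕ} {f : List ℂ → ℂ} (h : In d f) (c : ℂ) : In d fun l => c * f l :=
  let ⟨f', h1, h2⟩ := h
  ⟨c • f', Submodule.smul_mem _ c h1, fun l a b => by rw [Pi.smul_apply, h2 l a b, smul_eq_mul]⟩

theorem in_zero (d : List ℕ) : In d fun _ => 0 := ⟨0, Submodule.zero_mem _, fun _ _ _ => rfl⟩

theorem in_one (d : List ℕ) : In d fun _ => 1 :=
  (in_mono (bn_zero d)).congr fun l _ _ => mono_zero _ l

/-- transport along a linear operation -/
theorem In.ind {d e : List ℕ} (Φ : (List ℂ → ℂ) → List ℂ → ℂ)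
    (h0 : ∀ l, Φ 0 l = 0) (h1 : ∀ f g l, Φ (f + g) l = Φ f l + Φ g l)
    (h2 : ∀ (c : ℂ) f l, Φ (c • f) l = c * Φ f l)
    (h3 : ∀ f g, (∀ l, l.length = d.length → Nz l → f l = g l) →
      ∀ l, l.length = e.length → Nz l → Φ f l = Φ g l)
    (h4 : ∀ n, Bn n d → In e (Φ (mono n))) {f : List ℂ → ℂ} (h : In d f) : In e (Φ f) := by
  obtain ⟨f', hf, e'⟩ := h
  refine In.congr ?_ (h3 f' f e')
  clear e'
  induction hf using Submodule.span_induction with
  | mem f hf => obtain ⟨n, hn, rfl⟩ := hf; exact h4 n hn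
  | zero => exact (in_zero e).congr fun l _ _ => (h0 l).symm
  | add f g _ _ a b => exact (a.add b).congr fun l _ _ => (h1 f g l).symm
  | smul c f _ a => exact (a.cmul c).congr fun l _ _ => (h2 c f l).symm

theorem In.mul {d e : List ℕ} {f g : List ℂ → ℂ} (h : In d f) (h' : In e g)
    (hl : d.length = e.length) : In (List.zipWith (· + ·) d e) fun l => f l * g l := by
  have len : (List.zipWith (· + ·) d e).length = d.length := by simp [hl]
  refine In.ind (fun f l => f l * g l) (by simp) (fun _ _ _ => by simp [add_mul])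
    (fun _ _ _ => by simp [mul_assoc]) (fun f g' a l b c => by rw [a l (len ▸ b) c])
    (fun n hn => ?_) h
  refine In.ind (fun g l => mono n l * g l) (by simp) (fun _ _ _ => by simp [mul_add])
    (fun _ _ _ => by simp [mul_left_comm]) (fun f g' a l b c => by rw [a l (hl ▸ len ▸ b) c])
    (fun n' hn' => ?_) h'
  exact (in_mono (hn.add hn' hl)).congr fun l _ c =>
    mono_add n n' l (hn.length_eq.trans (hl.trans hn'.length_eq.symm)) c

theorem In.cons {d : List ℕ} {f : List ℂ → ℂ} (h : In d f) {k : ℤ} {a : ℕ} (hk : |k| ≤ a) :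
    In (a :: d) fun l => l.headD 0 ^ k * f l.tail := by
  refine In.ind (fun f l => l.headD 0 ^ k * f l.tail) (by simp) (fun _ _ _ => by simp [mul_add])
    (fun _ _ _ => by simp [mul_left_comm]) (fun f g e l b c => ?_) (fun n hn => ?_) h
  · cases l with
    | nil => simp at b
    | cons x l => rw [List.tail_cons, e l (by simpa using b) (nz_cons.1 c).2]
  · refine (in_mono (n := k :: n) (List.Forall₂.cons hk hn)).congr fun l b _ => ?_
    cases l with
    | nil => simp at b
    | cons x l => simp [mono_cons]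

/-- exchange of the first two entries -/
def sw : List ℂ → List ℂ
  | x :: y :: l => y :: x :: l
  | l => l

theorem In.swap {d : List ℕ} {a b : ℕ} {f : List ℂ → ℂ} (h : In (a :: b :: d) f) :
    In (b :: a :: d) fun l => f (sw l) := by
  refine In.ind (fun f l => f (sw l)) (by simp) (fun _ _ _ => by simp)
    (fun _ _ _ => by simp) (fun f g e l b c => ?_) (fun n hn => ?_) h
  · match l, b with
    | x :: y :: l, b =>
      simp only [nz_cons] at c
      exact e _ (by simpa [sw] using b) (by simp [sw, c])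
  · match n, hn with
    | k :: k' :: n, .cons h1 (.cons h2 h3) =>
      refine (in_mono (n := k' :: k :: n) (List.Forall₂.cons h2 (List.Forall₂.cons h1 h3))).congr
        fun l b _ => ?_
      match l, b with
      | x :: y :: l, _ => simp only [sw, mono_cons]; ring

theorem in_T (c : ℂ) {d : List ℕ} {f : List ℂ → ℂ} (h : In d f) :
    In (1 :: d) fun l => T (c * l.headD 0) * f l.tail :=
  (((h.cons (k := 1) (a := 1) (by simp)).cmul c).add
    ((h.cons (k := -1) (a := 1) (by simp)).cmul c⁻¹)).congr fun l _ _ => by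
    simp only [T, zpow_one, zpow_neg, mul_inv]; ring

theorem in_fac (L : ℕ) :
    In (1 :: 1 :: List.replicate L 0) fun l => T (q * l.tail.headD 0) - T (l.headD 0) := by
  have h1 := (in_T q (in_one (List.replicate L 0))).cons (k := 0) (a := 1) (by simp)
  have h2 := in_T 1 (in_one (1 :: List.replicate L 0))
  exact (h1.add (h2.cmul (-1))).congr fun l _ _ => by simp; ring

theorem in_row (L : ℕ) : In (L :: List.replicate L 1)
    fun l => (l.tail.map fun y => T (q * y) - T (l.headD 0)).prod := by
  induction L with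
  | zero =>
    refine (in_one _).congr fun l b _ => ?_
    match l, b with
    | [x], _ => simp
  | succ L ih =>
    have := (in_fac L).mul (ih.cons (k := 0) (a := 0) (by simp)).swap (by simp)
    simp only [List.zipWith_cons_cons, List.zipWith_replicate, min_self, add_zero, zero_add,
      add_comm 1 L] at this
    refine this.congr fun l b _ => ?_
    match l, b with
    | x :: y :: l, _ => simp [sw]

theorem in_pref (L : ℕ) : In (List.replicate L (L - 1)) Pref := by
  induction L with
  | zero =>
    refine (in_one _).congr fun l b _ => ?_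
    match l, b with
    | [], _ => simp [Pref]
  | succ L ih =>
    have := (in_row L).mul (ih.cons (k := 0) (a := 0) (by simp)) (by simp)
    simp only [List.zipWith_cons_cons, List.zipWith_replicate, min_self, add_zero] at this
    have e : L :: List.replicate L (1 + (L - 1)) = List.replicate (L + 1) (L + 1 - 1) := by
      rcases L with _ | L
      · rfl
      · rw [List.replicate_succ (n := L + 1)]; congr 2; omega
    rw [e] at this
    refine this.congr fun l b _ => ?_
    match l, b with
    | x :: l, _ => simp [pref_cons]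

theorem mem (L : ℕ) : ∃ f ∈ LPs L (L - 1), ∀ l, l.length = L → Nz l → f l = Pref l := by
  obtain ⟨f, h1, h2⟩ := in_pref L
  refine ⟨f, Submodule.span_mono ?_ h1, fun l a b => h2 l (by simpa using a) b⟩
  rintro _ ⟨n, hn, rfl⟩
  refine ⟨n, by simpa using hn.length_eq, fun k hk => ?_, rfl⟩
  obtain ⟨i, hi, rfl⟩ := List.getElem_of_mem hk
  have hl : n.length = L := by simpa using hn.length_eq
  simpa using (List.forall₂_iff_get.1 hn).2 i hi (by simpa [hl] using hi)

theorem natDegree_dickson : ∀ n : ℕ, (dickson 1 (1 : ℂ) n).natDegree ≤ n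
  | 0 => by
    rw [dickson_zero]
    exact (natDegree_sub_le _ _).trans (by simp)
  | 1 => by simp
  | n + 2 => by
    rw [dickson_add_two]
    refine (natDegree_sub_le _ _).trans (max_le (natDegree_mul_le.trans ?_)
      ((natDegree_C_mul_le _ _).trans ((natDegree_dickson n).trans (by omega))))
    have := natDegree_dickson (n + 1)
    rw [natDegree_X]; omega

end PrefSA

open PrefSA

theorem s_Pref : S_Pref :=
  ⟨exch, fun x l => by simp only [pref_cons, T_inv], snoc, mem, PrefSA.ne, lp, hom⟩

theorem s_Sym : S_Sym := by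
  rintro d g ⟨p, hp, h⟩ hs
  refine ⟨∑ i ∈ Finset.range (2 * d + 1), C (p.coeff i / 2) * dickson 1 1 (i - d + (d - i)),
    natDegree_sum_le_of_forall_le _ _ fun i hi => (natDegree_C_mul_le _ _).trans
      ((natDegree_dickson _).trans (by rw [Finset.mem_range] at hi; omega)), fun t ht => ?_⟩
  have h0 : t * t⁻¹ = 1 := mul_inv_cancel₀ ht
  have hd : t ^ d * t⁻¹ ^ d = 1 := by rw [← mul_pow, h0, one_pow]
  have h1 := h t ht
  have h2 := h t⁻¹ (inv_ne_zero ht)
  rw [hs t ht] at h2
  rw [eval_eq_sum_range' (Nat.lt_succ_of_le hp)] at h1 h2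
  have h3 : g t = (g t * t ^ d * t⁻¹ ^ d + g t * t⁻¹ ^ d * t ^ d) / 2 := by
    linear_combination (-g t) * hd
  rw [h3, h1, h2, eval_finsetSum, Finset.sum_mul, Finset.sum_mul, ← Finset.sum_add_distrib,
    Finset.sum_div]
  refine Finset.sum_congr rfl fun i _ => ?_
  rw [eval_mul, eval_C, T, dickson_one_one_eval_add_inv t t⁻¹ h0]
  rcases le_total i d with e | e
  · obtain ⟨k, rfl⟩ := Nat.exists_eq_add_of_le e
    have hi : t ^ i * t⁻¹ ^ i = 1 := by rw [← mul_pow, h0, one_pow]
    rw [show i - (i + k) + (i + k - i) = k by omega, pow_add, pow_add]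
    linear_combination (p.coeff i / 2 * (t ^ k + t⁻¹ ^ k)) * hi
  · obtain ⟨k, rfl⟩ := Nat.exists_eq_add_of_le e
    rw [show d + k - d + (d - (d + k)) = k by omega, pow_add, pow_add]
    linear_combination (p.coeff (d + k) / 2 * (t ^ k + t⁻¹ ^ k)) * hd

end Pool.Agent.P.MP_6c8efb_pr.Arm
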