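import Pool.Agent.P.MP_6c8efb_pr.Arm.Iface

/-! The quotient of determinants is a polynomial in each variable. -/

open Polynomial

namespace Pool.Agent.P.MP_6c8efb_pr.Arm

namespace QP1A

theorem natDegree_det_le {m : ℕ} (M : Matrix (Fin m) (Fin m) ℂ[X]) (b : Fin m → ℕ)
    (h : ∀ i j, (M i j).natDegree ≤ b i) : M.det.natDegree ≤ ∑ i, b i := by
  rw [Matrix.det_apply']
  refine natDegree_sum_le_of_forall_le _ _ fun σ _ => natDegree_mul_le.trans ?_
  rw [natDegree_intCast, zero_add, ← Equiv.sum_comp σ b]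
  exact (natDegree_prod_le _ _).trans (Finset.sum_le_sum fun i _ => h _ _)

theorem div1 {r : ℂ[X]} {a : ℂ} (h : r.eval a = 0) :
    ∃ r₁ : ℂ[X], r₁.natDegree ≤ r.natDegree - 1 ∧ ∀ t, r.eval t = (t - a) * r₁.eval t := by
  refine ⟨r /ₘ (X - C a), ?_, fun t => ?_⟩
  · rw [natDegree_divByMonic _ (monic_X_sub_C a), natDegree_X_sub_C]
  · conv_lhs => rw [← (mul_divByMonic_eq_iff_isRoot (p := r) (a := a)).2 h]
    simp

theorem div3 {r : ℂ[X]} {a : ℂ} (ha : UU a ^ 2 ≠ 4) (h : ∀ t, UU t = UU a → r.eval t = 0) :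
    ∃ r₁ : ℂ[X], r₁.natDegree ≤ r.natDegree - 3 ∧ ∀ t, r.eval t = (UU a - UU t) * r₁.eval t := by
  obtain ⟨b, c, h1⟩ := exists_tri a
  have hb := h1.UU_eq
  have hc := h1.swap₂.UU_eq
  have n1 : b ≠ c := h1.ne ha
  have n2 : a ≠ c := h1.swap₁.ne (hb ▸ ha)
  have n3 : a ≠ b := h1.swap₂.swap₁.ne (hc ▸ ha)
  obtain ⟨r₁, d1, e1⟩ := div1 (h a rfl)
  obtain ⟨r₂, d2, e2⟩ := div1 (r := r₁) (a := b)
    ((mul_eq_zero.1 ((e1 b).symm.trans (h b hb))).resolve_left (sub_ne_zero.2 n3.symm))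
  obtain ⟨r₃, d3, e3⟩ := div1 (r := r₂) (a := c) (by
    have := h c hc
    rw [e1, e2] at this
    simpa [sub_eq_zero, n1.symm, n2.symm] using this)
  refine ⟨-r₃, by rw [natDegree_neg]; omega, fun t => ?_⟩
  rw [e1, e2, e3, eval_neg]
  linear_combination r₃.eval t * h1.factor t

theorem divAll {d : ℂ[X]} {ts : List ℂ} (hg : GenT ts)
    (h : ∀ s ∈ ts, ∀ t, UU t = UU s → d.eval t = 0) :
    ∃ r : ℂ[X], r.natDegree ≤ d.natDegree - 3 * ts.length ∧
      ∀ t, d.eval t = (ts.map fun s => UU s - UU t).prod * r.eval t := by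
  induction ts with
  | nil => exact ⟨d, by simp, by simp⟩
  | cons a ts ih =>
    obtain ⟨r, d1, e1⟩ := ih (hg.sublist (List.sublist_cons_self a ts))
      fun s hs => h s (List.mem_cons_of_mem _ hs)
    obtain ⟨r₁, d2, e2⟩ := div3 (r := r) (hg.1 a List.mem_cons_self) fun t ht => by
      refine (mul_eq_zero.1 ((e1 t).symm.trans (h a List.mem_cons_self t ht))).resolve_left
        (List.prod_ne_zero fun h0 => ?_)
      obtain ⟨s, hs, e⟩ := List.mem_map.1 h0
      exact (List.pairwise_cons.1 hg.2).1 s hs (ht ▸ (sub_eq_zero.1 e).symm)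
    refine ⟨r₁, by rw [List.length_cons]; omega, fun t => ?_⟩
    rw [e1, e2, List.map_cons, List.prod_cons]
    ring

theorem exists_row (H : ℂ[X]) (s : ℂ) :
    ∃ P : ℂ[X], P.natDegree ≤ 2 ∧ ∀ t, P.eval t = Jv ((X - C t) ^ 2 * H) s := by
  refine ⟨C (Jv (X ^ 2 * H) s) - C (2 * Jv (X * H) s) * X + C (Jv H s) * X ^ 2,
    by compute_degree, fun t => ?_⟩
  have : (X - C t) ^ 2 * H = X ^ 2 * H - C (2 * t) * (X * H) + C (t ^ 2) * H := by
    simp only [map_mul, map_pow, map_ofNat]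
    ring
  rw [this, Jv_add, Jv_sub, Jv_C_mul, Jv_C_mul]
  simp only [eval_add, eval_sub, eval_mul, eval_C, eval_X, eval_pow]
  ring

theorem natDegree_sq (ts : List ℂ) :
    (ts.map fun s => (X - C s : ℂ[X]) ^ 2).prod.natDegree ≤ 2 * ts.length := by
  induction ts with
  | nil => simp
  | cons a ts ih =>
    rw [List.map_cons, List.prod_cons, List.length_cons]
    have : ((X - C a : ℂ[X]) ^ 2).natDegree ≤ 2 := by compute_degree
    exact natDegree_mul_le.trans (by omega)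

theorem exists_det (ts : List ℂ) (G : ℂ[X]) : ∃ d : ℂ[X],
    d.natDegree ≤ G.natDegree + 3 * ts.length - 1 + 2 * ts.length ∧
      ∀ t, d.eval t = DD (t :: ts) G := by
  choose P h1 h2 using exists_row
  refine ⟨Matrix.det (Matrix.of fun i j : Fin (ts.length + 1) =>
    Fin.cases (motive := fun _ => ℂ[X])
      (Jp (G * (ts.map fun s => (X - C s) ^ 2).prod * X ^ (j : ℕ)))
      (fun i => P (G * ((ts.eraseIdx i).map fun s => (X - C s) ^ 2).prod * X ^ (j : ℕ)) ts[i]) i),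
    ?_, fun t => ?_⟩
  · refine (natDegree_det_le _
      (Fin.cases (G.natDegree + 3 * ts.length - 1) fun _ => 2) fun i j => ?_).trans ?_
    · refine Fin.cases ?_ (fun i => h1 _ _) i
      refine (natDegree_Jp _).trans (Nat.sub_le_sub_right (natDegree_mul_le.trans ?_) 1)
      have h3 := natDegree_mul_le (p := G) (q := (ts.map fun s => (X - C s : ℂ[X]) ^ 2).prod)
      have h4 := natDegree_sq ts
      have h5 := j.2
      rw [natDegree_X_pow]
      omega
    · simp [Fin.sum_univ_succ, mul_comm]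
  · rw [← coe_evalRingHom, RingHom.map_det, DD]
    congr 1
    ext i j
    refine Fin.cases (Jp_eval _ _) (fun i => (h2 _ _ _).trans ?_) i
    simp only [Matrix.of_apply, Fin.val_succ, List.eraseIdx_cons_succ, List.map_cons,
      List.prod_cons, Fin.getElem_fin, List.getElem_cons_succ]
    congr 1
    ring

theorem Jv_sq {a b c : ℂ} (h : Tri a b c) (hn : b ≠ c) (H : ℂ[X]) :
    Jv ((X - C b) ^ 2 * H) a = (c - b) * H.eval c := by
  refine mul_right_cancel₀ (sub_ne_zero.2 hn) ((h.Jv _).trans ?_)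
  simp only [eval_mul, eval_pow, eval_sub, eval_X, eval_C]
  ring

theorem DD_zero {ts : List ℂ} (hg : GenT ts) (G : ℂ[X]) {s t : ℂ} (hs : s ∈ ts)
    (ht : UU t = UU s) : DD (t :: ts) G = 0 := by
  obtain ⟨i, hi, rfl⟩ := List.getElem_of_mem hs
  have key : ∃ c : ℂ, ∀ H : ℂ[X],
      Jv ((X - C t) ^ 2 * H) ts[i] = c * Jv ((X - C ts[i]) ^ 2 * H) t := by
    by_cases e : t = ts[i]
    · exact ⟨1, fun H => by rw [one_mul, ← e]⟩
    have h1 : Tri t ts[i] (-t - ts[i]) := ⟨by ring, mul_left_cancel₀ (sub_ne_zero.2 e) (by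
      unfold UU at ht
      linear_combination -ht)⟩
    have n1 := h1.ne (ht ▸ hg.1 _ hs)
    refine ⟨(-t - ts[i] - t) / (-t - ts[i] - ts[i]), fun H => ?_⟩
    rw [Jv_sq h1 n1, Jv_sq h1.swap₁ (h1.swap₁.ne (hg.1 _ hs)), ← mul_assoc,
      div_mul_cancel₀ _ (sub_ne_zero.2 n1.symm)]
  obtain ⟨c, hc⟩ := key
  have e := ((List.getElem_cons_eraseIdx_perm hi).map fun s => (X - C s : ℂ[X]) ^ 2).prod_eq
  rw [DD, ← Matrix.updateRow_eq_self (Matrix.of _) (Fin.succ ⟨i, hi⟩)]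
  refine Eq.trans (congrArg (fun v => Matrix.det (Matrix.updateRow _ _ v)) ?_)
    ((Matrix.det_updateRow_smul _ _ c _).trans (mul_eq_zero_of_right _
      (Matrix.det_updateRow_eq_zero (Fin.succ_ne_zero _).symm)))
  ext j
  have := hc (G * ((ts.eraseIdx i).map fun s => (X - C s) ^ 2).prod * X ^ (j : ℕ))
  simp only [Matrix.of_apply, Fin.val_succ, List.eraseIdx_cons_succ, List.map_cons,
    List.prod_cons, Fin.getElem_fin, List.getElem_cons_succ, Pi.smul_apply, smul_eq_mul,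
    Fin.val_zero, List.eraseIdx_cons_zero, List.getElem_cons_zero, ← e]
  refine Eq.trans ?_ (this.trans ?_)
  · congr 1
    ring
  · congr 2
    ring

end QP1A

open QP1A in
theorem s_QP1 : S_QP1 := by
  intro ts G hg
  obtain ⟨d, d1, e1⟩ := exists_det ts G
  obtain ⟨r, d2, e2⟩ := divAll (d := d) hg fun s hs t ht => (e1 t).trans (DD_zero hg G hs ht)
  refine ⟨C (VV ts)⁻¹ * r, (natDegree_C_mul_le _ _).trans (by omega), fun t ht => ?_⟩
  rw [QQ, ← e1, e2, VV, mul_div_mul_left _ _ (List.prod_ne_zero fun h0 => ?_), eval_mul, eval_C,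
    div_eq_inv_mul]
  obtain ⟨s, hs, e⟩ := List.mem_map.1 h0
  exact ht s hs (sub_eq_zero.1 e)

end Pool.Agent.P.MP_6c8efb_pr.Arm
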