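import Pool.Agent.P.MP_6c8efb_pr.Arm.Iface

/-! The value of the determinant at a resonant point. -/

open Polynomial Filter Topology

namespace Pool.Agent.P.MP_6c8efb_pr.Arm

namespace QP2A

theorem det_two {n : ℕ} (φ : Fin (n + 1) → ℂ[X] →ₗ[ℂ] ℂ) (A p B p' : ℂ)
    (h0 : ∀ f, φ 0 f = A * f.eval p + B * f.eval p') :
    Matrix.det (Matrix.of fun i (j : Fin (n + 1)) => φ i (X ^ (j : ℕ))) =
      A * Matrix.det (Matrix.of fun i (j : Fin n) => φ (Fin.succ i) ((X - C p) * X ^ (j : ℕ))) +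
      B * Matrix.det (Matrix.of fun i (j : Fin n) => φ (Fin.succ i) ((X - C p') * X ^ (j : ℕ))) := by
  have e1 := det_newton (Fin.cons (A • leval p) (Fin.tail φ)) A p (fun f => by simp)
  have e2 := det_newton (Fin.cons (B • leval p') (Fin.tail φ)) B p' (fun f => by simp)
  simp only [Fin.cons_succ] at e1 e2
  rw [show (Matrix.of fun i (j : Fin n) => φ (Fin.succ i) ((X - C p) * X ^ (j : ℕ))) =
      Matrix.of fun i (j : Fin n) => Fin.tail φ i ((X - C p) * X ^ (j : ℕ)) from rfl,
    show (Matrix.of fun i (j : Fin n) => φ (Fin.succ i) ((X - C p') * X ^ (j : ℕ))) =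
      Matrix.of fun i (j : Fin n) => Fin.tail φ i ((X - C p') * X ^ (j : ℕ)) from rfl,
    ← e1, ← e2, Matrix.det_succ_row_zero, Matrix.det_succ_row_zero, Matrix.det_succ_row_zero,
    ← Finset.sum_add_distrib]
  refine Finset.sum_congr rfl fun j _ => ?_
  have k1 : ∀ ψ : ℂ[X] →ₗ[ℂ] ℂ, (Matrix.of fun (i j : Fin (n + 1)) =>
      (Fin.cons ψ (Fin.tail φ) : Fin (n + 1) → ℂ[X] →ₗ[ℂ] ℂ) i (X ^ (j : ℕ))).submatrix Fin.succ
        j.succAbove = (Matrix.of fun (i j : Fin (n + 1)) => φ i (X ^ (j : ℕ))).submatrix Fin.succ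
        j.succAbove := fun ψ => by
    ext a b; simp [Fin.tail]
  rw [k1, k1]
  simp only [Matrix.of_apply, Fin.cons_zero, h0, LinearMap.smul_apply, leval_apply, smul_eq_mul]
  ring

/-- the rows of the determinant -/
noncomputable def ph (l : List ℂ) (G : ℂ[X]) (i : Fin l.length) : ℂ[X] →ₗ[ℂ] ℂ :=
  JvL l[i] ∘ₗ LinearMap.mulLeft ℂ (G * ((l.eraseIdx i).map fun s => (X - C s) ^ 2).prod)

theorem ph_apply (l : List ℂ) (G : ℂ[X]) (i : Fin l.length) (f : ℂ[X]) :
    ph l G i f = Jv (G * ((l.eraseIdx i).map fun s => (X - C s) ^ 2).prod * f) l[i] := rfl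

/-- the determinant with an extra factor -/
noncomputable def E (l : List ℂ) (G g : ℂ[X]) : ℂ :=
  Matrix.det (Matrix.of fun i j : Fin l.length => ph l G i (g * X ^ (j : ℕ)))

theorem DD_ph (l : List ℂ) (G : ℂ[X]) :
    DD l G = Matrix.det (Matrix.of fun i j : Fin l.length => ph l G i (X ^ (j : ℕ))) := rfl

/-- the common factor of the first two rows -/
noncomputable def av (ts : List ℂ) (G : ℂ[X]) (x : ℂ) : ℂ :=
  (G * (ts.map fun s => (X - C s) ^ 2).prod).eval x

/-- the extra factor -/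
noncomputable def gg (s x a b : ℂ) : ℂ[X] :=
  (X - C x) * ((X - C x) * ((X - C a) * ((X - C b) * (X - C s) ^ 2)))

theorem DD_eq {x y w t s τ : ℂ} (ts : List ℂ) (G : ℂ[X]) (h1 : Tri x y w) (h2 : Tri t s τ)
    (n1 : y ≠ w) (n2 : τ ≠ t) :
    (y - w) * (τ - t) * DD (x :: s :: ts) G =
      (y - s) ^ 2 * av ts G y * ((τ - x) ^ 2 * av ts G τ * (τ - y) * E ts G (gg s x y τ) -
        (t - x) ^ 2 * av ts G t * (t - y) * E ts G (gg s x y t)) -
      (w - s) ^ 2 * av ts G w * ((τ - x) ^ 2 * av ts G τ * (τ - w) * E ts G (gg s x w τ) -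
        (t - x) ^ 2 * av ts G t * (t - w) * E ts G (gg s x w t)) := by
  have d1 : y - w ≠ 0 := sub_ne_zero.2 n1
  have d2 : τ - t ≠ 0 := sub_ne_zero.2 n2
  let φ : Fin (ts.length + 1 + 1) → ℂ[X] →ₗ[ℂ] ℂ := ph (x :: s :: ts) G
  have r0 : ∀ f, φ 0 f = (y - s) ^ 2 * av ts G y / (y - w) * f.eval y +
      -((w - s) ^ 2 * av ts G w) / (y - w) * f.eval w := fun f => by
    have := h1.Jv (G * ((s :: ts).map fun s => (X - C s) ^ 2).prod * f)
    have e : φ 0 f = Jv (G * ((s :: ts).map fun s => (X - C s) ^ 2).prod * f) x := rfl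
    rw [e, eq_div_of_mul_eq d1 this]
    simp only [av, List.map_cons, List.prod_cons, eval_mul, eval_pow, eval_sub, eval_X, eval_C]
    field_simp
    ring
  have r1 : ∀ f, φ (Fin.succ 0) f = (τ - x) ^ 2 * av ts G τ / (τ - t) * f.eval τ +
      -((t - x) ^ 2 * av ts G t) / (τ - t) * f.eval t := fun f => by
    have := h2.swap₁.swap₂.Jv (G * ((x :: ts).map fun s => (X - C s) ^ 2).prod * f)
    have e : φ (Fin.succ 0) f = Jv (G * ((x :: ts).map fun s => (X - C s) ^ 2).prod * f) s := rfl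
    rw [e, eq_div_of_mul_eq d2 this]
    simp only [av, List.map_cons, List.prod_cons, eval_mul, eval_pow, eval_sub, eval_X, eval_C]
    field_simp
    ring
  have r2 : ∀ (i : Fin ts.length) (a b : ℂ) (f : ℂ[X]),
      φ (Fin.succ (Fin.succ i)) ((X - C a) * ((X - C b) * f)) = ph ts G i (gg s x a b * f) := by
    intro i a b f
    have e : ∀ g, φ (Fin.succ (Fin.succ i)) g =
      Jv (G * ((x :: s :: ts.eraseIdx i).map fun s => (X - C s) ^ 2).prod * g) ts[i] := fun g => rfl
    rw [e, ph_apply]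
    congr 1
    simp only [List.map_cons, List.prod_cons, gg]
    ring
  have step : ∀ a : ℂ, Matrix.det (Matrix.of fun i (j : Fin (ts.length + 1)) =>
      φ (Fin.succ i) ((X - C a) * X ^ (j : ℕ))) =
      (τ - x) ^ 2 * av ts G τ / (τ - t) * (τ - a) * E ts G (gg s x a τ) +
      -((t - x) ^ 2 * av ts G t) / (τ - t) * (t - a) * E ts G (gg s x a t) := fun a => by
    have := det_two (fun i => φ (Fin.succ i) ∘ₗ LinearMap.mulLeft ℂ (X - C a))
      ((τ - x) ^ 2 * av ts G τ / (τ - t) * (τ - a)) τ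
      (-((t - x) ^ 2 * av ts G t) / (τ - t) * (t - a)) t (fun f => by
        simp only [LinearMap.comp_apply, LinearMap.mulLeft_apply, r1, eval_mul, eval_sub, eval_X,
          eval_C]
        ring)
    simp only [LinearMap.comp_apply, LinearMap.mulLeft_apply, r2] at this
    exact this
  have e : DD (x :: s :: ts) G =
      Matrix.det (Matrix.of fun i (j : Fin (ts.length + 1 + 1)) => φ i (X ^ (j : ℕ))) := rfl
  rw [e, det_two φ _ _ _ _ r0, step, step]
  field_simp
  ring

theorem E_cubic {t s τ : ℂ} (ts : List ℂ) (G : ℂ[X]) (h : Tri t s τ) :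
    E ts G (gg s t τ τ) = (ts.map fun r => UU r - UU t).prod ^ 2 * DD ts G := by
  have e : gg s t τ τ = (X ^ 3 - 3 * X - C (UU t)) * (X ^ 3 - 3 * X - C (UU t)) := by
    rw [← h.poly, gg]; ring
  have : (Matrix.of fun i j : Fin ts.length => ph ts G i (gg s t τ τ * X ^ (j : ℕ))) =
      Matrix.of fun i j : Fin ts.length => (UU ts[i] - UU t) ^ 2 *
        (Matrix.of fun i j : Fin ts.length => ph ts G i (X ^ (j : ℕ))) i j := by
    ext i j
    simp only [Matrix.of_apply, ph_apply]
    rw [e, show ∀ a b c : ℂ[X], a * (b * b * c) = b * (b * (a * c)) from fun a b c => by ring,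
      Jv_cubic_mul, Jv_cubic_mul]
    ring
  rw [E, this, Matrix.det_mul_column, DD_ph, Finset.prod_pow,
    ← Fin.prod_univ_fun_getElem ts fun r => UU r - UU t]
  rfl

theorem cont_lin {z : ℂ} {u : ℂ → ℂ} {f : ℂ → ℂ[X]} (hu : ContinuousAt u z)
    (hf : ∀ φ : ℂ[X] →ₗ[ℂ] ℂ, ContinuousAt (fun y => φ (f y)) z) (φ : ℂ[X] →ₗ[ℂ] ℂ) :
    ContinuousAt (fun y => φ ((X - C (u y)) * f y)) z := by
  have : (fun y => φ ((X - C (u y)) * f y)) =
      fun y => (φ ∘ₗ LinearMap.mulLeft ℂ X) (f y) - u y * φ (f y) := by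
    funext y
    rw [sub_mul, map_sub, ← smul_eq_C_mul, map_smul]; rfl
  rw [this]
  exact (hf _).sub (hu.mul (hf _))

theorem cont_E {z : ℂ} {u v w : ℂ → ℂ} (ts : List ℂ) (G : ℂ[X]) (s : ℂ) (hu : ContinuousAt u z)
    (hv : ContinuousAt v z) (hw : ContinuousAt w z) :
    ContinuousAt (fun y => E ts G (gg s (u y) (v y) (w y))) z := by
  have h : ∀ φ : ℂ[X] →ₗ[ℂ] ℂ, ContinuousAt (fun y => φ (gg s (u y) (v y) (w y))) z :=
    cont_lin hu (cont_lin hu (cont_lin hv (cont_lin hw fun _ => continuousAt_const)))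
  unfold E
  refine (continuous_id.matrix_det.continuousAt).comp (f := fun y => (Matrix.of fun i j : Fin ts.length =>
    ph ts G i (gg s (u y) (v y) (w y) * X ^ (j : ℕ)))) ?_
  refine continuousAt_pi.2 fun i => continuousAt_pi.2 fun j => ?_
  exact h (ph ts G i ∘ₗ LinearMap.mulRight ℂ (X ^ (j : ℕ)))

theorem ev_UU (u : ℂ) : ∀ᶠ z in cofinite, z ≠ 0 ∧ UU (T z) ≠ u := by
  have hp : (X * (X ^ 6 - C u * X ^ 3 + 1) : ℂ[X]) ≠ 0 := by
    refine mul_ne_zero X_ne_zero fun h => ?_
    have := congrArg (eval 0) h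
    simp at this
  refine (finite_setOfPred_isRoot hp).subset fun z hz => ?_
  simp only [Set.mem_compl_iff, Set.mem_ofPred_eq, not_and, not_not] at hz
  simp only [Set.mem_ofPred_eq, IsRoot, eval_mul, eval_X, eval_add, eval_sub, eval_pow, eval_C,
    eval_one]
  by_cases h0 : z = 0
  · simp [h0]
  have := hz h0
  rw [UU_T h0, T] at this
  rw [← this]
  field_simp
  ring

theorem cont_T {c z : ℂ} (hc : c ≠ 0) (hz : z ≠ 0) : ContinuousAt (fun y => T (c * y)) z := by
  unfold T
  exact (continuousAt_const.mul continuousAt_id).add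
    ((continuousAt_const.mul continuousAt_id).inv₀ (mul_ne_zero hc hz))

theorem cont_prod (ts : List ℂ) : Continuous fun x => (ts.map fun r => UU r - UU x).prod := by
  refine continuous_list_prod _ fun r _ => ?_
  unfold UU; fun_prop

theorem VV_ne {l : List ℂ} (h : l.Pairwise fun s t => UU s ≠ UU t) : VV l ≠ 0 := by
  induction l with
  | nil => simp [VV]
  | cons a l ih =>
    rw [List.pairwise_cons] at h
    refine mul_ne_zero (List.prod_ne_zero fun e => ?_) (ih h.2)
    obtain ⟨r, hr, e⟩ := List.mem_map.1 e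
    exact h.1 r hr (sub_eq_zero.1 e).symm

theorem prod_sq (ts : List ℂ) (τ : ℂ) : ((ts.map fun s => (X - C s) ^ 2).prod.eval τ) ^ 2 =
    (ts.map fun r => (τ - r) ^ 4).prod := by
  induction ts with
  | nil => simp
  | cons a l ih =>
    simp only [List.map_cons, List.prod_cons, eval_mul, eval_pow, eval_sub, eval_X, eval_C, ← ih]
    ring

/-- the identity which passes to the limit -/
noncomputable def FF (s t τ : ℂ) (ts : List ℂ) (G p : ℂ[X]) (x y w : ℂ) : ℂ :=
  (s - x) * (s - w) * ((t - y) * (t - w)) * (τ - y) * ((y - w) * (τ - t)) *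
      (p.eval x * (ts.map fun r => UU r - UU x).prod * VV (s :: ts)) -
    ((s - y) * ((t - y) * (t - w)) * (τ - y) * av ts G y *
      ((τ - x) ^ 2 * av ts G τ * (τ - y) * E ts G (gg s x y τ) -
        (t - x) ^ 2 * av ts G t * (t - y) * E ts G (gg s x y t)) -
    (w - s) ^ 2 * av ts G w * ((s - x) * (s - w)) *
      ((t - y) * (t - w) * (τ - x) * av ts G τ * E ts G (gg s x w τ) -
        (τ - y) * (t - x) * av ts G t * (t - w) * E ts G (gg s x w t)))

theorem FF_eq {x y w t s τ : ℂ} {ts : List ℂ} {G p : ℂ[X]} (h1 : Tri x y w) (h2 : Tri t s τ)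
    (n1 : y ≠ w) (n2 : τ ≠ t) (hg : GenT (s :: ts)) (hx : ∀ r ∈ s :: ts, UU r ≠ UU x)
    (hp : QQ (x :: s :: ts) G = p.eval x) : FF s t τ ts G p x y w = 0 := by
  have hv : VV (x :: s :: ts) ≠ 0 :=
    VV_ne (List.pairwise_cons.2 ⟨fun r hr => (hx r hr).symm, hg.2⟩)
  have e0 := (div_eq_iff hv).1 hp
  have e1 : VV (x :: s :: ts) =
      (UU s - UU x) * (ts.map fun r => UU r - UU x).prod * VV (s :: ts) := by
    rw [VV]; simp
  have hd : UU s - UU x ≠ 0 := sub_ne_zero.2 (hx s (by simp))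
  have k1 := h1.factor s
  have k2 := h1.factor t
  have k3 := h1.factor τ
  rw [← h2.UU_eq] at k2
  rw [h2.swap₂.UU_eq, ← h2.UU_eq] at k3
  have e2 := DD_eq ts G h1 h2 n1 n2
  rw [e0, e1] at e2
  refine mul_left_cancel₀ hd ?_
  unfold FF
  generalize UU s - UU x = δ at *
  generalize E ts G (gg s x y τ) = E1 at *
  generalize E ts G (gg s x y t) = E2 at *
  generalize E ts G (gg s x w τ) = E3 at *
  generalize E ts G (gg s x w t) = E4 at *
  linear_combination ((s - x) * (s - w) * ((t - y) * (t - w)) * (τ - y)) * e2 +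
    ((s - y) * ((t - y) * (t - w)) * (τ - y) * av ts G y *
      ((τ - x) ^ 2 * av ts G τ * (τ - y) * E1 - (t - x) ^ 2 * av ts G t * (t - y) * E2)) * k1 -
    ((w - s) ^ 2 * av ts G w * ((s - x) * (s - w)) *
      ((t - y) * (t - w) * (τ - x) * av ts G τ * E3)) * k3 +
    ((w - s) ^ 2 * av ts G w * ((s - x) * (s - w)) *
      ((τ - y) * (t - x) * av ts G t * (t - w) * E4)) * k2

end QP2A

open QP2A

theorem s_QP2 : S_QP2 := by
  intro s ts G p t τ hg h hp
  obtain ⟨z, hz, e1, e2, e3⟩ := h.exists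
  have u4 : UU s ^ 2 ≠ 4 := hg.1 s (by simp)
  have n1 : t ≠ τ := h.swap₁.ne u4
  have n2 : s ≠ τ := h.ne (by rwa [← h.UU_eq])
  have n3 : t ≠ s := h.swap₂.swap₁.ne (by rwa [h.swap₂.UU_eq, ← h.UU_eq])
  have c1 : ContinuousAt T z := by simpa using cont_T one_ne_zero hz
  have c2 := cont_T q_ne_zero hz
  have c3 := cont_T (pow_ne_zero 2 q_ne_zero) hz
  have ca : Continuous (av ts G) := Polynomial.continuous _
  have cp : Continuous fun x => p.eval x := p.continuous
  have cq := cont_prod ts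
  have k1 := cont_E ts G s c1 c2 (continuousAt_const (y := τ))
  have k2 := cont_E ts G s c1 c2 (continuousAt_const (y := t))
  have k3 := cont_E ts G s c1 c3 (continuousAt_const (y := τ))
  have k4 := cont_E ts G s c1 c3 (continuousAt_const (y := t))
  have k5 := cp.continuousAt.comp c1
  have k6 := cq.continuousAt.comp c1
  have k7 := ca.continuousAt.comp c2
  have k8 := ca.continuousAt.comp c3
  have hc : ContinuousAt (fun y => FF s t τ ts G p (T y) (T (q * y)) (T (q ^ 2 * y))) z := by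
    unfold FF
    have := continuousAt_const (x := z) (y := s)
    exact (((((((this.sub c1).mul (this.sub c3)).mul ((continuousAt_const.sub c2).mul
      (continuousAt_const.sub c3))).mul (continuousAt_const.sub c2)).mul
      ((c2.sub c3).mul continuousAt_const)).mul ((k5.mul k6).mul continuousAt_const))).sub
      ((((((this.sub c2).mul ((continuousAt_const.sub c2).mul (continuousAt_const.sub c3))).mul
        (continuousAt_const.sub c2)).mul k7).mul
        ((((((continuousAt_const.sub c1).pow 2).mul continuousAt_const).mul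
          (continuousAt_const.sub c2)).mul k1).sub
        (((((continuousAt_const.sub c1).pow 2).mul continuousAt_const).mul
          (continuousAt_const.sub c2)).mul k2))).sub
      ((((((c3.sub this).pow 2).mul k8).mul ((this.sub c1).mul (this.sub c3))).mul
        ((((((continuousAt_const.sub c2).mul (continuousAt_const.sub c3)).mul
          (continuousAt_const.sub c1)).mul continuousAt_const).mul k3).sub
        (((((continuousAt_const.sub c2).mul (continuousAt_const.sub c1)).mul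
          continuousAt_const).mul (continuousAt_const.sub c3)).mul k4)))))
  have hev : ∀ᶠ y in cofinite, FF s t τ ts G p (T y) (T (q * y)) (T (q ^ 2 * y)) = 0 := by
    have a1 : ∀ᶠ y in cofinite, ∀ r ∈ {r | r ∈ s :: ts}, UU r ≠ UU (T y) :=
      (eventually_all_finite (List.finite_toSet _)).2 fun r _ =>
        (ev_UU (UU r)).mono fun y hy => hy.2.symm
    filter_upwards [a1, ev_UU 2, ev_UU (-2)] with y b1 b2 b3
    refine FF_eq (tri_T b2.1) h ((tri_T b2.1).ne fun e => ?_) n1.symm hg b1 (hp _ b1)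
    have : (UU (T y) - 2) * (UU (T y) - -2) = 0 := by linear_combination e
    rcases mul_eq_zero.1 this with e | e
    · exact b2.2 (sub_eq_zero.1 e)
    · exact b3.2 (sub_eq_zero.1 e)
  have lim : FF s t τ ts G p (T z) (T (q * z)) (T (q ^ 2 * z)) = 0 :=
    tendsto_nhds_unique (l := 𝓝[≠] z) (hc.tendsto.mono_left nhdsWithin_le_nhds)
      (tendsto_const_nhds.congr' ((hev.filter_mono (nhdsNE_le_cofinite z)).mono fun y hy => hy.symm))
  rw [e1, e2, e3, FF, E_cubic ts G h, VV, h.UU_eq] at lim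
  have hpw := List.pairwise_cons.1 hg.2
  have v1 : VV ts ≠ 0 := VV_ne hpw.2
  have v2 : (ts.map fun r => UU r - UU t).prod ≠ 0 := List.prod_ne_zero fun e => by
    obtain ⟨r, hr, e⟩ := List.mem_map.1 e
    exact hpw.1 r hr (by rw [h.UU_eq]; exact (sub_eq_zero.1 e).symm)
  have ea : av ts G τ ^ 2 = G.eval τ ^ 2 * (ts.map fun r => (τ - r) ^ 4).prod := by
    rw [av, eval_mul, mul_pow, prod_sq]
  rw [← ea, QQ, ← mul_div_assoc, eq_div_iff v1]
  have m1 := sub_ne_zero.2 n1
  have m2 := sub_ne_zero.2 n2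
  have m3 := sub_ne_zero.2 n3
  refine mul_left_cancel₀ (mul_ne_zero (mul_ne_zero (mul_ne_zero (pow_ne_zero 2 m1)
    (pow_ne_zero 3 m2)) (pow_ne_zero 2 m3)) (pow_ne_zero 2 v2)) ?_
  linear_combination -lim

end Pool.Agent.P.MP_6c8efb_pr.Arm
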