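import Pool.Agent.P.MP_6c8efb_pr.Arm.Iface

/-! The quotient `QQ` is symmetric, and the recursion for a leg. -/

open Polynomial

namespace Pool.Agent.P.MP_6c8efb_pr.Arm

theorem prod_eraseIdx_ofFn {n : ℕ} (f : Fin n → ℂ) (i : Fin n) :
    (((List.ofFn f).eraseIdx i).map fun s => (X - C s : ℂ[X]) ^ 2).prod =
      ∏ l ∈ Finset.univ.erase i, (X - C (f l)) ^ 2 := by
  have hi : (i : ℕ) < (List.ofFn f).length := by simp
  have h1 := ((List.getElem_cons_eraseIdx_perm hi).map fun s => (X - C s : ℂ[X]) ^ 2).prod_eq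
  rw [List.map_cons, List.prod_cons, List.map_ofFn, List.prod_ofFn, List.getElem_ofFn] at h1
  have h2 := Finset.mul_prod_erase Finset.univ (fun l => (X - C (f l) : ℂ[X]) ^ 2)
    (Finset.mem_univ i)
  have h3 : (X - C (f i) : ℂ[X]) ^ 2 ≠ 0 := pow_ne_zero _ (X_sub_C_ne_zero _)
  exact mul_left_cancel₀ h3 (h1.trans h2.symm)

theorem DD_ofFn {n : ℕ} (f : Fin n → ℂ) (G : ℂ[X]) :
    DD (List.ofFn f) G = Matrix.det (Matrix.of fun i j : Fin n =>
      Jv (G * (∏ l ∈ Finset.univ.erase i, (X - C (f l)) ^ 2) * X ^ (j : ℕ)) (f i)) := by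
  rw [DD, ← Matrix.det_submatrix_equiv_self (finCongr (List.length_ofFn (f := f)).symm)]
  congr 1
  ext i j
  simp only [Matrix.submatrix_apply, Matrix.of_apply, finCongr_apply, Fin.val_cast,
    Fin.getElem_fin, List.getElem_ofFn, prod_eraseIdx_ofFn]

theorem VV_ofFn {n : ℕ} (f : Fin n → ℂ) :
    VV (List.ofFn f) = Matrix.det (Matrix.vandermonde fun i => UU (f i)) := by
  rw [Matrix.det_vandermonde]
  induction n with
  | zero => simp [VV]
  | succ n ih =>
    rw [List.ofFn_succ, VV, ih, Fin.prod_univ_succ, List.map_ofFn, List.prod_ofFn,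
      Fin.prod_Ioi_zero]
    congr 1
    exact Finset.prod_congr rfl fun i _ => (Fin.prod_Ioi_succ (fun j => UU (f j) - UU (f i.succ)) i).symm

namespace QpermA

theorem exists_perm {α : Type} [DecidableEq α] {n : ℕ} (f g : Fin n → α)
    (h : (List.ofFn f).Perm (List.ofFn g)) : ∃ σ : Equiv.Perm (Fin n), g = f ∘ σ := by
  have hc : ∀ c, Fintype.card {a // g a = c} = Fintype.card {b // f b = c} := fun c => by
    have key : ∀ u : Fin n → α, Fintype.card {a // u a = c} = (List.ofFn u).count c := fun u => by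
      rw [Fintype.card_subtype, ← Multiset.coe_count, ← Fin.univ_val_map, Multiset.count_map]
      simp only [Finset.card_def, Finset.filter_val, eq_comm]
    rw [key, key, h.count_eq]
  refine ⟨Equiv.ofFiberEquiv fun c => Fintype.equivOfCardEq (hc c), funext fun a => ?_⟩
  exact (Equiv.ofFiberEquiv_map (fun c => Fintype.equivOfCardEq (hc c)) a).symm

theorem QQ_comp {n : ℕ} (f : Fin n → ℂ) (σ : Equiv.Perm (Fin n)) (G : ℂ[X]) :
    QQ (List.ofFn (f ∘ σ)) G = QQ (List.ofFn f) G := by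
  have hs : ((Equiv.Perm.sign σ : ℤ) : ℂ) ≠ 0 := by
    rcases Int.units_eq_one_or (Equiv.Perm.sign σ) with h | h <;> simp [h]
  have h1 : DD (List.ofFn (f ∘ σ)) G = ((Equiv.Perm.sign σ : ℤ) : ℂ) * DD (List.ofFn f) G := by
    rw [DD_ofFn, DD_ofFn, ← Matrix.det_permute]
    refine congrArg Matrix.det (Matrix.ext fun i j => ?_)
    have e : (∏ l ∈ Finset.univ.erase i, (X - C (f (σ l)) : ℂ[X]) ^ 2) =
        ∏ l ∈ Finset.univ.erase (σ i), (X - C (f l)) ^ 2 := by
      refine Finset.prod_equiv σ (fun l => ?_) fun l _ => rfl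
      simp
    simp only [Matrix.submatrix_apply, Matrix.of_apply, Function.comp, id, e]
  have h2 : VV (List.ofFn (f ∘ σ)) = ((Equiv.Perm.sign σ : ℤ) : ℂ) * VV (List.ofFn f) := by
    rw [VV_ofFn, VV_ofFn, ← Matrix.det_permute]
    exact congrArg Matrix.det (Matrix.ext fun i j => rfl)
  rw [QQ, QQ, h1, h2, mul_div_mul_left _ _ hs]

end QpermA

theorem s_Qperm : S_Qperm := by
  classical
  intro ts ts' G h
  have hl := h.length_eq
  obtain ⟨n, f, rfl⟩ : ∃ (n : ℕ) (f : Fin n → ℂ), ts = List.ofFn f :=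
    ⟨_, ts.get, (List.ofFn_get ts).symm⟩
  obtain ⟨n', g, rfl⟩ : ∃ (n : ℕ) (f : Fin n → ℂ), ts' = List.ofFn f :=
    ⟨_, ts'.get, (List.ofFn_get ts').symm⟩
  simp only [List.length_ofFn] at hl
  subst hl
  obtain ⟨σ, rfl⟩ := QpermA.exists_perm f g h
  exact (QpermA.QQ_comp f σ G).symm

theorem s_Qleg : S_Qleg := by
  intro t y τ ts G h hy hs
  have hV : (ts.map fun s => UU s - UU t).prod ≠ 0 := by
    refine List.prod_ne_zero fun h0 => ?_
    obtain ⟨s, hs1, hs2⟩ := List.mem_map.1 h0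
    exact hs s hs1 (sub_eq_zero.1 hs2)
  have key : DD (t :: ts) ((X - C y) * G) = G.eval τ * (ts.map fun s => (τ - s) ^ 2).prod *
      ((ts.map fun s => UU s - UU t).prod * DD ts ((X - C t) * G)) := by
    let φ : Fin (ts.length + 1) → ℂ[X] →ₗ[ℂ] ℂ := fun i =>
      JvL (t :: ts)[i] ∘ₗ LinearMap.mulLeft ℂ
        ((X - C y) * G * (((t :: ts).eraseIdx i).map fun s => (X - C s) ^ 2).prod)
    have e1 : DD (t :: ts) ((X - C y) * G) =
        Matrix.det (Matrix.of fun i (j : Fin (ts.length + 1)) => φ i (X ^ (j : ℕ))) := rfl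
    have h0 : ∀ f, φ 0 f = (G.eval τ * (ts.map fun s => (τ - s) ^ 2).prod) * f.eval τ := fun f => by
      have e := h.Jv ((X - C y) * G * (ts.map fun s => (X - C s) ^ 2).prod * f)
      have e' : φ 0 f = Jv ((X - C y) * G * (ts.map fun s => (X - C s) ^ 2).prod * f) t := rfl
      have e3 : (ts.map fun s => (X - C s : ℂ[X]) ^ 2).prod.eval τ =
          (ts.map fun s => (τ - s) ^ 2).prod := by
        rw [eval_list_prod, List.map_map]
        congr 2
        ext s
        simp
      simp only [eval_mul, eval_sub, eval_X, eval_C, sub_self, zero_mul, e3] at e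
      rw [e']
      refine mul_right_cancel₀ (sub_ne_zero.2 hy) ?_
      rw [e]; ring
    rw [e1, det_newton φ _ τ h0]
    congr 1
    have e4 : (ts.map fun s => UU s - UU t).prod = ∏ i : Fin ts.length, (UU ts[i] - UU t) := by
      conv_lhs => rw [← List.ofFn_get ts, List.map_ofFn, List.prod_ofFn]
      rfl
    rw [e4, DD, ← Matrix.det_mul_column]
    congr 1
    ext i j
    simp only [Matrix.of_apply]
    rw [← Jv_cubic_mul, ← h.poly]
    have e5 : φ i.succ ((X - C τ) * X ^ (j : ℕ)) = Jv ((X - C y) * G *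
        ((X - C t) ^ 2 * ((ts.eraseIdx i).map fun s => (X - C s) ^ 2).prod) *
          ((X - C τ) * X ^ (j : ℕ))) ts[i] := rfl
    rw [e5]
    congr 1
    ring
  rw [QQ, QQ, key, VV, mul_div_assoc, mul_div_mul_left _ _ hV]

end Pool.Agent.P.MP_6c8efb_pr.Arm
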