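import Pool.Agent.P.MP_6c8efb_pr.Arm.Iface

/-! The connection event of the strip with a step implies the event on link patterns. -/

namespace Pool.Agent.P.MP_6c8efb_pr.Arm

namespace StepEvA

open Finset

/-- sum of the colours to the right of a vertex -/
def HI (L : ℕ) (fH : ℕ → ℕ → ZMod 2) (s t : ℕ) : ZMod 2 := ∑ u ∈ Ico s L, fH u t

theorem hi_succ {L s : ℕ} (fH : ℕ → ℕ → ZMod 2) (h : s < L) (t : ℕ) :
    HI L fH s t = fH s t + HI L fH (s + 1) t := sum_eq_sum_Ico_succ_bot h _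

theorem hi_end (L : ℕ) (fH : ℕ → ℕ → ZMod 2) (t : ℕ) : HI L fH L t = 0 := by simp [HI]

theorem two (x : ZMod 2) : x + x = 0 := CharTwo.add_self_eq_zero x

variable {L n : ℕ} {τ : TC} {fH fV : ℕ → ℕ → ZMod 2}

theorem hi_vert (c : Col L τ n fH fV) {t : ℕ} (ht : t < 2 * n) (d : ℕ) :
    ∀ s, s + d = L → HI L fH s t + HI L fH s (t + 1) = fV s t := by
  induction d with
  | zero =>
    intro s hs
    obtain rfl : s = L := hs
    rw [hi_end, hi_end, c.wall t ht, add_zero]
  | succ d ih =>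
    intro s hs
    have h1 : s < L := by omega
    have h2 := ih (s + 1) (by omega)
    rw [hi_succ fH h1, hi_succ fH h1]
    cases e : τ (s, t)
    · obtain ⟨e1, e2⟩ := c.ff s t h1 ht e
      linear_combination h2 - e1 + e2 + two (fV (s + 1) t)
    · obtain ⟨e1, e2⟩ := c.tt s t h1 ht e
      linear_combination h2 - e1 + e2 + two (fV (s + 1) t)

theorem hi_tt (c : Col L τ n fH fV) {s t : ℕ} (hs : s < L) (ht : t < 2 * n)
    (e : τ (s, t) = true) : HI L fH s t = HI L fH (s + 1) (t + 1) := by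
  have h := hi_vert c ht (L - (s + 1)) (s + 1) (by omega)
  rw [hi_succ fH hs, (c.tt s t hs ht e).2]
  linear_combination -h + two (HI L fH (s + 1) t)

theorem hi_ff (c : Col L τ n fH fV) {s t : ℕ} (hs : s < L) (ht : t < 2 * n)
    (e : τ (s, t) = false) : HI L fH (s + 1) t = HI L fH s (t + 1) := by
  have h := hi_vert c ht (L - (s + 1)) (s + 1) (by omega)
  rw [hi_succ fH hs (t + 1), (c.ff s t hs ht e).2]
  linear_combination h - two (HI L fH (s + 1) (t + 1))

theorem hi_zero (c : Col L τ n fH fV) : HI L fH 0 0 = 0 := by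
  have h1 : ∀ r, r ≤ n → HI L fH 0 0 = HI L fH 0 (2 * r) := by
    intro r
    induction r with
    | zero => exact fun _ => rfl
    | succ r ih =>
      intro hr
      have a1 := hi_vert c (t := 2 * r) (by omega) L 0 (by omega)
      have a2 := hi_vert c (t := 2 * r + 1) (by omega) L 0 (by omega)
      have a3 := c.cups r (by omega)
      rw [ih (by omega), show 2 * (r + 1) = 2 * r + 1 + 1 by ring]
      linear_combination a1 - a2 + a3
  rw [h1 n le_rfl]
  exact sum_eq_zero fun s hs => c.roof s (mem_Ico.1 hs).2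

/-- the function on the vertices of the whole strip -/
def II (k m : ℕ) (fH gH : ℕ → ℕ → ZMod 2) (x : ℤ × ℤ) : ZMod 2 :=
  if 0 ≤ x.2 then HI (k + m) fH x.1.toNat x.2.toNat else HI m gH (x.1 - k).toNat (-x.2).toNat

theorem ii_top (k m : ℕ) (fH gH : ℕ → ℕ → ZMod 2) (a b : ℕ) {s t : ℤ} (hs : s = a) (ht : t = b) :
    II k m fH gH (s, t) = HI (k + m) fH a b := by
  subst hs ht
  simp [II]

theorem ii_bot {k m : ℕ} {fH gH : ℕ → ℕ → ZMod 2} (h : ∀ j, j < m → fH (k + j) 0 = gH j 0)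
    (a b : ℕ) {s t : ℤ} (hs : s = k + a) (ht : t = -b) : II k m fH gH (s, t) = HI m gH a b := by
  subst hs ht
  rcases Nat.eq_zero_or_pos b with rfl | hb
  · rw [ii_top k m fH gH (k + a) 0 (by simp) (by simp), HI, HI, add_comm k a, add_comm k m,
      ← sum_Ico_add]
    exact sum_congr rfl fun j hj => h j (mem_Ico.1 hj).2
  · rw [II, if_neg (by simp; omega)]
    simp

theorem ii_link {k m : ℕ} {gH gV : ℕ → ℕ → ZMod 2} (c : Col (k + m) τ n fH fV)
    (c' : Col m (flipB k τ) n gH gV) (h : ∀ j, j < m → fH (k + j) 0 = gH j 0) {x y : ℤ × ℤ}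
    (l : link τ (DReg k m (2 * n)) x y) : II k m fH gH x = II k m fH gH y := by
  obtain ⟨s, t, ⟨h1, h2, h3, h4, h5⟩, e⟩ := link_iff.1 l
  dsimp only at h1 h2 h3 h4 h5
  have key : (τ (s, t) = true → II k m fH gH (s, t) = II k m fH gH (s + 1, t + 1)) ∧
      (τ (s, t) = false → II k m fH gH (s + 1, t) = II k m fH gH (s, t + 1)) := by
    rcases le_or_gt 0 t with ht | ht
    · obtain ⟨a, rfl⟩ := Int.eq_ofNat_of_zero_le h4
      obtain ⟨b, rfl⟩ := Int.eq_ofNat_of_zero_le ht
      rw [ii_top k m fH gH a b rfl rfl, ii_top k m fH gH (a + 1) (b + 1) (by simp) (by simp),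
        ii_top k m fH gH (a + 1) b (by simp) rfl, ii_top k m fH gH a (b + 1) rfl (by simp)]
      exact ⟨hi_tt c (by omega) (by omega), hi_ff c (by omega) (by omega)⟩
    · obtain ⟨a, ha⟩ := Int.eq_ofNat_of_zero_le (show 0 ≤ s - k by have := h5 ht; omega)
      obtain ⟨b, hb⟩ := Int.eq_ofNat_of_zero_le (show 0 ≤ -1 - t by omega)
      have e1 : flipB k τ (a, b) = !τ (s, t) := by
        rw [flipB]
        congr 3 <;> dsimp only <;> omega
      rw [ii_bot h a (b + 1) (by omega) (by omega), ii_bot h (a + 1) b (by omega) (by omega),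
        ii_bot h (a + 1) (b + 1) (by omega) (by omega), ii_bot h a b (by omega) (by omega)]
      exact ⟨fun e => (hi_ff c' (by omega) (by omega) (by rw [e1, e]; rfl)).symm,
        fun e => (hi_tt c' (by omega) (by omega) (by rw [e1, e]; rfl)).symm⟩
  rcases e with ⟨e, ⟨rfl, rfl⟩ | ⟨rfl, rfl⟩⟩ | ⟨e, ⟨rfl, rfl⟩ | ⟨rfl, rfl⟩⟩
  exacts [key.1 e, (key.1 e).symm, key.2 e, (key.2 e).symm]

end StepEvA

open StepEvA in
theorem s_StepEv (h : S_Col) : S_StepEv := by
  intro k m n τ hτ f g hf hg hfg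
  refine ⟨?_, fun i hi => absurd hi (Nat.not_lt_zero i)⟩
  obtain ⟨-, fH, fV, c, e⟩ := (h _ _ _ _).1 hf
  obtain ⟨-, gH, gV, c', e'⟩ := (h _ _ _ _).1 hg
  have glue : ∀ j, j < m → fH (k + j) 0 = gH j 0 := fun j hj => by
    rw [e _ (by omega), e' j hj, hfg j, zero_add]
  have z : ∀ i, i ≤ k → HI (k + m) fH i 0 = 0 := by
    intro i hi
    rcases Nat.eq_zero_or_pos i with rfl | h0
    · exact hi_zero c
    rw [← ii_top k m fH gH i 0 rfl rfl]
    rcases hi.eq_or_lt with rfl | hk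
    · rw [ii_bot glue 0 0 (by simp) (by simp)]
      exact hi_zero c'
    obtain ⟨⟨s, t⟩, hb, p⟩ := hτ i h0 hk
    have h1 : II k m fH gH (s, t) = II k m fH gH (i, 0) :=
      p.ind (P := fun x => II k m fH gH x = II k m fH gH (i, 0)) rfl
        fun x y _ l ih => (ii_link c c' glue l).symm.trans ih
    dsimp only at hb
    rw [Nat.cast_zero, ← h1, II]
    dsimp only
    split_ifs
    · rw [show s.toNat = k + m by omega, hi_end]
    · rw [show (s - k).toNat = m by omega, hi_end]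
  intro i hi
  have h1 := hi_succ fH (show i < k + m by omega) 0
  rw [z i hi.le, z (i + 1) hi, add_zero] at h1
  rw [← e i (by omega), ← h1]

end Pool.Agent.P.MP_6c8efb_pr.Arm
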