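import Pool.Agent.P.MP_6c8efb_pr.Arm.Iface

/-! The limit of long strips and the probability of the step event. -/

open Filter Topology

namespace Pool.Agent.P.MP_6c8efb_pr.Arm

namespace StepSA

theorem n1_nonneg (v : W) : 0 ≤ n1 v := Finset.sum_nonneg fun _ _ => norm_nonneg _

theorem n1_eq_sum {v : W} {s : Finset St} (h : v.support ⊆ s) : n1 v = ∑ p ∈ s, ‖v p‖ :=
  Finsupp.sum_of_support_subset v h _ (by simp)

theorem n1_smul (c : ℂ) (v : W) : n1 (c • v) = ‖c‖ * n1 v := by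
  rw [n1_eq_sum (Finsupp.support_smul (b := c) (g := v)), n1_eq_sum (v := v) subset_rfl,
    Finset.mul_sum]
  exact Finset.sum_congr rfl fun p _ => by simp

theorem norm_le_n1 (v : W) (p : St) : ‖v p‖ ≤ n1 v := by
  by_cases h : v p = 0
  · rw [h, norm_zero]; exact n1_nonneg v
  · rw [n1_eq_sum (v := v) subset_rfl]
    exact Finset.single_le_sum (f := fun p => ‖v p‖) (fun _ _ => norm_nonneg _)
      (Finsupp.mem_support_iff.2 h)

theorem nrm_rep (L : ℕ) : nrm (List.replicate L 1) = 4 ^ L := by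
  induction L with
  | zero => simp
  | succ L ih => rw [List.replicate_succ, nrm_cons, ih]; ring

theorem TB_apply (L : ℕ) (v : W) : TB L v = ((4 : ℂ) ^ L)⁻¹ • TM (List.replicate L 1) v := rfl

theorem four_ne (L : ℕ) : (4 : ℂ) ^ L ≠ 0 := pow_ne_zero _ (by norm_num)

theorem TB_sup (h2 : S_TM) {L : ℕ} {v : W} (hv : Sup L v) : Sup L (TB L v) := by
  have := h2.sup (List.replicate L 1) v (by simpa using hv)
  rw [List.length_replicate] at this
  exact this.smul _

theorem TB_tot (h2 : S_TM) (L : ℕ) (v : W) : tot (TB L v) = tot v := by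
  rw [TB_apply, map_smul, h2.tot, nrm_rep, smul_eq_mul, inv_mul_cancel_left₀ (four_ne L)]

theorem TB_contr (h1 : S_Contr) (L : ℕ) : ∃ θ : ℝ, 0 ≤ θ ∧ θ < 1 ∧
    ∀ v, Sup L v → tot v = 0 → n1 (TB L v) ≤ θ * n1 v := by
  obtain ⟨ε, θ, hε, h0, hθ, h⟩ := h1 L
  refine ⟨θ, h0, hθ, fun v hv ht => ?_⟩
  have := h (List.replicate L 1) (by simp) (fun x hx => by
    rw [List.eq_of_mem_replicate hx]; simpa using hε) v hv ht
  rw [nrm_rep] at this
  have hp : 0 < ‖(4 : ℂ) ^ L‖ := norm_pos_iff.2 (four_ne L)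
  rw [TB_apply, n1_smul, norm_inv, inv_mul_le_iff₀ hp]
  linarith

theorem pow_sup (h2 : S_TM) {L : ℕ} {v : W} (hv : Sup L v) (n : ℕ) : Sup L ((TB L ^ n) v) := by
  induction n with
  | zero => simpa using hv
  | succ n ih => rw [pow_succ', Module.End.mul_apply]; exact TB_sup h2 ih

theorem pow_tot (h2 : S_TM) (L : ℕ) (v : W) (n : ℕ) : tot ((TB L ^ n) v) = tot v := by
  induction n with
  | zero => simp
  | succ n ih => rw [pow_succ', Module.End.mul_apply, TB_tot h2, ih]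

theorem bd_o (L : ℕ) : Bd L o := fun _ _ => rfl

/-- convergence to the normalised invariant vector -/
theorem comp_lim (h1 : S_Contr) (h2 : S_TM) (h3 : S_Pref) {F : List ℂ → W} (hF : Sol F) (L : ℕ)
    (p : St) : Tendsto (fun n => (TB L ^ n) (Finsupp.single o 1) p) atTop
      (𝓝 (((tot (F (List.replicate L 1)))⁻¹ • F (List.replicate L 1)) p)) := by
  obtain ⟨θ, h0, hθ, h⟩ := TB_contr h1 L
  obtain ⟨hs, hf⟩ := hF.fix _ (nz_replicate L)
  rw [List.length_replicate] at hs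
  set v := F (List.replicate L 1) with hv
  have hfix : TB L v = v := by
    rw [TB_apply, hf, nrm_rep, smul_smul, inv_mul_cancel₀ (four_ne L), one_smul]
  have hz : tot v ≠ 0 := by
    intro e
    have a1 := h v hs e
    rw [hfix] at a1
    have a2 := norm_le_n1 v o
    rw [hv, hF.zero _ (nz_replicate L), h3.hom, ← hv] at a2
    have a3 : (0 : ℝ) < 3 ^ (L * (L - 1) / 2) := by positivity
    nlinarith
  set Ψ : W := (tot v)⁻¹ • v with hΨ
  have hΨs : Sup L Ψ := hs.smul _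
  have hΨt : tot Ψ = 1 := by rw [hΨ, map_smul, smul_eq_mul, inv_mul_cancel₀ hz]
  have hΨf : ∀ n, (TB L ^ n) Ψ = Ψ := by
    intro n
    induction n with
    | zero => simp
    | succ n ih => rw [pow_succ', Module.End.mul_apply, ih, hΨ, map_smul, hfix]
  set d : W := Finsupp.single o 1 - Ψ with hd
  have hds : Sup L d := (sup_single (bd_o L) 1).sub hΨs
  have hdt : tot d = 0 := by rw [hd, map_sub, hΨt, tot_single, sub_self]
  have hb : ∀ n, n1 ((TB L ^ n) d) ≤ θ ^ n * n1 d := by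
    intro n
    induction n with
    | zero => simp
    | succ n ih =>
      rw [pow_succ', Module.End.mul_apply]
      refine (h _ (pow_sup h2 hds n) (by rw [pow_tot h2, hdt])).trans ?_
      rw [pow_succ', mul_assoc]
      exact mul_le_mul_of_nonneg_left ih h0
  rw [tendsto_iff_norm_sub_tendsto_zero]
  have lim : Tendsto (fun n : ℕ => θ ^ n * n1 d) atTop (𝓝 0) := by
    simpa using (tendsto_pow_atTop_nhds_zero_of_lt_one h0 hθ).mul_const (n1 d)
  refine squeeze_zero (fun _ => norm_nonneg _) (fun n => ?_) lim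
  refine le_trans (le_of_eq ?_) ((norm_le_n1 _ p).trans (hb n))
  rw [hd, map_sub, hΨf, Finsupp.sub_apply]

theorem Bil_sum {L M : ℕ} {v w : W} (hv : Sup L v) (hw : Sup M w) (a b : ℕ) :
    Bil a b v w = ∑ p ∈ SL L, ∑ r ∈ SL M,
      v p * (w r * Bil a b (Finsupp.single p 1) (Finsupp.single r 1)) := by
  have e := hv.map_eq ((Bil a b).flip w)
  simp only [LinearMap.flip_apply] at e
  rw [e]
  refine Finset.sum_congr rfl fun p _ => ?_
  rw [hw.map_eq (Bil a b (Finsupp.single p 1)), Finset.mul_sum]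

/-- probability that no row of a finite family is a zigzag -/
theorem noAlt (a b : ℤ) (s : Finset ℤ) :
    Pt {τ | ∀ t ∈ s, ¬ Alt τ a b t} = (1 - (1 / 2) ^ (b - a).toNat) ^ s.card := by
  let J : ℤ → Finset (ℤ × ℤ) := fun t => Finset.Ico a b ×ˢ {t}
  let η : TC := fun c => decide (Even c.1)
  have e : {τ : TC | ∀ t ∈ s, ¬ Alt τ a b t} =
      {τ | ∀ t ∈ s, τ ∈ ({τ : TC | ∀ c ∈ J t, τ c = η c})ᶜ} := by
    ext τ
    refine forall₂_congr fun t _ => not_congr ⟨fun h c hc => ?_, fun h x h1 h2 => ?_⟩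
    · obtain ⟨x, y⟩ := c
      simp only [J, Finset.mem_product, Finset.mem_Ico, Finset.mem_singleton] at hc
      obtain ⟨⟨h1, h2⟩, rfl⟩ := hc
      exact h x h1 h2
    · exact h (x, t) (by simp [J, h1, h2])
  rw [e, Pt, Pr_forall_indep _ s (S := fun t => (J t : Set (ℤ × ℤ)))
    (fun t _ => (loc_cyl (J t) η).compl) (fun t _ => (dep_cyl (J t : Set (ℤ × ℤ)) η).compl)]
  · rw [← Finset.prod_const]
    refine Finset.prod_congr rfl fun t _ => ?_
    rw [Pr_compl _ (loc_cyl (J t) η)]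
    have := Pt_cyl (J t) η
    rw [Pt] at this
    rw [this]
    simp [J]
  · intro t _ t' _ h
    refine Set.disjoint_left.2 fun c h1 h2 => h ?_
    simp only [J, Finset.coe_product, Set.mem_prod, Finset.coe_singleton,
      Set.mem_singleton_iff] at h1 h2
    rw [← h1.2, h2.2]

theorem geo (N : ℕ) : Tendsto (fun n : ℕ => (1 - (1 / 2 : ℝ) ^ N) ^ (2 * n)) atTop (𝓝 0) := by
  have h1 : (0 : ℝ) < (1 / 2) ^ N := by positivity
  have h2 : (1 / 2 : ℝ) ^ N ≤ 1 := pow_le_one₀ (by norm_num) (by norm_num)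
  simp only [pow_mul]
  refine tendsto_pow_atTop_nhds_zero_of_lt_one (by positivity) ?_
  nlinarith

theorem stepE_mono (k m : ℕ) {h h' : ℕ} (hh : h ≤ h') : stepE k m h ⊆ stepE k m h' := by
  intro τ hτ i h1 h2
  obtain ⟨b, e, hb⟩ := hτ i h1 h2
  refine ⟨b, e, hb.mono_set fun c hc => ?_⟩
  simp only [DReg, Set.mem_ofPred_eq] at hc ⊢
  omega

end StepSA

open StepSA

theorem s_Lim (h1 : S_Contr) (h2 : S_TM) (h3 : S_Pref) : S_Lim := by
  intro F hF k m
  have s1 := (hF.fix _ (nz_replicate (k + m))).1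
  have s2 := (hF.fix _ (nz_replicate m)).1
  rw [List.length_replicate] at s1 s2
  have e : PP F k m = Bil k 0
      ((tot (F (List.replicate (k + m) 1)))⁻¹ • F (List.replicate (k + m) 1))
      ((tot (F (List.replicate m 1)))⁻¹ • F (List.replicate m 1)) := by
    unfold PP NN
    simp only [List.length_replicate, List.length_nil, List.map_replicate, inv_one,
      List.nil_append, List.replicate_append_replicate, map_smul, LinearMap.smul_apply,
      smul_eq_mul]
    ring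
  rw [e, Bil_sum (s1.smul _) (s2.smul _)]
  simp only [fun n => Bil_sum (pow_sup h2 (sup_single (bd_o (k + m)) 1) n)
    (pow_sup h2 (sup_single (bd_o m) 1) n) k 0]
  refine tendsto_finset_sum _ fun p _ => tendsto_finset_sum _ fun r _ => ?_
  exact (comp_lim h1 h2 h3 hF (k + m) p).mul ((comp_lim h1 h2 h3 hF m r).mul_const _)

theorem s_Step (h1 : S_StepEv) (h2 : S_EvStep) (h3 : S_Law) (h4 : S_Lim) : S_Step := by
  intro F hF k m hm
  have lim : Tendsto (fun n => Pt (EvN k m n)) atTop (𝓝 ‖PP F k m‖) := by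
    refine (h4 F hF k m).norm.congr fun n => ?_
    rw [← (h3 k m n).2, Complex.norm_real, Real.norm_of_nonneg (Pt_nonneg _)]
  refine ⟨fun h => ge_of_tendsto lim (eventually_atTop.2 ⟨h, fun n hn =>
    Pt_mono ((stepE_mono k m (by omega)).trans (h1 k m n))⟩), fun ε hε => ?_⟩
  have key : ∀ n : ℕ, Pt (EvN k m n) - (1 - (1 / 2 : ℝ) ^ (k + m)) ^ (2 * n) -
      (1 - (1 / 2 : ℝ) ^ m) ^ (2 * n) ≤ Pt (stepE k m (2 * n)) := by
    intro n
    have a1 := noAlt 0 (k + m) (Finset.Ico 0 (2 * n : ℤ))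
    have a2 := noAlt k (k + m) (Finset.Ico (-(2 * n : ℤ)) 0)
    have c1 : ((k : ℤ) + m - 0).toNat = k + m := by omega
    have c2 : ((k : ℤ) + m - k).toNat = m := by omega
    have c3 : (Finset.Ico 0 (2 * n : ℤ)).card = 2 * n := by rw [Int.card_Ico]; omega
    have c4 : (Finset.Ico (-(2 * n : ℤ)) 0).card = 2 * n := by rw [Int.card_Ico]; omega
    rw [c1, c3] at a1
    rw [c2, c4] at a2
    have sub : EvN k m n ⊆ (stepE k m (2 * n) ∪
        {τ | ∀ t ∈ Finset.Ico 0 (2 * n : ℤ), ¬ Alt τ 0 (k + m) t}) ∪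
        {τ | ∀ t ∈ Finset.Ico (-(2 * n : ℤ)) 0, ¬ Alt τ k (k + m) t} := by
      intro τ hτ
      by_contra hc
      simp only [Set.mem_union, Set.mem_ofPred_eq, not_or, not_forall, not_not,
        Finset.mem_Ico] at hc
      obtain ⟨⟨b1, t, ht, b2⟩, t', ht', b3⟩ := hc
      exact b1 (h2 k m n τ hτ ⟨t, ht.1, ht.2, b2⟩ ⟨t', ht'.1, ht'.2, b3⟩ hm)
    have a3 := Pt_mono sub
    have a4 := Pr_union_le (fun _ : ℤ × ℤ => hf) (stepE k m (2 * n) ∪
        {τ | ∀ t ∈ Finset.Ico 0 (2 * n : ℤ), ¬ Alt τ 0 (k + m) t})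
        {τ | ∀ t ∈ Finset.Ico (-(2 * n : ℤ)) 0, ¬ Alt τ k (k + m) t}
    have a5 := Pr_union_le (fun _ : ℤ × ℤ => hf) (stepE k m (2 * n))
        {τ | ∀ t ∈ Finset.Ico 0 (2 * n : ℤ), ¬ Alt τ 0 (k + m) t}
    unfold Pt at a1 a2 a3 ⊢
    linarith
  have lim2 := (lim.sub (geo (k + m))).sub (geo m)
  rw [sub_zero, sub_zero] at lim2
  obtain ⟨n, hn⟩ := (lim2.eventually (lt_mem_nhds (sub_lt_self ‖PP F k m‖ hε))).exists
  exact ⟨2 * n, hn.le.trans (key n)⟩

end Pool.Agent.P.MP_6c8efb_pr.Arm
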