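import Pool.Agent.P.MP_6c8efb_pr.Arm.Iface

/-! Vertical crossings of a long strip are exponentially unlikely. -/

namespace Pool.Agent.P.MP_6c8efb_pr.Arm

namespace VertA

def B (n t : ℤ) : Set (ℤ × ℤ) := {c | 0 ≤ c.1 ∧ c.1 < n ∧ t ≤ c.2 ∧ c.2 < t + n}

def V (n e t : ℤ) : Set TC :=
  {τ | ∃ a b : ℤ × ℤ, (a.2 = t ∧ b.2 = t + n ∧ (a.1 + a.2 + e) % 2 = 0) ∧ TConn τ (B n t) a b}

def H (n e t : ℤ) : Set TC :=
  {τ | ∃ a b : ℤ × ℤ, (a.1 = 0 ∧ b.1 = n ∧ (a.1 + a.2 + e) % 2 = 0) ∧ TConn τ (B n t) a b}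

theorem dep_V (n e t : ℤ) : Dep (V n e t) (B n t) := dep_tconn _ _
theorem loc_V (n e t : ℤ) : Loc (V n e t) := (dep_V n e t).loc (rect_finite _ _ _ _)
theorem loc_H (n e t : ℤ) : Loc (H n e t) := (dep_tconn _ _).loc (rect_finite _ _ _ _)

theorem in_box {τ : TC} {n t : ℤ} {a b : ℤ × ℤ} (h : TConn τ (B n t) a b) (hab : b ≠ a) :
    0 ≤ b.1 ∧ b.1 ≤ n ∧ t ≤ b.2 ∧ b.2 ≤ t + n := by
  have := h.ind (P := fun x => x = a ∨ (0 ≤ x.1 ∧ x.1 ≤ n ∧ t ≤ x.2 ∧ x.2 ≤ t + n)) (Or.inl rfl)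
    (fun x y _ h2 _ => Or.inr (by
      obtain ⟨s, u, hc, ⟨-, e⟩ | ⟨-, e⟩⟩ := link_iff.1 h2 <;>
        simp only [B, Set.mem_ofPred_eq] at hc <;>
        rcases e with ⟨rfl, rfl⟩ | ⟨rfl, rfl⟩ <;> simp only [] <;> omega))
  exact this.resolve_left hab

theorem ind_pos {P : Prop} [Decidable P] (h : P) : ind P = 1 := if_pos h
theorem ind_neg {P : Prop} [Decidable P] (h : ¬ P) : ind P = 0 := if_neg h
theorem ind_congr {P Q : Prop} [Decidable P] [Decidable Q] (h : P ↔ Q) : ind P = ind Q :=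
  if_congr h rfl rfl

theorem disj (hC : S_Cross) {n : ℤ} (hn : 0 < n) (e t : ℤ) : V n e t ⊆ (H n (e + 1) t)ᶜ := by
  rintro τ ⟨a, b, ⟨a1, a2, a3⟩, hab⟩ ⟨p, r, ⟨p1, p2, p3⟩, hpr⟩
  obtain ⟨J, hJ⟩ := hC τ _ a b hab
  have hb := in_box hab (fun h => by rw [h] at a2; omega)
  have hp := in_box hpr.symm' (fun h => by rw [h] at p1; omega)
  have hpar := hab.even
  rw [Int.even_iff] at hpar
  have key : ∀ c ∈ B n t, ((ends τ c).1.1 + (ends τ c).1.2 + e + 1) % 2 = 0 →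
      J (ends τ c).1 + ind ((ends τ c).1.2 = t + n ∧ (ends τ c).1.1 < b.1) =
        J (ends τ c).2 + ind ((ends τ c).2.2 = t + n ∧ (ends τ c).2.1 < b.1) := by
    intro c hc hcol
    have h1 := hJ.step c (by rw [Int.odd_iff]; omega)
    simp only [B, Set.mem_ofPred_eq] at hc
    rw [ind_neg (P := a.2 = c.2 + 1 ∧ c.1 < a.1) (by omega)] at h1
    have h2 : ind ((ends τ c).1.2 = t + n ∧ (ends τ c).1.1 < b.1) = 0 := ind_neg (by
      unfold ends; split_ifs <;> simp only [] <;> omega)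
    have h3 : ind ((ends τ c).2.2 = t + n ∧ (ends τ c).2.1 < b.1) =
        ind (b.2 = c.2 + 1 ∧ c.1 < b.1) := ind_congr (by
      revert hcol
      unfold ends; split_ifs <;> simp only [] <;> omega)
    rw [h2, h3]
    have z : ∀ x y u : ZMod 2, x + y = 0 + u → x + 0 = y + u := by decide
    exact z _ _ _ h1
  have h1 := hpr.ind (P := fun z => J z + ind (z.2 = t + n ∧ z.1 < b.1) = 1) (by
    have := hJ.left p.1 p.2 (fun c hc _ => p1 ▸ hc.1)
    rw [Prod.mk.eta] at this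
    rw [this, ind_pos (P := a.2 ≤ p.2) (by omega)]
    by_cases h : p.2 = t + n
    · rw [ind_pos (P := b.2 ≤ p.2) (by omega), ind_pos (by omega)]; decide
    · rw [ind_neg (P := b.2 ≤ p.2) (by omega), ind_neg (by omega)]; decide) (by
    rintro x y hx ⟨c, hc, hl⟩ ih
    have hx' := hx.even
    rw [Int.even_iff] at hx'
    rcases hl with hl | hl
    · have := key c hc (by rw [hl]; simp only []; omega)
      rw [hl] at this
      exact this ▸ ih
    · have h4 := (link.conn (τ := τ) ⟨c, hc, Or.inl hl⟩).even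
      rw [Int.even_iff] at h4
      have := key c hc (by rw [hl]; simp only []; omega)
      rw [hl] at this
      exact this.trans ih)
  have h2 := hJ.right r.1 r.2 (fun c hc _ => p2 ▸ hc.2.1)
  rw [Prod.mk.eta] at h2
  rw [h2, ind_neg (by omega)] at h1
  exact absurd h1 (by decide)

theorem rot {n : ℤ} (hn : n % 2 = 1) (e t : ℤ) : Pt (V n e t) ≤ Pt (H n (e + 1) t) := by
  have hφ : Function.Injective fun c : ℤ × ℤ => (t + n - 1 - c.2, c.1 + t) := by
    intro c d h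
    simp only [Prod.mk.injEq] at h
    exact Prod.ext (by omega) (by omega)
  rw [← Pt_comp_not hφ (loc_H n (e + 1) t)]
  refine Pt_mono ?_
  rintro τ ⟨a, b, ⟨a1, a2, a3⟩, hab⟩
  refine ⟨_, _, ?_, hab.map (fun z => (z.2 - t, t + n - z.1)) (fun c => (c.2 - t, t + n - 1 - c.1))
    (fun c hc => ?_) (fun c _ => ?_)⟩
  · simp only []; omega
  · simp only [B, Set.mem_ofPred_eq] at hc ⊢; omega
  · have e1 : (t + n - 1 - (t + n - 1 - c.1), c.2 - t + t) = c := Prod.ext (by simp) (by simp)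
    simp only [ends, e1]
    cases τ c
    · left; simp [Prod.ext_iff]; omega
    · right; simp [Prod.ext_iff]; omega

theorem half (hC : S_Cross) {n : ℤ} (hn : 0 < n) (hn2 : n % 2 = 1) (e t : ℤ) :
    Pt (V n e t) ≤ 1 / 2 := by
  have h1 := Pt_mono (disj hC hn e t)
  have h2 : Pt (H n (e + 1) t)ᶜ = 1 - Pt (H n (e + 1) t) := Pr_compl _ (loc_H n (e + 1) t)
  have h3 := rot hn2 e t
  linarith

theorem sub {τ : TC} {S : Set (ℤ × ℤ)} {a b : ℤ × ℤ} (h : TConn τ S a b) {n e u : ℤ} (hn : 0 < n)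
    (hS : ∀ c ∈ S, 0 ≤ c.1 ∧ c.1 < n) (ha : a.2 ≤ u) (hb : u + n ≤ b.2)
    (he : (a.1 + a.2 + e) % 2 = 0) : τ ∈ V n e u := by
  obtain ⟨x, y, hx, hy, h1, h2⟩ := h.exit (A := {z | z.2 < u + n})
    (S' := {c | 0 ≤ c.1 ∧ c.1 < n ∧ c.2 < u + n})
    (by simp only [Set.mem_ofPred_eq]; omega) (by simp only [Set.mem_ofPred_eq]; omega)
    (fun c hc e => by
      have := hS c hc
      simp only [ends, Set.mem_ofPred_eq] at e ⊢
      split_ifs at e <;> simp only [] at e <;> omega)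
  have h3 := h2.abs.2
  rw [abs_eq (by norm_num)] at h3
  simp only [Set.mem_ofPred_eq] at hx hy
  have h4 := h1.snoc h2
  obtain ⟨x', y', hx', hy', h5, h6⟩ := h4.symm'.exit (A := {z | u < z.2}) (S' := B n u)
    (by simp only [Set.mem_ofPred_eq]; omega) (by simp only [Set.mem_ofPred_eq]; omega)
    (fun c hc e => by
      simp only [B, ends, Set.mem_ofPred_eq] at hc e ⊢
      split_ifs at e <;> simp only [] at e <;> omega)
  have h7 := h6.abs.2
  rw [abs_eq (by norm_num)] at h7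
  simp only [Set.mem_ofPred_eq] at hx' hy'
  have h8 := h5.snoc h6
  have e1 := h4.even
  have e2 := h8.even
  rw [Int.even_iff] at e1 e2
  exact ⟨y', y, ⟨by omega, by omega, by omega⟩, h8.symm'⟩

theorem blocks (hC : S_Cross) {n : ℤ} (hn : 0 < n) (hn2 : n % 2 = 1) (e t : ℤ) (N : ℕ) :
    Pt {τ | ∀ r ∈ Finset.range N, τ ∈ V n e (t + r * n)} ≤ (1 / 2) ^ N := by
  rw [Pt, Pr_forall_indep _ (Finset.range N) (A := fun r : ℕ => V n e (t + r * n))
    (S := fun r : ℕ => B n (t + r * n)) (fun r _ => loc_V _ _ _) (fun r _ => dep_V _ _ _) ?_]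
  · calc _ ≤ ∏ _r ∈ Finset.range N, (1 / 2 : ℝ) :=
          Finset.prod_le_prod (fun r _ => Pr_nonneg _ _) fun r _ => half hC hn hn2 _ _
      _ = _ := by simp
  · intro r _ s _ hrs
    refine Set.disjoint_left.2 fun c h1 h2 => ?_
    simp only [B, Set.mem_ofPred_eq] at h1 h2
    rcases lt_or_gt_of_ne hrs with h | h
    · have : ((r : ℤ) + 1) * n ≤ s * n :=
        mul_le_mul_of_nonneg_right (by exact_mod_cast h) hn.le
      nlinarith
    · have : ((s : ℤ) + 1) * n ≤ r * n :=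
        mul_le_mul_of_nonneg_right (by exact_mod_cast h) hn.le
      nlinarith

end VertA

open VertA in
theorem s_Vert (h : S_Cross) : S_Vert := by
  intro w t h' N hN
  obtain ⟨n, hn0, hn1, hn2, hn3⟩ : ∃ n : ℤ, 0 < n ∧ n % 2 = 1 ∧ (w : ℤ) ≤ n ∧ n ≤ w + 1 :=
    ⟨2 * (w / 2) + 1, by omega, by omega, by omega, by omega⟩
  have hsub : vert w t h' ⊆ {τ | ∀ r ∈ Finset.range N, τ ∈ VertA.V n 0 (t + r * n)} ∪
      {τ | ∀ r ∈ Finset.range N, τ ∈ VertA.V n 1 (t + r * n)} := by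
    rintro τ ⟨a, b, a1, a2, hab⟩
    have key : ∀ e : ℤ, (a.1 + a.2 + e) % 2 = 0 → ∀ r ∈ Finset.range N, τ ∈ VertA.V n e (t + r * n) := by
      intro e he r hr
      have h1 : (r : ℤ) + 1 ≤ N := by exact_mod_cast Finset.mem_range.1 hr
      have h2 : (N : ℤ) * (w + 1) ≤ h' := by exact_mod_cast hN
      have h3 : (0 : ℤ) ≤ r * n := by positivity
      have h4 : ((r : ℤ) + 1) * n ≤ N * (w + 1) := mul_le_mul h1 hn3 hn0.le (by positivity)
      refine sub hab hn0 (fun c hc => ⟨hc.1, hc.2.1.trans_le hn2⟩) (by omega) ?_ he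
      rw [a2]; nlinarith
    rcases Int.emod_two_eq_zero_or_one (a.1 + a.2) with h0 | h0
    · exact Or.inl (key 0 (by omega))
    · exact Or.inr (key 1 (by omega))
  have h1 := (Pt_mono hsub).trans (Pr_union_le _ _ _)
  have h2 := blocks h hn0 hn1 0 t N
  have h3 := blocks h hn0 hn1 1 t N
  unfold Pt at h2 h3
  linarith

end Pool.Agent.P.MP_6c8efb_pr.Arm
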