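import Pool.Agent.P.MP_6c8efb_pr.Arm.Iface

/-! The Yang-Baxter relation and its consequences for the transfer matrix. -/

namespace Pool.Agent.P.MP_6c8efb_pr.Arm

namespace YbeA

theorem E_E (i : ℕ) : Ee i * Ee i = Ee i := (lm_mul _ _).trans (lm_congr (ee_ee i))

theorem braid (i : ℕ) : Ee i * (Ee (i + 1) * Ee i) = Ee i := by
  rw [Ee, Ee, lm_mul, lm_mul]; exact lm_congr (ee_braid i)

theorem braid' (i : ℕ) : Ee (i + 1) * (Ee i * Ee (i + 1)) = Ee (i + 1) := by
  rw [Ee, Ee, lm_mul, lm_mul]; exact lm_congr (ee_braid' i)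

theorem E_comm {i j : ℕ} (h : i + 2 ≤ j) : Ee i * Ee j = Ee j * Ee i := by
  rw [Ee, Ee, lm_mul, lm_mul]; exact lm_congr (ee_comm h)

theorem E_Cup_far {i j : ℕ} (h : i ≤ j) : Ee (j + 2) * Cup i = Cup i * Ee j := by
  rw [Ee, Ee, Cup, lm_mul, lm_mul]; exact lm_congr (ee_cup_far h)

theorem E_Cup_far' {i j : ℕ} (h : i + 2 ≤ j) : Ee i * Cup j = Cup j * Ee i := by
  rw [Ee, Cup, lm_mul, lm_mul]; exact lm_congr (ee_cup_far' h)

theorem E_Cap_far {i j : ℕ} (h : i + 2 ≤ j) : Ee i * Cap j = Cap j * Ee i := by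
  rw [Ee, Cap, lm_mul, lm_mul]; exact lm_congr fun p => (cap_ee_far' h p).symm

theorem E_Cup (i : ℕ) : Ee i * Cup i = Cup i := (lm_mul _ _).trans (lm_congr (ee_cup i))

theorem E_succ_Cup (i : ℕ) : Ee (i + 1) * Cup i = Cup (i + 1) :=
  (lm_mul _ _).trans (lm_congr (ee_succ_cup i))

theorem E_Cup_succ (i : ℕ) : Ee i * Cup (i + 1) = Cup i :=
  (lm_mul _ _).trans (lm_congr (ee_cup_succ i))

theorem Cap_Cup_far {i j : ℕ} (h : i ≤ j) : Cap (j + 2) * Cup i = Cup i * Cap j := by
  rw [Cap, Cap, Cup, lm_mul, lm_mul]; exact lm_congr (cap_cup_far h)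

theorem Cup_Cup (i : ℕ) : Cup 0 * Cup i = Cup (i + 2) * Cup 0 := by
  rw [Cup, Cup, Cup, lm_mul, lm_mul]; exact lm_congr fun p => (cup_cup (Nat.zero_le i) p).symm

/-- moving an operator through a product -/
theorem pass {A B C X X' Y Y' : Module.End ℂ W} (h1 : A * X = X' * B) (h2 : B * Y = Y' * C) :
    A * (X * Y) = X' * Y' * C := by
  rw [← mul_assoc, h1, mul_assoc, h2, mul_assoc]

theorem lin {A E E' : Module.End ℂ W} (h : E * A = A * E') (a b : ℂ) :
    (a • 1 + b • E) * A = A * (a • 1 + b • E') := by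
  simp only [add_mul, mul_add, smul_mul_assoc, mul_smul_comm, one_mul, mul_one, h]

theorem row_itw (A : Module.End ℂ W) (d : ℕ) (l : List ℂ) :
    ∀ a, (∀ n, n < l.length → Ee (a + n + d) * A = A * Ee (a + n)) →
      row (a + d) l * A = A * row a l := by
  induction l with
  | nil => intro a _; simp [row]
  | cons x l ih =>
    intro a h
    have h1 : R (a + d) x * A = A * R a x := lin (h 0 (by simp)) _ _
    have h2 := ih (a + 1) fun n hn => by
      have := h (n + 1) (by simpa using hn)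
      rwa [show a + (n + 1) = a + 1 + n by omega] at this
    rw [row, row, show a + d + 1 = a + 1 + d by omega]
    exact (pass h2.symm h1.symm).symm

theorem row_comm (A : Module.End ℂ W) (l : List ℂ) (a : ℕ)
    (h : ∀ n, n < l.length → Ee (a + n) * A = A * Ee (a + n)) : row a l * A = A * row a l :=
  row_itw A 0 l a h

theorem ybe (i : ℕ) (x y : ℂ) :
    Rc i x y * (R (i + 1) y * R i x) = R (i + 1) x * R i y * Rc (i + 1) x y := by
  simp only [Rc, R, mul_add, add_mul, smul_mul_assoc, mul_smul_comm, smul_smul, mul_assoc, one_mul,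
    mul_one, E_E, braid, braid', smul_add, ah, ac]
  match_scalars
  all_goals (have hq := q_eq; grind)

theorem Rc_row (a : ℕ) (l₁ : List ℂ) (x y : ℂ) (l₂ : List ℂ) :
    Rc (a + l₁.length) x y * row a (l₁ ++ x :: y :: l₂) =
      row a (l₁ ++ y :: x :: l₂) * Rc (a + l₁.length + 1) x y := by
  rw [row_append, row_append, row, row, row, row, mul_assoc (row _ l₂) (R _ y),
    mul_assoc (row _ l₂) (R _ x)]
  refine pass (pass (B := Rc (a + l₁.length) x y) ?_ (ybe _ x y)) ?_
  · exact (row_comm _ _ _ fun n _ => (lin (E_comm (by omega)) _ _).symm).symm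
  · exact (row_comm _ _ _ fun n hn => (lin (E_comm (by omega)).symm _ _).symm).symm

theorem loc_arc (j : ℕ) (y : ℂ) :
    R (j + 1) y * R j (q * y) * Cup (j + 1) = ((1 + q * y) * (1 + y)) • Cup j := by
  simp only [R, mul_add, add_mul, smul_mul_assoc, mul_smul_comm, smul_smul, mul_assoc, one_mul,
    E_Cup, E_succ_Cup, E_Cup_succ, smul_add, ah, ac]
  match_scalars
  all_goals (have hq := q_eq; grind)

theorem row_arc (a : ℕ) (l₁ : List ℂ) (y : ℂ) (l₂ : List ℂ) :
    row a (l₁ ++ q * y :: y :: l₂) * Cup (a + l₁.length + 1) =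
      ((1 + q * y) * (1 + y)) • (Cup (a + l₁.length) * row a (l₁ ++ l₂)) := by
  have h1 : row a l₁ * Cup (a + l₁.length + 1) = Cup (a + l₁.length + 1) * row a l₁ :=
    row_comm _ _ _ fun n hn => E_Cup_far' (by omega)
  have h2 : row (a + l₁.length + 2) l₂ * Cup (a + l₁.length) =
      Cup (a + l₁.length) * row (a + l₁.length) l₂ :=
    row_itw _ 2 _ _ fun n _ => E_Cup_far (by omega)
  rw [row_append, row_append, row, row, mul_assoc, h1, ← mul_assoc, mul_assoc (row _ l₂),
    mul_assoc (row _ l₂), loc_arc, mul_smul_comm, h2, smul_mul_assoc, mul_assoc]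

theorem loc_left {x : ℂ} (hx : x ≠ 0) :
    x ^ 2 • (R 0 x⁻¹ * (R 1 x⁻¹ * Cup 0)) = R 0 x * (R 1 x * Cup 0) := by
  have h1 := E_succ_Cup 0
  have h2 := E_Cup_succ 0
  rw [zero_add] at h1 h2
  simp only [R, mul_add, add_mul, smul_mul_assoc, mul_smul_comm, smul_smul, one_mul,
    E_Cup, h1, h2, smul_add, ah, ac]
  have hz : x * x⁻¹ = 1 := mul_inv_cancel₀ hx
  generalize x⁻¹ = z at hz ⊢
  match_scalars
  all_goals (have hq := q_eq; grind)

theorem TM_cons (x : ℂ) (l : List ℂ) : TM (x :: l) =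
    Cap (l.length + 1) * Cap (l.length + 1 + 1) * row 1 l * row 2 l * (R 0 x * (R 1 x * Cup 0)) := by
  have h : row 2 l * R 0 x = R 0 x * row 2 l :=
    row_comm _ _ _ fun n _ => (lin (E_comm (by omega)) _ _).symm
  simp only [TM, row, List.length_cons, zero_add, mul_assoc, one_add_one_eq_two]
  rw [← mul_assoc (R 0 x), ← h, mul_assoc]

end YbeA

open YbeA in
theorem s_Ybe : S_Ybe := by
  refine ⟨fun l₁ x y l₂ => ?_, fun i x y => ?_, fun x l hx => ?_, fun l₁ y l₂ => ?_⟩
  · have h0 := Rc_row 0 l₁ x y l₂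
    have h1 := Rc_row 1 l₁ x y l₂
    rw [zero_add] at h0
    rw [add_comm 1] at h1
    have e : (l₁ ++ y :: x :: l₂).length = (l₁ ++ x :: y :: l₂).length := by simp
    have hL : l₁.length + 2 ≤ (l₁ ++ x :: y :: l₂).length := by simp
    rw [TM, TM, e]
    exact pass (pass (pass (pass (lin (E_Cap_far hL) _ _) (lin (E_Cap_far (by omega)) _ _)) h0) h1)
      (lin (E_Cup_far (Nat.zero_le _)) _ _)
  · simp only [Rc, mul_add, add_mul, smul_mul_assoc, mul_smul_comm, smul_smul, one_mul,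
      mul_one, E_E, smul_add]
    match_scalars
    all_goals (have hq := q_eq; grind)
  · rw [TM_cons, TM_cons, ← mul_smul_comm, loc_left hx]
  · have h0 := row_arc 0 l₁ y l₂
    have h1 := row_arc 1 l₁ y l₂
    rw [zero_add] at h0
    rw [add_comm 1] at h1
    have e : (l₁ ++ q * y :: y :: l₂).length = (l₁ ++ l₂).length + 2 := by simp; omega
    have hL : l₁.length ≤ (l₁ ++ l₂).length := by simp
    have h2 := Cap_Cup_far hL
    have h3 := Cap_Cup_far (hL.trans (Nat.le_succ _))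
    rw [TM, TM, e, mul_assoc _ (Cup 0), Cup_Cup, ← mul_assoc, mul_assoc _ (row 1 _), h1,
      mul_smul_comm, ← mul_assoc, mul_assoc _ (row 0 _), h0, mul_smul_comm, ← mul_assoc,
      mul_assoc (Cap _), h3, ← mul_assoc, h2]
    simp only [smul_mul_assoc, smul_smul, mul_assoc, pow_two]

end Pool.Agent.P.MP_6c8efb_pr.Arm
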