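import Pool.Agent.P.MP_6c8efb_pr.Arm.Iface

/-! Symmetry of the sum of the components and the recursion at the wall. -/

open Polynomial Filter Topology

namespace Pool.Agent.P.MP_6c8efb_pr.Arm

namespace ZwA

theorem tot_Rc (i : ℕ) (x y : ℂ) (v : W) : tot (Rc i x y v) = (q ^ 2 * x - y) * tot v := by
  simp only [Rc, LinearMap.add_apply, LinearMap.smul_apply, Module.End.one_apply, map_add,
    map_smul, Ee, tot_lm, smul_eq_mul]
  linear_combination ((y - x) * tot v) * q_eq

theorem swap {F : List ℂ → W} (hF : Sol F) (l₁ : List ℂ) (x y : ℂ) (l₂ : List ℂ)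
    (hz : Nz (l₁ ++ x :: y :: l₂)) :
    tot (F (l₁ ++ y :: x :: l₂)) = tot (F (l₁ ++ x :: y :: l₂)) := by
  rw [nz_append, nz_cons, nz_cons] at hz
  obtain ⟨h1, hx, hy, h2⟩ := hz
  have a : LP1 fun t => tot (F (l₁ ++ y :: t :: l₂)) :=
    (hF.lpd tot (l₁ := l₁ ++ [y]) (l₂ := l₂) (by simp [h1, hy]) h2).lp1.congr fun t _ => by simp
  have b : LP1 fun t => tot (F (l₁ ++ t :: y :: l₂)) :=
    (hF.lpd tot (l₁ := l₁) (l₂ := y :: l₂) h1 (by simp [h2, hy])).lp1
  refine sub_eq_zero.1 ((a.sub b).eq_zero' (Set.finite_singleton (q * y)) (fun t ht h0 => ?_) hx)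
  have e := congrArg tot (hF.exch l₁ t y l₂ (by simp [h1, h0, hy, h2]))
  rw [tot_Rc, map_smul, smul_eq_mul] at e
  have hne : q ^ 2 * t - y ≠ 0 := fun h => ht (by
    show t = q * y
    linear_combination q * h + (-t) * q_cube)
  exact sub_eq_zero.2 (mul_left_cancel₀ hne e)

theorem perm {F : List ℂ → W} (hF : Sol F) {l l' : List ℂ} (h : l.Perm l') :
    ∀ u, Nz (u ++ l) → tot (F (u ++ l)) = tot (F (u ++ l')) := by
  induction h with
  | nil => exact fun _ _ => rfl
  | cons x _ ih =>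
    intro u hu
    have := ih (u ++ [x]) (by simpa using hu)
    simpa using this
  | swap x y l => exact fun u hu => (swap hF u y x l hu).symm
  | trans h1 _ ih1 ih2 =>
    exact fun u hu => (ih1 u hu).trans (ih2 u (hu.perm (h1.append_left u)))

theorem near_inf {ε : ℝ} (h : 0 < ε) : {x : ℂ | Near ε x}.Infinite := by
  refine infinite_of_mem_nhds (1 : ℂ) ?_
  have a1 : ∀ᶠ x : ℂ in 𝓝 1, x ≠ 0 := eventually_ne_nhds one_ne_zero
  have a2 : ∀ᶠ x : ℂ in 𝓝 1, ‖x - 1‖ < ε := by
    have : ContinuousAt (fun x : ℂ => ‖x - 1‖) 1 := by fun_prop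
    exact this.eventually (gt_mem_nhds (by simpa using h))
  have a3 : ∀ᶠ x : ℂ in 𝓝 1, ‖x⁻¹ - 1‖ < ε := by
    have : ContinuousAt (fun x : ℂ => ‖x⁻¹ - 1‖) 1 :=
      ((continuousAt_inv₀ one_ne_zero).sub continuousAt_const).norm
    exact this.eventually (gt_mem_nhds (by simpa using h))
  exact (a1.and (a2.and a3))

theorem nz_wall {l : List ℂ} (h : Nz l) : Nz (l ++ [-q ^ 2]) :=
  nz_append.2 ⟨h, nz_cons.2 ⟨neg_ne_zero.2 (pow_ne_zero _ q_ne_zero), nz_nil⟩⟩

theorem wall_sup {F : List ℂ → W} (hF : Sol F) {l : List ℂ} (h : Nz l) :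
    Sup l.length (F (l ++ [-q ^ 2])) := by
  have e := hF.right l (-q ^ 2) (nz_wall h)
  have e1 : 1 + q * -q ^ 2 = 0 := by linear_combination (-1 : ℂ) * q_cube
  have e2 : (1 - q) * (1 - -q ^ 2) = -(-q ^ 2 + q) := by linear_combination (-1 : ℂ) * q_cube
  rw [e1, zero_smul, Kc, e2, LinearMap.add_apply, LinearMap.smul_apply, LinearMap.smul_apply,
    Module.End.one_apply, neg_smul, ← sub_eq_add_neg, ← smul_sub] at e
  have hne : -q ^ 2 + q ≠ 0 := fun h => q_sq_ne (by linear_combination -h)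
  have e3 := sub_eq_zero.1 ((smul_eq_zero.1 e.symm).resolve_left hne)
  have s := (hF.fix _ (nz_wall h)).1
  rw [List.length_append, List.length_singleton] at s
  rw [e3]
  exact s.lm fun p hp => hp.cap_last

theorem wall_fix (h2 : S_Bdy) {F : List ℂ → W} (hF : Sol F) {l : List ℂ} (h : Nz l) :
    Fix l (F (l ++ [-q ^ 2])) := by
  refine ⟨wall_sup hF h, ?_⟩
  have e := (hF.fix _ (nz_wall h)).2
  rw [h2.wall l _ (wall_sup hF h), nrm_append, nrm_cons, nrm_nil, mul_one, mul_comm, mul_smul,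
    ← sub_eq_add_neg] at e
  have hne : (1 - q ^ 2) ^ 2 ≠ 0 := pow_ne_zero _ fun h => q_ne_one (by
    linear_combination q * h + q_cube)
  exact smul_right_injective W hne e

theorem T_wall : T (q * -q ^ 2) = -2 := by
  have : q * -q ^ 2 = -1 := by linear_combination (-1 : ℂ) * q_cube
  rw [this, T]; norm_num

theorem near (h2 : S_Bdy) (h4 : S_Pref) {F : List ℂ → W} (hF : Sol F) {l : List ℂ}
    (hn : ∀ x ∈ l, Near (1 / 10) x) (hu : ∀ v, Fix l v → tot v = 0 → v = 0) :
    F (l ++ [-q ^ 2]) = (l.map fun x => -2 - T x).prod • F l := by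
  have hz : Nz l := fun x hx => (hn x hx).1
  have hP := h4.ne l hn
  have hfix := hF.fix l hz
  have hw := wall_fix h2 hF hz
  have hZ : tot (F l) ≠ 0 := fun e => hP (by
    rw [← hF.zero _ hz, hu _ hfix e]; rfl)
  have key : tot (F l) • F (l ++ [-q ^ 2]) = tot (F (l ++ [-q ^ 2])) • F l := by
    refine sub_eq_zero.1 (hu _ ⟨(hw.1.smul _).sub (hfix.1.smul _), ?_⟩ ?_)
    · rw [map_sub, map_smul, map_smul, hw.2, hfix.2, smul_sub, smul_comm (nrm l), smul_comm (nrm l)]
    · rw [map_sub, map_smul, map_smul, smul_eq_mul, smul_eq_mul]; ring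
  have k0 := DFunLike.congr_fun key o
  rw [Finsupp.smul_apply, Finsupp.smul_apply, hF.zero _ (nz_wall hz), hF.zero _ hz, h4.snoc,
    T_wall, smul_eq_mul, smul_eq_mul, mul_comm (Pref l), ← mul_assoc] at k0
  have k1 := mul_right_cancel₀ hP k0
  rw [← k1, mul_smul] at key
  exact smul_right_injective W hZ key

theorem lp_c (l₁ l₂ : List ℂ) : LP1 fun t => ((l₁ ++ t :: l₂).map fun x => -2 - T x).prod := by
  refine ((lp1_const ((l₁.map fun x => -2 - T x).prod * (l₂.map fun x => -2 - T x).prod)).mul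
    ((lp1_const (-2)).sub lp1_T')).congr fun t _ => ?_
  simp only [List.map_append, List.map_cons, List.prod_append, List.prod_cons]
  ring

end ZwA

theorem s_Zsym : S_Zsym := fun _ hF _ _ hz h => ZwA.perm hF h [] hz

open ZwA in
theorem s_Wall (h1 : S_Uniq) (h2 : S_Bdy) (h3 : S_Ext) (h4 : S_Pref) : S_Wall := by
  intro F hF l hz
  obtain ⟨ε, hε, hu⟩ := h1 l.length
  ext p
  have main := h3 (fun l => F (l ++ [-q ^ 2]) p - (l.map fun x => -2 - T x).prod * F l p)
    l.length {x | Near (min ε (1 / 10)) x} (near_inf (lt_min hε (by norm_num)))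
    (fun a b _ ha hb => by
      have a1 := (hF.lpd (Finsupp.lapply p) ha (nz_wall hb)).lp1
      have a2 := (hF.lpd (Finsupp.lapply p) ha hb).lp1
      refine (a1.sub ((lp_c a b).mul a2)).congr fun t _ => ?_
      simp)
    (fun l' hl hU _ => by
      have := near h2 h4 hF (l := l')
        (fun x hx => ⟨(hU x hx).1, (hU x hx).2.1.trans_le (min_le_right _ _),
            (hU x hx).2.2.trans_le (min_le_right _ _)⟩)
        (hu l' hl fun x hx => (hU x hx).2.1.trans_le (min_le_left _ _))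
      rw [this, Finsupp.smul_apply, smul_eq_mul, sub_self])
    l rfl hz
  rw [Finsupp.smul_apply, smul_eq_mul]
  exact sub_eq_zero.1 main

end Pool.Agent.P.MP_6c8efb_pr.Arm
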