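import Pool.Agent.P.MP_6c8efb_pr.Arm.Tri
import Pool.Agent.P.MP_6c8efb_pr.Arm.Evs
import Pool.Agent.P.MP_6c8efb_pr.Arm.Ybe
import Pool.Agent.P.MP_6c8efb_pr.Arm.Bdy
import Pool.Agent.P.MP_6c8efb_pr.Arm.Contr
import Pool.Agent.P.MP_6c8efb_pr.Arm.LocS
import Pool.Agent.P.MP_6c8efb_pr.Arm.PrefS
import Pool.Agent.P.MP_6c8efb_pr.Arm.Dd
import Pool.Agent.P.MP_6c8efb_pr.Arm.Poly
import Pool.Agent.P.MP_6c8efb_pr.Arm.SolS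
import Pool.Agent.P.MP_6c8efb_pr.Arm.Zw
import Pool.Agent.P.MP_6c8efb_pr.Arm.Arc
import Pool.Agent.P.MP_6c8efb_pr.Arm.NsymS
import Pool.Agent.P.MP_6c8efb_pr.Arm.NrecS
import Pool.Agent.P.MP_6c8efb_pr.Arm.Qperm
import Pool.Agent.P.MP_6c8efb_pr.Arm.QP1
import Pool.Agent.P.MP_6c8efb_pr.Arm.QP2
import Pool.Agent.P.MP_6c8efb_pr.Arm.EES
import Pool.Agent.P.MP_6c8efb_pr.Arm.E1
import Pool.Agent.P.MP_6c8efb_pr.Arm.E2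
import Pool.Agent.P.MP_6c8efb_pr.Arm.KerE
import Pool.Agent.P.MP_6c8efb_pr.Arm.KerO
import Pool.Agent.P.MP_6c8efb_pr.Arm.E4
import Pool.Agent.P.MP_6c8efb_pr.Arm.Asym
import Pool.Agent.P.MP_6c8efb_pr.Arm.ColS
import Pool.Agent.P.MP_6c8efb_pr.Arm.StepEv
import Pool.Agent.P.MP_6c8efb_pr.Arm.EvStep
import Pool.Agent.P.MP_6c8efb_pr.Arm.Law
import Pool.Agent.P.MP_6c8efb_pr.Arm.StepS
import Pool.Agent.P.MP_6c8efb_pr.Arm.Cmp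
import Pool.Agent.P.MP_6c8efb_pr.Arm.Vert
import Pool.Agent.P.MP_6c8efb_pr.Arm.Box
import Pool.Agent.P.MP_6c8efb_pr.Arm.Main
import Pool.Agent.P.MP_6c8efb_pr.Arm.PPs
import Pool.Agent.P.MP_6c8efb_pr.Arm.Final

/-! Assembly of all the steps. -/

namespace Pool.Agent.P.MP_6c8efb_pr.Arm

theorem uniq : S_Uniq := s_Uniq (s_Contr s_Reset)

theorem exists_sol : ∃ F, Sol F :=
  s_Sol (s_Loc uniq s_TM s_Ybe s_Bdy) (s_Poly s_Tri s_Pref s_Dd) s_Dd s_Ext s_TM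

theorem Sol.sol2 {F : List ℂ → W} (h : Sol F) : Sol2 F :=
  ⟨s_Arc uniq s_Ybe s_Ext s_Pref s_Pre s_Zsym F h, s_Wall uniq s_Bdy s_Ext s_Pref F h⟩

theorem arms_main (j : ℕ) : ∃ c C : ℝ, 0 < c ∧ ∀ n : ℕ, 1 ≤ n →
    c ≤ (n : ℝ) ^ ((j * (j + 1) : ℝ) / 6) * crit.real (arms j n) ∧
      (n : ℝ) ^ ((j * (j + 1) : ℝ) / 6) * crit.real (arms j n) ≤ C := by
  obtain ⟨F, hF⟩ := exists_sol
  have hN := s_Nsym s_Ev s_Ybe s_Bdy F hF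
  have hR := s_Nrec s_Ev F hF hF.sol2
  have hP := s_PP s_E1 (s_E4 s_E2 s_Mult s_Even s_Odd) uniq s_Pref F hF hR
    (s_Hom s_EE s_Ext s_Pref F hN (s_Main s_Pref s_Sym s_Qperm s_Qleg s_QP1 s_QP2 F hN hR))
  refine arms_of (P := fun m => ‖PP F (j + 1) m‖) (by positivity) s_Cmp s_Tm (s_Box (s_Vert s_Cross))
    (s_Step (s_StepEv s_Col) (s_EvStep s_Col s_Cross) s_Law (s_Lim (s_Contr s_Reset) s_TM s_Pref)
      F hF (j + 1)) ?_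
  obtain ⟨c, C, hc, h⟩ := s_Asym (j + 1)
  have e : (((j + 1 : ℕ) : ℝ) * ((j + 1 : ℕ) - 1)) / 6 = (j * (j + 1) : ℝ) / 6 := by push_cast; ring
  rw [e] at h
  refine ⟨3 ^ ((j + 1) * (j + 1 - 1) / 2) * c, 3 ^ ((j + 1) * (j + 1 - 1) / 2) * C, by positivity,
    fun m hm => ?_⟩
  rw [hP, mul_left_comm]
  exact ⟨mul_le_mul_of_nonneg_left (h m hm).1 (by positivity),
    mul_le_mul_of_nonneg_left (h m hm).2 (by positivity)⟩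

end Pool.Agent.P.MP_6c8efb_pr.Arm
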