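import Pool.Agent.P.MP_6c8efb_pr.Arm.Defs

/-! Elementary facts on the linear maps, on Laurent polynomial functions and on parameter lists. -/

open Polynomial

namespace Pool.Agent.P.MP_6c8efb_pr.Arm

/-! ### linear maps induced by maps of patterns -/

@[simp] theorem lm_single (f : St → St) (p : St) (c : ℂ) :
    lm f (Finsupp.single p c) = Finsupp.single (f p) c := by
  simp [lm, Finsupp.mapDomain_single]

theorem lm_mul (f g : St → St) : lm f * lm g = lm (f ∘ g) :=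
  Finsupp.lhom_ext fun p c => by simp

theorem lm_id : lm id = 1 := Finsupp.lhom_ext fun p c => by simp

theorem lm_congr {f g : St → St} (h : ∀ p, f p = g p) : lm f = lm g := by rw [funext h]

@[simp] theorem tot_single (p : St) (c : ℂ) : tot (Finsupp.single p c) = c := by simp [tot]

@[simp] theorem tot_lm (f : St → St) (v : W) : tot (lm f v) = tot v := by
  have : tot ∘ₗ lm f = tot := Finsupp.lhom_ext fun p c => by simp
  exact LinearMap.congr_fun this v

theorem sup_zero (L : ℕ) : Sup L 0 := fun _ h => absurd rfl h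

theorem Sup.add {L : ℕ} {v w : W} (hv : Sup L v) (hw : Sup L w) : Sup L (v + w) := fun p h => by
  by_cases e : v p = 0
  · exact hw p (by simpa [e] using h)
  · exact hv p e

theorem Sup.smul {L : ℕ} {v : W} (hv : Sup L v) (c : ℂ) : Sup L (c • v) :=
  fun p h => hv p fun e => h (by simp [e])

theorem Sup.sub {L : ℕ} {v w : W} (hv : Sup L v) (hw : Sup L w) : Sup L (v - w) := by
  have := hv.add (hw.smul (-1))
  rwa [neg_one_smul, ← sub_eq_add_neg] at this

theorem Sup.mono {L M : ℕ} {v : W} (hv : Sup L v) (h : L ≤ M) : Sup M v :=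
  fun p e => (hv p e).mono h

theorem sup_single {L : ℕ} {p : St} (h : Bd L p) (c : ℂ) : Sup L (Finsupp.single p c) := fun r e => by
  classical
  rw [Finsupp.single_apply] at e
  split_ifs at e with h'
  · exact h' ▸ h
  · exact absurd rfl e

/-- induction for vectors supported on the patterns on `L` sites -/
theorem Sup.ind {L : ℕ} {P : W → Prop} (h0 : P 0) (h1 : ∀ p c, Bd L p → P (Finsupp.single p c))
    (h2 : ∀ v w, P v → P w → P (v + w)) {v : W} (hv : Sup L v) : P v := by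
  rw [← Finsupp.sum_single v, Finsupp.sum]
  exact Finset.sum_induction _ P h2 h0 fun p hp => h1 p _ (hv p (Finsupp.mem_support_iff.1 hp))

/-- two linear maps that agree on the patterns on `L` sites -/
theorem Sup.ext {L : ℕ} {M : Type*} [AddCommGroup M] [Module ℂ M] {f g : W →ₗ[ℂ] M}
    (h : ∀ p, Bd L p → f (Finsupp.single p 1) = g (Finsupp.single p 1)) {v : W} (hv : Sup L v) :
    f v = g v := by
  refine Sup.ind (P := fun v => f v = g v) (by simp) (fun p c hp => ?_)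
    (fun v w h1 h2 => by simp [h1, h2]) hv
  have : (Finsupp.single p c : W) = c • Finsupp.single p 1 := by simp
  rw [this, map_smul, map_smul, h p hp]

theorem Sup.lm {L M : ℕ} {f : St → St} (h : ∀ p, Bd L p → Bd M (f p)) {v : W} (hv : Sup L v) :
    Sup M (lm f v) :=
  Sup.ind (P := fun v => Sup M (Arm.lm f v)) (by simpa using sup_zero M)
    (fun p c hp => by simpa using sup_single (h p hp) c)
    (fun v w h1 h2 => by simpa using h1.add h2) hv

theorem Sup.lm_congr {L : ℕ} {f g : St → St} (h : ∀ p, Bd L p → f p = g p) {v : W} (hv : Sup L v) :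
    Arm.lm f v = Arm.lm g v := Sup.ext (fun p hp => by simp [h p hp]) hv

/-- the finite set of the patterns on `L` sites -/
noncomputable def SL (L : ℕ) : Finset St := (finite_bd L).toFinset

@[simp] theorem mem_SL {L : ℕ} {p : St} : p ∈ SL L ↔ Bd L p := by simp [SL]

theorem Sup.eq_sum {L : ℕ} {v : W} (hv : Sup L v) :
    v = ∑ p ∈ SL L, v p • Finsupp.single p (1 : ℂ) := by
  conv_lhs => rw [← Finsupp.sum_single v]
  rw [Finsupp.sum_of_support_subset v (s := SL L)
    (fun p hp => mem_SL.2 (hv p (Finsupp.mem_support_iff.1 hp))) _ (by simp)]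
  simp

theorem Sup.map_eq {L : ℕ} {v : W} (hv : Sup L v) (φ : W →ₗ[ℂ] ℂ) :
    φ v = ∑ p ∈ SL L, v p * φ (Finsupp.single p 1) := by
  conv_lhs => rw [hv.eq_sum]
  simp only [map_sum, map_smul, smul_eq_mul]

open Classical in
theorem Sup.lm_apply {L : ℕ} {v : W} (hv : Sup L v) (f : St → St) (r : St) :
    Arm.lm f v r = ∑ p ∈ (SL L).filter (fun p => f p = r), v p := by
  have := hv.map_eq (Finsupp.lapply r ∘ₗ Arm.lm f)
  simp only [LinearMap.comp_apply, Finsupp.lapply_apply, lm_single] at this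
  rw [this, Finset.sum_filter]
  exact Finset.sum_congr rfl fun p _ => by rw [Finsupp.single_apply]; split_ifs <;> simp

theorem lm_apply_of_notMem {f : St → St} {r : St} (h : ∀ p, f p ≠ r) (v : W) : lm f v r = 0 :=
  Finsupp.mapDomain_of_notMem_range _ _ fun ⟨p, e⟩ => h p e

theorem Ee_apply_o (i : ℕ) (v : W) : Ee i v o = 0 := lm_apply_of_notMem (ee_ne_o i) v

theorem Cap_Cup (i : ℕ) : Cap i * Cup i = 1 := by
  rw [Cap, Cup, lm_mul, ← lm_id]; exact lm_congr (cap_cup i)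

theorem Ee_eq (i : ℕ) : Ee i = Cup i * Cap i := (lm_mul _ _).symm

theorem Cup_injective (i : ℕ) : Function.Injective (Cup i) := fun v w h => by
  have := congrArg (Cap i) h
  rwa [← Module.End.mul_apply, ← Module.End.mul_apply, Cap_Cup] at this

theorem ah_add_ac (x : ℂ) : ah x + ac x = 1 + x := by
  unfold ah ac; linear_combination (-1 - x) * q_eq

theorem ah_one : ah 1 = 1 := by unfold ah; linear_combination (-1 : ℂ) * q_eq
theorem ac_one : ac 1 = 1 := by unfold ac; linear_combination (-1 : ℂ) * q_eq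

theorem row_append (a : ℕ) (l₁ l₂ : List ℂ) :
    row a (l₁ ++ l₂) = row (a + l₁.length) l₂ * row a l₁ := by
  induction l₁ generalizing a with
  | nil => simp [row]
  | cons x l ih => simp only [List.cons_append, row, ih, List.length_cons, mul_assoc]; congr 2; omega

theorem nrm_append (l₁ l₂ : List ℂ) : nrm (l₁ ++ l₂) = nrm l₁ * nrm l₂ := by simp [nrm]
@[simp] theorem nrm_nil : nrm [] = 1 := rfl
@[simp] theorem nrm_cons (x : ℂ) (l : List ℂ) : nrm (x :: l) = (1 + x) ^ 2 * nrm l := by simp [nrm]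
theorem nrm_perm {l l' : List ℂ} (h : l.Perm l') : nrm l = nrm l' := (h.map _).prod_eq

open Classical in
@[simp] theorem Bil_single (a b : ℕ) (p r : St) (c d : ℂ) :
    Bil a b (Finsupp.single p c) (Finsupp.single r d) = if Ev a b p r then c * d else 0 := by
  simp only [Bil, Finsupp.linearCombination_single, LinearMap.smul_apply, smul_eq_mul]
  split_ifs <;> simp

/-- moving a map of patterns from one side of the pairing to the other -/
theorem Bil_congr {L M a b a' b' : ℕ} {f f' g g' : St → St}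
    (h : ∀ p r, Bd L p → Bd M r → (Ev a b (f p) (g r) ↔ Ev a' b' (f' p) (g' r))) {v w : W}
    (hv : Sup L v) (hw : Sup M w) : Bil a b (lm f v) (lm g w) = Bil a' b' (lm f' v) (lm g' w) := by
  refine Sup.ext (f := (Bil a b).flip (lm g w) ∘ₗ lm f) (g := (Bil a' b').flip (lm g' w) ∘ₗ lm f')
    (fun p hp => ?_) hv
  refine Sup.ext (f := Bil a b (lm f (Finsupp.single p 1)) ∘ₗ lm g)
    (g := Bil a' b' (lm f' (Finsupp.single p 1)) ∘ₗ lm g') (fun r hr => ?_) hw
  simp only [LinearMap.comp_apply, lm_single, Bil_single]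
  rw [propext (h p r hp hr)]

/-! ### the function `T` -/

@[simp] theorem T_inv (x : ℂ) : T x⁻¹ = T x := by simp [T, add_comm]

theorem T_one : T 1 = 2 := by norm_num [T]
theorem T_q : T q = -1 := by rw [T, q_inv]; linear_combination q_eq
theorem T_neg_q : T (-q) = 1 := by rw [T, inv_neg, q_inv]; linear_combination (-1 : ℂ) * q_eq

theorem T_sub {x y : ℂ} (hx : x ≠ 0) (hy : y ≠ 0) : T x - T y = (x - y) * (x * y - 1) / (x * y) := by
  unfold T; field_simp; ring

theorem T_eq_iff {x y : ℂ} (hx : x ≠ 0) (hy : y ≠ 0) : T x = T y ↔ x = y ∨ x * y = 1 := by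
  rw [← sub_eq_zero, T_sub hx hy]; simp [hx, hy, sub_eq_zero]

theorem T_q_inv (x : ℂ) : T (q * x⁻¹) = T (q ^ 2 * x) := by
  rw [← T_inv, mul_inv, inv_inv, q_inv]

theorem T_qq_inv (x : ℂ) : T (q ^ 2 * x⁻¹) = T (q * x) := by rw [← T_q_inv, inv_inv]

theorem UU_T {x : ℂ} (hx : x ≠ 0) : UU (T x) = T (x ^ 3) := by unfold UU T; field_simp; ring

theorem tri_T {x : ℂ} (hx : x ≠ 0) : Tri (T x) (T (q * x)) (T (q ^ 2 * x)) := by
  have e1 : T (q * x) = q * x + q ^ 2 * x⁻¹ := by rw [T, mul_inv, q_inv]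
  have e2 : T (q ^ 2 * x) = q ^ 2 * x + q * x⁻¹ := by rw [← T_q_inv, T, mul_inv, inv_inv, q_inv, add_comm]
  have h : x * x⁻¹ = 1 := mul_inv_cancel₀ hx
  rw [e1, e2, T]
  constructor
  · linear_combination (x + x⁻¹) * q_eq
  · linear_combination (q * (x ^ 2 + x⁻¹ ^ 2) + (q ^ 2 - q + 3) * (x * x⁻¹)) * q_eq + (-3 : ℂ) * h

theorem T_surj (t : ℂ) : ∃ x, x ≠ 0 ∧ T x = t := by
  obtain ⟨d, hd⟩ := IsAlgClosed.exists_pow_nat_eq (t ^ 2 - 4) (n := 2) (by norm_num)
  have h : (t + d) / 2 * ((t - d) / 2) = 1 := by linear_combination (-1 / 4 : ℂ) * hd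
  refine ⟨(t + d) / 2, left_ne_zero_of_mul_eq_one h, ?_⟩
  rw [T, inv_eq_of_mul_eq_one_right h]; ring

theorem Tri.swap₁ {a b c : ℂ} (h : Tri a b c) : Tri b a c :=
  ⟨by linear_combination h.1, by linear_combination h.2⟩
theorem Tri.swap₂ {a b c : ℂ} (h : Tri a b c) : Tri a c b :=
  ⟨by linear_combination h.1, by linear_combination h.2⟩

theorem Tri.factor {a b c : ℂ} (h : Tri a b c) (s : ℂ) : (s - a) * (s - b) * (s - c) = UU s - UU a := by
  have hc : c = -a - b := by linear_combination h.1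
  have h2 := h.2
  subst hc; unfold UU; linear_combination (s - a) * h2

theorem Tri.quad {a b c : ℂ} (h : Tri a b c) (s : ℂ) :
    (s - b) * (s - c) = s ^ 2 + a * s + (a ^ 2 - 3) := by
  have hc : c = -a - b := by linear_combination h.1
  have h2 := h.2
  subst hc; linear_combination h2

theorem Tri.UU_eq {a b c : ℂ} (h : Tri a b c) : UU b = UU a := by
  have := h.factor b; linear_combination -this

/-- the three roots are distinct unless `u = 2` or `u = -2` -/
theorem Tri.ne {a b c : ℂ} (h : Tri a b c) (hu : UU a ^ 2 ≠ 4) : b ≠ c := by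
  rintro rfl
  have ha : a = -2 * b := by linear_combination h.1
  have h2 := h.2
  subst ha
  exact hu (by unfold UU; linear_combination (-(64 * b ^ 4 - 32 * b ^ 2 + 4) / 3) * h2)

theorem exists_tri (a : ℂ) : ∃ b c, Tri a b c := by
  obtain ⟨x, hx, rfl⟩ := T_surj a
  exact ⟨_, _, tri_T hx⟩

theorem Tri.exists {a b c : ℂ} (h : Tri a b c) :
    ∃ x, x ≠ 0 ∧ T x = a ∧ T (q * x) = b ∧ T (q ^ 2 * x) = c := by
  obtain ⟨x, hx, rfl⟩ := T_surj a
  have h' := tri_T hx
  have e := (h'.quad b).trans (h.quad b).symm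
  rw [sub_self, zero_mul, mul_eq_zero, sub_eq_zero, sub_eq_zero] at e
  rcases e with e | e
  · exact ⟨x, hx, rfl, e.symm, by linear_combination h'.1 - h.1 + e⟩
  · exact ⟨x⁻¹, inv_ne_zero hx, T_inv x, by rw [T_q_inv, e],
      by rw [T_qq_inv]; linear_combination h'.1 - h.1 + e⟩

/-! ### parameter lists -/

@[simp] theorem nz_nil : Nz [] := fun _ h => by simp at h
@[simp] theorem nz_cons {x : ℂ} {l : List ℂ} : Nz (x :: l) ↔ x ≠ 0 ∧ Nz l := by simp [Nz]
@[simp] theorem nz_append {l l' : List ℂ} : Nz (l ++ l') ↔ Nz l ∧ Nz l' := by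
  simp only [Nz, List.mem_append, or_imp, forall_and]
@[simp] theorem nz_map_inv {l : List ℂ} : Nz (l.map (·⁻¹)) ↔ Nz l := by
  simp only [Nz, List.forall_mem_map, ne_eq, inv_eq_zero]
theorem nz_replicate (n : ℕ) : Nz (List.replicate n 1) := fun x h => by
  rw [List.eq_of_mem_replicate h]; exact one_ne_zero
theorem Nz.perm {l l' : List ℂ} (h : Nz l) (e : l.Perm l') : Nz l' := fun x hx => h x (e.symm.subset hx)

theorem Gen.nz {l : List ℂ} (h : Gen l) : Nz l := fun x hx => (h.1 x hx).1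

theorem Gen.perm {l l' : List ℂ} (h : Gen l) (e : l.Perm l') : Gen l' :=
  ⟨fun x hx => h.1 x (e.symm.subset hx),
    (e.pairwise_iff fun h => ⟨h.1.symm, by rw [mul_comm]; exact h.2⟩).1 h.2⟩

theorem Gen.sublist {l l' : List ℂ} (h : Gen l) (e : l'.Sublist l) : Gen l' :=
  ⟨fun x hx => h.1 x (e.subset hx), h.2.sublist e⟩

theorem gen_cons {x : ℂ} {l : List ℂ} : Gen (x :: l) ↔
    (x ≠ 0 ∧ x ^ 6 ≠ 1) ∧ (∀ y ∈ l, x ^ 3 ≠ y ^ 3 ∧ x ^ 3 * y ^ 3 ≠ 1) ∧ Gen l := by
  simp only [Gen, List.mem_cons, forall_eq_or_imp, List.pairwise_cons]; tauto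

/-- an entry may be replaced by one with the same cube or the inverse cube -/
theorem Gen.replace {x y : ℂ} {l : List ℂ} (h : Gen (x :: l)) (e : y ^ 3 = x ^ 3 ∨ y ^ 3 = (x ^ 3)⁻¹) :
    Gen (y :: l) := by
  rw [gen_cons] at h ⊢
  obtain ⟨⟨h0, h6⟩, h1, h2⟩ := h
  have hx : x ^ 3 ≠ 0 := pow_ne_zero _ h0
  have e6 : ∀ z : ℂ, z ^ 6 = (z ^ 3) ^ 2 := fun z => by ring
  rcases e with e | e
  · exact ⟨⟨fun h => hx (by rw [← e, h]; simp), by rwa [e6, e, ← e6]⟩, by simpa only [e] using h1, h2⟩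
  · refine ⟨⟨fun h => inv_ne_zero hx (by rw [← e, h]; simp), ?_⟩, fun z hz => ?_, h2⟩
    · rw [e6, e, inv_pow, ← e6]; simpa using h6
    · rw [e]
      exact ⟨fun h => (h1 z hz).2 (by rw [← h, mul_inv_cancel₀ hx]),
        fun h => (h1 z hz).1 (by field_simp at h; exact h.symm)⟩

theorem UU_T_ne {x y : ℂ} (hx : x ≠ 0) (hy : y ≠ 0) (h : x ^ 3 ≠ y ^ 3 ∧ x ^ 3 * y ^ 3 ≠ 1) :
    UU (T x) ≠ UU (T y) := by
  rw [UU_T hx, UU_T hy, Ne, T_eq_iff (pow_ne_zero _ hx) (pow_ne_zero _ hy)]; tauto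

theorem UU_T_sq_ne {x : ℂ} (hx : x ≠ 0) (h : x ^ 6 ≠ 1) : UU (T x) ^ 2 ≠ 4 := by
  rw [UU_T hx, T]
  intro e
  have h3 : x ^ 3 ≠ 0 := pow_ne_zero _ hx
  field_simp at e
  exact h (sub_eq_zero.1 (pow_eq_zero_iff (n := 2) (by norm_num) |>.1 (by linear_combination e)))

theorem Gen.genT {l : List ℂ} (h : Gen l) : GenT (l.map T) := by
  refine ⟨fun s hs => ?_, ?_⟩
  · obtain ⟨x, hx, rfl⟩ := List.mem_map.1 hs
    exact UU_T_sq_ne (h.1 x hx).1 (h.1 x hx).2
  · rw [List.pairwise_map]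
    exact (List.Pairwise.and_mem.1 h.2).imp fun e => UU_T_ne (h.1 _ e.1).1 (h.1 _ e.2.1).1 e.2.2

theorem GenT.perm {l l' : List ℂ} (h : GenT l) (e : l.Perm l') : GenT l' :=
  ⟨fun x hx => h.1 x (e.symm.subset hx), (e.pairwise_iff fun h => h.symm).1 h.2⟩

theorem GenT.sublist {l l' : List ℂ} (h : GenT l) (e : l'.Sublist l) : GenT l' :=
  ⟨fun x hx => h.1 x (e.subset hx), h.2.sublist e⟩

theorem Near.inv {ε : ℝ} {x : ℂ} (h : Near ε x) : Near ε x⁻¹ :=
  ⟨inv_ne_zero h.1, h.2.2, by simpa using h.2.1⟩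

/-! ### Laurent polynomial functions -/

theorem LPd.congr {d : ℕ} {f g : ℂ → ℂ} (h : LPd d f) (e : ∀ t, t ≠ 0 → f t = g t) : LPd d g :=
  let ⟨p, h1, h2⟩ := h; ⟨p, h1, fun t ht => e t ht ▸ h2 t ht⟩

theorem lpd_const (c : ℂ) : LPd 0 fun _ => c := ⟨C c, by simp, by simp⟩

theorem LPd.mul {d e : ℕ} {f g : ℂ → ℂ} (hf : LPd d f) (hg : LPd e g) :
    LPd (d + e) fun t => f t * g t := by
  obtain ⟨p, h1, h2⟩ := hf
  obtain ⟨r, h3, h4⟩ := hg
  refine ⟨p * r, natDegree_mul_le.trans (by omega), fun t ht => ?_⟩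
  rw [eval_mul, ← h2 t ht, ← h4 t ht]; ring

theorem lpd_one (d : ℕ) : LPd d fun _ => 1 := ⟨X ^ d, by simp; omega, by simp⟩

theorem LPd.mono {d e : ℕ} {f : ℂ → ℂ} (hf : LPd d f) (h : d ≤ e) : LPd e f := by
  obtain ⟨k, rfl⟩ := Nat.exists_eq_add_of_le h
  simpa using hf.mul (lpd_one k)

theorem lpd_const' (d : ℕ) (c : ℂ) : LPd d fun _ => c := (lpd_const c).mono (Nat.zero_le _)

theorem LPd.add {d : ℕ} {f g : ℂ → ℂ} (hf : LPd d f) (hg : LPd d g) : LPd d fun t => f t + g t := by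
  obtain ⟨p, h1, h2⟩ := hf
  obtain ⟨r, h3, h4⟩ := hg
  exact ⟨p + r, (natDegree_add_le _ _).trans (max_le h1 h3), fun t ht => by
    rw [eval_add, ← h2 t ht, ← h4 t ht]; ring⟩

theorem LPd.const_mul {d : ℕ} {f : ℂ → ℂ} (hf : LPd d f) (c : ℂ) : LPd d fun t => c * f t := by
  simpa using (lpd_const c).mul hf

theorem LPd.mul_const {d : ℕ} {f : ℂ → ℂ} (hf : LPd d f) (c : ℂ) : LPd d fun t => f t * c := by
  simpa using hf.mul (lpd_const c)

theorem LPd.sub {d : ℕ} {f g : ℂ → ℂ} (hf : LPd d f) (hg : LPd d g) : LPd d fun t => f t - g t :=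
  (hf.add (hg.const_mul (-1))).congr fun t _ => by ring

theorem LPd.sum {ι : Type*} {d : ℕ} (s : Finset ι) {f : ι → ℂ → ℂ} (h : ∀ i ∈ s, LPd d (f i)) :
    LPd d fun t => ∑ i ∈ s, f i t := by
  classical
  induction s using Finset.induction_on with
  | empty => simpa using lpd_const' d 0
  | insert a s ha ih =>
    simpa [Finset.sum_insert ha] using (h a (by simp)).add (ih fun i hi => h i (by simp [hi]))

theorem lpd_id : LPd 1 fun t => t := ⟨X ^ 2, by simp, fun t _ => by simp [pow_two]⟩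

theorem LPd.inv {d : ℕ} {f : ℂ → ℂ} (hf : LPd d f) : LPd d fun t => f t⁻¹ := by
  obtain ⟨p, h1, h2⟩ := hf
  refine ⟨p.reflect (2 * d), natDegree_reflect_le.trans (by simp [h1]), fun t ht => ?_⟩
  have hi : Invertible t⁻¹ := invertibleOfNonzero (inv_ne_zero ht)
  have := eval₂_reflect_mul_pow (RingHom.id ℂ) t⁻¹ (2 * d) p h1
  simp only [eval₂_id, invOf_eq_inv, inv_inv] at this
  rw [← h2 _ (inv_ne_zero ht)] at this
  have e : t ^ d ≠ 0 := pow_ne_zero _ ht
  rw [inv_pow, inv_pow, two_mul, pow_add] at this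
  rw [two_mul]
  field_simp at this
  rw [one_div] at this
  linear_combination -this

theorem lpd_T (c : ℂ) : LPd 1 fun t => T (c * t) :=
  ((lpd_id.const_mul c).add (lpd_id.inv.const_mul c⁻¹)).congr fun t _ => by simp [T, mul_comm]

theorem LPd.lp1 {d : ℕ} {f : ℂ → ℂ} (h : LPd d f) : LP1 f := ⟨d, h⟩

theorem LP1.congr {f g : ℂ → ℂ} (h : LP1 f) (e : ∀ t, t ≠ 0 → f t = g t) : LP1 g :=
  let ⟨d, h⟩ := h; ⟨d, h.congr e⟩
theorem lp1_const (c : ℂ) : LP1 fun _ => c := ⟨0, lpd_const c⟩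
theorem lp1_id : LP1 fun t => t := ⟨1, lpd_id⟩
theorem LP1.mul {f g : ℂ → ℂ} (hf : LP1 f) (hg : LP1 g) : LP1 fun t => f t * g t :=
  let ⟨_, h⟩ := hf; let ⟨_, h'⟩ := hg; ⟨_, h.mul h'⟩
theorem LP1.add {f g : ℂ → ℂ} (hf : LP1 f) (hg : LP1 g) : LP1 fun t => f t + g t :=
  let ⟨d, h⟩ := hf; let ⟨e, h'⟩ := hg
  ⟨max d e, (h.mono (le_max_left _ _)).add (h'.mono (le_max_right _ _))⟩
theorem LP1.sub {f g : ℂ → ℂ} (hf : LP1 f) (hg : LP1 g) : LP1 fun t => f t - g t :=
  (hf.add ((lp1_const (-1)).mul hg)).congr fun t _ => by ring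
theorem LP1.inv {f : ℂ → ℂ} (hf : LP1 f) : LP1 fun t => f t⁻¹ := let ⟨d, h⟩ := hf; ⟨d, h.inv⟩
theorem LP1.pow {f : ℂ → ℂ} (hf : LP1 f) (n : ℕ) : LP1 fun t => f t ^ n := by
  induction n with
  | zero => simpa using lp1_const 1
  | succ n ih => simpa [pow_succ] using ih.mul hf
theorem lp1_T (c : ℂ) : LP1 fun t => T (c * t) := ⟨1, lpd_T c⟩
theorem lp1_T' : LP1 T := (lp1_T 1).congr fun t _ => by simp
theorem LP1.eval {f : ℂ → ℂ} (hf : LP1 f) (p : ℂ[X]) : LP1 fun t => p.eval (f t) := by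
  induction p using Polynomial.induction_on' with
  | add p r h1 h2 => simpa using h1.add h2
  | monomial n a => simpa using (lp1_const a).mul (hf.pow n)
theorem LP1.sum {ι : Type*} (s : Finset ι) {f : ι → ℂ → ℂ} (h : ∀ i ∈ s, LP1 (f i)) :
    LP1 fun t => ∑ i ∈ s, f i t := by
  classical
  induction s using Finset.induction_on with
  | empty => simpa using lp1_const 0
  | insert a s ha ih =>
    simpa [Finset.sum_insert ha] using (h a (by simp)).add (ih fun i hi => h i (by simp [hi]))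
theorem LP1.listProd {ι : Type*} (l : List ι) {f : ι → ℂ → ℂ} (h : ∀ i ∈ l, LP1 (f i)) :
    LP1 fun t => (l.map fun i => f i t).prod := by
  induction l with
  | nil => simpa using lp1_const 1
  | cons a l ih => simpa using (h a (by simp)).mul (ih fun i hi => h i (by simp [hi]))

/-- a Laurent polynomial function with infinitely many zeros vanishes -/
theorem LP1.eq_zero {f : ℂ → ℂ} (hf : LP1 f) {U : Set ℂ} (hU : U.Infinite)
    (h : ∀ t ∈ U, t ≠ 0 → f t = 0) {t : ℂ} (ht : t ≠ 0) : f t = 0 := by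
  obtain ⟨d, p, -, h2⟩ := hf
  have : p = 0 := p.eq_zero_of_infinite_isRoot ((hU.sdiff (Set.finite_singleton 0)).mono
    fun s hs => by
      have h0 : s ≠ 0 := hs.2
      show p.eval s = 0
      rw [← h2 s h0, h s hs.1 h0, zero_mul])
  have h3 := h2 t ht
  rw [this, eval_zero] at h3
  exact (mul_eq_zero.1 h3).resolve_right (pow_ne_zero _ ht)

/-- the same when the function vanishes outside a finite set -/
theorem LP1.eq_zero' {f : ℂ → ℂ} (hf : LP1 f) {B : Set ℂ} (hB : B.Finite)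
    (h : ∀ t, t ∉ B → t ≠ 0 → f t = 0) {t : ℂ} (ht : t ≠ 0) : f t = 0 :=
  hf.eq_zero hB.infinite_compl h ht

/-- linear functionals of the solution are Laurent polynomials in each variable -/
theorem Sol.lpd {F : List ℂ → W} (h : Sol F) (φ : W →ₗ[ℂ] ℂ) {l₁ l₂ : List ℂ} (h1 : Nz l₁)
    (h2 : Nz l₂) : LPd (l₁.length + l₂.length) fun t => φ (F (l₁ ++ t :: l₂)) := by
  refine (LPd.sum (SL (l₁.length + l₂.length + 1)) fun p _ =>
    (h.deg l₁ l₂ p h1 h2).mul_const (φ (Finsupp.single p 1))).congr fun t ht => ?_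
  have := (h.fix (l₁ ++ t :: l₂) (by simp [h1, h2, ht])).1
  rw [List.length_append, List.length_cons, ← add_assoc] at this
  exact (this.map_eq φ).symm

end Pool.Agent.P.MP_6c8efb_pr.Arm
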