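import Pool.Agent.P.MP_6c8efb_pr.Arm.Iface
import Pool.Agent.P.MP_6c8efb_pr.Lat

/-! Comparison of the line and step events; tiles against bonds. -/

namespace Pool.Agent.P.MP_6c8efb_pr.Arm

namespace CmpA

theorem indep {A B : Set TC} {S : Set (ℤ × ℤ)} (hA : Loc A) (hS : Dep A S) (v : ℤ × ℤ)
    (J : Finset (ℤ × ℤ)) {N : ℕ} (hN : J.card ≤ N) (hd : ∀ c ∈ S, c + v ∉ J)
    (h : ∀ τ : TC, (fun c => τ (c + v)) ∈ A → (∀ c ∈ J, τ c = true) → τ ∈ B) :
    (1 / 2) ^ N * Pt A ≤ Pt B := by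
  have h1 := Pr_inter_indep (fun _ => hf) (hA.comp (· + v)) (loc_cyl J fun _ => true)
    (hS.comp (· + v)) (dep_cyl (J : Set (ℤ × ℤ)) fun _ => true)
    (Set.disjoint_left.2 (by rintro _ ⟨c, hc, rfl⟩; exact hd c hc))
  have h2 := Pt_comp (add_left_injective v) hA
  have h3 := Pt_cyl J fun _ => true
  have h4 : ((1 : ℝ) / 2) ^ N ≤ (1 / 2) ^ J.card :=
    pow_le_pow_of_le_one (by norm_num) (by norm_num) hN
  unfold Pt at *
  refine le_trans ?_ (Pr_mono (A := {τ : TC | (fun c => τ (c + v)) ∈ A} ∩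
    {τ : TC | ∀ c ∈ J, τ c = true}) fun τ hτ => h τ hτ.1 hτ.2)
  rw [h1, h2, h3, mul_comm]
  exact mul_le_mul_of_nonneg_left h4 (Pr_nonneg _ _)

theorem diag {τ : TC} {S : Set (ℤ × ℤ)} (a b : ℤ) (n : ℕ)
    (h : ∀ s : ℕ, s < n → τ (a + s, b + s) = true ∧ (a + s, b + s) ∈ S) :
    TConn τ S (a, b) (a + n, b + n) := by
  induction n with
  | zero => simpa using TConn.refl'
  | succ n ih =>
    refine (ih fun s hs => h s (by omega)).snoc (link_iff.2 ⟨_, _, (h n (by omega)).2,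
      Or.inl ⟨(h n (by omega)).1, Or.inl ⟨rfl, ?_⟩⟩⟩)
    push_cast
    rw [add_assoc, add_assoc]

/-- the corner of a vertex -/
def co (e : ℤ) (z : V) : ℤ × ℤ := (z.1 + z.2 + e, z.2 - z.1)

/-- the tiles describe the bonds -/
def Rel (e : ℤ) (τ : TC) (ω : Cfg) : Prop := ∀ x y : ℤ,
  τ (x + y + e, y - x) = ω ((x, y), false) ∧ τ (x + y + e, y - x - 1) = !ω ((x, y), true)

theorem toConn {e : ℤ} {τ : TC} {ω : Cfg} (hR : Rel e τ ω) {S : Set (ℤ × ℤ)}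
    (hS : ∀ c ∈ S, 0 ≤ c.1) {x : V} {b : ℤ × ℤ} (h : TConn τ S (co e x) b) :
    ∃ y, b = co e y ∧ Conn ω (dh (-e)) x y := by
  refine h.ind (P := fun b => ∃ y, b = co e y ∧ Conn ω (dh (-e)) x y) ⟨x, rfl, Conn.rfl'⟩ ?_
  rintro _ b - hl ⟨⟨p, q⟩, rfl, hc⟩
  obtain ⟨s, t, h1, h2⟩ := link_iff.1 hl
  have h0 : 0 ≤ s := hS _ h1
  simp only [co, Prod.mk.injEq] at h2
  rcases h2 with ⟨h2, ⟨⟨rfl, rfl⟩, rfl⟩ | ⟨rfl, e1, e2⟩⟩ | ⟨h2, ⟨⟨e1, rfl⟩, rfl⟩ | ⟨rfl, rfl, e2⟩⟩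
  · refine ⟨_, ?_, hc.snoc (d := 1) ?_ ?_ ((hR p q).1 ▸ h2)⟩ <;>
      simp [co, dh, Prod.ext_iff] <;> omega
  · have := (hR p (q - 1)).1
    rw [show p + (q - 1) + e = s by omega, show q - 1 - p = t by omega, h2] at this
    refine ⟨_, ?_, hc.snoc (d := 3) ?_ ?_ (by simpa using this.symm)⟩ <;>
      simp [co, dh, Prod.ext_iff] <;> omega
  · have := (hR (p - 1) q).2
    rw [show p - 1 + q + e = s by omega, show q - (p - 1) - 1 = q - p by omega, h2] at this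
    refine ⟨_, ?_, hc.snoc (d := 2) ?_ ?_ (by simpa using this.symm)⟩ <;>
      simp [co, dh, Prod.ext_iff] <;> omega
  · have := (hR p q).2
    rw [show q - p - 1 = t by omega, h2] at this
    refine ⟨_, ?_, hc.snoc (d := 0) ?_ ?_ (by simpa using this.symm)⟩ <;>
      simp [co, dh, Prod.ext_iff] <;> omega

theorem ofConn {e : ℤ} {τ : TC} {ω : Cfg} (hR : Rel e τ ω) {x y : V}
    (h : Conn ω (dh (-e)) x y) : TConn τ {c | 0 ≤ c.1} (co e x) (co e y) := by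
  refine h.ind (p := fun y => TConn τ {c | 0 ≤ c.1} (co e x) (co e y)) .refl' ?_
  rintro ⟨p, q⟩ d - ha hb ho ih
  refine ih.snoc (link_iff.2 ?_)
  rcases cases4 d with rfl | rfl | rfl | rfl <;> simp [dh] at ha hb ho
  · refine ⟨p + q + e, q - p - 1, (by omega : 0 ≤ p + q + e),
      Or.inr ⟨by rw [(hR p q).2, ho]; rfl, Or.inr ⟨?_, ?_⟩⟩⟩ <;> simp [co] <;> omega
  · refine ⟨p + q + e, q - p, (by omega : 0 ≤ p + q + e),
      Or.inl ⟨by rw [(hR p q).1, ho], Or.inl ⟨?_, ?_⟩⟩⟩ <;> simp [co] <;> omega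
  · refine ⟨p - 1 + q + e, q - (p - 1) - 1, (by omega : 0 ≤ p - 1 + q + e),
      Or.inr ⟨by rw [(hR (p - 1) q).2, ho]; rfl, Or.inl ⟨?_, ?_⟩⟩⟩ <;> simp [co] <;> omega
  · refine ⟨p + (q - 1) + e, q - 1 - p, (by omega : 0 ≤ p + (q - 1) + e),
      Or.inl ⟨by rw [(hR p (q - 1)).1, ho], Or.inr ⟨?_, ?_⟩⟩⟩ <;> simp [co] <;> omega

theorem tm_even (ω : Cfg) {s t : ℤ} (x y : ℤ) (h1 : s = x + y) (h2 : t = y - x) :
    tm ω (s, t) = ω ((x, y), false) := by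
  rw [tm, if_pos (Int.even_iff.2 (by omega)), show ((s, t).1 - (s, t).2) / 2 = x by omega,
    show ((s, t).1 + (s, t).2) / 2 = y by omega]

theorem tm_odd (ω : Cfg) {s t : ℤ} (x y : ℤ) (h1 : s = x + y) (h2 : t = y - x - 1) :
    tm ω (s, t) = !ω ((x, y), true) := by
  rw [tm, if_neg (by rw [Int.even_iff]; omega), show ((s, t).1 - (s, t).2 - 1) / 2 = x by omega,
    show ((s, t).1 + (s, t).2 + 1) / 2 = y by omega]

theorem rel0 (ω : Cfg) : Rel 0 (tm ω) ω := fun x y =>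
  ⟨tm_even ω x y (by omega) rfl, tm_odd ω x y (by omega) rfl⟩

theorem rel1 (ω : Cfg) : Rel 1 (tm ω) (dual ω) := fun x y =>
  ⟨by rw [tm_odd ω x (y + 1) (by omega) (by omega)]; simp [dual],
    by rw [tm_even ω (x + 1) y (by omega) (by omega)]; simp [dual]⟩

theorem Pt_tm {A : Set TC} (hA : Loc A) : Q {ω | tm ω ∈ A} = Pt A := by
  let φ : ℤ × ℤ → E := fun c => if Even (c.1 + c.2) then (((c.1 - c.2) / 2, (c.1 + c.2) / 2), false)
    else (((c.1 - c.2 - 1) / 2, (c.1 + c.2 + 1) / 2), true)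
  let g : ℤ × ℤ → Bool ≃ Bool := fun c => if Even (c.1 + c.2) then Equiv.refl _ else notE
  have hφ : Function.Injective φ := by
    rintro ⟨a, b⟩ ⟨c, d⟩ h
    simp only [φ, Int.even_iff] at h
    split_ifs at h <;> simp only [Prod.mk.injEq] at h ⊢ <;> first | omega | simp at h
  have hL : Loc {τ : TC | (fun c => g c (τ c)) ∈ A} := by
    obtain ⟨S, hS, h⟩ := hA
    exact ⟨S, hS, fun _ _ hω h1 => h (fun c hc => by rw [hω c hc]) h1⟩
  have e : ∀ ω : Cfg, tm ω = fun c => g c (ω (φ c)) := fun ω => funext fun c => by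
    simp only [tm, φ, g]
    split_ifs <;> rfl
  simp only [e]
  exact (Pr_comp_inj (fun _ => hf) hφ hL).trans (Pr_equiv g hA)

theorem out_of {e : ℤ} {τ : TC} {ω : Cfg} (hR : Rel e τ ω) (he : e ≤ 1) {n h : ℕ} {x : V}
    {a : ℤ × ℤ} (ha : a = co e x)
    (h1 : ∃ b : ℤ × ℤ, b.1 = (2 * n + 1 : ℕ) ∧ TConn τ (Reg (2 * n + 1) h) a b) :
    Out ω (dh (-e)) x n := by
  obtain ⟨b, h2, h3⟩ := h1
  obtain ⟨y, rfl, h4⟩ := toConn hR (fun c hc => hc.1) (ha ▸ h3)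
  refine ⟨y, ?_, h4⟩
  simp only [co] at h2
  rw [le_max_iff, le_abs, le_abs]
  omega

theorem of_out {e : ℤ} {τ : TC} {ω : Cfg} (hR : Rel e τ ω) (he : e ≤ 1) (he' : 0 ≤ e) {n i : ℕ}
    {x : V} (ha : ((0 : ℤ), (i : ℤ)) = co e x) (hi : i ≤ n) (h1 : Out ω (dh (-e)) x n) :
    ∃ b : ℤ × ℤ, (b.1 = n ∨ |b.2| = n) ∧ TConn τ (Reg n n) (0, i) b := by
  obtain ⟨y, h2, h3⟩ := h1
  have h4 : y ∈ dh (-e) := h3.mem (by
    simp only [co, Prod.mk.injEq] at ha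
    simp only [dh, Set.mem_ofPred_eq]
    omega)
  refine TConn.to_box (ha ▸ ofConn hR h3) (fun c hc => hc) ?_ hi
  simp only [dh, Set.mem_ofPred_eq] at h4
  rw [le_max_iff, le_abs, le_abs] at h2
  simp only [co, le_abs]
  omega

end CmpA

open CmpA

theorem s_Cmp : S_Cmp := by
  intro j m h
  constructor
  · refine indep (loc_line j m h) (dep_line j m h) (j + 1, 1)
      (Finset.Ico (0 : ℤ) (j + 1) ×ˢ Finset.Ico (0 : ℤ) (j + 1)) (by simp [sq]) (fun c hc => ?_)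
      fun τ h1 h2 i hi hi' => ?_
    · simp only [Reg, Set.mem_ofPred_eq] at hc
      simp only [Finset.mem_product, Finset.mem_Ico, Prod.fst_add]
      omega
    obtain ⟨b, h3, h4⟩ := h1 (j - i) (by omega)
    refine ⟨b + ((j : ℤ) + 1, (1 : ℤ)), by simp only [Prod.fst_add]; omega, TConn.trans' ?_
      (h4.shift fun c hc => ?_)⟩
    · have := diag (τ := τ) (S := DReg (j + 1) m (h + j + 2)) i 0 (j + 1 - i) fun s hs =>
        ⟨h2 _ (by simp only [Finset.mem_product, Finset.mem_Ico]; omega),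
          by simp only [DReg, Set.mem_ofPred_eq]; omega⟩
      rwa [show ((i : ℤ) + (j + 1 - i : ℕ), (0 : ℤ) + (j + 1 - i : ℕ)) =
        ((0 : ℤ), ((j - i : ℕ) : ℤ)) + ((j : ℤ) + 1, (1 : ℤ)) by
          simp only [Prod.mk_add_mk, Prod.mk.injEq]; omega] at this
    · simp only [Reg, DReg, Set.mem_ofPred_eq, Prod.fst_add, Prod.snd_add] at hc ⊢
      omega
  · refine indep (loc_stepE (j + 1) m h) (dep_stepE (j + 1) m h) (0, j)
      (Finset.Ico (0 : ℤ) (j + 1) ×ˢ Finset.Ico (0 : ℤ) j) (by simp [sq]) (fun c hc => ?_)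
      fun τ h1 h2 i hi => ?_
    · simp only [DReg, Set.mem_ofPred_eq] at hc
      simp only [Finset.mem_product, Finset.mem_Ico, Prod.fst_add, Prod.snd_add]
      omega
    obtain ⟨b, h3, h4⟩ := h1 (j - i) (by omega) (by omega)
    refine ⟨b + (0, (j : ℤ)), by simp only [Prod.fst_add]; omega, TConn.trans' ?_
      (h4.shift fun c hc => ?_)⟩
    · have := diag (τ := τ) (S := Reg (m + j + 1) (h + j + 1)) 0 i (j - i) fun s hs =>
        ⟨h2 _ (by simp only [Finset.mem_product, Finset.mem_Ico]; omega),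
          by simp only [Reg, Set.mem_ofPred_eq]; omega⟩
      rwa [show ((0 : ℤ) + (j - i : ℕ), (i : ℤ) + (j - i : ℕ)) =
        (((j - i : ℕ) : ℤ), (0 : ℤ)) + ((0 : ℤ), (j : ℤ)) by
          simp only [Prod.mk_add_mk, Prod.mk.injEq]; omega] at this
    · simp only [Reg, DReg, Set.mem_ofPred_eq, Prod.fst_add, Prod.snd_add] at hc ⊢
      omega

theorem s_Tm : S_Tm := by
  intro j n h
  refine ⟨?_, fun hj => ?_⟩
  · rw [crit_real, ← Pt_tm (loc_line _ _ _)]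
    refine Pr_mono fun ω hω l => ⟨fun hl => ?_, fun hl => ?_⟩
    · exact out_of (rel0 ω) (by norm_num) (by simp only [co, Prod.mk.injEq]; omega) (hω _ hl)
    · exact out_of (rel1 ω) (by norm_num) (by simp only [co, Prod.mk.injEq]; omega) (hω _ hl)
  · rw [crit_real, ← Pt_tm (loc_box _ _ _)]
    refine Pr_mono fun ω hω i hi => ?_
    obtain ⟨l, rfl | rfl⟩ := Nat.even_or_odd' i
    · exact of_out (rel0 ω) (by norm_num) le_rfl (by simp only [co, Prod.mk.injEq]; omega) (by omega) ((hω l).1 hi)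
    · exact of_out (rel1 ω) le_rfl (by norm_num) (by simp only [co, Prod.mk.injEq]; omega) (by omega) ((hω l).2 hi)

end Pool.Agent.P.MP_6c8efb_pr.Arm
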