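import Pool.Agent.P.MP_6c8efb_pr.Defs

/-! Alternating arm events in the diagonal half plane of the square lattice. -/

namespace Pool.Agent.P.MP_6c8efb_pr.Arm

/-- the dual configuration: the vertex `z` stands for the dual vertex `z + (1/2, 1/2)`, and a dual
edge is open exactly when the primal edge it crosses is closed -/
def dual (ω : Cfg) : Cfg := fun e =>
  !ω (if e.2 then (e.1 + (1, 0), false) else (e.1 + (0, 1), true))

/-- the diagonal half plane `c ≤ x + y` -/
def dh (c : ℤ) : Set V := {z | c ≤ z.1 + z.2}

/-- `x` is joined by an open path inside `S` to a vertex of sup norm at least `n` -/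
def Out (ω : Cfg) (S : Set V) (x : V) (n : ℕ) : Prop :=
  ∃ y : V, (n : ℤ) ≤ max |y.1| |y.2| ∧ Conn ω S x y

/-- the alternating `j`-arm event in the half plane `0 ≤ x + y`: the points `(-i/2, i/2)`, `i < j`,
of the boundary line are alternately primal and dual vertices, and each of them is joined inside
the half plane to distance `n`, by an open path and by a dual-open path respectively -/
def arms (j n : ℕ) : Set Cfg := {ω | ∀ l : ℕ,
  (2 * l < j → Out ω (dh 0) (-l, l) n) ∧ (2 * l + 1 < j → Out (dual ω) (dh (-1)) (-l - 1, l) n)}

end Pool.Agent.P.MP_6c8efb_pr.Arm
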