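import Pool.Agent.P.MP_6c8efb_pr.Arm.Link2
import Pool.Agent.P.MP_6c8efb_pr.Arm.Stmt
import Pool.Agent.P.MP_6c8efb_pr.Prob

/-! Definitions for the exact solution of the arm events in the diagonal strip. -/

open Polynomial

namespace Pool.Agent.P.MP_6c8efb_pr.Arm

/-! ### The loop model -/

/-- a primitive cube root of unity -/
noncomputable def q : ℂ := ⟨-1 / 2, Real.sqrt 3 / 2⟩

theorem q_eq : q ^ 2 + q + 1 = 0 := by
  have h : Real.sqrt 3 * Real.sqrt 3 = 3 := Real.mul_self_sqrt (by norm_num)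
  apply Complex.ext <;> simp [q, pow_two] <;> nlinarith

theorem q_cube : q ^ 3 = 1 := by linear_combination (q - 1) * q_eq
theorem q_ne_zero : q ≠ 0 := fun h => by simpa [h] using q_eq
theorem q_ne_one : q ≠ 1 := fun h => by have := q_eq; rw [h] at this; norm_num at this
theorem q_inv : q⁻¹ = q ^ 2 := inv_eq_of_mul_eq_one_right (by linear_combination q_cube)
theorem q_sq_ne : q ^ 2 ≠ q := fun h => q_ne_one (mul_left_cancel₀ q_ne_zero (by linear_combination h))
theorem norm_q : ‖q‖ = 1 := by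
  have h : ‖q‖ ^ 3 = 1 := by rw [← norm_pow, q_cube, norm_one]
  exact (pow_eq_one_iff_of_nonneg (norm_nonneg _) (by norm_num)).1 h

/-- formal combinations of link patterns -/
abbrev W := St →₀ ℂ

/-- the linear map induced by a map of patterns -/
noncomputable def lm (f : St → St) : Module.End ℂ W := Finsupp.lmapDomain ℂ ℂ f

noncomputable def Cup (i : ℕ) : Module.End ℂ W := lm (cup i)
noncomputable def Cap (i : ℕ) : Module.End ℂ W := lm (cap i)
noncomputable def Ee (i : ℕ) : Module.End ℂ W := lm (ee i)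

/-- the sum of the coefficients -/
noncomputable def tot : W →ₗ[ℂ] ℂ := Finsupp.linearCombination ℂ fun _ => 1

/-- the sum of the norms of the coefficients -/
noncomputable def n1 (v : W) : ℝ := v.sum fun _ c => ‖c‖

/-- supported on the patterns on `L` sites -/
def Sup (L : ℕ) (v : W) : Prop := ∀ p, v p ≠ 0 → Bd L p

noncomputable def ah (x : ℂ) : ℂ := -q * (1 + q * x)
noncomputable def ac (x : ℂ) : ℂ := -q * (q + x)

/-- one tile of a row -/
noncomputable def R (i : ℕ) (x : ℂ) : Module.End ℂ W := ah x • 1 + ac x • Ee i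

/-- a row of tiles, the first one acting at the sites `a, a + 1` -/
noncomputable def row : ℕ → List ℂ → Module.End ℂ W
  | _, [] => 1
  | a, x :: l => row (a + 1) l * R a x

/-- the double row transfer matrix -/
noncomputable def TM (l : List ℂ) : Module.End ℂ W :=
  Cap l.length * Cap (l.length + 1) * row 0 l * row 1 l * Cup 0

/-- its column sums -/
noncomputable def nrm (l : List ℂ) : ℂ := (l.map fun x => (1 + x) ^ 2).prod

/-- invariant vectors -/
def Fix (l : List ℂ) (v : W) : Prop := Sup l.length v ∧ TM l v = nrm l • v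

/-- exchange of two columns -/
noncomputable def Rc (i : ℕ) (x y : ℂ) : Module.End ℂ W :=
  (q ^ 2 * y - x) • 1 + (-q * (x - y)) • Ee i

/-- reflection of the last column -/
noncomputable def Kc (L : ℕ) (x : ℂ) : Module.End ℂ W :=
  (x + q) • 1 + ((1 - q) * (1 - x)) • Cap L

noncomputable def T (x : ℂ) : ℂ := x + x⁻¹

/-- the weight of the pattern `o` -/
noncomputable def Pref : List ℂ → ℂ
  | [] => 1
  | x :: l => (l.map fun y => T (q * y) - T x).prod * Pref l

/-- all entries are non zero -/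
def Nz (l : List ℂ) : Prop := ∀ x ∈ l, x ≠ 0

/-- non resonant parameters -/
def Gen (l : List ℂ) : Prop :=
  (∀ x ∈ l, x ≠ 0 ∧ x ^ 6 ≠ 1) ∧ l.Pairwise fun x y => x ^ 3 ≠ y ^ 3 ∧ x ^ 3 * y ^ 3 ≠ 1

/-- Laurent polynomial functions with exponents between `-d` and `d` -/
def LPd (d : ℕ) (g : ℂ → ℂ) : Prop :=
  ∃ p : ℂ[X], p.natDegree ≤ 2 * d ∧ ∀ t, t ≠ 0 → g t * t ^ d = p.eval t

/-- Laurent polynomial functions -/
def LP1 (g : ℂ → ℂ) : Prop := ∃ d, LPd d g

/-- a Laurent monomial in the entries of a list -/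
noncomputable def mono (n : List ℤ) (l : List ℂ) : ℂ := (List.zipWith (fun k x => x ^ k) n l).prod

/-- Laurent polynomials in `L` variables with all exponents between `-d` and `d` -/
def LPs (L d : ℕ) : Submodule ℂ (List ℂ → ℂ) :=
  Submodule.span ℂ {f | ∃ n : List ℤ, n.length = L ∧ (∀ k ∈ n, |k| ≤ d) ∧ f = mono n}

/-- close to one -/
def Near (ε : ℝ) (x : ℂ) : Prop := x ≠ 0 ∧ ‖x - 1‖ < ε ∧ ‖x⁻¹ - 1‖ < ε

/-- the normalised invariant vector near the homogeneous point -/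
structure Loc1 (L : ℕ) (ε : ℝ) (Ψ : List ℂ → W) : Prop where
  pos : 0 < ε
  small : ε ≤ 1 / 10
  fix : ∀ l, l.length = L → (∀ x ∈ l, Near ε x) → Fix l (Ψ l) ∧ tot (Ψ l) = 1
  exch : ∀ l₁ x y l₂, (l₁ ++ x :: y :: l₂).length = L → (∀ z ∈ l₁ ++ x :: y :: l₂, Near ε z) →
    (q ^ 2 * x - y) • Ψ (l₁ ++ y :: x :: l₂) = Rc l₁.length x y (Ψ (l₁ ++ x :: y :: l₂))
  left : ∀ x l, (x :: l).length = L → (∀ z ∈ x :: l, Near ε z) → Ψ (x⁻¹ :: l) = Ψ (x :: l)
  right : ∀ l x, (l ++ [x]).length = L → (∀ z ∈ l ++ [x], Near ε z) →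
    (1 + q * x) • Ψ (l ++ [x⁻¹]) = Kc l.length x (Ψ (l ++ [x]))

/-- the polynomial solution of the quantum Knizhnik-Zamolodchikov equations -/
structure Sol (F : List ℂ → W) : Prop where
  fix : ∀ l, Nz l → Fix l (F l)
  zero : ∀ l, Nz l → F l o = Pref l
  exch : ∀ l₁ x y l₂, Nz (l₁ ++ x :: y :: l₂) →
    (q ^ 2 * x - y) • F (l₁ ++ y :: x :: l₂) = Rc l₁.length x y (F (l₁ ++ x :: y :: l₂))
  right : ∀ l x, Nz (l ++ [x]) → (1 + q * x) • F (l ++ [x⁻¹]) = Kc l.length x (F (l ++ [x]))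
  deg : ∀ l₁ l₂ p, Nz l₁ → Nz l₂ → LPd (l₁.length + l₂.length) fun t => F (l₁ ++ t :: l₂) p

/-- the factor in the recursion for an arc -/
noncomputable def cA (y : ℂ) (l : List ℂ) : ℂ :=
  (T (q ^ 2 * y) - 1) * (l.map fun x => (T (q ^ 2 * y) - T x) ^ 2).prod

/-- the recursion relations of the solution -/
structure Sol2 (F : List ℂ → W) : Prop where
  arc : ∀ l₁ y l₂, Nz l₁ → Nz l₂ → y ≠ 0 → y ^ 6 ≠ 1 →
    F (l₁ ++ q * y :: y :: l₂) = cA y (l₁ ++ l₂) • Cup l₁.length (F (l₁ ++ l₂))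
  wall : ∀ l, Nz l → F (l ++ [-q ^ 2]) = (l.map fun x => -2 - T x).prod • F l

/-! ### Gluing two half strips -/

/-- the first `a` sites of `p` and the first `b` sites of `r` are legs, the other sites are glued;
all the legs are joined to the wall -/
def Ev (a b : ℕ) (p r : St) : Prop :=
  ∀ f g, Comp p f → Comp r g → (∀ j, f (a + j) = g (b + j)) →
    (∀ i, i < a → f i = 0) ∧ ∀ i, i < b → g i = 0

open Classical in
/-- the bilinear form of the event `Ev` -/
noncomputable def Bil (a b : ℕ) : W →ₗ[ℂ] W →ₗ[ℂ] ℂ :=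
  Finsupp.linearCombination ℂ fun p =>
    Finsupp.linearCombination ℂ fun r => if Ev a b p r then (1 : ℂ) else 0

/-- the weight of the event, with legs `u` above, legs `v` below and glued columns `x` -/
noncomputable def NN (F : List ℂ → W) (u v x : List ℂ) : ℂ :=
  Bil u.length v.length (F (u ++ x.map (·⁻¹))) (F (v ++ x))

/-! ### The determinant -/

/-- `a, b, c` are the three roots of `s ^ 3 - 3 s = u` -/
def Tri (a b c : ℂ) : Prop := a + b + c = 0 ∧ a * b + b * c + c * a = -3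

noncomputable def UU (t : ℂ) : ℂ := t ^ 3 - 3 * t

/-- the divided difference of `f` at the two roots of `s ^ 2 + t s + t ^ 2 - 3` -/
noncomputable def Jv (f : ℂ[X]) (t : ℂ) : ℂ := (f %ₘ (X ^ 2 + C t * X + C (t ^ 2 - 3))).coeff 1

/-- the same as a polynomial in `t` -/
noncomputable def Jp {A : Type} [CommRing A] (f : A[X]) : A[X] :=
  (f.map C %ₘ (X ^ 2 + C X * X + C (X ^ 2 - 3))).coeff 1

noncomputable def DD (ts : List ℂ) (G : ℂ[X]) : ℂ :=
  Matrix.det (Matrix.of fun i j : Fin ts.length =>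
    Jv (G * ((ts.eraseIdx i).map fun s => (X - C s) ^ 2).prod * X ^ (j : ℕ)) ts[i])

noncomputable def VV : List ℂ → ℂ
  | [] => 1
  | t :: ts => (ts.map fun s => UU s - UU t).prod * VV ts

noncomputable def QQ (ts : List ℂ) (G : ℂ[X]) : ℂ := DD ts G / VV ts

/-- non resonant values of `T` -/
def GenT (ts : List ℂ) : Prop := (∀ s ∈ ts, UU s ^ 2 ≠ 4) ∧ ts.Pairwise fun s t => UU s ≠ UU t

noncomputable def GG (l : List ℂ) : ℂ[X] := (X - 1) * (l.map fun y => X - C (T y)).prod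

/-- the polynomial form of the determinant -/
noncomputable def EE {A : Type} [CommRing A] (ts : List A) (G : A[X]) : A :=
  Matrix.det (Matrix.of fun i j : Fin ts.length =>
    (taylor 2 (Jp (G * (X ^ 2 - 4) * (ts.map fun s => (X - C s) ^ 2).prod * (X + 1) ^ (j : ℕ)) %ₘ
      (ts.map fun s => X - C s).prod)).coeff i)

noncomputable def KK : List ℂ → ℂ
  | [] => 1
  | t :: ts => -3 * (t ^ 2 - 1) ^ 2 * (ts.map fun s => s ^ 2 + s * t + t ^ 2 - 3).prod * KK ts

/-- the homogeneous determinant -/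
noncomputable def EH (m K : ℕ) : ℂ :=
  Matrix.det (Matrix.of fun i j : Fin m =>
    (taylor 2 (Jp ((X + 2) * (X - 1) * (X - 2) ^ K * (X + 1) ^ (j : ℕ) : ℂ[X]))).coeff i)

/-- the operator `lam v + (1 - v ^ 2) / 2 d/dv` -/
noncomputable def Dl {A : Type} [CommRing A] [Algebra ℂ A] (lam : A) (g : A[X]) : A[X] :=
  C lam * X * g + C (algebraMap ℂ A (1 / 2)) * (1 - X ^ 2) * derivative g

noncomputable def v0 : ℂ := (q + 1) / (q - 1)

noncomputable def gj (j : ℕ) : ℂ[X] := X ^ 2 * (X ^ 2 + 3) * (3 * X ^ 2 + 1) ^ j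

/-- the matrix of the odd derivatives -/
noncomputable def MM {A : Type} [CommRing A] [Algebra ℂ A] (m : ℕ) (lam : A) :
    Matrix (Fin m) (Fin m) A :=
  Matrix.of fun i j => ((Dl lam)^[2 * (i : ℕ) + 1] ((gj j).map (algebraMap ℂ A))).eval
    (algebraMap ℂ A v0)

/-- the product formula -/
noncomputable def eP {A : Type} [Field A] (m : ℕ) (x : A) : A :=
  (∏ i ∈ Finset.range ((m + 1) / 3),
      ∏ a ∈ Finset.Icc (3 + 3 * i) (m + 1 + (m - 2 - 3 * i) / 2), (x - a)) *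
    ∏ i ∈ Finset.range ((m + 2) / 3),
      ∏ a ∈ Finset.Icc (2 * m + 1 - (m - 1 - 3 * i) / 2) (3 * m - 3 * i), (x - a - 1 / 2)

noncomputable def rho (m k : ℕ) : ℝ := 3 ^ m * eP m (3 * m + k + 3 : ℝ) / eP m (3 * m + k + 2 : ℝ)

/-- the stochastic transfer matrix of critical percolation -/
noncomputable def TB (L : ℕ) : Module.End ℂ W := ((4 : ℂ) ^ L)⁻¹ • TM (List.replicate L 1)

/-- the exact probability -/
noncomputable def PP (F : List ℂ → W) (k m : ℕ) : ℂ :=
  NN F (List.replicate k 1) [] (List.replicate m 1) /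
    (tot (F (List.replicate (k + m) 1)) * tot (F (List.replicate m 1)))

/-! ### Percolation in the rotated coordinates -/

/-- tile configurations: the tile `c` is the unit square with lower left corner `c` -/
abbrev TC := ℤ × ℤ → Bool

/-- probability for independent fair tiles -/
noncomputable def Pt (A : Set TC) : ℝ := Pr (fun _ => hf) A

/-- the two ends of the open diagonal of a tile -/
def ends (τ : TC) (c : ℤ × ℤ) : (ℤ × ℤ) × (ℤ × ℤ) :=
  if τ c then (c, (c.1 + 1, c.2 + 1)) else ((c.1 + 1, c.2), (c.1, c.2 + 1))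

def link (τ : TC) (S : Set (ℤ × ℤ)) (a b : ℤ × ℤ) : Prop :=
  ∃ c ∈ S, ends τ c = (a, b) ∨ ends τ c = (b, a)

/-- joined by open diagonals of tiles of `S` -/
def TConn (τ : TC) (S : Set (ℤ × ℤ)) : ℤ × ℤ → ℤ × ℤ → Prop := Relation.ReflTransGen (link τ S)

def Reg (n h : ℕ) : Set (ℤ × ℤ) := {c | 0 ≤ c.1 ∧ c.1 < n ∧ -(h : ℤ) ≤ c.2 ∧ c.2 < h}

def box (j n h : ℕ) : Set TC :=
  {τ | ∀ i : ℕ, i < j → ∃ b : ℤ × ℤ, (b.1 = n ∨ |b.2| = h) ∧ TConn τ (Reg n h) (0, i) b}

def line (j n h : ℕ) : Set TC :=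
  {τ | ∀ i : ℕ, i < j → ∃ b : ℤ × ℤ, b.1 = n ∧ TConn τ (Reg n h) (0, i) b}

/-- the strip with a step of width `k` -/
def DReg (k m h : ℕ) : Set (ℤ × ℤ) :=
  {c | c.1 < k + m ∧ -(h : ℤ) ≤ c.2 ∧ c.2 < h ∧ 0 ≤ c.1 ∧ (c.2 < 0 → (k : ℤ) ≤ c.1)}

def stepE (k m h : ℕ) : Set TC :=
  {τ | ∀ i : ℕ, 1 ≤ i → i < k → ∃ b : ℤ × ℤ, b.1 = k + m ∧ TConn τ (DReg k m h) (i, 0) b}

/-- crossing of the strip `0 ≤ s < w` between the heights `t` and `t + h` -/
def vert (w : ℕ) (t : ℤ) (h : ℕ) : Set TC :=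
  {τ | ∃ a b : ℤ × ℤ, a.2 = t ∧ b.2 = t + h ∧
    TConn τ {c | 0 ≤ c.1 ∧ c.1 < w ∧ t ≤ c.2 ∧ c.2 < t + h} a b}

/-- the tile configuration of a bond configuration -/
def tm (ω : Cfg) : TC := fun c =>
  if Even (c.1 + c.2) then ω (((c.1 - c.2) / 2, (c.1 + c.2) / 2), false)
  else !ω (((c.1 - c.2 - 1) / 2, (c.1 + c.2 + 1) / 2), true)

/-- the first `n` tiles of a row acting on a pattern, the first one at the sites `a, a + 1` -/
def rowS (b : ℕ → Bool) (a : ℕ) : ℕ → St → St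
  | 0, p => p
  | n + 1, p => if b n then ee (a + n) (rowS b a n p) else rowS b a n p

/-- a double row acting on a pattern -/
def dbl (L : ℕ) (b₁ b₂ : ℕ → Bool) (p : St) : St :=
  cap L (cap (L + 1) (rowS b₂ 0 L (rowS b₁ 1 L (cup 0 p))))

/-- the pattern seen at height `2 r` from the `n` double rows above it -/
def top (L : ℕ) (τ : TC) : ℕ → ℕ → St
  | _, 0 => o
  | r, n + 1 => dbl L (fun s => τ (s, 2 * r + 1)) (fun s => τ (s, 2 * r)) (top L τ (r + 1) n)

/-- reflection of the lower half strip -/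
def flipB (k : ℕ) (τ : TC) : TC := fun c => !τ (k + c.1, -1 - c.2)

def EvN (k m n : ℕ) : Set TC := {τ | Ev k 0 (top (k + m) τ 0 n) (top m (flipB k τ) 0 n)}

/-- colourings of the mid points of the sides of the tiles in the rows `0, ..., 2 n - 1`, constant
along the strands: `fH s t` is the colour of the lower side and `fV s t` of the left side of the
tile `(s, t)` -/
structure Col (L : ℕ) (τ : TC) (n : ℕ) (fH fV : ℕ → ℕ → ZMod 2) : Prop where
  tt : ∀ s t, s < L → t < 2 * n → τ (s, t) = true → fV s t = fH s (t + 1) ∧ fH s t = fV (s + 1) t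
  ff : ∀ s t, s < L → t < 2 * n → τ (s, t) = false → fV s t = fH s t ∧ fH s (t + 1) = fV (s + 1) t
  cups : ∀ r, r < n → fV 0 (2 * r) = fV 0 (2 * r + 1)
  wall : ∀ t, t < 2 * n → fV L t = 0
  roof : ∀ s, s < L → fH s (2 * n) = 0

/-- the row `t` is a zigzag between the columns `a` and `b` -/
def Alt (τ : TC) (a b t : ℤ) : Prop := ∀ s, a ≤ s → s < b → τ (s, t) = decide (Even s)

/-- indicator with values in `ZMod 2` -/
def ind (P : Prop) [Decidable P] : ZMod 2 := if P then 1 else 0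

/-- the crossing parity function of a path from `a` to `b` made of diagonals of tiles of `S` -/
structure Par (τ : TC) (S : Set (ℤ × ℤ)) (a b : ℤ × ℤ) (J : ℤ × ℤ → ZMod 2) : Prop where
  down : ∀ s t : ℤ, Odd (s + t + a.1 + a.2) →
    J (s, t) + J (s, t - 1) = ind (a.2 = t ∧ s < a.1) + ind (b.2 = t ∧ s < b.1)
  left : ∀ s t : ℤ, (∀ c ∈ S, c.2 = t → s ≤ c.1) → J (s, t) = ind (a.2 ≤ t) + ind (b.2 ≤ t)
  right : ∀ s t : ℤ, (∀ c ∈ S, c.2 = t → c.1 < s) → J (s, t) = 0
  step : ∀ c : ℤ × ℤ, Odd ((ends τ c).1.1 + (ends τ c).1.2 + a.1 + a.2) →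
    J (ends τ c).1 + J (ends τ c).2 =
      ind (a.2 = c.2 + 1 ∧ c.1 < a.1) + ind (b.2 = c.2 + 1 ∧ c.1 < b.1)

end Pool.Agent.P.MP_6c8efb_pr.Arm
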