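import Pool.Agent.P.MP_6c8efb_pr.Arm.Iface

/-! The degree of the homogeneous determinant and the multiplicity of its roots. -/

open Polynomial

namespace Pool.Agent.P.MP_6c8efb_pr.Arm

namespace E2A

theorem Dl_map {A B : Type} [CommRing A] [Algebra ℂ A] [CommRing B] [Algebra ℂ B] (φ : A →ₐ[ℂ] B)
    (lam : A) (g : A[X]) : (Dl lam g).map (φ : A →+* B) = Dl (φ lam) (g.map (φ : A →+* B)) := by
  simp only [Dl, Polynomial.map_add, Polynomial.map_mul, Polynomial.map_sub, Polynomial.map_pow,
    map_C, map_X, Polynomial.map_one, derivative_map, RingHom.coe_coe, AlgHom.commutes]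

theorem Dl_iter_map {A B : Type} [CommRing A] [Algebra ℂ A] [CommRing B] [Algebra ℂ B]
    (φ : A →ₐ[ℂ] B) (lam : A) (n : ℕ) (g : A[X]) :
    ((Dl lam)^[n] g).map (φ : A →+* B) = (Dl (φ lam))^[n] (g.map (φ : A →+* B)) := by
  induction n with
  | zero => rfl
  | succ n ih => rw [Function.iterate_succ_apply', Function.iterate_succ_apply', Dl_map, ih]

theorem MM_map {A B : Type} [CommRing A] [Algebra ℂ A] [CommRing B] [Algebra ℂ B]
    (φ : A →ₐ[ℂ] B) (m : ℕ) (lam : A) : (MM m lam).map φ = MM m (φ lam) := by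
  ext i j
  simp only [MM, Matrix.map_apply, Matrix.of_apply]
  have h := Dl_iter_map φ lam (2 * (i : ℕ) + 1) ((gj j).map (algebraMap ℂ A))
  rw [Polynomial.map_map, φ.comp_algebraMap] at h
  rw [← h, ← φ.commutes v0, eval_map]
  exact (eval₂_at_apply (φ : A →+* B) _).symm

/-- sums of terms `lam ^ a * G` with `G` vanishing to the order `j - r` and `a + r ≤ n` -/
inductive Gd (j n : ℕ) : ℂ[X][X] → Prop
  | gen (a r : ℕ) (G : ℂ[X]) : a + r ≤ n → (X - C v0) ^ (j - r) ∣ G →
      Gd j n (C (X ^ a) * G.map C)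
  | add {F F' : ℂ[X][X]} : Gd j n F → Gd j n F' → Gd j n (F + F')

theorem Gd.step {j n : ℕ} {F : ℂ[X][X]} (h : Gd j n F) : Gd j (n + 1) (Dl X F) := by
  induction h with
  | gen a r G h1 h2 =>
    have e : Dl (X : ℂ[X]) (C (X ^ a) * G.map C) = C (X ^ (a + 1)) * (X * G).map C +
        C (X ^ a) * (C (1 / 2) * (1 - X ^ 2) * derivative G).map C := by
      simp only [Dl, Polynomial.map_mul, Polynomial.map_sub, Polynomial.map_pow, map_C, map_X,
        Polynomial.map_one, derivative_C_mul, derivative_map, pow_succ, C_mul, algebraMap_eq]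
      ring
    rw [e]
    refine .add (.gen (a + 1) r _ (by omega) (h2.mul_left _)) (.gen a (r + 1) _ (by omega) ?_)
    rw [← Nat.sub_sub]
    exact (pow_sub_one_dvd_derivative_of_pow_dvd h2).mul_left _
  | @add F F' _ _ h1 h2 =>
    have e : Dl (X : ℂ[X]) (F + F') = Dl X F + Dl X F' := by
      simp only [Dl, derivative_add]
      ring
    rw [e]
    exact h1.add h2

theorem Gd.deg {j n : ℕ} {F : ℂ[X][X]} (h : Gd j n F) :
    (X ^ j * F.eval (C v0)).natDegree ≤ n := by
  induction h with
  | gen a r G h1 h2 =>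
    rw [eval_mul, eval_C, eval_map, eval₂_at_apply]
    by_cases hr : r < j
    · have : G.eval v0 = 0 := dvd_iff_isRoot.1 ((dvd_pow_self _ (by omega)).trans h2)
      simp [this]
    · rw [← mul_assoc, ← pow_add, mul_comm]
      exact (natDegree_C_mul_X_pow_le _ _).trans (by omega)
  | add _ _ h1 h2 =>
    rw [eval_add, mul_add]
    exact natDegree_add_le_of_degree_le h1 h2

theorem v0_eq : 3 * v0 ^ 2 + 1 = 0 := by
  have h : q - 1 ≠ 0 := sub_ne_zero.2 q_ne_one
  unfold v0
  field_simp
  linear_combination 4 * q_eq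

theorem gd_iter (j n : ℕ) : Gd j n ((Dl X)^[n] ((gj j).map C)) := by
  induction n with
  | zero =>
    have h : (X - C v0) ^ (j - 0) ∣ gj j :=
      (pow_dvd_pow_of_dvd (dvd_iff_isRoot.2 (by simpa using v0_eq)) j).mul_left _
    simpa using Gd.gen 0 0 (gj j) le_rfl h
  | succ n ih =>
    rw [Function.iterate_succ_apply']
    exact ih.step

theorem extend {m d : ℕ} {w : Fin d → Fin m → ℂ} (hw : LinearIndependent ℂ w) (n : ℕ) (h : d ≤ n)
    (hn : n ≤ m) : ∃ b : Fin n → Fin m → ℂ, LinearIndependent ℂ b ∧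
      ∀ r, b (Fin.castLE h r) = w r := by
  induction n, h using Nat.le_induction with
  | base => exact ⟨w, hw, fun _ => rfl⟩
  | succ n h ih =>
    obtain ⟨b, h1, h2⟩ := ih (by omega)
    obtain ⟨x, hx⟩ := exists_linearIndependent_snoc_of_lt_finrank h1 (by simpa using hn)
    refine ⟨_, hx, fun r => ?_⟩
    rw [← h2 r]
    exact Fin.snoc_castSucc (α := fun _ => Fin m → ℂ) x b (Fin.castLE h r)

end E2A

open E2A

theorem s_E2 : S_E2 := by
  intro m
  refine ⟨?_, fun a => ?_⟩
  · by_cases h0 : (MM m (X : ℂ[X])).det = 0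
    · simp [h0]
    have h1 := Matrix.det_mul_row (fun j : Fin m => (X : ℂ[X]) ^ (j : ℕ)) (MM m (X : ℂ[X]))
    have h2 : (Matrix.det (Matrix.of fun i j : Fin m =>
        (X : ℂ[X]) ^ (j : ℕ) * MM m (X : ℂ[X]) i j)).natDegree ≤ ∑ i : Fin m, (2 * (i : ℕ) + 1) := by
      rw [Matrix.det_apply]
      refine natDegree_sum_le_of_forall_le _ _ fun σ _ => (natDegree_smul_le _ _).trans ?_
      refine (natDegree_prod_le _ _).trans ?_
      rw [← Equiv.sum_comp σ fun i : Fin m => 2 * (i : ℕ) + 1]
      exact Finset.sum_le_sum fun i _ => (gd_iter i (2 * (σ i : ℕ) + 1)).deg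
    rw [h1, Finset.prod_pow_eq_pow_sum, natDegree_X_pow_mul _ h0, Finset.sum_add_distrib,
      ← Finset.mul_sum] at h2
    have h3 := Finset.sum_range_id_mul_two m
    rw [← Fin.sum_univ_eq_sum_range fun i => i] at h3
    simp only [Finset.sum_const, Finset.card_univ, Fintype.card_fin, smul_eq_mul, mul_one] at h2
    have h4 : m * (m + 1) = m * (m - 1) + 2 * m := by
      cases m with
      | zero => rfl
      | succ m => simp only [Nat.add_sub_cancel]; ring
    omega
  · simpa [coe_aeval_eq_eval] using MM_map (aeval a : ℂ[X] →ₐ[ℂ] ℂ) m X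

theorem s_Mult : S_Mult := by
  intro m d M a w hw h
  have hd : d ≤ m := by simpa using hw.fintype_card_le_finrank
  obtain ⟨b, h1, h2⟩ := extend hw m hd le_rfl
  have hP : IsUnit (Matrix.of b).transpose.det := by
    rw [Matrix.det_transpose, ← Matrix.isUnit_iff_isUnit_det]
    exact Matrix.linearIndependent_rows_iff_isUnit.1 h1
  set N := M * (Matrix.of b).transpose.map C with hN
  have e : N = Matrix.of fun i j : Fin m => (if (j : ℕ) < d then X - C a else 1) *
      (Matrix.of fun i j : Fin m => if (j : ℕ) < d then N i j /ₘ (X - C a) else N i j) i j := by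
    ext1 i j
    simp only [Matrix.of_apply]
    split_ifs with hj
    · refine (mul_divByMonic_eq_iff_isRoot.2 ?_).symm
      have h3 := congrFun (h ⟨j, hj⟩) i
      rw [← h2] at h3
      simpa [hN, Matrix.mul_apply, Matrix.mulVec, dotProduct, eval_finsetSum] using h3
    · rw [one_mul]
  have e2 : N.det = M.det * C (Matrix.of b).transpose.det := by
    rw [hN, Matrix.det_mul, RingHom.map_det]
    rfl
  have e3 : (X - C a) ^ d ∣ N.det := by
    rw [e, Matrix.det_mul_row, Finset.prod_ite, Finset.prod_const, Finset.prod_const_one, mul_one,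
      Fin.card_filter_val_lt, min_eq_right hd]
    exact dvd_mul_right _ _
  rw [e2] at e3
  exact (hP.map C).dvd_mul_right.1 e3

end Pool.Agent.P.MP_6c8efb_pr.Arm
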