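import Pool.Agent.P.MP_6c8efb_pr.Arm.Basic

/-! Elementary facts on connections by open diagonals of tiles. -/

namespace Pool.Agent.P.MP_6c8efb_pr.Arm

variable {τ τ' : TC} {S S' : Set (ℤ × ℤ)} {a b c : ℤ × ℤ}

theorem link.symm (h : link τ S a b) : link τ S b a := let ⟨c, hc, e⟩ := h; ⟨c, hc, e.symm⟩

/-- the four kinds of steps -/
theorem link_iff : link τ S a b ↔ ∃ s t : ℤ, (s, t) ∈ S ∧
    (τ (s, t) = true ∧ (a = (s, t) ∧ b = (s + 1, t + 1) ∨ b = (s, t) ∧ a = (s + 1, t + 1)) ∨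
      τ (s, t) = false ∧ (a = (s + 1, t) ∧ b = (s, t + 1) ∨ b = (s + 1, t) ∧ a = (s, t + 1))) := by
  constructor
  · rintro ⟨⟨s, t⟩, hc, e⟩
    refine ⟨s, t, hc, ?_⟩
    cases h : τ (s, t) <;> simp only [ends, h] at e <;> simp at e ⊢ <;> tauto
  · rintro ⟨s, t, hc, ⟨h, e⟩ | ⟨h, e⟩⟩ <;> refine ⟨(s, t), hc, ?_⟩ <;>
      rcases e with ⟨rfl, rfl⟩ | ⟨rfl, rfl⟩ <;> simp [ends, h]

theorem link_ends (hc : c ∈ S) : link τ S (ends τ c).1 (ends τ c).2 := ⟨c, hc, Or.inl rfl⟩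

theorem link.mono (h : link τ S a b) (hS : S ⊆ S') (hτ : ∀ c ∈ S, τ c = τ' c) : link τ' S' a b := by
  obtain ⟨c, hc, e⟩ := h
  exact ⟨c, hS hc, by simpa only [ends, hτ c hc] using e⟩

theorem TConn.refl' : TConn τ S a a := Relation.ReflTransGen.refl
theorem TConn.trans' (h : TConn τ S a b) (h' : TConn τ S b c) : TConn τ S a c :=
  Relation.ReflTransGen.trans h h'
theorem link.conn (h : link τ S a b) : TConn τ S a b := Relation.ReflTransGen.single h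
theorem TConn.snoc (h : TConn τ S a b) (h' : link τ S b c) : TConn τ S a c :=
  Relation.ReflTransGen.tail h h'

theorem TConn.ind {P : ℤ × ℤ → Prop} (h : TConn τ S a b) (h0 : P a)
    (hs : ∀ x y, TConn τ S a x → link τ S x y → P x → P y) : P b := by
  induction h with
  | refl => exact h0
  | tail h1 h2 ih => exact hs _ _ h1 h2 ih

theorem TConn.symm' (h : TConn τ S a b) : TConn τ S b a :=
  h.ind (P := fun x => TConn τ S x a) .refl' fun _ _ _ h2 ih => h2.symm.conn.trans' ih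

theorem TConn.mono (h : TConn τ S a b) (hS : S ⊆ S') (hτ : ∀ c ∈ S, τ c = τ' c) : TConn τ' S' a b :=
  h.ind (P := fun x => TConn τ' S' a x) .refl' fun _ _ _ h2 ih => ih.snoc (h2.mono hS hτ)

theorem TConn.mono_set (h : TConn τ S a b) (hS : S ⊆ S') : TConn τ S' a b := h.mono hS fun _ _ => rfl

theorem link.abs (h : link τ S a b) : |a.1 - b.1| = 1 ∧ |a.2 - b.2| = 1 := by
  obtain ⟨s, t, -, ⟨-, e⟩ | ⟨-, e⟩⟩ := link_iff.1 h <;> rcases e with ⟨rfl, rfl⟩ | ⟨rfl, rfl⟩ <;> simp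

/-- the colour of the corners is constant along a path -/
theorem TConn.even (h : TConn τ S a b) : Even (a.1 + a.2 + b.1 + b.2) :=
  h.ind (P := fun x => Even (a.1 + a.2 + x.1 + x.2)) ⟨a.1 + a.2, by ring⟩ fun x y _ h2 ih => by
    obtain ⟨h3, h4⟩ := h2.abs
    rw [abs_eq (by norm_num)] at h3 h4
    rw [Int.even_iff] at ih ⊢; omega

/-- stopping a path at the first exit from a set `A` of corners: the tiles used before have an end
of their open diagonal in `A` -/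
theorem TConn.exit {A : Set (ℤ × ℤ)} (h : TConn τ S a b) (ha : a ∈ A) (hb : b ∉ A)
    (hS : ∀ c ∈ S, (ends τ c).1 ∈ A ∨ (ends τ c).2 ∈ A → c ∈ S') :
    ∃ x y, x ∈ A ∧ y ∉ A ∧ TConn τ S' a x ∧ link τ S' x y := by
  have := h.ind (P := fun z => (z ∈ A ∧ TConn τ S' a z) ∨
      ∃ x y, x ∈ A ∧ y ∉ A ∧ TConn τ S' a x ∧ link τ S' x y) (Or.inl ⟨ha, .refl'⟩) (by
    rintro x y - ⟨c, hc, e⟩ (⟨h1, h2⟩ | h1)
    · have l : link τ S' x y := ⟨c, hS c hc (by rcases e with e | e <;> simp [e, h1]), e⟩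
      by_cases hy : y ∈ A
      · exact Or.inl ⟨hy, h2.snoc l⟩
      · exact Or.inr ⟨x, y, h1, hy, h2, l⟩
    · exact Or.inr h1)
  exact this.resolve_left fun e => hb e.1

/-- transport along a map of tiles and corners -/
theorem TConn.map (h : TConn τ S a b) (f g : ℤ × ℤ → ℤ × ℤ) (hS : ∀ c ∈ S, g c ∈ S')
    (he : ∀ c ∈ S, ends τ' (g c) = (f (ends τ c).1, f (ends τ c).2) ∨
      ends τ' (g c) = (f (ends τ c).2, f (ends τ c).1)) : TConn τ' S' (f a) (f b) :=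
  h.ind (P := fun x => TConn τ' S' (f a) (f x)) .refl' fun x y _ ⟨c, hc, e⟩ ih =>
    ih.snoc ⟨g c, hS c hc, by rcases e with e | e <;> rcases he c hc with e' | e' <;> simp [e', e]⟩

/-- translation -/
theorem TConn.shift {v : ℤ × ℤ} (h : TConn (fun c => τ (c + v)) S a b) (hS : ∀ c ∈ S, c + v ∈ S') :
    TConn τ S' (a + v) (b + v) :=
  h.map (· + v) (· + v) hS fun c _ => Or.inl (by
    unfold ends; split_ifs <;> simp [Prod.ext_iff] <;> omega)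

theorem dep_tconn (S : Set (ℤ × ℤ)) (r : ℤ × ℤ → ℤ × ℤ → Prop) :
    Dep {τ : TC | ∃ a b, r a b ∧ TConn τ S a b} S :=
  fun _ _ hτ ⟨a, b, h1, h2⟩ => ⟨a, b, h1, h2.mono subset_rfl hτ⟩

theorem rect_finite (a b c d : ℤ) : {z : ℤ × ℤ | a ≤ z.1 ∧ z.1 < b ∧ c ≤ z.2 ∧ z.2 < d}.Finite :=
  ((Set.finite_Ico a b).prod (Set.finite_Ico c d)).subset fun _ hz =>
    ⟨⟨hz.1, hz.2.1⟩, hz.2.2.1, hz.2.2.2⟩

theorem Reg_finite (n h : ℕ) : (Reg n h).Finite := rect_finite _ _ _ _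

theorem DReg_finite (k m h : ℕ) : (DReg k m h).Finite :=
  (rect_finite 0 (k + m) (-h) h).subset fun _ hz => ⟨hz.2.2.2.1, hz.1, hz.2.1, hz.2.2.1⟩

theorem dep_box (j n h : ℕ) : Dep (box j n h) (Reg n h) := fun _ _ hτ h1 i hi =>
  let ⟨b, h2, h3⟩ := h1 i hi; ⟨b, h2, h3.mono subset_rfl hτ⟩
theorem dep_line (j n h : ℕ) : Dep (line j n h) (Reg n h) := fun _ _ hτ h1 i hi =>
  let ⟨b, h2, h3⟩ := h1 i hi; ⟨b, h2, h3.mono subset_rfl hτ⟩
theorem dep_stepE (k m h : ℕ) : Dep (stepE k m h) (DReg k m h) := fun _ _ hτ h1 i hi hi' =>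
  let ⟨b, h2, h3⟩ := h1 i hi hi'; ⟨b, h2, h3.mono subset_rfl hτ⟩
theorem dep_vert (w : ℕ) (t : ℤ) (h : ℕ) :
    Dep (vert w t h) {c | 0 ≤ c.1 ∧ c.1 < w ∧ t ≤ c.2 ∧ c.2 < t + h} :=
  fun _ _ hτ ⟨a, b, h1, h2, h3⟩ => ⟨a, b, h1, h2, h3.mono subset_rfl hτ⟩

theorem loc_box (j n h : ℕ) : Loc (box j n h) := (dep_box j n h).loc (Reg_finite n h)
theorem loc_line (j n h : ℕ) : Loc (line j n h) := (dep_line j n h).loc (Reg_finite n h)
theorem loc_stepE (k m h : ℕ) : Loc (stepE k m h) := (dep_stepE k m h).loc (DReg_finite k m h)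
theorem loc_vert (w : ℕ) (t : ℤ) (h : ℕ) : Loc (vert w t h) :=
  (dep_vert w t h).loc (rect_finite _ _ _ _)

theorem Pt_mono {A B : Set TC} (h : A ⊆ B) : Pt A ≤ Pt B := Pr_mono h
theorem Pt_nonneg (A : Set TC) : 0 ≤ Pt A := Pr_nonneg _ A
theorem Pt_le_one (A : Set TC) : Pt A ≤ 1 := Pr_le_one _ A

@[simp] theorem wt_hf (x : Bool) : wt hf x = 1 / 2 := by cases x <;> norm_num [wt, hf]

/-- invariance of the law under an injective reindexing of the tiles -/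
theorem Pt_comp {φ : ℤ × ℤ → ℤ × ℤ} (hφ : Function.Injective φ) {A : Set TC} (hA : Loc A) :
    Pt {τ | (fun c => τ (φ c)) ∈ A} = Pt A := Pr_comp_inj _ hφ hA

/-- the negation of a bit -/
def notE : Bool ≃ Bool := ⟨not, not, Bool.not_not, Bool.not_not⟩

/-- the same with all the tiles flipped -/
theorem Pt_comp_not {φ : ℤ × ℤ → ℤ × ℤ} (hφ : Function.Injective φ) {A : Set TC} (hA : Loc A) :
    Pt {τ | (fun c => !τ (φ c)) ∈ A} = Pt A :=
  (Pr_equiv (fun _ => notE) (hA.comp φ)).trans (Pt_comp hφ hA)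

theorem Pt_cyl (J : Finset (ℤ × ℤ)) (η : TC) : Pt {τ | ∀ c ∈ J, τ c = η c} = (1 / 2) ^ J.card := by
  rw [Pt, Pr_cyl]; simp

theorem line_anti {j n n' h h' : ℕ} (hn : n' ≤ n) (hh : h ≤ h') : line j n h ⊆ line j n' h' := by
  intro τ hτ i hi
  obtain ⟨b, h1, h2⟩ := hτ i hi
  rcases Nat.eq_zero_or_pos n' with rfl | h0
  · exact ⟨_, rfl, .refl'⟩
  obtain ⟨x, y, hx, hy, h3, h4⟩ := h2.exit (A := {z | z.1 < n'}) (S' := Reg n' h')
    (by simpa using h0) (by simp [h1, hn]) (fun c hc e => by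
      simp only [Reg, ends, Set.mem_ofPred_eq] at hc e ⊢
      split_ifs at e <;> simp only [] at e <;> omega)
  have := h4.abs.1
  rw [abs_eq (by norm_num)] at this
  simp only [Set.mem_ofPred_eq] at hx hy
  exact ⟨y, by omega, h3.snoc h4⟩

/-- first exit from a smaller box -/
theorem TConn.to_box {n' h' : ℕ} {i : ℕ} (h2 : TConn τ S (0, i) b) (hS : ∀ c ∈ S, 0 ≤ c.1)
    (hb : (n' : ℤ) ≤ b.1 ∨ (h' : ℤ) ≤ |b.2|) (hi : i ≤ h') :
    ∃ y : ℤ × ℤ, (y.1 = n' ∨ |y.2| = h') ∧ TConn τ (Reg n' h') (0, i) y := by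
  by_cases h0 : n' = 0 ∨ i = h'
  · exact ⟨_, by rcases h0 with rfl | rfl <;> simp, .refl'⟩
  obtain ⟨x, y, hx, hy, h3, h4⟩ := h2.exit (A := {z | z.1 < n' ∧ |z.2| < h'}) (S' := Reg n' h')
    (by simp only [Set.mem_ofPred_eq, Nat.abs_cast]; omega) (by simp only [Set.mem_ofPred_eq]; omega)
    (fun c hc e => by
      have := hS c hc
      simp only [Reg, ends, Set.mem_ofPred_eq, abs_lt] at e ⊢
      split_ifs at e <;> simp only [] at e <;> omega)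
  obtain ⟨e1, e2⟩ := h4.abs
  rw [abs_eq (by norm_num)] at e1 e2
  simp only [Set.mem_ofPred_eq, abs_lt] at hx hy
  refine ⟨y, ?_, h3.snoc h4⟩
  rw [abs_eq (by positivity)]; omega

end Pool.Agent.P.MP_6c8efb_pr.Arm
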