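import Pool.Agent.P.MP_6c8efb_pr.Arm.QBasic
import Pool.Agent.P.MP_6c8efb_pr.Arm.PBasic

/-! The statements of the steps of the proof. -/

open Polynomial Filter Topology

namespace Pool.Agent.P.MP_6c8efb_pr.Arm

/-! ### link patterns -/

/-- every pattern is reached from a higher one, all the other preimages being higher too -/
def S_Tri : Prop := ∀ L : ℕ, ∃ df : St → ℕ, ∀ a, Bd L a → a ≠ o → ∃ b, Bd L b ∧ df b < df a ∧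
  ((∃ i, i + 2 ≤ L ∧ ee i a = b ∧ ∀ c, Bd L c → ee i c = b → c = a ∨ df c < df a) ∨
    ∃ M, L = M + 1 ∧ cap M a = b ∧ ∀ c, Bd L c → cap M c = b → c = a ∨ df c < df a)

def S_Pre : Prop := ∀ L c, Bd (L + 2) c → cap (L + 1) c = o → c = o ∨ c = cup L o

structure S_Ev : Prop where
  symm : ∀ a b p r, Ev a b p r ↔ Ev b a r p
  glue : ∀ a b j p r, Ev a b (cup (a + j) p) r ↔ Ev a b p (cap (b + j) r)
  leg : ∀ a b p r, Ev (a + 1) b (cup a p) r ↔ Ev a (b + 1) p r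
  arc : ∀ a b i p r, i + 2 ≤ a → ¬ Ev a b (cup i p) r
  wall : ∀ a b m p r, Bd (a + m + 1) p → Bd (b + m + 1) r →
    (Ev a b (cap (a + m) p) r ↔ Ev a b p (cap (b + m) r))
  base : ∀ a b p r, Bd a p → Bd b r → (Ev a b p r ↔ p = o ∧ r = o)
  one : ∀ L M p r, Bd L p → Bd M r → Ev 1 0 p r

def S_Reset : Prop := ∀ L p, Bd L p →
  rowS (fun i => decide (Odd i)) 1 L (cup 0 p) = rowS (fun i => decide (Odd i)) 1 L (cup 0 o)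

/-! ### the transfer matrix -/

structure S_Ybe : Prop where
  exch : ∀ l₁ x y l₂, Rc l₁.length x y * TM (l₁ ++ x :: y :: l₂) =
    TM (l₁ ++ y :: x :: l₂) * Rc l₁.length x y
  unit : ∀ i x y, Rc i y x * Rc i x y = ((q ^ 2 * x - y) * (q ^ 2 * y - x)) • 1
  left : ∀ x l, x ≠ 0 → x ^ 2 • TM (x⁻¹ :: l) = TM (x :: l)
  arc : ∀ l₁ y l₂, TM (l₁ ++ q * y :: y :: l₂) * Cup l₁.length =
    ((1 + q * y) * (1 + y)) ^ 2 • (Cup l₁.length * TM (l₁ ++ l₂))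

structure S_Bdy : Prop where
  right : ∀ (l : List ℂ) (x : ℂ) (v : W), x ≠ 0 → Sup (l.length + 1) v →
    Kc l.length x (TM (l ++ [x]) v) = x ^ 2 • TM (l ++ [x⁻¹]) (Kc l.length x v)
  unit : ∀ L x v, x ≠ 0 → Sup (L + 1) v →
    Kc L x⁻¹ (Kc L x v) = ((1 + q * x) * (1 + q * x⁻¹)) • v
  wall : ∀ (l : List ℂ) (v : W), Sup l.length v → TM (l ++ [-q ^ 2]) v = (1 - q ^ 2) ^ 2 • TM l v

structure S_TM : Prop where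
  tot : ∀ l v, tot (TM l v) = nrm l * tot v
  sup : ∀ (l : List ℂ) (v : W), Sup l.length v → Sup l.length (TM l v)
  ex : ∀ l, ∃ v, v ≠ 0 ∧ Fix l v

def S_Contr : Prop := ∀ L : ℕ, ∃ ε θ : ℝ, 0 < ε ∧ 0 ≤ θ ∧ θ < 1 ∧ ∀ l : List ℂ, l.length = L →
  (∀ x ∈ l, ‖x - 1‖ < ε) → ∀ v, Sup L v → tot v = 0 → n1 (TM l v) ≤ θ * ‖nrm l‖ * n1 v

def S_Uniq : Prop := ∀ L : ℕ, ∃ ε : ℝ, 0 < ε ∧ ∀ l : List ℂ, l.length = L →
  (∀ x ∈ l, ‖x - 1‖ < ε) → ∀ v, Fix l v → tot v = 0 → v = 0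

def S_Loc : Prop := ∀ L : ℕ, ∃ ε Ψ, Loc1 L ε Ψ

/-! ### the polynomial solution -/

structure S_Pref : Prop where
  exch : ∀ l₁ x y l₂, Nz (l₁ ++ x :: y :: l₂) →
    (q ^ 2 * x - y) * Pref (l₁ ++ y :: x :: l₂) = (q ^ 2 * y - x) * Pref (l₁ ++ x :: y :: l₂)
  left : ∀ x l, Pref (x⁻¹ :: l) = Pref (x :: l)
  snoc : ∀ l x, Pref (l ++ [x]) = Pref l * (l.map fun y => T (q * x) - T y).prod
  mem : ∀ L, ∃ f ∈ LPs L (L - 1), ∀ l, l.length = L → Nz l → f l = Pref l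
  ne : ∀ l, (∀ x ∈ l, Near (1 / 10) x) → Pref l ≠ 0
  lp : ∀ l₁ l₂, LP1 fun t => Pref (l₁ ++ t :: l₂)
  hom : ∀ k, ‖Pref (List.replicate k 1)‖ = 3 ^ (k * (k - 1) / 2)

structure S_Dd : Prop where
  bulk : ∀ L d, ∀ f ∈ LPs L d, ∀ i, i + 2 ≤ L → ∃ g ∈ LPs L d, ∀ l₁ x y l₂, l₁.length = i →
    (l₁ ++ x :: y :: l₂).length = L → Nz (l₁ ++ x :: y :: l₂) →
    (q ^ 2 * x - y) * (f (l₁ ++ y :: x :: l₂) - f (l₁ ++ x :: y :: l₂)) =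
      (x - y) * g (l₁ ++ x :: y :: l₂)
  bdy : ∀ M d, ∀ f ∈ LPs (M + 1) d, ∃ g ∈ LPs (M + 1) d, ∀ l x, l.length = M → Nz (l ++ [x]) →
    (1 + q * x) * (f (l ++ [x⁻¹]) - f (l ++ [x])) = (1 - x) * g (l ++ [x])
  slice : ∀ L d, ∀ f ∈ LPs L d, ∀ l₁ l₂ : List ℂ, l₁.length + l₂.length + 1 = L →
    LPd d fun t => f (l₁ ++ t :: l₂)

/-- extension of identities from generic parameters to all parameters -/
def S_Ext : Prop := ∀ (Φ : List ℂ → ℂ) (L : ℕ) (U : Set ℂ), U.Infinite →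
  (∀ l₁ l₂ : List ℂ, l₁.length + l₂.length + 1 = L → Nz l₁ → Nz l₂ → LP1 fun t => Φ (l₁ ++ t :: l₂)) →
  (∀ l, l.length = L → (∀ x ∈ l, x ∈ U) → Gen l → Φ l = 0) → ∀ l, l.length = L → Nz l → Φ l = 0

def S_Sym : Prop := ∀ d g, LPd d g → (∀ t, t ≠ 0 → g t⁻¹ = g t) →
  ∃ p : ℂ[X], p.natDegree ≤ d ∧ ∀ t, t ≠ 0 → g t = p.eval (T t)

def S_Poly : Prop := ∀ L ε Ψ, Loc1 L ε Ψ → ∃ (F : List ℂ → W) (ρ : List ℂ → ℂ),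
  (∀ l, Sup L (F l)) ∧ (∀ p, ∃ f ∈ LPs L (L - 1), ∀ l, F l p = f l) ∧
  (∀ l l' : List ℂ, l.length = L → (∀ x ∈ l, Near ε x) → l.Perm l' → ρ l = ρ l') ∧
  (∀ l x, (l ++ [x]).length = L → (∀ z ∈ l ++ [x], Near ε z) → ρ (l ++ [x⁻¹]) = ρ (l ++ [x])) ∧
  (∀ l, l.length = L → Nz l → F l o = Pref l) ∧
  ∀ l, l.length = L → (∀ x ∈ l, Near ε x) → Gen l → Ψ l = ρ l • F l

def S_Sol : Prop := ∃ F, Sol F

def S_Zsym : Prop := ∀ F, Sol F → ∀ l l', Nz l → l.Perm l' → tot (F l) = tot (F l')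

def S_Arc : Prop := ∀ F, Sol F → ∀ l₁ y l₂, Nz l₁ → Nz l₂ → y ≠ 0 → y ^ 6 ≠ 1 →
  F (l₁ ++ q * y :: y :: l₂) = cA y (l₁ ++ l₂) • Cup l₁.length (F (l₁ ++ l₂))

def S_Wall : Prop := ∀ F, Sol F → ∀ l, Nz l →
  F (l ++ [-q ^ 2]) = (l.map fun x => -2 - T x).prod • F l

/-! ### the weight of the event -/

structure Nsym (F : List ℂ → W) : Prop where
  perm : ∀ u v x x', Nz u → Nz v → Nz x → x.Perm x' → NN F u v x = NN F u v x'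
  inv : ∀ u v t x, Nz u → Nz v → Nz x → t ≠ 0 → NN F u v (t⁻¹ :: x) = NN F u v (t :: x)
  swap : ∀ u v x, NN F u v x = NN F v u (x.map (·⁻¹))
  lpx : ∀ u v x₁ x₂, Nz u → Nz v → Nz x₁ → Nz x₂ →
    LPd (2 * (x₁.length + x₂.length) + u.length + v.length) fun t => NN F u v (x₁ ++ t :: x₂)
  lpu : ∀ u₁ u₂ v x, Nz u₁ → Nz u₂ → Nz v → Nz x → LP1 fun t => NN F (u₁ ++ t :: u₂) v x

def S_Nsym : Prop := ∀ F, Sol F → Nsym F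

structure Nrec (F : List ℂ → W) : Prop where
  cov : ∀ u₁ x y u₂ v w, Nz (u₁ ++ x :: y :: u₂) → Nz v → Nz w →
    (q ^ 2 * x - y) * NN F (u₁ ++ y :: x :: u₂) v w = (q ^ 2 * y - x) * NN F (u₁ ++ x :: y :: u₂) v w
  leg : ∀ u v y x, Nz u → Nz v → Nz x → y ≠ 0 → y ^ 6 ≠ 1 →
    NN F (u ++ [q * y]) v (y⁻¹ :: x) = cA y (u ++ x) * NN F u (v ++ [y⁻¹]) x
  xx : ∀ u v y x, Nz u → Nz v → Nz x → y ≠ 0 → y ^ 6 ≠ 1 →
    NN F u v ((q * y)⁻¹ :: y⁻¹ :: x) = cA y (u ++ x) * cA y (v ++ x) * NN F u v x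
  wall : ∀ u v x, Nz u → Nz v → Nz x → NN F u v (x ++ [-q]) =
    ((u ++ x).map fun z => -2 - T z).prod * ((v ++ x).map fun z => -2 - T z).prod * NN F u v x
  base : ∀ u v, Nz u → Nz v → NN F u v [] = Pref u * Pref v
  zero : ∀ x, NN F [] [] x = tot (F (x.map (·⁻¹))) * tot (F x)
  one : ∀ y x, y ≠ 0 → Nz x → NN F [y] [] x = tot (F (y :: x.map (·⁻¹))) * tot (F x)

def S_Nrec : Prop := ∀ F, Sol F → Sol2 F → Nrec F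

/-! ### the determinant -/

def S_Qperm : Prop := ∀ ts ts' G, ts.Perm ts' → QQ ts G = QQ ts' G

def S_Qleg : Prop := ∀ t y τ ts G, Tri t y τ → y ≠ τ → (∀ s ∈ ts, UU s ≠ UU t) →
  QQ (t :: ts) ((X - C y) * G) = G.eval τ * (ts.map fun s => (τ - s) ^ 2).prod * QQ ts ((X - C t) * G)

def S_QP1 : Prop := ∀ ts (G : ℂ[X]), GenT ts → ∃ p : ℂ[X],
  p.natDegree ≤ 2 * ts.length + G.natDegree - 1 ∧
    ∀ t, (∀ s ∈ ts, UU s ≠ UU t) → QQ (t :: ts) G = p.eval t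

def S_QP2 : Prop := ∀ s ts (G p : ℂ[X]) t τ, GenT (s :: ts) → Tri t s τ →
  (∀ t', (∀ r ∈ s :: ts, UU r ≠ UU t') → QQ (t' :: s :: ts) G = p.eval t') →
  p.eval t = G.eval τ ^ 2 * (ts.map fun r => (τ - r) ^ 4).prod * QQ ts G

def MainId (F : List ℂ → W) : Prop := ∀ u v x, Gen (u ++ v ++ x) →
  NN F u v x = Pref u * Pref v * QQ (x.map T) (GG (u ++ v))

def S_Main : Prop := ∀ F, Nsym F → Nrec F → MainId F

def S_EE : Prop := ∀ ts G, GenT ts → EE ts G = KK ts * QQ ts G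

def HomId (F : List ℂ → W) : Prop := ∀ k m, NN F (List.replicate k 1) [] (List.replicate m 1) *
  KK (List.replicate m 2) = Pref (List.replicate k 1) * EH m (2 * m + k + 1)

def S_Hom : Prop := ∀ F, Nsym F → MainId F → HomId F

/-! ### the homogeneous determinant -/

def S_E1 : Prop := ∀ m : ℕ, ∃ c : ℂ, ∀ K : ℕ,
  EH m K = c * (-3) ^ (m * K) * (MM m (K + m + 1 : ℂ)).det

def S_E2 : Prop := ∀ m : ℕ, (MM m (X : ℂ[X])).det.natDegree ≤ m * (m + 1) / 2 ∧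
  ∀ a : ℂ, (MM m (X : ℂ[X])).map (eval a) = MM m a

def S_Mult : Prop := ∀ (m d : ℕ) (M : Matrix (Fin m) (Fin m) ℂ[X]) (a : ℂ) (w : Fin d → Fin m → ℂ),
  LinearIndependent ℂ w → (∀ r, (M.map (eval a)).mulVec (w r) = 0) → (X - C a) ^ d ∣ M.det

def S_Even : Prop := ∀ m a : ℕ, ∃ w : Fin (a / 3 - (a - (m + 1))) → Fin m → ℂ,
  LinearIndependent ℂ w ∧ ∀ r, (MM m (a : ℂ)).mulVec (w r) = 0

def S_Odd : Prop := ∀ m a : ℕ, ∃ w : Fin (min (m + 1) (a - m) - (a + 2) / 3) → Fin m → ℂ,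
  LinearIndependent ℂ w ∧ ∀ r, (MM m (a + 1 / 2 : ℂ)).mulVec (w r) = 0

def S_E4 : Prop := ∀ m : ℕ, ∃ c : ℂ, ∀ x : ℂ, (MM m x).det = c * eP m x

def S_Asym : Prop := ∀ k : ℕ, ∃ c C : ℝ, 0 < c ∧ ∀ m : ℕ, 1 ≤ m →
  c ≤ (m : ℝ) ^ ((k * (k - 1) : ℝ) / 6) * ∏ i ∈ Finset.range k, rho m i / rho (m + i) 0 ∧
    (m : ℝ) ^ ((k * (k - 1) : ℝ) / 6) * ∏ i ∈ Finset.range k, rho m i / rho (m + i) 0 ≤ C

def S_PP : Prop := ∀ F, Sol F → Nrec F → HomId F → ∀ k m : ℕ,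
  ‖PP F k m‖ = 3 ^ (k * (k - 1) / 2) * ∏ i ∈ Finset.range k, rho m i / rho (m + i) 0

/-! ### percolation -/

def S_Col : Prop := ∀ L τ n g, Comp (top L τ 0 n) g ↔
  (∀ i, L ≤ i → g i = 0) ∧ ∃ fH fV, Col L τ n fH fV ∧ ∀ i, i < L → fH i 0 = g i

def S_Cross : Prop := ∀ τ S a b, TConn τ S a b → ∃ J, Par τ S a b J

def S_StepEv : Prop := ∀ k m n, stepE k m (2 * n) ⊆ EvN k m n

def S_EvStep : Prop := ∀ k m n τ, τ ∈ EvN k m n →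
  (∃ t : ℤ, 0 ≤ t ∧ t < 2 * n ∧ Alt τ 0 (k + m) t) →
  (∃ t : ℤ, -(2 * n : ℤ) ≤ t ∧ t < 0 ∧ Alt τ k (k + m) t) → 1 ≤ m → τ ∈ stepE k m (2 * n)

def S_Law : Prop := ∀ k m n, Loc (EvN k m n) ∧ (Pt (EvN k m n) : ℂ) =
  Bil k 0 ((TB (k + m) ^ n) (Finsupp.single o 1)) ((TB m ^ n) (Finsupp.single o 1))

def S_Lim : Prop := ∀ F, Sol F → ∀ k m, Tendsto (fun n =>
  Bil k 0 ((TB (k + m) ^ n) (Finsupp.single o 1)) ((TB m ^ n) (Finsupp.single o 1))) atTop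
    (𝓝 (PP F k m))

def S_Step : Prop := ∀ F, Sol F → ∀ k m, 1 ≤ m → (∀ h, Pt (stepE k m h) ≤ ‖PP F k m‖) ∧
  ∀ ε : ℝ, 0 < ε → ∃ h, ‖PP F k m‖ - ε ≤ Pt (stepE k m h)

def S_Cmp : Prop := ∀ j m h : ℕ,
  (1 / 2) ^ ((j + 1) ^ 2) * Pt (line j m h) ≤ Pt (stepE (j + 1) m (h + j + 2)) ∧
    (1 / 2) ^ ((j + 1) ^ 2) * Pt (stepE (j + 1) m h) ≤ Pt (line j (m + j + 1) (h + j + 1))

def S_Vert : Prop := ∀ (w : ℕ) (t : ℤ) (h N : ℕ), N * (w + 1) ≤ h →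
  Pt (vert w t h) ≤ 2 * (1 / 2) ^ N

def S_Box : Prop := ∀ (j : ℕ) (e C : ℝ), 0 ≤ e →
  (∀ n h : ℕ, 1 ≤ n → (n : ℝ) ^ e * Pt (line j n h) ≤ C) →
  ∃ C' : ℝ, ∀ n : ℕ, 1 ≤ n → (n : ℝ) ^ e * Pt (box j n n) ≤ C'

def S_Tm : Prop := ∀ j n h : ℕ, Pt (line j (2 * n + 1) h) ≤ crit.real (arms j n) ∧
  (j ≤ n → crit.real (arms j n) ≤ Pt (box j n n))

end Pool.Agent.P.MP_6c8efb_pr.Arm
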