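import Mathlib

/-! Planar link patterns on the sites `0, 1, 2, ...`; a site is joined to another site or to the
right wall. Cups, caps and the colourings compatible with a pattern. -/

namespace Pool.Agent.P.MP_6c8efb_pr.Arm

/-- symmetric partner functions without fixed point -/
def Sym (p : ℕ → Option ℕ) : Prop := ∀ i j, p i = some j → j ≠ i ∧ p j = some i

/-- no crossing, and no site under an arc is joined to the wall -/
def Pla (p : ℕ → Option ℕ) : Prop :=
  ∀ i j k, p i = some j → i < k → k < j → ∃ l, p k = some l ∧ i < l ∧ l < j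

/-- planar link patterns; `none` means joined to the right wall -/
def St : Type := {p : ℕ → Option ℕ // Sym p ∧ Pla p}

/-- all sites joined to the wall -/
def o : St := ⟨fun _ => none, fun _ _ h => by simp at h, fun _ _ _ h => by simp at h⟩

/-- all sites from `L` on are joined to the wall -/
def Bd (L : ℕ) (p : St) : Prop := ∀ i, L ≤ i → p.1 i = none

/-- skip the sites `i, i + 1` -/
def up (i j : ℕ) : ℕ := if j < i then j else j + 2

/-- inverse of `up` -/
def dn (i j : ℕ) : ℕ := if j < i then j else j - 2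

@[simp] theorem dn_up (i j : ℕ) : dn i (up i j) = j := by unfold dn up; split_ifs <;> omega

theorem up_dn {i j : ℕ} (h1 : j ≠ i) (h2 : j ≠ i + 1) : up i (dn i j) = j := by
  unfold dn up; split_ifs <;> omega

theorem up_ne (i j : ℕ) : up i j ≠ i := by unfold up; split_ifs <;> omega
theorem up_ne' (i j : ℕ) : up i j ≠ i + 1 := by unfold up; split_ifs <;> omega
theorem up_lt_up {i j k : ℕ} : up i j < up i k ↔ j < k := by unfold up; split_ifs <;> omega
theorem up_inj {i j k : ℕ} : up i j = up i k ↔ j = k := by unfold up; split_ifs <;> omega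

/-- the partner function after inserting an arc at `i, i + 1` -/
def cupF (i : ℕ) (p : ℕ → Option ℕ) (j : ℕ) : Option ℕ :=
  if j = i then some (i + 1) else if j = i + 1 then some i else (p (dn i j)).map (up i)

theorem cupF_up (i : ℕ) (p : ℕ → Option ℕ) (j : ℕ) : cupF i p (up i j) = (p j).map (up i) := by
  simp [cupF, up_ne, up_ne']

theorem cupF_left (i : ℕ) (p : ℕ → Option ℕ) : cupF i p i = some (i + 1) := by simp [cupF]
theorem cupF_right (i : ℕ) (p : ℕ → Option ℕ) : cupF i p (i + 1) = some i := by simp [cupF]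

theorem site_cases (i j : ℕ) : j = i ∨ j = i + 1 ∨ ∃ k, j = up i k := by
  by_cases h1 : j = i
  · exact Or.inl h1
  by_cases h2 : j = i + 1
  · exact Or.inr (Or.inl h2)
  exact Or.inr (Or.inr ⟨_, (up_dn h1 h2).symm⟩)

theorem cupF_sym {i : ℕ} {p : ℕ → Option ℕ} (h : Sym p) : Sym (cupF i p) := by
  intro a b hab
  rcases site_cases i a with rfl | rfl | ⟨a, rfl⟩
  · rw [cupF_left] at hab; cases hab; exact ⟨by omega, cupF_right _ _⟩
  · rw [cupF_right] at hab; cases hab; exact ⟨by omega, cupF_left _ _⟩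
  · rw [cupF_up, Option.map_eq_some_iff] at hab
    obtain ⟨c, hc, rfl⟩ := hab
    exact ⟨fun e => (h _ _ hc).1 (up_inj.1 e), by rw [cupF_up, (h _ _ hc).2]; rfl⟩

theorem cupF_pla {i : ℕ} {p : ℕ → Option ℕ} (h : Pla p) : Pla (cupF i p) := by
  intro a b k hab h1 h2
  rcases site_cases i a with rfl | rfl | ⟨a, rfl⟩
  · rw [cupF_left] at hab; cases hab; omega
  · rw [cupF_right] at hab; cases hab; omega
  · rw [cupF_up, Option.map_eq_some_iff] at hab
    obtain ⟨c, hc, rfl⟩ := hab
    rcases site_cases i k with rfl | rfl | ⟨k, rfl⟩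
    · exact ⟨_, cupF_left _ _, by omega, by have := up_ne' k c; omega⟩
    · exact ⟨_, cupF_right _ _, by have := up_ne i a; omega, by omega⟩
    · obtain ⟨l, hl, h3, h4⟩ := h a c k hc (up_lt_up.1 h1) (up_lt_up.1 h2)
      exact ⟨up i l, by rw [cupF_up, hl]; rfl, up_lt_up.2 h3, up_lt_up.2 h4⟩

/-- insert an arc at the sites `i, i + 1` -/
def cup (i : ℕ) (p : St) : St := ⟨cupF i p.1, cupF_sym p.2.1, cupF_pla p.2.2⟩

/-- the partner of `a` once the sites `i, i + 1` are joined to each other -/
def thr (i : ℕ) (p : ℕ → Option ℕ) (a : ℕ) : Option ℕ :=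
  if p a = some i then p (i + 1) else if p a = some (i + 1) then p i else p a

/-- the partner function after joining and removing the sites `i, i + 1` -/
def capF (i : ℕ) (p : ℕ → Option ℕ) (j : ℕ) : Option ℕ := (thr i p (up i j)).map (dn i)

theorem thr_some {i a b : ℕ} {p : ℕ → Option ℕ} (h : Sym p) (h1 : a ≠ i) (h2 : a ≠ i + 1)
    (hab : thr i p a = some b) : b ≠ i ∧ b ≠ i + 1 ∧ b ≠ a ∧ thr i p b = some a ∧
      ((p a = some b) ∨ (p a = some i ∧ p b = some (i + 1)) ∨ (p a = some (i + 1) ∧ p b = some i)) := by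
  unfold thr at hab ⊢
  split_ifs at hab with c1 c2
  · have e1 := h _ _ c1
    have e2 := h _ _ hab
    have : b ≠ i := by rintro rfl; rw [e1.2] at e2; simp at e2; omega
    have hb : b ≠ a := by rintro rfl; rw [c1] at e2; simp at e2
    refine ⟨this, e2.1, hb, ?_, Or.inr (Or.inl ⟨c1, e2.2⟩)⟩
    rw [e2.2, if_neg (by simp), if_pos rfl, e1.2]
  · have e1 := h _ _ c2
    have e2 := h _ _ hab
    have : b ≠ i + 1 := by rintro rfl; rw [e1.2] at e2; simp at e2; omega
    have hb : b ≠ a := by rintro rfl; rw [c2] at e2; simp at e2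
    refine ⟨e2.1, this, hb, ?_, Or.inr (Or.inr ⟨c2, e2.2⟩)⟩
    rw [e2.2, if_pos rfl, e1.2]
  · have e2 := h _ _ hab
    refine ⟨by rintro rfl; exact c1 hab, by rintro rfl; exact c2 hab, e2.1, ?_, Or.inl hab⟩
    rw [e2.2, if_neg (by simpa using h1), if_neg (by simpa using h2)]

theorem capF_some {i a b : ℕ} {p : ℕ → Option ℕ} (h : Sym p) :
    capF i p a = some b ↔ thr i p (up i a) = some (up i b) := by
  unfold capF
  rw [Option.map_eq_some_iff]
  constructor
  · rintro ⟨c, hc, rfl⟩
    have := thr_some h (up_ne _ _) (up_ne' _ _) hc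
    rw [up_dn this.1 this.2.1, hc]
  · intro hc; exact ⟨_, hc, dn_up _ _⟩

theorem capF_none {i a : ℕ} {p : ℕ → Option ℕ} : capF i p a = none ↔ thr i p (up i a) = none := by
  simp [capF]

theorem capF_sym {i : ℕ} {p : ℕ → Option ℕ} (h : Sym p) : Sym (capF i p) := by
  intro a b hab
  rw [capF_some h] at hab
  have := thr_some h (up_ne _ _) (up_ne' _ _) hab
  exact ⟨fun e => this.2.2.1 (by rw [e]), (capF_some h).2 this.2.2.2.1⟩

theorem thr_pla {i : ℕ} {p : ℕ → Option ℕ} (hs : Sym p) (h : Pla p) {a b k : ℕ} (ha1 : a ≠ i)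
    (ha2 : a ≠ i + 1) (hk1 : k ≠ i) (hk2 : k ≠ i + 1) (hab : thr i p a = some b) (h1 : a < k)
    (h2 : k < b) : ∃ l, thr i p k = some l ∧ a < l ∧ l < b := by
  obtain ⟨hb1, hb2, -, -, hc⟩ := thr_some hs ha1 ha2 hab
  have inj : ∀ x y z, p x = some z → p y = some z → x = y := fun x y z e1 e2 => by
    have := (hs _ _ e1).2; rw [(hs _ _ e2).2] at this; exact (Option.some.inj this).symm
  rcases hc with hc | ⟨c1, c2⟩ | ⟨c1, c2⟩
  · obtain ⟨l, hl, h3, h4⟩ := h a b k hc h1 h2
    unfold thr
    by_cases e1 : l = i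
    · subst e1
      rw [if_pos hl]
      exact h a b _ hc (by omega) (by omega)
    by_cases e2 : l = i + 1
    · subst e2
      rw [if_neg (by rw [hl]; simp), if_pos hl]
      exact h a b _ hc (by omega) (by omega)
    rw [if_neg (by rw [hl]; simpa using e1), if_neg (by rw [hl]; simpa using e2)]
    exact ⟨l, hl, h3, h4⟩
  all_goals
    have n1 : p k ≠ some i := fun e => by
      first | (have := inj _ _ _ e c1; omega) | (have := inj _ _ _ e c2; omega)
    have n2 : p k ≠ some (i + 1) := fun e => by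
      first | (have := inj _ _ _ e c1; omega) | (have := inj _ _ _ e c2; omega)
    have d1 := (hs _ _ c1).2
    have d2 := (hs _ _ c2).2
    unfold thr
    rw [if_neg n1, if_neg n2]
  · -- `a` is joined to `i` and `b` to `i + 1`
    rcases lt_or_gt_of_ne hb1 with hb | hb
    · obtain ⟨l, hl, h3, h4⟩ := h a i b c1 (by omega) hb
      rw [c2] at hl; cases hl; omega
    rcases lt_or_gt_of_ne ha1 with ha | ha
    · rcases lt_or_gt_of_ne hk1 with hk | hk
      · obtain ⟨l, hl, h3, h4⟩ := h a i k c1 h1 hk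
        exact ⟨l, hl, h3, by omega⟩
      · obtain ⟨l, hl, h3, h4⟩ := h (i + 1) b k d2 (by omega) h2
        exact ⟨l, hl, by omega, h4⟩
    · obtain ⟨l, hl, h3, h4⟩ := h i a (i + 1) d1 (by omega) (by omega)
      rw [d2] at hl; cases hl; omega
  · -- `a` is joined to `i + 1` and `b` to `i`
    rcases lt_or_gt_of_ne hb1 with hb | hb
    · obtain ⟨l, hl, h3, h4⟩ := h a (i + 1) k c1 h1 (by omega)
      refine ⟨l, hl, h3, ?_⟩
      by_contra hlb
      have e1 : l ≠ b := by rintro rfl; have := (hs _ _ hl).2; rw [c2] at this; cases this; omega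
      have e2 : l ≠ i := by rintro rfl; exact n1 hl
      obtain ⟨l', hl', h5, h6⟩ := h b i l c2 (by omega) (by omega)
      rw [(hs _ _ hl).2] at hl'; cases hl'; omega
    rcases lt_or_gt_of_ne ha1 with ha | ha
    · obtain ⟨l, hl, h3, h4⟩ := h a (i + 1) i c1 ha (by omega)
      rw [d2] at hl; cases hl; omega
    · obtain ⟨l, hl, h3, h4⟩ := h i b k d2 (by omega) h2
      refine ⟨l, hl, ?_, h4⟩
      by_contra hla
      have e1 : l ≠ a := by rintro rfl; have := (hs _ _ hl).2; rw [c1] at this; cases this; omega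
      have e2 : l ≠ i + 1 := by rintro rfl; exact n2 hl
      obtain ⟨l', hl', h5, h6⟩ := h (i + 1) a l d1 (by omega) (by omega)
      rw [(hs _ _ hl).2] at hl'; cases hl'; omega

theorem capF_pla {i : ℕ} {p : ℕ → Option ℕ} (hs : Sym p) (h : Pla p) : Pla (capF i p) := by
  intro a b k hab h1 h2
  rw [capF_some hs] at hab
  obtain ⟨l, hl, h3, h4⟩ := thr_pla hs h (up_ne _ _) (up_ne' _ _) (up_ne _ _) (up_ne' _ _) hab
    (up_lt_up.2 h1) (up_lt_up.2 h2)
  have := thr_some hs (up_ne _ _) (up_ne' _ _) hl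
  rw [← up_dn this.1 this.2.1] at hl h3 h4
  exact ⟨_, (capF_some hs).2 hl, up_lt_up.1 h3, up_lt_up.1 h4⟩

/-- join the sites `i, i + 1` to each other and remove them -/
def cap (i : ℕ) (p : St) : St := ⟨capF i p.1, capF_sym p.2.1, capF_pla p.2.1 p.2.2⟩

/-- the Temperley-Lieb generator -/
def ee (i : ℕ) (p : St) : St := cup i (cap i p)

/-- colourings that are constant along arcs and vanish at the sites joined to the wall -/
def Comp (p : St) (f : ℕ → ZMod 2) : Prop :=
  ∀ i, (p.1 i = none → f i = 0) ∧ ∀ j, p.1 i = some j → f i = f j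

theorem comp_zero (p : St) : Comp p 0 := fun _ => ⟨fun _ => rfl, fun _ _ => rfl⟩

theorem comp_o {f : ℕ → ZMod 2} : Comp o f ↔ ∀ i, f i = 0 :=
  ⟨fun h i => (h i).1 rfl, fun h i => ⟨fun _ => h i, fun _ e => by simp [o] at e⟩⟩

theorem Comp.bd {p : St} {f : ℕ → ZMod 2} (h : Comp p f) {L i : ℕ} (hp : Bd L p) (hi : L ≤ i) :
    f i = 0 := (h i).1 (hp i hi)

theorem comp_sub {p r : St} (h : ∀ f, Comp p f → Comp r f) {i j : ℕ} (e : p.1 i = some j) :
    r.1 i = some j := by
  have hs := p.2.1
  have c : Comp p fun k => if k = i ∨ k = j then 1 else 0 := by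
    intro k
    refine ⟨fun hk => if_neg ?_, fun l hl => ?_⟩
    · rintro (rfl | rfl)
      · simp [e] at hk
      · simp [(hs _ _ e).2] at hk
    · refine if_congr ⟨?_, ?_⟩ rfl rfl
      · rintro (rfl | rfl)
        · rw [e] at hl; cases hl; simp
        · rw [(hs _ _ e).2] at hl; cases hl; simp
      · have hl' := (hs _ _ hl).2
        rintro (rfl | rfl)
        · rw [e] at hl'; cases hl'; simp
        · rw [(hs _ _ e).2] at hl'; cases hl'; simp
  have c' := h _ c i
  cases hr : r.1 i with
  | none => simpa using c'.1 hr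
  | some l =>
    have h1 := c'.2 l hr
    have h2 := (r.2.1 _ _ hr).1
    by_cases hl : l = j
    · rw [hl]
    · simp [h2, hl] at h1

theorem St.ext_comp {p r : St} (h : ∀ f, Comp p f ↔ Comp r f) : p = r := by
  refine Subtype.ext (funext fun i => ?_)
  cases hp : p.1 i with
  | some j => exact (comp_sub (fun f => (h f).1) hp).symm
  | none =>
    cases hr : r.1 i with
    | none => rfl
    | some j => rw [comp_sub (fun f => (h f).2) hr] at hp; cases hp

theorem comp_cup {i : ℕ} {p : St} {f : ℕ → ZMod 2} :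
    Comp (cup i p) f ↔ f i = f (i + 1) ∧ Comp p fun j => f (up i j) := by
  constructor
  · intro h
    refine ⟨(h i).2 _ (cupF_left _ _), fun j => ⟨fun e => (h _).1 ?_, fun l e => (h _).2 _ ?_⟩⟩
    · show cupF i p.1 _ = _; rw [cupF_up, e]; rfl
    · show cupF i p.1 _ = _; rw [cupF_up, e]; rfl
  · rintro ⟨h1, h2⟩ j
    show (cupF i p.1 j = none → _) ∧ ∀ l, cupF i p.1 j = some l → _
    rcases site_cases i j with rfl | rfl | ⟨j, rfl⟩
    · rw [cupF_left]; exact ⟨by simp, fun l e => by cases e; exact h1⟩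
    · rw [cupF_right]; exact ⟨by simp, fun l e => by cases e; exact h1.symm⟩
    · rw [cupF_up]
      refine ⟨fun e => (h2 j).1 (by simpa using e), fun l e => ?_⟩
      obtain ⟨c, hc, rfl⟩ := Option.map_eq_some_iff.1 e
      exact (h2 j).2 c hc

theorem comp_cap {i : ℕ} {p : St} {g : ℕ → ZMod 2} :
    Comp (cap i p) g ↔ ∃ f, Comp p f ∧ f i = f (i + 1) ∧ ∀ j, f (up i j) = g j := by
  have hs := p.2.1
  constructor
  · intro h
    -- the value given to the two new sites
    obtain ⟨c, hc1, hc2⟩ : ∃ c : ZMod 2, (p.1 i = none ∨ p.1 (i + 1) = none → c = 0) ∧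
        ∀ a, p.1 (up i a) = some i ∨ p.1 (up i a) = some (i + 1) → g a = c := by
      have A : ∀ a, p.1 (up i a) = some i → thr i p.1 (up i a) = p.1 (i + 1) := fun a e => by
        simp [thr, e]
      have B : ∀ a, p.1 (up i a) = some (i + 1) → thr i p.1 (up i a) = p.1 i := fun a e => by
        simp [thr, e]
      have u1 : ∀ a b c, p.1 (up i a) = some c → p.1 (up i b) = some c → a = b := fun a b c e1 e2 => by
        have := (hs _ _ e1).2; rw [(hs _ _ e2).2] at this; exact (up_inj.1 (Option.some.inj this)).symm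
      by_cases e0 : p.1 i = none ∨ p.1 (i + 1) = none
      · refine ⟨0, fun _ => rfl, fun a ha => (h a).1 (capF_none.2 ?_)⟩
        rcases ha with ha | ha <;> rcases e0 with e0 | e0
        · rw [(hs _ _ ha).2] at e0; cases e0
        · rw [A a ha, e0]
        · rw [B a ha, e0]
        · rw [(hs _ _ ha).2] at e0; cases e0
      by_cases e1 : ∃ a, p.1 (up i a) = some i
      · obtain ⟨a, ha⟩ := e1
        refine ⟨g a, fun e => absurd e e0, fun b hb => ?_⟩
        rcases hb with hb | hb
        · rw [u1 _ _ _ hb ha]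
        · exact (h b).2 a ((capF_some hs).2 (by rw [B b hb, (hs _ _ ha).2]))
      by_cases e2 : ∃ a, p.1 (up i a) = some (i + 1)
      · obtain ⟨a, ha⟩ := e2
        refine ⟨g a, fun e => absurd e e0, fun b hb => ?_⟩
        rcases hb with hb | hb
        · exact absurd ⟨b, hb⟩ e1
        · rw [u1 _ _ _ hb ha]
      · exact ⟨0, fun _ => rfl, fun a ha => (ha.elim (fun e => e1 ⟨a, e⟩) fun e => e2 ⟨a, e⟩).elim⟩
    let f : ℕ → ZMod 2 := fun j => if j = i ∨ j = i + 1 then c else g (dn i j)
    have f1 : f i = c := if_pos (Or.inl rfl)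
    have f2 : f (i + 1) = c := if_pos (Or.inr rfl)
    have f3 : ∀ j, f (up i j) = g j := fun j => by simp [f, up_ne, up_ne']
    have key : ∀ a l, p.1 (up i a) = some l → f (up i a) = f l := by
      intro a l e
      rcases site_cases i l with rfl | rfl | ⟨l, rfl⟩
      · rw [f1, f3, hc2 a (Or.inl e)]
      · rw [f2, f3, hc2 a (Or.inr e)]
      · rw [f3, f3]
        refine (h a).2 l ((capF_some hs).2 ?_)
        simp [thr, e, up_ne, up_ne']
    refine ⟨f, fun j => ?_, f1.trans f2.symm, f3⟩
    rcases site_cases i j with rfl | rfl | ⟨j, rfl⟩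
    · refine ⟨fun e => f1.trans (hc1 (Or.inl e)), fun l e => ?_⟩
      rcases site_cases j l with rfl | rfl | ⟨l, rfl⟩
      · rfl
      · exact f1.trans f2.symm
      · exact (key _ _ (hs _ _ e).2).symm
    · refine ⟨fun e => f2.trans (hc1 (Or.inr e)), fun l e => ?_⟩
      rcases site_cases i l with rfl | rfl | ⟨l, rfl⟩
      · exact f2.trans f1.symm
      · rfl
      · exact (key _ _ (hs _ _ e).2).symm
    · refine ⟨fun e => (f3 j).trans ((h j).1 (capF_none.2 ?_)), key j⟩
      simp [thr, e]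
  · rintro ⟨f, h, h1, h2⟩ j
    rw [← h2]
    refine ⟨fun e => ?_, fun l e => ?_⟩
    · have e' := capF_none.1 e
      unfold thr at e'
      split_ifs at e' with c1 c2
      · rw [(h _).2 _ c1, h1, (h _).1 e']
      · rw [(h _).2 _ c2, ← h1, (h _).1 e']
      · exact (h _).1 e'
    · rw [← h2]
      have e' := (capF_some hs).1 e
      unfold thr at e'
      split_ifs at e' with c1 c2
      · rw [(h _).2 _ c1, h1, (h _).2 _ e']
      · rw [(h _).2 _ c2, ← h1, (h _).2 _ e']
      · exact (h _).2 _ e'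

end Pool.Agent.P.MP_6c8efb_pr.Arm
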