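import Pool.Agent.P.MP_6c8efb_pr.Arm.Link

/-! Temperley-Lieb relations between cups and caps, bounded patterns. -/

namespace Pool.Agent.P.MP_6c8efb_pr.Arm

/-- give the colour `c` to two new sites `i, i + 1` -/
def ins (i : ℕ) (c : ZMod 2) (g : ℕ → ZMod 2) (j : ℕ) : ZMod 2 :=
  if j = i ∨ j = i + 1 then c else g (dn i j)

@[simp] theorem ins_left (i : ℕ) (c : ZMod 2) (g : ℕ → ZMod 2) : ins i c g i = c := by simp [ins]
@[simp] theorem ins_right (i : ℕ) (c : ZMod 2) (g : ℕ → ZMod 2) : ins i c g (i + 1) = c := by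
  simp [ins]
@[simp] theorem ins_up (i : ℕ) (c : ZMod 2) (g : ℕ → ZMod 2) (j : ℕ) : ins i c g (up i j) = g j := by
  simp [ins, up_ne, up_ne']

theorem up_of_lt {i j : ℕ} (h : j < i) : up i j = j := if_pos h
theorem up_of_le {i j : ℕ} (h : i ≤ j) : up i j = j + 2 := if_neg (by omega)
theorem up_up {i j : ℕ} (h : i ≤ j) (k : ℕ) : up (j + 2) (up i k) = up i (up j k) := by
  unfold up; split_ifs <;> omega

theorem ins_lt {i j : ℕ} (h : j < i) (c : ZMod 2) (g : ℕ → ZMod 2) : ins i c g j = g j := by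
  conv_lhs => rw [← up_of_lt h, ins_up]
theorem ins_add {i j : ℕ} (h : i ≤ j) (c : ZMod 2) (g : ℕ → ZMod 2) : ins i c g (j + 2) = g j := by
  rw [← up_of_le h, ins_up]

theorem comp_congr {p : St} {f g : ℕ → ZMod 2} (h : ∀ j, f j = g j) : Comp p f ↔ Comp p g := by
  rw [funext h]

@[simp] theorem cap_cup (i : ℕ) (p : St) : cap i (cup i p) = p := by
  refine St.ext_comp fun g => ?_
  simp only [comp_cap, comp_cup]
  exact ⟨fun ⟨f, ⟨_, h⟩, _, e⟩ => (comp_congr e).1 h,
    fun h => ⟨ins i 0 g, ⟨by simp, by simpa using h⟩, by simp, by simp⟩⟩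

@[simp] theorem cap_succ_cup (i : ℕ) (p : St) : cap (i + 1) (cup i p) = p := by
  refine St.ext_comp fun g => ?_
  simp only [comp_cap, comp_cup]
  constructor
  · rintro ⟨f, ⟨h1, h⟩, h2, e⟩
    refine (comp_congr fun j => ?_).1 h
    rw [← e]
    rcases lt_trichotomy j i with hj | rfl | hj
    · rw [up_of_lt hj, up_of_lt (by omega)]
    · rw [up_of_le le_rfl, up_of_lt (by omega), h1, h2]
    · rw [up_of_le hj.le, up_of_le hj]
  · intro h
    refine ⟨ins i (g i) g, ⟨by simp, by simpa using h⟩, by rw [ins_right, ins_add le_rfl], fun j => ?_⟩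
    rcases lt_trichotomy j i with hj | rfl | hj
    · rw [up_of_lt (by omega), ins_lt hj]
    · rw [up_of_lt (by omega), ins_left]
    · rw [up_of_le hj, ins_add hj.le]

@[simp] theorem cap_cup_succ (i : ℕ) (p : St) : cap i (cup (i + 1) p) = p := by
  refine St.ext_comp fun g => ?_
  simp only [comp_cap, comp_cup]
  constructor
  · rintro ⟨f, ⟨h1, h⟩, h2, e⟩
    refine (comp_congr fun j => ?_).1 h
    rw [← e]
    rcases lt_trichotomy j i with hj | rfl | hj
    · rw [up_of_lt hj, up_of_lt (by omega)]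
    · rw [up_of_le le_rfl, up_of_lt (by omega), h2, h1]
    · rw [up_of_le hj.le, up_of_le hj]
  · intro h
    refine ⟨ins (i + 1) (g i) g, ⟨by simp, by simpa using h⟩,
      by rw [ins_left, ins_lt (by omega)], fun j => ?_⟩
    rcases lt_trichotomy j i with hj | rfl | hj
    · rw [up_of_lt hj, ins_lt (by omega)]
    · rw [up_of_le le_rfl, ins_right]
    · rw [up_of_le hj.le, ins_add hj]

theorem cup_cup {i j : ℕ} (h : i ≤ j) (p : St) : cup (j + 2) (cup i p) = cup i (cup j p) := by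
  refine St.ext_comp fun g => ?_
  simp only [comp_cup, up_up h]
  rw [up_of_lt (by omega : i < j + 2), up_of_lt (by omega : i + 1 < j + 2), up_of_le h,
    up_of_le (by omega : i ≤ j + 1)]
  tauto

theorem cap_cap {i j : ℕ} (h : i ≤ j) (p : St) : cap i (cap (j + 2) p) = cap j (cap i p) := by
  refine St.ext_comp fun g => ?_
  simp only [comp_cap]
  constructor
  · rintro ⟨f1, ⟨f, hf, h1, e1⟩, h2, e2⟩
    refine ⟨fun k => f (up i k), ⟨f, hf, ?_, fun _ => rfl⟩, ?_, fun k => ?_⟩
    · rwa [← e1, ← e1, up_of_lt (by omega), up_of_lt (by omega)] at h2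
    · simpa only [up_of_le h, up_of_le (by omega : i ≤ j + 1)] using h1
    · simp only [← up_up h, e1, e2]
  · rintro ⟨f1, ⟨f, hf, h1, e1⟩, h2, e2⟩
    refine ⟨fun k => f (up (j + 2) k), ⟨f, hf, ?_, fun _ => rfl⟩, ?_, fun k => ?_⟩
    · rwa [← e1, ← e1, up_of_le h, up_of_le (by omega)] at h2
    · simpa only [up_of_lt (by omega : i < j + 2), up_of_lt (by omega : i + 1 < j + 2)] using h1
    · simp only [up_up h, e1, e2]

theorem cap_cup_far {i j : ℕ} (h : i ≤ j) (p : St) : cap (j + 2) (cup i p) = cup i (cap j p) := by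
  refine St.ext_comp fun g => ?_
  simp only [comp_cap, comp_cup]
  constructor
  · rintro ⟨f, ⟨h1, hf⟩, h2, e⟩
    refine ⟨?_, _, hf, ?_, fun k => ?_⟩
    · rwa [← e, ← e, up_of_lt (by omega), up_of_lt (by omega)]
    · simpa only [up_of_le h, up_of_le (by omega : i ≤ j + 1)] using h2
    · simp only [← up_up h, e]
  · rintro ⟨h1, f, hf, h2, e⟩
    refine ⟨ins i (g i) f, ⟨by simp, by simpa using hf⟩, ?_, fun k => ?_⟩
    · rw [ins_add h, show j + 2 + 1 = j + 1 + 2 from rfl, ins_add (by omega), h2]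
    · rcases site_cases i k with rfl | rfl | ⟨k, rfl⟩
      · rw [up_of_lt (by omega), ins_left]
      · rw [up_of_lt (by omega), ins_right, h1]
      · rw [up_up h, ins_up, e]

theorem cap_cup_far' {i j : ℕ} (h : i ≤ j) (p : St) : cap i (cup (j + 2) p) = cup j (cap i p) := by
  refine St.ext_comp fun g => ?_
  simp only [comp_cap, comp_cup]
  constructor
  · rintro ⟨f, ⟨h1, hf⟩, h2, e⟩
    refine ⟨?_, _, hf, ?_, fun k => ?_⟩
    · rwa [← e, ← e, up_of_le h, up_of_le (by omega)]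
    · simpa only [up_of_lt (by omega : i < j + 2), up_of_lt (by omega : i + 1 < j + 2)] using h2
    · simp only [up_up h, e]
  · rintro ⟨h1, f, hf, h2, e⟩
    refine ⟨ins (j + 2) (g j) f, ⟨by simp, by simpa using hf⟩, ?_, fun k => ?_⟩
    · rw [ins_lt (by omega), ins_lt (by omega), h2]
    · rcases site_cases j k with rfl | rfl | ⟨k, rfl⟩
      · rw [up_of_le h, ins_left]
      · rw [up_of_le (by omega), show j + 1 + 2 = j + 2 + 1 from rfl, ins_right, h1]
      · rw [← up_up h, ins_up, e]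

theorem cup_injective (i : ℕ) : Function.Injective (cup i) := fun p r h => by
  rw [← cap_cup i p, h, cap_cup]

@[simp] theorem ee_cup (i : ℕ) (p : St) : ee i (cup i p) = cup i p := by simp [ee]
@[simp] theorem ee_succ_cup (i : ℕ) (p : St) : ee (i + 1) (cup i p) = cup (i + 1) p := by simp [ee]
@[simp] theorem ee_cup_succ (i : ℕ) (p : St) : ee i (cup (i + 1) p) = cup i p := by simp [ee]
@[simp] theorem cap_ee (i : ℕ) (p : St) : cap i (ee i p) = cap i p := by simp [ee]
@[simp] theorem cap_succ_ee (i : ℕ) (p : St) : cap (i + 1) (ee i p) = cap i p := by simp [ee]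
@[simp] theorem cap_ee_succ (i : ℕ) (p : St) : cap i (ee (i + 1) p) = cap (i + 1) p := by simp [ee]
@[simp] theorem ee_ee (i : ℕ) (p : St) : ee i (ee i p) = ee i p := by simp [ee]
@[simp] theorem ee_braid (i : ℕ) (p : St) : ee i (ee (i + 1) (ee i p)) = ee i p := by simp [ee]
@[simp] theorem ee_braid' (i : ℕ) (p : St) : ee (i + 1) (ee i (ee (i + 1) p)) = ee (i + 1) p := by
  simp [ee]

theorem ee_cup_far {i j : ℕ} (h : i ≤ j) (p : St) : ee (j + 2) (cup i p) = cup i (ee j p) := by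
  rw [ee, ee, cap_cup_far h, cup_cup h]

theorem ee_cup_far' {i j : ℕ} (h : i + 2 ≤ j) (p : St) : ee i (cup j p) = cup j (ee i p) := by
  obtain ⟨j, rfl⟩ : ∃ k, j = k + 2 := ⟨j - 2, by omega⟩
  rw [ee, ee, cap_cup_far' (by omega), cup_cup (by omega)]

theorem cap_ee_far {i j : ℕ} (h : i ≤ j) (p : St) : cap i (ee (j + 2) p) = ee j (cap i p) := by
  rw [ee, ee, cap_cup_far' h, cap_cap h]

theorem cap_ee_far' {i j : ℕ} (h : i + 2 ≤ j) (p : St) : cap j (ee i p) = ee i (cap j p) := by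
  obtain ⟨j, rfl⟩ : ∃ k, j = k + 2 := ⟨j - 2, by omega⟩
  rw [ee, ee, cap_cup_far (by omega), cap_cap (by omega)]

theorem ee_comm {i j : ℕ} (h : i + 2 ≤ j) (p : St) : ee i (ee j p) = ee j (ee i p) := by
  rw [ee.eq_1 j, ee_cup_far' h, ← cap_ee_far' h]; rfl

theorem Bd.mono {L M : ℕ} {p : St} (h : Bd L p) (hL : L ≤ M) : Bd M p :=
  fun i hi => h i (hL.trans hi)

theorem bd_o (L : ℕ) : Bd L o := fun _ _ => rfl

theorem Bd.lt {L i j : ℕ} {p : St} (h : Bd L p) (e : p.1 i = some j) : i < L ∧ j < L := by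
  constructor
  · by_contra hi; rw [h i (by omega)] at e; cases e
  · by_contra hj; have := (p.2.1 _ _ e).2; rw [h j (by omega)] at this; cases this

theorem Bd.eq_o {p : St} (h : Bd 1 p) : p = o := by
  refine Subtype.ext (funext fun i => ?_)
  cases e : p.1 i with
  | none => rfl
  | some j => have := h.lt e; have := (p.2.1 _ _ e).1; omega

theorem Bd.cup {L i : ℕ} {p : St} (h : Bd L p) (hi : i ≤ L) : Bd (L + 2) (cup i p) := by
  intro j hj
  obtain ⟨j, rfl⟩ : ∃ k, j = k + 2 := ⟨j - 2, by omega⟩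
  show cupF i p.1 _ = _
  rw [← up_of_le (by omega : i ≤ j), cupF_up, h j (by omega)]; rfl

theorem cap_none {i j : ℕ} {p : St} (h : p.1 (up i j) = none) : (cap i p).1 j = none :=
  capF_none.2 (by simp [thr, h])

theorem Bd.cap {L i : ℕ} {p : St} (h : Bd (L + 2) p) (hi : i ≤ L) : Bd L (cap i p) :=
  fun j hj => cap_none (h _ (by rw [up_of_le (by omega)]; omega))

theorem Bd.cap_last {L : ℕ} {p : St} (h : Bd (L + 1) p) : Bd L (Arm.cap L p) :=
  fun j hj => cap_none (h _ (by rw [up_of_le hj]; omega))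

theorem Bd.ee {L i : ℕ} {p : St} (h : Bd L p) (hi : i + 2 ≤ L) : Bd L (ee i p) := by
  obtain ⟨L, rfl⟩ : ∃ k, L = k + 2 := ⟨L - 2, by omega⟩
  exact (h.cap (by omega)).cup (by omega)

theorem Bd.cap_eq {L i : ℕ} {p : St} (h : Bd L p) (hi : L ≤ i) : Arm.cap i p = p := by
  refine St.ext_comp fun g => ?_
  rw [comp_cap]
  constructor
  · rintro ⟨f, hf, -, e⟩
    refine (comp_congr fun j => ?_).1 hf
    rw [← e]
    by_cases hj : j < i
    · rw [up_of_lt hj]
    · rw [hf.bd h (by omega), hf.bd h (by rw [up_of_le (by omega)]; omega)]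
  · intro hg
    refine ⟨g, hg, by rw [hg.bd h hi, hg.bd h (by omega)], fun j => ?_⟩
    by_cases hj : j < i
    · rw [up_of_lt hj]
    · rw [hg.bd h (by omega : L ≤ j), hg.bd h (by rw [up_of_le (by omega)]; omega)]

@[simp] theorem cap_o (i : ℕ) : cap i o = o := (bd_o 0).cap_eq (Nat.zero_le _)

theorem cup_apply (i : ℕ) (p : St) : (cup i p).1 i = some (i + 1) := cupF_left _ _
theorem ee_apply (i : ℕ) (p : St) : (ee i p).1 i = some (i + 1) := cupF_left _ _
theorem cup_ne_o (i : ℕ) (p : St) : cup i p ≠ o := fun h => by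
  have := cup_apply i p; rw [h] at this; cases this
theorem ee_ne_o (i : ℕ) (p : St) : ee i p ≠ o := cup_ne_o _ _

theorem ee_eq_self {i : ℕ} {p : St} (h : p.1 i = some (i + 1)) : ee i p = p := by
  refine St.ext_comp fun g => ?_
  simp only [ee, comp_cup, comp_cap]
  refine ⟨fun ⟨h1, f, hf, h2, e⟩ k => ?_, fun hg => ⟨(hg i).2 _ h, g, hg, (hg i).2 _ h, fun _ => rfl⟩⟩
  have h' := (p.2.1 _ _ h).2
  rcases site_cases i k with rfl | rfl | ⟨k, rfl⟩
  · rw [h]; exact ⟨by simp, fun j e => by cases e; exact h1⟩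
  · rw [h']; exact ⟨by simp, fun j e => by cases e; exact h1.symm⟩
  · refine ⟨fun e' => by rw [← e, (hf _).1 e'], fun j e' => ?_⟩
    have e'' := (p.2.1 _ _ e').2
    rcases site_cases i j with rfl | rfl | ⟨j, rfl⟩
    · rw [h] at e''; exact absurd (Option.some.inj e'').symm (up_ne' _ _)
    · rw [h'] at e''; exact absurd (Option.some.inj e'').symm (up_ne _ _)
    · rw [← e, ← e, (hf _).2 _ e']

theorem finite_bd (L : ℕ) : {p : St | Bd L p}.Finite := by
  refine Set.Finite.of_finite_image (f := fun (p : St) (i : Fin L) => p.1 i) ?_ ?_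
  · refine (Set.Finite.pi' fun _ : Fin L =>
      ((Set.finite_lt_nat L).image some).insert none).subset ?_
    rintro _ ⟨p, hp, rfl⟩ i
    cases e : p.1 i with
    | none => simp [e]
    | some j => simp [e, (Bd.lt hp e).2]
  · intro p hp r hr h
    refine Subtype.ext (funext fun i => ?_)
    by_cases hi : i < L
    · exact congrFun h ⟨i, hi⟩
    · rw [hp i (by omega), hr i (by omega)]

end Pool.Agent.P.MP_6c8efb_pr.Arm
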