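import Pool.Agent.P.MP_6c8efb_pr.Arm.Basic

/-! The divided difference `Jv`, `Jp` and determinants of linear functionals on polynomials. -/

open Polynomial

namespace Pool.Agent.P.MP_6c8efb_pr.Arm

theorem quad_monic {A : Type} [CommRing A] (a b : A) : (X ^ 2 + C a * X + C b : A[X]).Monic := by
  nontriviality A
  monicity!

theorem quad_degree {A : Type} [CommRing A] [Nontrivial A] (a b : A) :
    (X ^ 2 + C a * X + C b : A[X]).degree = 2 := by
  compute_degree!

/-- `Jv` is linear -/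
noncomputable def JvL (t : ℂ) : ℂ[X] →ₗ[ℂ] ℂ :=
  lcoeff ℂ 1 ∘ₗ modByMonicHom (X ^ 2 + C t * X + C (t ^ 2 - 3))

@[simp] theorem JvL_apply (t : ℂ) (f : ℂ[X]) : JvL t f = Jv f t := rfl

theorem Jv_add (f g : ℂ[X]) (t : ℂ) : Jv (f + g) t = Jv f t + Jv g t := (JvL t).map_add f g
theorem Jv_sub (f g : ℂ[X]) (t : ℂ) : Jv (f - g) t = Jv f t - Jv g t := (JvL t).map_sub f g
theorem Jv_C_mul (c : ℂ) (f : ℂ[X]) (t : ℂ) : Jv (C c * f) t = c * Jv f t := by
  rw [← smul_eq_C_mul]; exact (JvL t).map_smul c f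

/-- `Jv f a` is the divided difference of `f` at the two other roots -/
theorem Tri.Jv {a b c : ℂ} (h : Tri a b c) (f : ℂ[X]) : Jv f a * (b - c) = f.eval b - f.eval c := by
  set m : ℂ[X] := X ^ 2 + C a * X + C (a ^ 2 - 3) with hm
  have e := modByMonic_add_div f m
  have hd : (f %ₘ m).degree ≤ 1 := by
    have := degree_modByMonic_lt f (quad_monic a (a ^ 2 - 3))
    rw [quad_degree] at this
    exact Order.le_of_lt_succ this
  have hb : m.eval b = 0 := by have := h.quad b; simp [hm]; linear_combination -this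
  have hc : m.eval c = 0 := by have := h.quad c; simp [hm]; linear_combination -this
  have e2 := eq_X_add_C_of_degree_le_one hd
  have v : ∀ s, m.eval s = 0 → f.eval s = (f %ₘ m).coeff 1 * s + (f %ₘ m).coeff 0 := fun s hs => by
    conv_lhs => rw [← e, eval_add, eval_mul, hs, zero_mul, add_zero, e2]
    simp
  rw [v b hb, v c hc, Arm.Jv]; ring

theorem Jv_quad_mul (t : ℂ) (f : ℂ[X]) : Jv ((X ^ 2 + C t * X + C (t ^ 2 - 3)) * f) t = 0 := by
  rw [Jv, self_mul_modByMonic (quad_monic _ _), coeff_zero]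

/-- `s ^ 3 - 3 s` acts as the scalar `UU t` -/
theorem Jv_cubic_mul (t u : ℂ) (f : ℂ[X]) : Jv ((X ^ 3 - 3 * X - C u) * f) t = (UU t - u) * Jv f t := by
  have : (X ^ 3 - 3 * X - C u) * f =
      (X ^ 2 + C t * X + C (t ^ 2 - 3)) * ((X - C t) * f) + C (UU t - u) * f := by
    simp only [UU, map_sub, map_pow, map_mul, map_ofNat]; ring
  rw [this, Jv_add, Jv_quad_mul, zero_add, Jv_C_mul]

theorem Tri.poly {a b c : ℂ} (h : Tri a b c) :
    (X - C a) * (X - C b) * (X - C c) = (X ^ 3 - 3 * X - C (UU a) : ℂ[X]) :=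
  Polynomial.funext fun s => by simpa [UU] using h.factor s

theorem Jp_map {A B : Type} [CommRing A] [CommRing B] (φ : A →+* B) (f : A[X]) :
    Jp (f.map φ) = (Jp f).map φ := by
  unfold Jp
  have := map_modByMonic (p := f.map C) (mapRingHom φ) (quad_monic (X : A[X]) (X ^ 2 - 3))
  rw [← coe_mapRingHom φ, ← coeff_map, this]
  simp only [Polynomial.map_map, Polynomial.map_add, Polynomial.map_mul, Polynomial.map_pow, map_X,
    map_C, coe_mapRingHom, Polynomial.map_sub, Polynomial.map_ofNat, mapRingHom_comp_C]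

theorem Jp_eval (f : ℂ[X]) (t : ℂ) : (Jp f).eval t = Jv f t := by
  unfold Jp Jv
  have := map_modByMonic (p := f.map C) (evalRingHom t) (quad_monic (X : ℂ[X]) (X ^ 2 - 3))
  rw [← coe_evalRingHom, ← coeff_map, this]
  have e : (evalRingHom t).comp (C : ℂ →+* ℂ[X]) = RingHom.id ℂ := by ext; simp
  simp [Polynomial.map_map, e]

theorem Jp_add (f g : ℂ[X]) : Jp (f + g) = Jp f + Jp g :=
  Polynomial.funext fun t => by simp [Jp_eval, Jv_add]

theorem Jp_C_mul (c : ℂ) (f : ℂ[X]) : Jp (C c * f) = C c * Jp f :=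
  Polynomial.funext fun t => by simp [Jp_eval, Jv_C_mul]

/-- `Jp` is linear -/
noncomputable def JpL : ℂ[X] →ₗ[ℂ] ℂ[X] where
  toFun := Jp
  map_add' := Jp_add
  map_smul' c f := by simp [smul_eq_C_mul, Jp_C_mul]

@[simp] theorem JpL_apply (f : ℂ[X]) : JpL f = Jp f := rfl

theorem Jp_pow_add_two (n : ℕ) :
    Jp (X ^ (n + 2) : ℂ[X]) = -X * Jp (X ^ (n + 1)) - (X ^ 2 - 3) * Jp (X ^ n) :=
  Polynomial.funext fun t => by
    have : (X ^ (n + 2) : ℂ[X]) = (X ^ 2 + C t * X + C (t ^ 2 - 3)) * X ^ n -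
        C t * X ^ (n + 1) - C (t ^ 2 - 3) * X ^ n := by ring
    simp only [Jp_eval, eval_sub, eval_mul, eval_neg, eval_X, eval_pow, eval_ofNat]
    rw [this, Jv_sub, Jv_sub, Jv_quad_mul, Jv_C_mul, Jv_C_mul]; ring

theorem Jv_of_degree_le {f : ℂ[X]} (h : f.degree < 2) (t : ℂ) : Jv f t = f.coeff 1 := by
  rw [Jv, (modByMonic_eq_self_iff (quad_monic _ _)).2 (by rwa [quad_degree])]

theorem Jp_one : Jp (1 : ℂ[X]) = 0 := Polynomial.funext fun t => by
  rw [Jp_eval, Jv_of_degree_le (by simp)]; simp [coeff_one]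

theorem Jp_X : Jp (X : ℂ[X]) = 1 := Polynomial.funext fun t => by
  rw [Jp_eval, Jv_of_degree_le (by simp)]; simp

theorem natDegree_Jp_pow (n : ℕ) : (Jp (X ^ (n + 1) : ℂ[X])).natDegree ≤ n := by
  induction n using Nat.strong_induction_on with
  | _ n ih =>
    rcases n with _ | _ | n
    · simp [Jp_X]
    · rw [Jp_pow_add_two]; simp [Jp_X, Jp_one]
    · rw [Jp_pow_add_two]
      have h1 := ih (n + 1) (by omega)
      have h2 := ih n (by omega)
      refine (natDegree_sub_le _ _).trans (max_le (natDegree_mul_le.trans ?_) (natDegree_mul_le.trans ?_))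
      · simp only [natDegree_neg, natDegree_X]; omega
      · have : (X ^ 2 - 3 : ℂ[X]).natDegree ≤ 2 := by compute_degree
        omega

theorem natDegree_Jp (f : ℂ[X]) : (Jp f).natDegree ≤ f.natDegree - 1 := by
  conv_lhs => rw [f.as_sum_range_C_mul_X_pow, ← JpL_apply, map_sum]
  refine natDegree_sum_le_of_forall_le _ _ fun i hi => ?_
  rw [JpL_apply, Jp_C_mul]
  refine (natDegree_C_mul_le _ _).trans ?_
  rcases i with _ | i
  · simp [Jp_one]
  · have := Finset.mem_range.1 hi
    exact (natDegree_Jp_pow i).trans (by omega)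

/-- the determinant of `n` linear functionals does not depend on the monic basis -/
theorem det_monic {n : ℕ} (φ : Fin n → ℂ[X] →ₗ[ℂ] ℂ) (b : Fin n → ℂ[X]) (hm : ∀ j, (b j).Monic)
    (hd : ∀ j, (b j).natDegree = j) :
    Matrix.det (Matrix.of fun i j => φ i (b j)) =
      Matrix.det (Matrix.of fun i (j : Fin n) => φ i (X ^ (j : ℕ))) := by
  have : (Matrix.of fun i j => φ i (b j)) = (Matrix.of fun i (j : Fin n) => φ i (X ^ (j : ℕ))) *
      Matrix.of fun (i j : Fin n) => (b j).coeff i := by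
    ext i j
    simp only [Matrix.of_apply, Matrix.mul_apply]
    conv_lhs => rw [(b j).as_sum_range_C_mul_X_pow' (n := n) (by rw [hd]; exact j.2), map_sum,
      Finset.sum_range]
    exact Finset.sum_congr rfl fun k _ => by rw [← smul_eq_C_mul, map_smul, smul_eq_mul, mul_comm]
  rw [this, Matrix.det_mul, Matrix.det_matrixOfPolynomials b hd hm, mul_one]

/-- a row which is an evaluation at a point can be removed -/
theorem det_newton {n : ℕ} (φ : Fin (n + 1) → ℂ[X] →ₗ[ℂ] ℂ) (c p : ℂ)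
    (h0 : ∀ f, φ 0 f = c * f.eval p) :
    Matrix.det (Matrix.of fun i (j : Fin (n + 1)) => φ i (X ^ (j : ℕ))) =
      c * Matrix.det (Matrix.of fun i (j : Fin n) => φ (Fin.succ i) ((X - C p) * X ^ (j : ℕ))) := by
  rw [← det_monic φ (Fin.cons 1 fun j : Fin n => (X - C p) * X ^ (j : ℕ))
    (fun j => Fin.cases monic_one (fun j => (monic_X_sub_C p).mul (monic_X_pow _)) j)
    (fun j => Fin.cases (by simp) (fun j => by
      rw [Fin.cons_succ, (monic_X_sub_C p).natDegree_mul (monic_X_pow _)]; simp [add_comm]) j),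
    Matrix.det_succ_row_zero, Fin.sum_univ_succ, Finset.sum_eq_zero fun j _ => by simp [h0]]
  simp only [Matrix.of_apply, h0, Fin.cons_zero, eval_one, Fin.val_zero, pow_zero, mul_one, one_mul,
    add_zero, Fin.succAbove_zero]
  congr 1

end Pool.Agent.P.MP_6c8efb_pr.Arm
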