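import Pool.Agent.P.MP_6c8efb_pr.Arm.Iface

/-! The polynomial solution satisfies all the relations for all non zero parameters. -/

namespace Pool.Agent.P.MP_6c8efb_pr.Arm

namespace SolSA

/-- vector valued Laurent polynomial functions -/
def WL (g : ℂ → W) : Prop := ∀ φ : W →ₗ[ℂ] ℂ, LP1 fun t => φ (g t)

theorem WL.map {g : ℂ → W} (h : WL g) (A : Module.End ℂ W) : WL fun t => A (g t) :=
  fun φ => h (φ ∘ₗ A)

theorem WL.add {g g' : ℂ → W} (h : WL g) (h' : WL g') : WL fun t => g t + g' t :=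
  fun φ => by simpa using (h φ).add (h' φ)

theorem WL.sub {g g' : ℂ → W} (h : WL g) (h' : WL g') : WL fun t => g t - g' t :=
  fun φ => by simpa using (h φ).sub (h' φ)

theorem WL.smul {g : ℂ → W} {c : ℂ → ℂ} (h : WL g) (hc : LP1 c) : WL fun t => c t • g t :=
  fun φ => by simpa using hc.mul (h φ)

theorem WL.inv {g : ℂ → W} (h : WL g) : WL fun t => g t⁻¹ := fun φ => (h φ).inv

theorem WL.comb {g : ℂ → W} {a b : ℂ → ℂ} (h : WL g) (ha : LP1 a) (hb : LP1 b)
    (A : Module.End ℂ W) : WL fun t => (a t • (1 : Module.End ℂ W) + b t • A) (g t) :=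
  (h.smul ha).add ((h.map A).smul hb)

theorem WL.R {g : ℂ → W} (h : WL g) (i : ℕ) : WL fun t => R i t (g t) :=
  h.comb ((lp1_const _).mul ((lp1_const _).add ((lp1_const _).mul lp1_id)))
    ((lp1_const _).mul ((lp1_const _).add lp1_id)) _

theorem WL.row {g : ℂ → W} (h : WL g) (a : ℕ) (l₁ l₂ : List ℂ) :
    WL fun t => row a (l₁ ++ t :: l₂) (g t) := by
  simp only [row_append, Arm.row, Module.End.mul_apply]
  exact ((h.map _).R _).map _

theorem WL.TM {g : ℂ → W} (h : WL g) (l₁ l₂ : List ℂ) : WL fun t => TM (l₁ ++ t :: l₂) (g t) := by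
  simp only [Arm.TM, Module.End.mul_apply, List.length_append, List.length_cons]
  exact ((((h.map _).row _ _ _).row _ _ _).map _).map _

theorem WL.Rc {g : ℂ → W} {x y : ℂ → ℂ} (h : WL g) (hx : LP1 x) (hy : LP1 y) (i : ℕ) :
    WL fun t => Rc i (x t) (y t) (g t) :=
  h.comb (((lp1_const _).mul hy).sub hx) ((lp1_const _).mul (hx.sub hy)) _

theorem WL.Kc {g : ℂ → W} {x : ℂ → ℂ} (h : WL g) (hx : LP1 x) (i : ℕ) :
    WL fun t => Kc i (x t) (g t) :=
  h.comb (hx.add (lp1_const _)) ((lp1_const _).mul ((lp1_const _).sub hx)) _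

theorem near_infinite {ε : ℝ} (h : 0 < ε) : {x | Near ε x}.Infinite := by
  refine Set.infinite_of_injOn_mapsTo (f := fun s : ℝ => ((1 + s : ℝ) : ℂ))
    (fun a _ b _ e => add_left_cancel (Complex.ofReal_injective e)) (fun s hs => ?_)
    (Set.Ioo_infinite h)
  have h1 : 0 < 1 + s := by linarith [hs.1]
  refine ⟨Complex.ofReal_ne_zero.2 h1.ne', ?_, ?_⟩
  · simpa [abs_of_pos hs.1] using hs.2
  · rw [← Complex.ofReal_inv, ← Complex.ofReal_one, ← Complex.ofReal_sub, Complex.norm_real,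
      Real.norm_eq_abs, abs_lt]
    have h2 : (1 + s)⁻¹ * (1 + s) = 1 := inv_mul_cancel₀ h1.ne'
    have h3 := inv_pos.2 h1
    constructor <;> nlinarith [hs.1, hs.2]

theorem ext1 (h4 : S_Ext) (Φ : List ℂ → W) (L : ℕ) {U : Set ℂ} (hU : U.Infinite)
    (h1 : ∀ l₁ l₂ : List ℂ, l₁.length + l₂.length + 1 = L → WL fun t => Φ (l₁ ++ t :: l₂))
    (h2 : ∀ l, l.length = L → (∀ x ∈ l, x ∈ U) → Gen l → Φ l = 0) (l : List ℂ)
    (hl : l.length = L) (hn : Nz l) : Φ l = 0 :=
  Finsupp.ext fun p => h4 (fun l => Φ l p) L U hU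
    (fun l₁ l₂ h _ _ => h1 l₁ l₂ h (Finsupp.lapply p))
    (fun l h h' h'' => by rw [h2 l h h' h'']; rfl) l hl hn

theorem ext2 (h4 : S_Ext) (Φ : List ℂ → List ℂ → W) (a b : ℕ) {U : Set ℂ} (hU : U.Infinite)
    (h1 : ∀ l₁ l₂ r : List ℂ, WL fun t => Φ (l₁ ++ t :: l₂) r)
    (h2 : ∀ l r₁ r₂ : List ℂ, r₁.length + r₂.length + 1 = b → WL fun t => Φ l (r₁ ++ t :: r₂))
    (h3 : ∀ l r, l.length = a → r.length = b → (∀ x ∈ l ++ r, x ∈ U) → Gen (l ++ r) → Φ l r = 0)
    (l r : List ℂ) (hl : l.length = a) (hr : r.length = b) (hn : Nz (l ++ r)) : Φ l r = 0 := by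
  have h := ext1 h4 (fun l => Φ (l.take a) (l.drop a)) (a + b) hU (fun l₁ l₂ h => ?_)
    (fun l h h' h'' => h3 _ _ (by simp [h]) (by simp [h]) (by simpa using h') (by simpa using h''))
    (l ++ r) (by simp [hl, hr]) hn
  · simpa [← hl] using h
  rcases lt_or_ge l₁.length a with h5 | h5
  · obtain ⟨k, rfl⟩ : ∃ k, a = l₁.length + (k + 1) := ⟨a - l₁.length - 1, by omega⟩
    simpa [List.take_append, List.drop_append, List.take_of_length_le, List.drop_of_length_le] using
      h1 l₁ (l₂.take k) (l₂.drop k)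
  · simpa [List.take_append_of_le_length h5, List.drop_append_of_le_length h5] using
      h2 (l₁.take a) (l₁.drop a) l₂ (by simp; omega)

/-- the defect in the exchange relation -/
noncomputable def dE (F : List ℂ → W) (i : ℕ) (l : List ℂ) : List ℂ → W
  | x :: y :: r => (q ^ 2 * x - y) • F (l ++ y :: x :: r) - Rc i x y (F (l ++ x :: y :: r))
  | _ => 0

/-- the defect in the reflection relation -/
noncomputable def dR (F : List ℂ → W) (i : ℕ) (l : List ℂ) : List ℂ → W
  | [x] => (1 + q * x) • F (l ++ [x⁻¹]) - Kc i x (F (l ++ [x]))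
  | _ => 0

theorem wl_zero : WL fun _ => 0 := fun φ => lp1_const (φ 0)

variable {F : List ℂ → W} (hF : ∀ l₁ l₂, WL fun t => F (l₁ ++ t :: l₂))
include hF

theorem dE_left (i : ℕ) (l₁ l₂ r : List ℂ) : WL fun t => dE F i (l₁ ++ t :: l₂) r := by
  rcases r with _ | ⟨x, _ | ⟨y, r⟩⟩
  · exact wl_zero
  · exact wl_zero
  · simp only [dE, List.append_assoc, List.cons_append]
    exact ((hF _ _).smul (lp1_const _)).sub ((hF _ _).map _)

theorem dE_right (i : ℕ) (l r₁ r₂ : List ℂ) : WL fun t => dE F i l (r₁ ++ t :: r₂) := by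
  rcases r₁ with _ | ⟨x, _ | ⟨y, r⟩⟩
  · rcases r₂ with _ | ⟨y, r⟩
    · exact wl_zero
    · have h := hF (l ++ [y]) r
      simp only [List.append_assoc, List.cons_append, List.nil_append] at h
      exact (h.smul (((lp1_const _).mul lp1_id).sub (lp1_const _))).sub
        ((hF _ _).Rc lp1_id (lp1_const _) _)
  · have h := hF (l ++ [x]) r₂
    simp only [List.append_assoc, List.cons_append, List.nil_append] at h
    exact ((hF _ _).smul ((lp1_const _).sub lp1_id)).sub (h.Rc (lp1_const _) lp1_id _)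
  · have h := hF (l ++ x :: y :: r) r₂
    have h' := hF (l ++ y :: x :: r) r₂
    simp only [List.append_assoc, List.cons_append] at h h'
    exact (h'.smul (lp1_const _)).sub (h.map _)

theorem dR_left (i : ℕ) (l₁ l₂ r : List ℂ) : WL fun t => dR F i (l₁ ++ t :: l₂) r := by
  rcases r with _ | ⟨x, _ | ⟨y, r⟩⟩
  · exact wl_zero
  · simp only [dR, List.append_assoc, List.cons_append]
    exact ((hF _ _).smul (lp1_const _)).sub ((hF _ _).map _)
  · exact wl_zero

theorem dR_right (i : ℕ) (l : List ℂ) : WL fun t => dR F i l [t] :=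
  ((hF l []).inv.smul ((lp1_const _).add ((lp1_const _).mul lp1_id))).sub ((hF l []).Kc lp1_id _)

end SolSA

open SolSA in
theorem s_Sol (h1 : S_Loc) (h2 : S_Poly) (h3 : S_Dd) (h4 : S_Ext) (h5 : S_TM) : S_Sol := by
  have _ := h5
  choose ε Ψ hΨ using h1
  choose G ρ g1 g2 g3 g4 g5 g6 using fun L => h2 L _ _ (hΨ L)
  obtain ⟨F, hFG⟩ : ∃ F : List ℂ → W, ∀ L l, l.length = L → F l = G L l :=
    ⟨fun l => G l.length l, fun L l h => h ▸ rfl⟩
  have hU := fun L => near_infinite (hΨ L).pos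
  have hd : ∀ l₁ l₂ p, LPd (l₁.length + l₂.length) fun t => F (l₁ ++ t :: l₂) p := fun l₁ l₂ p => by
    obtain ⟨f, f1, f2⟩ := g2 (l₁.length + l₂.length + 1) p
    refine (h3.slice _ _ f f1 l₁ l₂ rfl).congr fun t _ => ?_
    rw [hFG (l₁.length + l₂.length + 1) _ (by simp [add_assoc]), f2]
  have hs : ∀ l, Sup l.length (F l) := fun l => hFG _ l rfl ▸ g1 _ l
  have hF : ∀ l₁ l₂, WL fun t => F (l₁ ++ t :: l₂) := fun l₁ l₂ φ => by
    refine (LP1.sum (SL (l₁.length + l₂.length + 1)) fun p _ =>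
      (hd l₁ l₂ p).lp1.mul (lp1_const (φ (Finsupp.single p 1)))).congr fun t _ => ?_
    have := hs (l₁ ++ t :: l₂)
    rw [List.length_append, List.length_cons, ← add_assoc] at this
    exact (this.map_eq φ).symm
  have he : ∀ L l, l.length = L → (∀ x ∈ l, Near (ε L) x) → Gen l → Ψ L l = ρ L l • F l :=
    fun L l e1 e2 e3 => hFG L l e1 ▸ g6 L l e1 e2 e3
  have hρ : ∀ L l, l.length = L → (∀ x ∈ l, Near (ε L) x) → Gen l → ρ L l ≠ 0 :=
    fun L l e1 e2 e3 e => by
      have := ((hΨ L).fix l e1 e2).2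
      rw [he L l e1 e2 e3, e, zero_smul, map_zero] at this
      exact zero_ne_one this
  refine ⟨F, fun l hl => ⟨hs l, sub_eq_zero.1 ?_⟩, fun l hl => ?_, fun l₁ x y l₂ hl => ?_,
    fun l x hl => ?_, fun l₁ l₂ p _ _ => hd l₁ l₂ p⟩
  · refine ext1 h4 (fun l => TM l (F l) - nrm l • F l) _ (hU l.length) (fun l₁ l₂ _ => ?_)
      (fun l' e1 e2 e3 => ?_) l rfl hl
    · refine ((hF l₁ l₂).TM l₁ l₂).sub ((hF l₁ l₂).smul ?_)
      simp only [nrm_append, nrm_cons]
      exact (lp1_const _).mul ((((lp1_const _).add lp1_id).pow _).mul (lp1_const _))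
    · have := ((hΨ _).fix l' e1 e2).1.2
      rw [he _ l' e1 e2 e3, map_smul, smul_comm] at this
      exact sub_eq_zero.2 (smul_right_injective W (hρ _ l' e1 e2 e3) this)
  · rw [hFG _ l rfl, g5 _ l rfl hl]
  · refine sub_eq_zero.1 (ext2 h4 (dE F l₁.length) l₁.length (l₂.length + 2)
      (hU (l₁.length + (l₂.length + 2))) (dE_left hF _) (fun l r₁ r₂ _ => dE_right hF _ l r₁ r₂)
      ?_ l₁ (x :: y :: l₂) rfl rfl hl)
    rintro l (_ | ⟨x, _ | ⟨y, r⟩⟩) e1 e2 e3 e4
    · rfl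
    · rfl
    have e5 : (l ++ x :: y :: r).length = l₁.length + (l₂.length + 2) := by
      rw [List.length_append, e1, e2]
    have e6 : (l ++ x :: y :: r).Perm (l ++ y :: x :: r) := (List.Perm.swap y x r).append_left l
    have := (hΨ _).exch l x y r e5 e3
    rw [he _ _ e5 e3 e4, he _ _ (e6.length_eq ▸ e5) (fun z hz => e3 z (e6.symm.subset hz))
      (e4.perm e6), ← g3 _ _ _ e5 e3 e6, map_smul, smul_comm, e1] at this
    exact sub_eq_zero.2 (smul_right_injective W (hρ _ _ e5 e3 e4) this)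
  · refine sub_eq_zero.1 (ext2 h4 (dR F l.length) l.length 1 (hU (l.length + 1)) (dR_left hF _)
      (fun l' r₁ r₂ e => ?_) ?_ l [x] rfl rfl hl)
    · obtain rfl : r₁ = [] := List.length_eq_zero_iff.1 (by omega)
      obtain rfl : r₂ = [] := List.length_eq_zero_iff.1 (by omega)
      exact dR_right hF _ l'
    rintro l' (_ | ⟨x, _ | ⟨y, r⟩⟩) e1 e2 e3 e4
    · rfl
    swap
    · rfl
    have e5 : ∀ z : ℂ, (l' ++ [z]).length = l.length + 1 := fun z => by simp [e1]
    have e6 : ∀ z ∈ l' ++ [x⁻¹], Near (ε (l.length + 1)) z := fun z hz => by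
      rcases List.mem_append.1 hz with h | h
      · exact e3 z (List.mem_append_left _ h)
      · rw [List.mem_singleton.1 h]
        exact Near.inv (e3 x (by simp))
    have e7 : Gen (l' ++ [x⁻¹]) :=
      ((e4.perm (List.perm_append_singleton x l')).replace (Or.inr (inv_pow x 3))).perm
        (List.perm_append_singleton _ l').symm
    have := (hΨ _).right l' x (e5 x) e3
    rw [he _ _ (e5 x) e3 e4, he _ _ (e5 _) e6 e7, g4 _ _ _ (e5 x) e3, map_smul, smul_comm,
      e1] at this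
    exact sub_eq_zero.2 (smul_right_injective W (hρ _ _ (e5 x) e3 e4) this)

end Pool.Agent.P.MP_6c8efb_pr.Arm
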