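import Pool.Agent.P.MP_6c8efb_pr.Arm.Iface

/-! Triangularity of the Temperley-Lieb action on link patterns. -/

namespace Pool.Agent.P.MP_6c8efb_pr.Arm

namespace TriA

open Finset

/-- the site `j` is the right end of an arc -/
def cl (p : St) (j : ℕ) : Prop := ∃ i, i < j ∧ p.1 j = some i

open Classical in
/-- the depth of a pattern -/
noncomputable def df (L : ℕ) (p : St) : ℕ := ∑ j ∈ range L, if cl p j then L - j else 0

theorem cl_some {p : St} {j l : ℕ} (h : p.1 j = some l) : cl p j ↔ l < j :=
  ⟨fun ⟨i, h1, h2⟩ => by rw [h] at h2; cases h2; exact h1, fun e => ⟨l, e, h⟩⟩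

theorem cl_none {p : St} {j : ℕ} (h : p.1 j = none) : ¬ cl p j :=
  fun ⟨i, _, h2⟩ => by rw [h] at h2; cases h2

theorem cl_congr {p r : St} {j : ℕ} (h : p.1 j = r.1 j) : cl p j ↔ cl r j := by
  unfold cl; rw [h]

theorem df_swap {L u v : ℕ} {b c : St} (hu : u < L) (hv : v < L)
    (h : ∀ j, j ≠ u → j ≠ v → (cl c j ↔ cl b j)) (h1 : cl b u) (h2 : ¬ cl c u) (h3 : cl c v)
    (h4 : ¬ cl b v) : df L c + (L - u) = df L b + (L - v) := by
  classical
  have huv : u ≠ v := by rintro rfl; exact h4 h1
  have e1 : L - u = ∑ j ∈ range L, if j = u then L - u else 0 := by simp [hu]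
  have e2 : L - v = ∑ j ∈ range L, if j = v then L - v else 0 := by simp [hv]
  unfold df
  rw [e1, e2, ← sum_add_distrib, ← sum_add_distrib]
  refine sum_congr rfl fun j _ => ?_
  by_cases ju : j = u
  · subst ju; simp [h1, h2, huv]
  by_cases jv : j = v
  · subst jv; simp [h3, h4, ju]
  simp [ju, jv, h j ju jv]

theorem df_rem {L u : ℕ} {b c : St} (hu : u < L)
    (h : ∀ j, j ≠ u → (cl c j ↔ cl b j)) (h1 : cl b u) (h2 : ¬ cl c u) :
    df L c + (L - u) = df L b := by
  classical
  have e1 : L - u = ∑ j ∈ range L, if j = u then L - u else 0 := by simp [hu]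
  unfold df
  rw [e1, ← sum_add_distrib]
  refine sum_congr rfl fun j _ => ?_
  by_cases ju : j = u
  · subst ju; simp [h1, h2]
  simp [ju, h j ju]

theorem ee_thr {i j : ℕ} (c : St) (h1 : j ≠ i) (h2 : j ≠ i + 1) :
    (ee i c).1 j = thr i c.1 j := by
  obtain ⟨k, rfl⟩ : ∃ k, j = up i k := ⟨_, (up_dn h1 h2).symm⟩
  show cupF i (capF i c.1) _ = _
  rw [cupF_up, capF]
  cases e : thr i c.1 (up i k) with
  | none => rfl
  | some l =>
    have := thr_some c.2.1 h1 h2 e
    simp [up_dn this.1 this.2.1]

theorem ee_right (i : ℕ) (c : St) : (ee i c).1 (i + 1) = some i := cupF_right _ _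

theorem ee_other {i j : ℕ} (c : St) (h1 : j ≠ i) (h2 : j ≠ i + 1) (h3 : c.1 i ≠ some j)
    (h4 : c.1 (i + 1) ≠ some j) : (ee i c).1 j = c.1 j := by
  rw [ee_thr c h1 h2, thr, if_neg fun e => h3 (c.2.1 _ _ e).2, if_neg fun e => h4 (c.2.1 _ _ e).2]

theorem ee_x {i j : ℕ} (c : St) (h : c.1 i = some j) (h2 : j ≠ i + 1) :
    (ee i c).1 j = c.1 (i + 1) := by
  rw [ee_thr c (c.2.1 _ _ h).1 h2, thr, if_pos (c.2.1 _ _ h).2]

theorem ee_y {i j : ℕ} (c : St) (h : c.1 (i + 1) = some j) (h1 : j ≠ i) :
    (ee i c).1 j = c.1 i := by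
  rw [ee_thr c h1 (c.2.1 _ _ h).1, thr, if_neg (by rw [(c.2.1 _ _ h).2]; simp),
    if_pos (c.2.1 _ _ h).2]

theorem ee_cases {L i : ℕ} {c : St} (hc : Bd L c) (hi : i + 2 ≤ L) :
    (cl c i ∧ ¬ cl c (i + 1) ∧ df L c = df L (ee i c) + 1) ∨
      (¬ (cl c i ∧ ¬ cl c (i + 1)) ∧ df L c ≤ df L (ee i c)) := by
  have hs := c.2.1
  have hp := c.2.2
  have b1 : ¬ cl (ee i c) i := by rw [cl_some (ee_apply i c)]; omega
  have b2 : cl (ee i c) (i + 1) := by rw [cl_some (ee_right i c)]; omega
  cases hx : c.1 i with
  | none =>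
    have c1 := cl_none hx
    refine Or.inr ⟨fun e => c1 e.1, ?_⟩
    cases hy : c.1 (i + 1) with
    | none =>
      have := df_rem (L := L) (u := i + 1) (b := ee i c) (c := c) (by omega) (fun j hj => by
        by_cases ji : j = i
        · subst ji; exact iff_of_false c1 b1
        exact cl_congr (ee_other c ji hj (by simp [hx]) (by simp [hy])).symm) b2 (cl_none hy)
      omega
    | some y =>
      have y1 := hs _ _ hy
      have y2 : y ≠ i := by rintro rfl; rw [hx] at y1; cases y1.2
      have y3 : i + 1 < y := by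
        by_contra hlt
        obtain ⟨l, hl, -⟩ := hp y (i + 1) i y1.2 (by omega) (by omega)
        rw [hx] at hl; cases hl
      have := df_swap (L := L) (u := i + 1) (v := y) (b := ee i c) (c := c) (by omega)
        (hc.lt hy).2 (fun j hj hj' => by
          by_cases ji : j = i
          · subst ji; exact iff_of_false c1 b1
          exact cl_congr (ee_other c ji hj (by simp [hx]) (by simp [hy]; omega)).symm) b2
        (by rw [cl_some hy]; omega) (by rw [cl_some y1.2]; omega)
        (cl_none (by rw [ee_y c hy y2, hx]))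
      omega
  | some x =>
    have x1 := hs _ _ hx
    by_cases x0 : x = i + 1
    · subst x0
      rw [ee_eq_self hx]
      exact Or.inr ⟨fun e => by rw [cl_some hx] at e; omega, le_rfl⟩
    cases hy : c.1 (i + 1) with
    | none =>
      have x3 : x < i := by
        by_contra hlt
        obtain ⟨l, hl, -⟩ := hp i x (i + 1) hx (by omega) (by omega)
        rw [hy] at hl; cases hl
      have c1 : cl c i := by rw [cl_some hx]; exact x3
      have := df_swap (L := L) (u := i + 1) (v := i) (b := ee i c) (c := c) (by omega)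
        (by omega) (fun j hj ji => by
          by_cases jx : j = x
          · subst jx
            exact iff_of_false (by rw [cl_some x1.2]; omega) (cl_none (by rw [ee_x c hx x0, hy]))
          exact cl_congr (ee_other c ji hj (by simp [hx]; omega) (by simp [hy])).symm) b2
        (cl_none hy) c1 b1
      exact Or.inl ⟨c1, cl_none hy, by omega⟩
    | some y =>
      have y1 := hs _ _ hy
      have y2 : y ≠ i := by rintro rfl; rw [hx] at y1; cases y1.2; exact x0 rfl
      have xy : x ≠ y := by rintro rfl; have := x1.2; rw [y1.2] at this; simp at this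
      have bx : (ee i c).1 x = some y := by rw [ee_x c hx x0, hy]
      have by' : (ee i c).1 y = some x := by rw [ee_y c hy y2, hx]
      have oth : ∀ j, j ≠ i → j ≠ i + 1 → j ≠ x → j ≠ y → (cl c j ↔ cl (ee i c) j) :=
        fun j h1 h2 h3 h4 =>
          cl_congr (ee_other c h1 h2 (by simp [hx]; omega) (by simp [hy]; omega)).symm
      rcases lt_or_gt_of_ne x1.1 with x3 | x3
      · have c1 : cl c i := by rw [cl_some hx]; exact x3
        rcases lt_or_gt_of_ne y1.1 with y3 | y3
        · have yx : y < x := by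
            obtain ⟨l, hl, h1, -⟩ := hp y (i + 1) i y1.2 (by omega) (by omega)
            rw [hx] at hl; cases hl; exact h1
          have c2 : cl c (i + 1) := by rw [cl_some hy]; exact y3
          have := df_swap (L := L) (u := x) (v := i) (b := ee i c) (c := c) (by omega)
            (by omega) (fun j jx ji => by
              by_cases j1 : j = i + 1
              · subst j1; exact iff_of_true c2 b2
              by_cases jy : j = y
              · subst jy
                exact iff_of_false (by rw [cl_some y1.2]; omega) (by rw [cl_some by']; omega)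
              exact oth j ji j1 jx jy) (by rw [cl_some bx]; omega) (by rw [cl_some x1.2]; omega)
            c1 b1
          exact Or.inr ⟨fun e => e.2 c2, by omega⟩
        · have c2 : ¬ cl c (i + 1) := by rw [cl_some hy]; omega
          have := df_swap (L := L) (u := i + 1) (v := i) (b := ee i c) (c := c) (by omega)
            (by omega) (fun j j1 ji => by
              by_cases jx : j = x
              · subst jx
                exact iff_of_false (by rw [cl_some x1.2]; omega) (by rw [cl_some bx]; omega)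
              by_cases jy : j = y
              · subst jy
                exact iff_of_true (by rw [cl_some y1.2]; omega) (by rw [cl_some by']; omega)
              exact oth j ji j1 jx jy) b2 c2 c1 b1
          exact Or.inl ⟨c1, c2, by omega⟩
      · have c1 : ¬ cl c i := by rw [cl_some hx]; omega
        obtain ⟨l, hl, h1, h2⟩ := hp i x (i + 1) hx (by omega) (by omega)
        rw [hy] at hl; cases hl
        have y3 := y1.1
        have := df_swap (L := L) (u := i + 1) (v := y) (b := ee i c) (c := c) (by omega)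
          (hc.lt hy).2 (fun j j1 jy => by
            by_cases ji : j = i
            · subst ji; exact iff_of_false c1 b1
            by_cases jx : j = x
            · subst jx
              exact iff_of_true (by rw [cl_some x1.2]; omega) (by rw [cl_some bx]; omega)
            exact oth j ji j1 jx jy) b2 (by rw [cl_some hy]; omega)
          (by rw [cl_some y1.2]; omega) (by rw [cl_some by']; omega)
        exact Or.inr ⟨fun e => c1 e.1, by omega⟩

theorem valley_aux {i x x' : ℕ} {a c : St} (h : ee i c = ee i a) (ha : a.1 i = some x')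
    (ha' : ¬ cl a (i + 1)) (hc : c.1 i = some x) (h1 : x < x') (h2 : x' < i) : False := by
  obtain ⟨l, hl, h3, h4⟩ := c.2.2 x i x' (c.2.1 _ _ hc).2 h1 h2
  have e1 : (ee i c).1 x' = c.1 x' := ee_other c (by omega) (by omega) (by simp [hc]; omega)
    (fun e => by have := (c.2.1 _ _ e).2; rw [hl] at this; cases this; omega)
  rw [h, ee_x a ha (by omega), hl] at e1
  exact ha' ⟨l, by omega, e1⟩

theorem valley_unique {i : ℕ} {a c : St} (h : ee i c = ee i a) (ha : cl a i)
    (ha' : ¬ cl a (i + 1)) (hc : cl c i) (hc' : ¬ cl c (i + 1)) : c = a := by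
  obtain ⟨x, x1, hx⟩ := hc
  obtain ⟨x', x2, hx'⟩ := ha
  obtain rfl : x = x' := by
    rcases lt_trichotomy x x' with e | e | e
    · exact (valley_aux h hx' ha' hx e x2).elim
    · exact e
    · exact (valley_aux h.symm hx hc' hx' e x1).elim
  have e1 : c.1 (i + 1) = a.1 (i + 1) := by
    rw [← ee_x c hx (by omega), ← ee_x a hx' (by omega), h]
  refine Subtype.ext (funext fun j => ?_)
  by_cases j0 : j = i
  · rw [j0, hx, hx']
  by_cases j1 : j = i + 1
  · rw [j1, e1]
  by_cases jx : j = x
  · rw [jx, (c.2.1 _ _ hx).2, (a.2.1 _ _ hx').2]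
  by_cases jy : c.1 (i + 1) = some j
  · rw [(c.2.1 _ _ jy).2, (a.2.1 _ _ (e1 ▸ jy)).2]
  rw [← ee_other c j0 j1 (by simp [hx]; omega) jy,
    ← ee_other a j0 j1 (by simp [hx']; omega) (e1 ▸ jy), h]

theorem cap_other {M j : ℕ} {c : St} (hc : Bd (M + 1) c) (hj : j ≠ M) (h : c.1 M ≠ some j) :
    (cap M c).1 j = c.1 j := by
  rcases lt_or_gt_of_ne hj with hj | hj
  · show capF M c.1 j = _
    have e0 : c.1 j ≠ some M := fun e => h (c.2.1 _ _ e).2
    rw [capF, up_of_lt hj, thr, if_neg e0, if_neg fun e => by have := hc.lt e; omega]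
    cases e : c.1 j with
    | none => rfl
    | some l =>
      have h1 := (hc.lt e).2
      have h2 : l ≠ M := by rintro rfl; exact e0 e
      simp [dn]; omega
  · rw [hc.cap_last j hj.le, hc j hj]

theorem cap_x {M x : ℕ} {c : St} (hc : Bd (M + 1) c) (h : c.1 M = some x) :
    (cap M c).1 x = none := by
  have h1 := c.2.1 _ _ h
  have h2 := (hc.lt h).2
  show capF M c.1 x = _
  rw [capF_none, up_of_lt (by omega), thr, if_pos h1.2, hc _ le_rfl]

theorem bd_pred {M : ℕ} {c : St} (hc : Bd (M + 1) c) (h : c.1 M = none) : Bd M c := fun j hj => by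
  rcases hj.eq_or_lt with rfl | hj
  · exact h
  · exact hc j hj

theorem cap_df {M x : ℕ} {c : St} (hc : Bd (M + 1) c) (h : c.1 M = some x) :
    df (M + 1) c = df (M + 1) (cap M c) + 1 := by
  have h1 := c.2.1 _ _ h
  have h2 := (hc.lt h).2
  have := df_rem (L := M + 1) (u := M) (b := c) (c := cap M c) (by omega) (fun j hj => by
    by_cases jx : j = x
    · subst jx
      exact iff_of_false (cl_none (cap_x hc h)) (by rw [cl_some h1.2]; omega)
    exact cl_congr (cap_other hc hj (by simp [h]; omega))) (by rw [cl_some h]; omega)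
    (cl_none (hc.cap_last M le_rfl))
  omega

theorem cap_aux {M x x' : ℕ} {a c : St} (ha : Bd (M + 1) a) (hc : Bd (M + 1) c)
    (h : cap M c = cap M a) (e : a.1 M = some x') (e' : c.1 M = some x) (h1 : x < x') : False := by
  have h2 := (ha.lt e).2
  have h3 := (a.2.1 _ _ e).1
  obtain ⟨l, hl, -⟩ := c.2.2 x M x' (c.2.1 _ _ e').2 h1 (by omega)
  have := cap_other hc h3 (by simp [e']; omega)
  rw [h, cap_x ha e, hl] at this
  cases this

theorem cap_unique {M x x' : ℕ} {a c : St} (ha : Bd (M + 1) a) (hc : Bd (M + 1) c)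
    (h : cap M c = cap M a) (e : a.1 M = some x') (e' : c.1 M = some x) : c = a := by
  obtain rfl : x = x' := by
    rcases lt_trichotomy x x' with k | k | k
    · exact (cap_aux ha hc h e e' k).elim
    · exact k
    · exact (cap_aux hc ha h.symm e' e k).elim
  refine Subtype.ext (funext fun j => ?_)
  by_cases j0 : j = M
  · rw [j0, e, e']
  by_cases jx : j = x
  · rw [jx, (c.2.1 _ _ e').2, (a.2.1 _ _ e).2]
  rw [← cap_other hc j0 (by simp [e']; omega), ← cap_other ha j0 (by simp [e]; omega), h]

theorem exists_last {L : ℕ} {a : St} (ha : Bd L a) (h : a ≠ o) :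
    ∃ j, j < L ∧ cl a j ∧ ¬ cl a (j + 1) := by
  classical
  have h0 : ∃ j, cl a j := by
    by_contra hn
    refine h (Subtype.ext (funext fun i => ?_))
    cases e : a.1 i with
    | none => rfl
    | some j =>
      have := a.2.1 _ _ e
      rcases lt_or_gt_of_ne this.1 with k | k
      · exact (hn ⟨i, j, k, e⟩).elim
      · exact (hn ⟨j, i, k, this.2⟩).elim
  obtain ⟨j0, hj0⟩ := h0
  have lt : ∀ j, cl a j → j < L := fun j ⟨i, _, e⟩ => (ha.lt e).1
  obtain ⟨j, hj, hm⟩ := exists_max_image ((range L).filter (cl a)) id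
    ⟨j0, by simp [hj0, lt j0 hj0]⟩
  simp only [mem_filter, mem_range] at hj
  refine ⟨j, hj.1, hj.2, fun e => ?_⟩
  have := hm (j + 1) (by simp [e, lt _ e])
  simp at this

end TriA

open TriA

theorem s_Tri : S_Tri := by
  intro L
  refine ⟨df L, fun a ha h => ?_⟩
  obtain ⟨j, hj, c1, c2⟩ := exists_last ha h
  by_cases hL : j + 2 ≤ L
  · have e1 : df L a = df L (ee j a) + 1 := by
      rcases ee_cases ha hL with k | k
      · exact k.2.2
      · exact (k.1 ⟨c1, c2⟩).elim
    refine ⟨ee j a, ha.ee hL, by omega, Or.inl ⟨j, hL, rfl, fun c hc e => ?_⟩⟩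
    rcases ee_cases hc hL with k | k
    · exact Or.inl (valley_unique e c1 c2 k.1 k.2.1)
    · have := k.2
      rw [e] at this
      exact Or.inr (by omega)
  · obtain rfl : L = j + 1 := by omega
    obtain ⟨x, -, hx⟩ := c1
    have e1 := cap_df ha hx
    refine ⟨cap j a, ha.cap_last.mono (by omega), by omega, Or.inr ⟨j, rfl, rfl, fun c hc e => ?_⟩⟩
    cases hx' : c.1 j with
    | none =>
      rw [(bd_pred hc hx').cap_eq le_rfl] at e
      rw [e]
      exact Or.inr (by omega)
    | some x' => exact Or.inl (cap_unique ha hc e hx hx')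

theorem s_Pre : S_Pre := by
  intro L c hc h
  cases hx : c.1 (L + 1) with
  | none =>
    rw [(bd_pred hc hx).cap_eq le_rfl] at h
    exact Or.inl h
  | some x =>
    refine Or.inr (cap_unique ((bd_o L).cup le_rfl) hc ?_ (cupF_right _ _) hx)
    rw [h, cap_succ_cup]

end Pool.Agent.P.MP_6c8efb_pr.Arm
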